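import Pool.Agent.Helper780_BE.Defs


set_option autoImplicit false

open MeasureTheory
open scoped Topology

namespace Pool.Agent.Helper780_BE.A1


open Pool.Agent.Helper780_BE

/-- bounded functions of bounded support are integrable -/
theorem int_prod (f : ℝ × E3 → ℝ) (hf : Measurable f) (C R : ℝ) (hC : ∀ q, |f q| ≤ C)
    (h0 : ∀ q : ℝ × E3, R < |q.1| ∨ R < ‖q.2‖ → f q = 0) : Integrable f (volume.prod volume) := by
  set S : Set (ℝ × E3) := Set.Icc (-R) R ×ˢ Metric.closedBall 0 R with hS
  have hfin : (volume.prod volume : Measure (ℝ × E3)) S ≠ ⊤ := by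
    rw [hS, Measure.prod_prod]
    exact ENNReal.mul_ne_top (by simp) (measure_closedBall_lt_top).ne
  have h1 : IntegrableOn f S (volume.prod volume) := by
    refine Measure.integrableOn_of_bounded hfin hf.aestronglyMeasurable (M := C) ?_
    exact Filter.Eventually.of_forall (fun q => hC q)
  refine (integrableOn_iff_integrable_of_support_subset ?_).1 h1
  intro q hq
  rw [Function.mem_support] at hq
  by_contra hn
  apply hq
  apply h0
  rw [hS, Set.mem_prod, Set.mem_Icc, mem_closedBall_zero_iff, not_and_or] at hn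
  rcases hn with hn | hn
  · left
    by_contra h
    rw [not_lt, abs_le] at h
    exact hn h
  · right
    exact not_le.1 hn

theorem int_one (f : E3 → ℝ) (hf : Measurable f) (C R : ℝ) (hC : ∀ q, |f q| ≤ C)
    (h0 : ∀ q : E3, R < ‖q‖ → f q = 0) : Integrable f := by
  have hfin : (volume : Measure E3) (Metric.closedBall 0 R) ≠ ⊤ := (measure_closedBall_lt_top).ne
  have h1 : IntegrableOn f (Metric.closedBall 0 R) volume := by
    refine Measure.integrableOn_of_bounded hfin hf.aestronglyMeasurable (M := C) ?_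
    exact Filter.Eventually.of_forall (fun q => hC q)
  refine (integrableOn_iff_integrable_of_support_subset ?_).1 h1
  intro q hq
  rw [Function.mem_support] at hq
  by_contra hn
  rw [mem_closedBall_zero_iff, not_le] at hn
  exact hq (h0 q hn)

/-- radial bounded functions -/
structure Rad (g : E3 → ℝ) : Prop where
  meas : Measurable g
  bd : ∀ x, |g x| ≤ 1
  supp : ∀ x, 1 ≤ ‖x‖ → g x = 0
  rad : ∀ x y, ‖x‖ = ‖y‖ → g x = g y

/-- autocorrelation -/
noncomputable def Phi (g : E3 → ℝ) (u : E3) : ℝ := ∫ w : E3, g w * g (w + u)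

theorem Phi_rad {g : E3 → ℝ} (hg : Rad g) {u v : E3} (h : ‖u‖ = ‖v‖) : Phi g u = Phi g v := by
  set T : E3 ≃ₗᵢ[ℝ] E3 := (Submodule.span ℝ {u - v})ᗮ.reflection with hT
  have hTu : T u = v := Submodule.reflection_sub h
  have h1 := (T.measurePreserving).integral_comp T.toHomeomorph.measurableEmbedding
    (fun w => g w * g (w + v))
  unfold Phi
  rw [← h1]
  congr 1
  funext w
  have e1 : g (T w) = g w := hg.rad _ _ (T.norm_map w)
  have e2 : g (T w + v) = g (w + u) := by
    rw [← hTu, ← map_add]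
    exact hg.rad _ _ (T.norm_map _)
  simp only [e1, e2]

theorem inner_int (g : E3 → ℝ) (x y : E3) {r : ℝ} (hr : 0 < r) :
    ∫ z : E3, g (r⁻¹ • (x - z)) * g (r⁻¹ • (y - z)) = r ^ 3 * Phi g (r⁻¹ • (y - x)) := by
  have h1 := integral_sub_left_eq_self
    (fun z : E3 => g (r⁻¹ • z) * g (r⁻¹ • z + r⁻¹ • (y - x))) volume x
  have h2 : (fun z : E3 => g (r⁻¹ • (x - z)) * g (r⁻¹ • (y - z))) =
      fun z : E3 => g (r⁻¹ • (x - z)) * g (r⁻¹ • (x - z) + r⁻¹ • (y - x)) := by
    funext z
    congr 2
    rw [← smul_add]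
    congr 1
    abel
  rw [h2, h1]
  have h3 := Measure.integral_comp_smul (volume : Measure E3)
    (fun w : E3 => g w * g (w + r⁻¹ • (y - x))) r⁻¹
  rw [h3]
  unfold Phi
  rw [finrank_euclideanSpace_fin, smul_eq_mul, inv_pow, inv_inv, abs_of_pos (by positivity)]

theorem rep_lem {g : E3 → ℝ} (hg : Rad g) {e : E3} (he : ‖e‖ = 1) {x y : E3} (hxy : x ≠ y) :
    ∫ r in Set.Ioi (0 : ℝ), (r ^ 5)⁻¹ * ∫ z : E3, g (r⁻¹ • (x - z)) * g (r⁻¹ • (y - z)) =
      ‖x - y‖⁻¹ * ∫ t in Set.Ioi (0 : ℝ), Phi g (t • e) := by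
  have hd : 0 < ‖y - x‖ := norm_pos_iff.2 (sub_ne_zero.2 hxy.symm)
  have h1 : ∫ r in Set.Ioi (0 : ℝ), (r ^ 5)⁻¹ * ∫ z : E3, g (r⁻¹ • (x - z)) * g (r⁻¹ • (y - z)) =
      ∫ r in Set.Ioi (0 : ℝ), (|(-1 : ℝ)| * r ^ ((-1 : ℝ) - 1)) • Phi g (r ^ (-1 : ℝ) • (y - x)) := by
    refine setIntegral_congr_fun measurableSet_Ioi (fun r hr => ?_)
    have hr0 : (0 : ℝ) < r := hr
    change (r ^ 5)⁻¹ * ∫ z : E3, g (r⁻¹ • (x - z)) * g (r⁻¹ • (y - z)) =
      (|(-1 : ℝ)| * r ^ ((-1 : ℝ) - 1)) • Phi g (r ^ (-1 : ℝ) • (y - x))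
    rw [inner_int g x y hr0, Real.rpow_neg_one, show ((-1 : ℝ) - 1) = -((2 : ℕ) : ℝ) by norm_num,
      Real.rpow_neg hr0.le, Real.rpow_natCast, abs_neg, abs_one, one_mul, smul_eq_mul]
    field_simp
  rw [h1, integral_comp_rpow_Ioi (fun t => Phi g (t • (y - x))) (by norm_num : (-1 : ℝ) ≠ 0)]
  have h2 : ∀ t : ℝ, Phi g (t • (y - x)) = Phi g ((‖y - x‖ * t) • e) := by
    intro t
    apply Phi_rad hg
    rw [norm_smul, norm_smul, he, mul_one, norm_mul, norm_norm, mul_comm]
  simp only [h2]
  rw [integral_comp_mul_left_Ioi (fun s => Phi g (s • e)) 0 hd, mul_zero, smul_eq_mul,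
    norm_sub_rev]

/-- integrals over the lines parallel to `e` -/
noncomputable def AA (g : E3 → ℝ) (e w : E3) : ℝ := ∫ t : ℝ, g (w + t • e)

theorem AA_shift (g : E3 → ℝ) (e w : E3) (s : ℝ) : AA g e (w + s • e) = AA g e w := by
  unfold AA
  have h1 := integral_add_left_eq_self (fun t : ℝ => g (w + t • e)) (μ := volume) s
  rw [← h1]
  congr 1
  funext t
  congr 1
  rw [add_smul, add_assoc]

theorem meas_line {g : E3 → ℝ} (hg : Rad g) (e : E3) :
    Measurable (fun q : E3 × ℝ => g (q.1 + q.2 • e)) :=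
  hg.meas.comp (by fun_prop)

theorem AA_meas {g : E3 → ℝ} (hg : Rad g) (e : E3) : Measurable (AA g e) := by
  have h := (meas_line hg e).stronglyMeasurable.integral_prod_right' (ν := (volume : Measure ℝ))
  exact h.measurable

theorem inner_le {e w : E3} (he : ‖e‖ = 1) (t : ℝ) (h : ‖w + t • e‖ < 1) :
    |inner ℝ e w + t| < 1 := by
  have h1 : inner ℝ e (w + t • e) = inner ℝ e w + t := by
    rw [inner_add_right, inner_smul_right, real_inner_self_eq_norm_sq, he]
    ring
  rw [← h1]
  refine lt_of_le_of_lt (abs_real_inner_le_norm _ _) ?_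
  rw [he, one_mul]
  exact h

theorem line_zero {g : E3 → ℝ} (hg : Rad g) {e w : E3} (he : ‖e‖ = 1) {t : ℝ}
    (h : 1 ≤ |inner ℝ e w + t|) : g (w + t • e) = 0 := by
  apply hg.supp
  by_contra hn
  exact absurd (inner_le he t (not_le.1 hn)) (not_lt.2 h)

theorem AA_bd {g : E3 → ℝ} (hg : Rad g) {e : E3} (he : ‖e‖ = 1) (w : E3) : |AA g e w| ≤ 2 := by
  set a : ℝ := inner ℝ e w with ha
  have h1 : AA g e w = ∫ t in Set.Icc (-a - 1) (-a + 1), g (w + t • e) := by
    unfold AA
    symm
    apply setIntegral_eq_integral_of_forall_compl_eq_zero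
    intro t ht
    apply line_zero hg he
    rw [← ha]
    by_contra hn
    rw [not_le, abs_lt] at hn
    exact ht ⟨by linarith, by linarith⟩
  rw [h1]
  have h2 := norm_setIntegral_le_of_norm_le_const (μ := (volume : Measure ℝ))
    (s := Set.Icc (-a - 1) (-a + 1)) (f := fun t : ℝ => g (w + t • e)) (C := 1)
    (by simp) (fun t _ => hg.bd _)
  rw [Real.norm_eq_abs] at h2
  refine h2.trans (le_of_eq ?_)
  rw [Real.volume_real_Icc]
  rw [max_eq_left (by linarith)]
  ring

open Classical in
/-- a slab -/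
noncomputable def ch (e w : E3) : ℝ := if 0 ≤ inner ℝ e w ∧ inner ℝ e w < (1 : ℝ) then 1 else 0

theorem ch_meas (e : E3) : Measurable (ch e) := by
  unfold ch
  refine Measurable.ite ?_ measurable_const measurable_const
  have h1 : Measurable (fun w : E3 => (inner ℝ e w : ℝ)) := by fun_prop
  exact (measurableSet_le measurable_const h1).inter (measurableSet_lt h1 measurable_const)

theorem ch_bd (e w : E3) : |ch e w| ≤ 1 := by
  unfold ch
  split_ifs <;> simp

theorem ch_int {e : E3} (he : ‖e‖ = 1) (w : E3) : ∫ t : ℝ, ch e (w - t • e) = 1 := by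
  have h1 : (fun t : ℝ => ch e (w - t • e)) =
      (Set.Ioc ((inner ℝ e w : ℝ) - 1) (inner ℝ e w)).indicator (fun _ => (1 : ℝ)) := by
    funext t
    unfold ch
    rw [inner_sub_right, inner_smul_right, real_inner_self_eq_norm_sq, he, Set.indicator_apply]
    have : ((0 : ℝ) ≤ inner ℝ e w - t * 1 ^ 2 ∧ inner ℝ e w - t * 1 ^ 2 < (1 : ℝ)) ↔
        t ∈ Set.Ioc ((inner ℝ e w : ℝ) - 1) (inner ℝ e w) := by
      rw [Set.mem_Ioc]
      constructor
      · rintro ⟨h2, h3⟩
        constructor <;> linarith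
      · rintro ⟨h2, h3⟩
        constructor <;> linarith
    simp only [this]
  rw [h1, integral_indicator measurableSet_Ioc, setIntegral_const, smul_eq_mul, mul_one,
    Real.volume_real_Ioc]
  rw [max_eq_left (by linarith)]
  ring

theorem norm_line {e w : E3} (he : ‖e‖ = 1) (t : ℝ) : ‖w‖ ≤ ‖w + t • e‖ + |t| := by
  have h1 : w = (w + t • e) - t • e := by abel
  calc ‖w‖ = ‖(w + t • e) - t • e‖ := by rw [← h1]
    _ ≤ ‖w + t • e‖ + ‖t • e‖ := norm_sub_le _ _
    _ = ‖w + t • e‖ + |t| := by rw [norm_smul, he, mul_one, Real.norm_eq_abs]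

theorem step1 {g : E3 → ℝ} (hg : Rad g) {e : E3} (he : ‖e‖ = 1) :
    ∫ t : ℝ, Phi g (t • e) = ∫ w : E3, g w * AA g e w := by
  unfold Phi AA
  have hint : Integrable (Function.uncurry fun (t : ℝ) (w : E3) => g w * g (w + t • e))
      (volume.prod volume) := by
    refine int_prod _ ?_ 1 2 ?_ ?_
    · exact (hg.meas.comp measurable_snd).mul ((meas_line hg e).comp (by fun_prop :
        Measurable (fun q : ℝ × E3 => (q.2, q.1))))
    · rintro ⟨t, w⟩
      simp only [Function.uncurry_apply_pair, abs_mul]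
      exact mul_le_one₀ (hg.bd _) (abs_nonneg _) (hg.bd _)
    · rintro ⟨t, w⟩ h
      simp only [Function.uncurry_apply_pair]
      simp only at h
      by_cases hw : 1 ≤ ‖w‖
      · rw [hg.supp w hw, zero_mul]
      · rcases h with h | h
        · rw [hg.supp (w + t • e), mul_zero]
          have h1 : |t| ≤ ‖w + t • e‖ + ‖w‖ := by
            have h2 : t • e = (w + t • e) - w := by abel
            calc |t| = ‖t • e‖ := by rw [norm_smul, he, mul_one, Real.norm_eq_abs]
              _ = ‖(w + t • e) - w‖ := by rw [← h2]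
              _ ≤ _ := norm_sub_le _ _
          push Not at hw
          linarith
        · exfalso
          push Not at hw
          linarith
  rw [integral_integral_swap hint]
  congr 1
  funext w
  rw [integral_const_mul]

theorem step2 {g : E3 → ℝ} (hg : Rad g) {e : E3} (he : ‖e‖ = 1) :
    ∫ w : E3, ch e w * AA g e w ^ 2 = ∫ w : E3, g w * AA g e w := by
  have hint1 : Integrable (Function.uncurry fun (t : ℝ) (w : E3) =>
      ch e w * AA g e w * g (w + t • e)) (volume.prod volume) := by
    refine int_prod _ ?_ 2 3 ?_ ?_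
    · exact (((ch_meas e).mul (AA_meas hg e)).comp measurable_snd).mul
        ((meas_line hg e).comp (by fun_prop : Measurable (fun q : ℝ × E3 => (q.2, q.1))))
    · rintro ⟨t, w⟩
      simp only [Function.uncurry_apply_pair, abs_mul]
      have h1 := ch_bd e w
      have h2 := AA_bd hg he w
      have h3 := hg.bd (w + t • e)
      calc |ch e w| * |AA g e w| * |g (w + t • e)| ≤ 1 * 2 * 1 := by gcongr
        _ = 2 := by norm_num
    · rintro ⟨t, w⟩ h
      simp only [Function.uncurry_apply_pair]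
      simp only at h
      by_cases hc : 0 ≤ inner ℝ e w ∧ inner ℝ e w < (1 : ℝ)
      · by_cases hw : 1 ≤ ‖w + t • e‖
        · rw [hg.supp _ hw, mul_zero]
        · exfalso
          push Not at hw
          have h1 := inner_le he t hw
          rw [abs_lt] at h1
          have h2 : |t| ≤ 2 := by
            rw [abs_le]
            constructor <;> linarith [hc.1, hc.2]
          have h3 := norm_line (w := w) he t
          rcases h with h | h <;> linarith
      · unfold ch
        rw [if_neg hc, zero_mul, zero_mul]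
  have hint2 : Integrable (Function.uncurry fun (t : ℝ) (w : E3) =>
      ch e (w - t • e) * AA g e w * g w) (volume.prod volume) := by
    refine int_prod _ ?_ 2 3 ?_ ?_
    · exact (((ch_meas e).comp (by fun_prop : Measurable (fun q : ℝ × E3 => q.2 - q.1 • e))).mul
        ((AA_meas hg e).comp measurable_snd)).mul (hg.meas.comp measurable_snd)
    · rintro ⟨t, w⟩
      simp only [Function.uncurry_apply_pair, abs_mul]
      have h1 := ch_bd e (w - t • e)
      have h2 := AA_bd hg he w
      have h3 := hg.bd w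
      calc |ch e (w - t • e)| * |AA g e w| * |g w| ≤ 1 * 2 * 1 := by gcongr
        _ = 2 := by norm_num
    · rintro ⟨t, w⟩ h
      simp only [Function.uncurry_apply_pair]
      simp only at h
      by_cases hw : 1 ≤ ‖w‖
      · rw [hg.supp _ hw, mul_zero]
      · push Not at hw
        by_cases hc : 0 ≤ inner ℝ e (w - t • e) ∧ inner ℝ e (w - t • e) < (1 : ℝ)
        · exfalso
          have h1 : |(inner ℝ e w : ℝ)| < 1 := by
            refine lt_of_le_of_lt (abs_real_inner_le_norm _ _) ?_
            rw [he, one_mul]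
            exact hw
          rw [inner_sub_right, inner_smul_right, real_inner_self_eq_norm_sq, he] at hc
          rw [abs_lt] at h1
          have h2 : |t| ≤ 2 := by
            rw [abs_le]
            constructor <;> linarith [hc.1, hc.2]
          rcases h with h | h <;> linarith
        · unfold ch
          rw [if_neg hc, zero_mul, zero_mul]
  calc ∫ w : E3, ch e w * AA g e w ^ 2
      = ∫ w : E3, ∫ t : ℝ, ch e w * AA g e w * g (w + t • e) := by
        congr 1
        funext w
        rw [integral_const_mul]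
        change ch e w * AA g e w ^ 2 = ch e w * AA g e w * AA g e w
        ring
    _ = ∫ t : ℝ, ∫ w : E3, ch e w * AA g e w * g (w + t • e) :=
        (integral_integral_swap hint1).symm
    _ = ∫ t : ℝ, ∫ w : E3, ch e (w - t • e) * AA g e w * g w := by
        congr 1
        funext t
        have h1 := integral_sub_right_eq_self (μ := (volume : Measure E3))
          (fun w : E3 => ch e w * AA g e w * g (w + t • e)) (t • e)
        rw [← h1]
        congr 1
        funext w
        have h2 : AA g e (w - t • e) = AA g e w := by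
          have h3 := AA_shift g e (w - t • e) t
          rw [sub_add_cancel] at h3
          exact h3.symm
        rw [h2, sub_add_cancel]
    _ = ∫ w : E3, ∫ t : ℝ, ch e (w - t • e) * AA g e w * g w := integral_integral_swap hint2
    _ = ∫ w : E3, g w * AA g e w := by
        congr 1
        funext w
        have h1 : (fun t : ℝ => ch e (w - t • e) * AA g e w * g w) =
            fun t : ℝ => ch e (w - t • e) * (AA g e w * g w) := by
          funext t
          ring
        rw [h1, integral_mul_const, ch_int he]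
        ring

theorem chA_int {g : E3 → ℝ} (hg : Rad g) {e : E3} (he : ‖e‖ = 1) :
    Integrable (fun w : E3 => ch e w * AA g e w ^ 2) := by
  refine int_one _ ((ch_meas e).mul ((AA_meas hg e).pow_const 2)) 4 3 ?_ ?_
  · intro w
    rw [abs_mul, abs_pow]
    have h1 := ch_bd e w
    have h2 := AA_bd hg he w
    calc |ch e w| * |AA g e w| ^ 2 ≤ 1 * 2 ^ 2 := by gcongr
      _ = 4 := by norm_num
  · intro w hw
    by_cases hc : 0 ≤ inner ℝ e w ∧ inner ℝ e w < (1 : ℝ)
    · have h1 : AA g e w = 0 := by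
        unfold AA
        have h2 : (fun t : ℝ => g (w + t • e)) = fun _ => 0 := by
          funext t
          apply hg.supp
          by_contra hn
          rw [not_le] at hn
          have h1 := inner_le he t hn
          rw [abs_lt] at h1
          have h2 : |t| ≤ 2 := by
            rw [abs_le]
            constructor <;> linarith [hc.1, hc.2]
          have h3 := norm_line (w := w) he t
          linarith
        rw [h2]
        simp
      rw [h1]
      ring
    · unfold ch
      rw [if_neg hc, zero_mul]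

theorem I_pos {g : E3 → ℝ} (hg : Rad g) {e : E3} (he : ‖e‖ = 1) (U : Set E3) (hU : IsOpen U)
    (hUn : U.Nonempty) (h : ∀ w ∈ U, ch e w ≠ 0 ∧ AA g e w ≠ 0) :
    0 < ∫ t in Set.Ioi (0 : ℝ), Phi g (t • e) := by
  have h1 := integral_comp_abs (f := fun t : ℝ => Phi g (t • e))
  have h2 : (fun t : ℝ => Phi g (|t| • e)) = fun t : ℝ => Phi g (t • e) := by
    funext t
    apply Phi_rad hg
    rw [norm_smul, norm_smul, Real.norm_eq_abs, Real.norm_eq_abs, abs_abs]
  rw [h2, step1 hg he, ← step2 hg he] at h1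
  have h3 : 0 < ∫ w : E3, ch e w * AA g e w ^ 2 := by
    rw [integral_pos_iff_support_of_nonneg _ (chA_int hg he)]
    · refine lt_of_lt_of_le (hU.measure_pos volume hUn) (measure_mono ?_)
      intro w hw
      rw [Function.mem_support]
      exact mul_ne_zero (h w hw).1 (pow_ne_zero _ (h w hw).2)
    · intro w
      have : 0 ≤ ch e w := by
        unfold ch
        split_ifs <;> norm_num
      change 0 ≤ ch e w * AA g e w ^ 2
      positivity
  linarith

/-! ### The function -/

/-- the radii -/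
noncomputable def tl (L : ℕ) (l : Fin L) : ℝ := ((l : ℕ) + 1 : ℝ) / L

open Classical in
/-- a combination of indicator functions of balls -/
noncomputable def gf (L : ℕ) (a : Fin L → ℝ) (x : E3) : ℝ :=
  ∑ l, a l * (if ‖x‖ < tl L l then 1 else 0)

theorem tl_le (L : ℕ) (l : Fin L) : tl L l ≤ 1 := by
  unfold tl
  have h0 : 0 < L := Nat.pos_of_ne_zero (fun h => by
    have := l.2
    omega)
  have h1 : (0 : ℝ) < L := by exact_mod_cast h0
  rw [div_le_one h1]
  have := l.2
  exact_mod_cast this

theorem tl_pos (L : ℕ) (l : Fin L) : 0 < tl L l := by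
  unfold tl
  have h0 : 0 < L := Nat.pos_of_ne_zero (fun h => by
    have := l.2
    omega)
  have h1 : (0 : ℝ) < L := by exact_mod_cast h0
  positivity

theorem gf_rad (L : ℕ) (a : Fin L → ℝ) (ha : ∑ l, |a l| ≤ 1) : Rad (gf L a) := by
  refine ⟨?_, ?_, ?_, ?_⟩
  · unfold gf
    refine Finset.measurable_sum _ (fun l _ => ?_)
    refine Measurable.const_mul ?_ _
    exact Measurable.ite (measurableSet_lt measurable_norm measurable_const) measurable_const
      measurable_const
  · intro x
    refine le_trans ?_ ha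
    unfold gf
    refine (Finset.abs_sum_le_sum_abs _ _).trans (Finset.sum_le_sum (fun l _ => ?_))
    split_ifs <;> simp
  · intro x hx
    unfold gf
    refine Finset.sum_eq_zero (fun l _ => ?_)
    rw [if_neg (by have := tl_le L l; linarith), mul_zero]
  · intro x y h
    unfold gf
    rw [h]

theorem gf_moment (L : ℕ) (a : Fin L → ℝ) (v v' : E3) (k k' : ℕ)
    (h : ∑ l, a l * tl L l ^ (3 + (k + k')) = 0) :
    ∫ x, gf L a x * ((inner ℝ v x : ℝ) ^ k * (inner ℝ v' x) ^ k') = 0 := by
  classical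
  set H : E3 → ℝ := fun x => (inner ℝ v x : ℝ) ^ k * (inner ℝ v' x) ^ k' with hH
  have hHc : Continuous H := by
    rw [hH]
    fun_prop
  have hscale : ∀ (t : ℝ) (x : E3), H (t • x) = t ^ (k + k') * H x := by
    intro t x
    simp only [hH]
    rw [inner_smul_right, inner_smul_right, mul_pow, mul_pow, pow_add]
    ring
  have hint : ∀ t : ℝ, 0 < t → ∫ x, (if ‖x‖ < t then H x else 0) =
      t ^ (3 + (k + k')) * ∫ x, (if ‖x‖ < 1 then H x else 0) := by
    intro t ht
    have h1 := Measure.integral_comp_smul (volume : Measure E3)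
      (fun x : E3 => if ‖x‖ < t then H x else 0) t
    rw [finrank_euclideanSpace_fin, smul_eq_mul, abs_of_pos (by positivity)] at h1
    have h2 : (fun x : E3 => if ‖t • x‖ < t then H (t • x) else 0) =
        fun x : E3 => t ^ (k + k') * (if ‖x‖ < 1 then H x else 0) := by
      funext x
      rw [norm_smul, Real.norm_of_nonneg ht.le]
      have h3 : t * ‖x‖ < t ↔ ‖x‖ < 1 := by
        constructor
        · intro h
          by_contra hn
          push Not at hn
          nlinarith
        · intro h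
          nlinarith
      simp only [h3]
      split_ifs
      · exact hscale t x
      · simp
    rw [h2, integral_const_mul] at h1
    have h4 : (t ^ 3)⁻¹ * (t ^ 3) = 1 := inv_mul_cancel₀ (by positivity)
    calc ∫ x, (if ‖x‖ < t then H x else 0) =
        t ^ 3 * ((t ^ 3)⁻¹ * ∫ x, (if ‖x‖ < t then H x else 0)) := by
          rw [← mul_assoc, mul_comm (t ^ 3), h4, one_mul]
      _ = t ^ 3 * (t ^ (k + k') * ∫ x, (if ‖x‖ < 1 then H x else 0)) := by rw [h1]
      _ = _ := by rw [pow_add]; ring
  have hii : ∀ t : ℝ, Integrable (fun x : E3 => if ‖x‖ < t then H x else 0) := by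
    intro t
    have h1 : IntegrableOn H (Metric.ball 0 t) :=
      (hHc.locallyIntegrable.integrableOn_isCompact (isCompact_closedBall (0 : E3) t)).mono_set
        Metric.ball_subset_closedBall
    have h2 := h1.integrable_indicator measurableSet_ball
    refine h2.congr (Filter.Eventually.of_forall (fun x => ?_))
    simp only [Set.indicator_apply, mem_ball_zero_iff]
  have h5 : (fun x => gf L a x * H x) =
      fun x => ∑ l, a l * (if ‖x‖ < tl L l then H x else 0) := by
    funext x
    unfold gf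
    rw [Finset.sum_mul]
    refine Finset.sum_congr rfl (fun l _ => ?_)
    split_ifs <;> ring
  change ∫ x, gf L a x * H x = 0
  rw [h5, integral_finsetSum _ (fun l _ => (hii _).const_mul _)]
  have h6 : ∀ l, ∫ x, a l * (if ‖x‖ < tl L l then H x else 0) =
      (a l * tl L l ^ (3 + (k + k'))) * ∫ x, (if ‖x‖ < 1 then H x else 0) := by
    intro l
    rw [integral_const_mul, hint _ (tl_pos L l)]
    ring
  simp only [h6]
  rw [← Finset.sum_mul, h, zero_mul]

/-- existence of the coefficients -/
theorem exists_a (m : ℕ) : ∃ (L : ℕ) (a : Fin L → ℝ), 0 < L ∧ ∑ l, |a l| = 1 ∧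
    ∀ k, k < 2 * m + 1 → ∑ l, a l * tl L l ^ (3 + k) = 0 := by
  let f : (Fin (2 * m + 2) → ℝ) →ₗ[ℝ] (Fin (2 * m + 1) → ℝ) :=
    { toFun := fun a k => ∑ l, a l * tl (2 * m + 2) l ^ (3 + (k : ℕ))
      map_add' := by
        intro a b
        funext k
        simp only [Pi.add_apply, add_mul, Finset.sum_add_distrib]
      map_smul' := by
        intro c a
        funext k
        simp only [Pi.smul_apply, smul_eq_mul, RingHom.id_apply, Finset.mul_sum, mul_assoc] }
  have h1 : LinearMap.ker f ≠ ⊥ := LinearMap.ker_ne_bot_of_finrank_lt (by simp)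
  obtain ⟨a, ha, ha0⟩ := (Submodule.ne_bot_iff _).1 h1
  have hS : 0 < ∑ l, |a l| := by
    refine lt_of_le_of_ne (Finset.sum_nonneg (fun _ _ => abs_nonneg _)) (fun h => ha0 ?_)
    funext l
    have h2 := (Finset.sum_eq_zero_iff_of_nonneg (fun l _ => abs_nonneg (a l))).1 h.symm l
      (Finset.mem_univ l)
    exact abs_eq_zero.1 h2
  refine ⟨2 * m + 2, fun l => a l / ∑ l, |a l|, by omega, ?_, ?_⟩
  · simp only [abs_div, abs_of_pos hS]
    rw [← Finset.sum_div, div_self hS.ne']
  · intro k hk
    have h3 : f a ⟨k, hk⟩ = 0 := by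
      rw [LinearMap.mem_ker.1 ha]
      rfl
    have h4 : ∑ l, a l * tl (2 * m + 2) l ^ (3 + k) = 0 := h3
    have h5 : ∀ l, a l / (∑ l, |a l|) * tl (2 * m + 2) l ^ (3 + k) =
        (a l * tl (2 * m + 2) l ^ (3 + k)) * (∑ l, |a l|)⁻¹ := fun l => by
      rw [div_eq_mul_inv]
      ring
    simp only [h5]
    rw [← Finset.sum_mul, h4, zero_mul]

theorem norm_sq_line {e w : E3} (he : ‖e‖ = 1) (t : ℝ) :
    ‖w + t • e‖ ^ 2 = (‖w‖ ^ 2 - (inner ℝ e w : ℝ) ^ 2) + ((inner ℝ e w : ℝ) + t) ^ 2 := by
  rw [← real_inner_self_eq_norm_sq, ← real_inner_self_eq_norm_sq, inner_add_left, inner_add_right,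
    inner_add_right, inner_smul_right, inner_smul_left, inner_smul_left, inner_smul_right,
    real_inner_self_eq_norm_sq e, he, real_inner_comm e w]
  simp only [conj_trivial]
  ring

/-- lines at a distance between two radii -/
theorem AA_ne (L : ℕ) (a : Fin L → ℝ) (i : Fin L) (hi : a i ≠ 0) (hmax : ∀ l, i < l → a l = 0)
    {e w : E3} (he : ‖e‖ = 1)
    (h1 : ((i : ℕ) / L : ℝ) ^ 2 < ‖w‖ ^ 2 - (inner ℝ e w : ℝ) ^ 2)
    (h2 : ‖w‖ ^ 2 - (inner ℝ e w : ℝ) ^ 2 < tl L i ^ 2) : AA (gf L a) e w ≠ 0 := by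
  classical
  have hL : (0 : ℝ) < L := by
    have h0 : 0 < L := Nat.pos_of_ne_zero (fun h => by
      have := i.2
      omega)
    exact_mod_cast h0
  set S : Set ℝ := {t | ‖w + t • e‖ < tl L i} with hS
  have h3 : (fun t : ℝ => gf L a (w + t • e)) = fun t => S.indicator (fun _ => a i) t := by
    funext t
    have h4 : ((i : ℕ) / L : ℝ) < ‖w + t • e‖ := by
      apply lt_of_pow_lt_pow_left₀ 2 (norm_nonneg _)
      rw [norm_sq_line he]
      have := sq_nonneg ((inner ℝ e w : ℝ) + t)
      linarith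
    unfold gf
    rw [Finset.sum_eq_single i]
    · rw [Set.indicator_apply]
      simp only [hS, Set.mem_ofPred_eq]
      split_ifs <;> simp
    · intro l _ hl
      rcases lt_or_gt_of_ne hl with h | h
      · rw [if_neg, mul_zero]
        rw [not_lt]
        refine le_trans ?_ h4.le
        unfold tl
        have h5 : (l : ℕ) + 1 ≤ (i : ℕ) := h
        have h6 : ((l : ℕ) : ℝ) + 1 ≤ (i : ℕ) := by exact_mod_cast h5
        gcongr
      · rw [hmax l h, zero_mul]
    · intro h
      exact absurd (Finset.mem_univ _) h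
  have hSo : IsOpen S := isOpen_lt (by fun_prop) continuous_const
  unfold AA
  rw [h3, integral_indicator hSo.measurableSet, setIntegral_const, smul_eq_mul]
  refine mul_ne_zero ?_ hi
  rw [measureReal_def, ENNReal.toReal_ne_zero]
  constructor
  · refine (hSo.measure_pos volume ⟨-(inner ℝ e w : ℝ), ?_⟩).ne'
    simp only [hS, Set.mem_ofPred_eq]
    apply lt_of_pow_lt_pow_left₀ 2 (tl_pos L i).le
    rw [norm_sq_line he]
    simp only [add_neg_cancel]
    linarith
  · refine ne_top_of_le_ne_top ?_ (measure_mono (t := Set.Icc (-(inner ℝ e w : ℝ) - 1)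
      (-(inner ℝ e w : ℝ) + 1)) ?_)
    · simp
    · intro t ht
      simp only [hS, Set.mem_ofPred_eq] at ht
      have h5 := inner_le he t (lt_of_lt_of_le ht (tl_le L i))
      rw [abs_lt] at h5
      exact ⟨by linarith, by linarith⟩

/-- TARGET -/
theorem exists_g (m : ℕ) : ∃ (c : ℝ) (g : E3 → ℝ), 0 < c ∧ Measurable g ∧ (∀ x, |g x| ≤ 1) ∧
    (∀ x, 1 ≤ ‖x‖ → g x = 0) ∧
    (∀ x y : E3, x ≠ y → 1 / ‖x - y‖ =
      c * ∫ r in Set.Ioi (0 : ℝ), (r ^ 5)⁻¹ * ∫ z : E3, g (r⁻¹ • (x - z)) * g (r⁻¹ • (y - z))) ∧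
    (∀ (v v' : E3) (k k' : ℕ), k < m → k' < m →
      ∫ x, g x * ((inner ℝ v x) ^ k * (inner ℝ v' x) ^ k') = 0) := by
  obtain ⟨L, a, hL0, ha1, ha2⟩ := exists_a m
  have hg : Rad (gf L a) := gf_rad _ a ha1.le
  -- the largest index
  have hne : ∃ i, a i ≠ 0 := by
    by_contra hn
    push Not at hn
    simp [hn] at ha1
  obtain ⟨i, hi, hmax⟩ : ∃ i, a i ≠ 0 ∧ ∀ l, i < l → a l = 0 := by
    classical
    have h1 : (Finset.univ.filter (fun l => a l ≠ 0)).Nonempty := by
      obtain ⟨i, hi⟩ := hne
      exact ⟨i, by simp [hi]⟩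
    refine ⟨(Finset.univ.filter (fun l => a l ≠ 0)).max' h1, ?_, ?_⟩
    · have h2 := Finset.max'_mem _ h1
      exact (Finset.mem_filter.1 h2).2
    · intro l hl
      by_contra hn
      have h2 := Finset.le_max' (Finset.univ.filter (fun l => a l ≠ 0)) l (by simp [hn])
      exact absurd hl (not_lt.2 h2)
  have hLr : (0 : ℝ) < L := by exact_mod_cast hL0
  set e : E3 := EuclideanSpace.single 0 1 with he_def
  have he : ‖e‖ = 1 := by simp [he_def]
  set s : ℝ := ((i : ℕ) + 1 / 2) / L with hs
  set w0 : E3 := (1 / 2 : ℝ) • e + s • EuclideanSpace.single 1 1 with hw0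
  set U : Set E3 := {w | (0 < (inner ℝ e w : ℝ) ∧ (inner ℝ e w : ℝ) < 1) ∧
    ((i : ℕ) / L : ℝ) ^ 2 < ‖w‖ ^ 2 - (inner ℝ e w : ℝ) ^ 2 ∧
    ‖w‖ ^ 2 - (inner ℝ e w : ℝ) ^ 2 < tl L i ^ 2} with hU
  have hUo : IsOpen U := by
    have c1 : Continuous (fun w : E3 => (inner ℝ e w : ℝ)) := by fun_prop
    have c2 : Continuous (fun w : E3 => ‖w‖ ^ 2 - (inner ℝ e w : ℝ) ^ 2) := by fun_prop
    exact ((isOpen_lt continuous_const c1).inter (isOpen_lt c1 continuous_const)).inter
      ((isOpen_lt continuous_const c2).inter (isOpen_lt c2 continuous_const))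
  have hUn : U.Nonempty := by
    refine ⟨w0, ?_⟩
    have e1 : (inner ℝ e w0 : ℝ) = 1 / 2 := by
      simp [hw0, he_def, inner_add_right, inner_smul_right, EuclideanSpace.inner_single_left]
    have e2 : ‖w0‖ ^ 2 = 1 / 4 + s ^ 2 := by
      rw [EuclideanSpace.norm_sq_eq, Fin.sum_univ_three]
      simp [hw0, he_def]
      norm_num
    have hi0 : (0 : ℝ) ≤ (i : ℕ) := Nat.cast_nonneg _
    refine ⟨⟨by rw [e1]; norm_num, by rw [e1]; norm_num⟩, ?_, ?_⟩
    · rw [e1, e2]
      have : ((i : ℕ) / L : ℝ) < s := by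
        rw [hs]
        gcongr
        linarith
      have h2 : ((i : ℕ) / L : ℝ) ^ 2 < s ^ 2 := by
        apply pow_lt_pow_left₀ this (by positivity) (by norm_num)
      linarith
    · rw [e1, e2]
      have : s < tl L i := by
        rw [hs]
        unfold tl
        gcongr
        norm_num
      have h2 : s ^ 2 < tl L i ^ 2 := by
        apply pow_lt_pow_left₀ this (by positivity) (by norm_num)
      linarith
  have hI : 0 < ∫ t in Set.Ioi (0 : ℝ), Phi (gf L a) (t • e) := by
    refine I_pos hg he U hUo hUn (fun w hw => ⟨?_, ?_⟩)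
    · unfold ch
      rw [if_pos ⟨hw.1.1.le, hw.1.2⟩]
      exact one_ne_zero
    · exact AA_ne L a i hi hmax he hw.2.1 hw.2.2
  refine ⟨(∫ t in Set.Ioi (0 : ℝ), Phi (gf L a) (t • e))⁻¹, gf L a, inv_pos.2 hI, hg.meas, hg.bd,
    hg.supp, ?_, ?_⟩
  · intro x y hxy
    rw [rep_lem hg he hxy]
    field_simp
  · intro v v' k k' hk hk'
    exact gf_moment L a v v' k k' (ha2 (k + k') (by omega))

end Pool.Agent.Helper780_BE.A1
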