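import Pool.Agent.Helper780_BE.Defs

set_option autoImplicit false

open MeasureTheory
open scoped Topology

namespace Pool.Agent.Helper780_BE.A8


open Pool.Agent.Helper780_BE
open scoped FourierTransform SchwartzMap ContDiff

theorem ball_int : ∃ K : ℝ, 0 < K ∧ ∀ R : ℝ, 0 < R →
    IntegrableOn (fun x : E3 => (2 * Real.pi * ‖x‖)⁻¹) (Metric.ball 0 R) ∧
    ∫ x in Metric.ball (0:E3) R, (2 * Real.pi * ‖x‖)⁻¹ ≤ K * R ^ 2 := by
  have hI : ∀ R : ℝ, 0 < R →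
      IntegrableOn (fun x : E3 => (2 * Real.pi * ‖x‖)⁻¹) (Metric.ball 0 R) := by
    intro R hR
    have h := (integrableOn_fun_norm_addHaar (volume : Measure E3)
      (f := fun y : ℝ => (2 * Real.pi * y)⁻¹) (r := R)).2
    apply h
    have h3 : Module.finrank ℝ E3 = 3 := by simp
    rw [h3]
    have h2 : IntegrableOn (fun y : ℝ => (2 * Real.pi)⁻¹ * y) (Set.Ioo 0 R) := by
      have h4 : Continuous (fun y : ℝ => (2 * Real.pi)⁻¹ * y) := by fun_prop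
      exact (h4.integrableOn_Icc (a := 0) (b := R)).mono_set Set.Ioo_subset_Icc_self
    apply h2.congr_fun _ measurableSet_Ioo
    intro y hy
    have hy0 : y ≠ 0 := hy.1.ne'
    have hpi := Real.pi_pos.ne'
    simp only [smul_eq_mul]
    norm_num
    field_simp
  refine ⟨(∫ x in Metric.ball (0:E3) 1, (2 * Real.pi * ‖x‖)⁻¹) + 1, ?_, ?_⟩
  · have : 0 ≤ ∫ x in Metric.ball (0:E3) 1, (2 * Real.pi * ‖x‖)⁻¹ := by
      apply integral_nonneg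
      intro x
      positivity
    linarith
  · intro R hR
    refine ⟨hI R hR, ?_⟩
    have h := Measure.setIntegral_comp_smul_of_pos (volume : Measure E3)
      (fun x : E3 => (2 * Real.pi * ‖x‖)⁻¹) (Metric.ball (0:E3) 1) hR
    have h3 : Module.finrank ℝ E3 = 3 := by simp
    rw [h3, smul_unitBall_of_pos hR] at h
    have h5 : ∫ x in Metric.ball (0:E3) 1, (2 * Real.pi * ‖R • x‖)⁻¹ =
        R⁻¹ * ∫ x in Metric.ball (0:E3) 1, (2 * Real.pi * ‖x‖)⁻¹ := by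
      rw [← integral_const_mul]
      congr 1
      ext x
      rw [norm_smul, Real.norm_of_nonneg hR.le]
      rw [mul_inv, mul_inv, mul_inv, mul_inv]
      ring
    rw [h5, smul_eq_mul] at h
    have h6 : ∫ x in Metric.ball (0:E3) R, (2 * Real.pi * ‖x‖)⁻¹ =
        R ^ 2 * ∫ x in Metric.ball (0:E3) 1, (2 * Real.pi * ‖x‖)⁻¹ := by
      have hR0 := hR.ne'
      revert h
      generalize (∫ x in Metric.ball (0:E3) R, (2 * Real.pi * ‖x‖)⁻¹) = a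
      generalize (∫ x in Metric.ball (0:E3) 1, (2 * Real.pi * ‖x‖)⁻¹) = b
      intro h
      field_simp at h
      linarith
    rw [h6]
    nlinarith [sq_nonneg R]

theorem disc {a G I : ℝ} (ha : 0 < a) (hI : 0 ≤ I) (h : ∀ t : ℝ, 0 < t → I ≤ t / 2 * a + G / (2 * t)) :
    I ^ 2 ≤ a * G := by
  rcases hI.eq_or_lt with h0 | h0
  · -- I = 0, need G ≥ 0
    subst h0
    have hG : 0 ≤ G := by
      by_contra hG
      rw [not_le] at hG
      -- choose t with t^2 a + G < 0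
      obtain ⟨t, ht, h2⟩ : ∃ t : ℝ, 0 < t ∧ t ^ 2 * a + G < 0 := by
        refine ⟨Real.sqrt (-G / (2 * a)), Real.sqrt_pos.2 (div_pos (by linarith) (by linarith)), ?_⟩
        rw [Real.sq_sqrt (div_pos (by linarith) (by linarith)).le]
        field_simp
        linarith
      have h3 := h t ht
      have h4 : t / 2 * a + G / (2 * t) = (t ^ 2 * a + G) / (2 * t) := by
        field_simp
      rw [h4] at h3
      have : (t ^ 2 * a + G) / (2 * t) < 0 := div_neg_of_neg_of_pos h2 (by linarith)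
      linarith
    have := mul_nonneg ha.le hG
    simpa using this
  · have h1 := h (I / a) (div_pos h0 ha)
    have h2 : I / a / 2 * a + G / (2 * (I / a)) = I / 2 + G * a / (2 * I) := by
      field_simp
    rw [h2] at h1
    have h3 : I / 2 ≤ G * a / (2 * I) := by linarith
    rw [le_div_iff₀ (by linarith)] at h3
    nlinarith

theorem ft1_eq (f : 𝓢(E3, ℂ)) (ξ : E3) : ft1 f ξ = 𝓕 f ξ := by
  rw [SchwartzMap.fourier_coe, Real.fourier_eq']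
  unfold ft1
  congr 1
  ext y
  simp only [smul_eq_mul]
  congr 2
  push_cast
  ring


theorem low (g : 𝓢(E3, ℂ)) (F : 𝓢(E3, ℂ)) (K R : ℝ) (hK : 0 < K) (hR : 0 < R)
    (hKI : IntegrableOn (fun x : E3 => (2 * Real.pi * ‖x‖)⁻¹) (Metric.ball 0 R))
    (hKR : ∫ x in Metric.ball (0:E3) R, (2 * Real.pi * ‖x‖)⁻¹ ≤ K * R ^ 2)
    (h1 : ∀ ξ, ‖g ξ‖ ≤ ‖F ξ‖) (h2 : ∀ ξ, R ≤ ‖ξ‖ → g ξ = 0)
    (hF : Integrable (fun ξ : E3 => (2 * Real.pi * ‖ξ‖) * ‖F ξ‖ ^ 2)) (x : E3) :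
    ‖𝓕⁻ g x‖ ^ 2 ≤ K * R ^ 2 * ∫ ξ : E3, (2 * Real.pi * ‖ξ‖) * ‖F ξ‖ ^ 2 := by
  set G := ∫ ξ : E3, (2 * Real.pi * ‖ξ‖) * ‖F ξ‖ ^ 2 with hG
  have hb : ‖𝓕⁻ g x‖ ≤ ∫ ξ, ‖g ξ‖ := by
    rw [SchwartzMap.fourierInv_coe, Real.fourierInv_eq']
    refine (norm_integral_le_integral_norm _).trans (le_of_eq ?_)
    congr 1
    ext v
    rw [norm_smul, Complex.norm_exp]
    simp
  apply disc (by positivity) (norm_nonneg _)
  intro t ht
  have hgz : ∫ ξ, ‖g ξ‖ = ∫ ξ in Metric.ball (0:E3) R, ‖g ξ‖ := by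
    rw [setIntegral_eq_integral_of_forall_compl_eq_zero]
    intro ξ hξ
    rw [Metric.mem_ball, dist_zero_right, not_lt] at hξ
    rw [h2 ξ hξ, norm_zero]
  calc ‖𝓕⁻ g x‖ ≤ ∫ ξ in Metric.ball (0:E3) R, ‖g ξ‖ := by rw [← hgz]; exact hb
    _ ≤ ∫ ξ in Metric.ball (0:E3) R, (t / 2 * (2 * Real.pi * ‖ξ‖)⁻¹ +
          (2 * t)⁻¹ * ((2 * Real.pi * ‖ξ‖) * ‖F ξ‖ ^ 2)) := by
        apply integral_mono_ae
        · exact g.integrable.norm.integrableOn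
        · exact (hKI.const_mul _).add (hF.integrableOn.const_mul _)
        · have : ∀ᵐ ξ : E3 ∂(volume.restrict (Metric.ball (0:E3) R)), ξ ≠ 0 := by
            apply ae_restrict_of_ae
            have := (measure_singleton (μ := (volume : Measure E3)) 0)
            rw [ae_iff]
            simp
          filter_upwards [this] with ξ hξ
          have hn : 0 < ‖ξ‖ := norm_pos_iff.2 hξ
          have hw : 0 < 2 * Real.pi * ‖ξ‖ := by positivity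
          refine (h1 ξ).trans ?_
          generalize 2 * Real.pi * ‖ξ‖ = w at hw
          generalize ‖F ξ‖ = b
          have : t / 2 * w⁻¹ + (2 * t)⁻¹ * (w * b ^ 2) - b = (t - w * b) ^ 2 / (2 * t * w) := by
            field_simp
            ring
          have h5 : 0 ≤ (t - w * b) ^ 2 / (2 * t * w) := by positivity
          linarith
    _ = t / 2 * (∫ ξ in Metric.ball (0:E3) R, (2 * Real.pi * ‖ξ‖)⁻¹) +
          (2 * t)⁻¹ * ∫ ξ in Metric.ball (0:E3) R, ((2 * Real.pi * ‖ξ‖) * ‖F ξ‖ ^ 2) := by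
        rw [integral_add (hKI.const_mul _) (hF.integrableOn.const_mul _), integral_const_mul,
          integral_const_mul]
    _ ≤ t / 2 * (K * R ^ 2) + (2 * t)⁻¹ * G := by
        have h6 : ∫ ξ in Metric.ball (0:E3) R, ((2 * Real.pi * ‖ξ‖) * ‖F ξ‖ ^ 2) ≤ G := by
          apply setIntegral_le_integral hF
          filter_upwards with ξ
          positivity
        have h7 : 0 < (2 * t)⁻¹ := by positivity
        gcongr
    _ = t / 2 * (K * R ^ 2) + G / (2 * t) := by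
        rw [div_eq_inv_mul G]

theorem high (g : 𝓢(E3, ℂ)) (F : 𝓢(E3, ℂ)) (A : ℝ) (hA : 0 < A)
    (h1 : ∀ ξ, ‖g ξ‖ ≤ ‖F ξ‖) (h2 : ∀ ξ, ‖ξ‖ < A → g ξ = 0)
    (hF : Integrable (fun ξ : E3 => (2 * Real.pi * ‖ξ‖) * ‖F ξ‖ ^ 2)) :
    ∫ x, ‖𝓕⁻ g x‖ ^ 2 ≤ (2 * Real.pi * A)⁻¹ * ∫ ξ : E3, (2 * Real.pi * ‖ξ‖) * ‖F ξ‖ ^ 2 := by
  have h3 : ∫ x, ‖𝓕⁻ g x‖ ^ 2 = ∫ ξ, ‖g ξ‖ ^ 2 := by
    rw [← SchwartzMap.integral_norm_sq_fourier (𝓕⁻ g)]
    simp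
  rw [h3, ← integral_const_mul]
  apply integral_mono_of_nonneg
  · filter_upwards with ξ
    positivity
  · exact hF.const_mul _
  · filter_upwards with ξ
    by_cases hξ : ‖ξ‖ < A
    · rw [h2 ξ hξ]
      simp
      positivity
    · rw [not_lt] at hξ
      have hpi := Real.pi_pos
      have h4 : 1 ≤ (2 * Real.pi * A)⁻¹ * (2 * Real.pi * ‖ξ‖) := by
        rw [← div_eq_inv_mul, le_div_iff₀ (by positivity)]
        rw [one_mul]
        gcongr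
      calc ‖g ξ‖ ^ 2 ≤ ‖F ξ‖ ^ 2 := by gcongr; exact h1 ξ
        _ = 1 * ‖F ξ‖ ^ 2 := by ring
        _ ≤ ((2 * Real.pi * A)⁻¹ * (2 * Real.pi * ‖ξ‖)) * ‖F ξ‖ ^ 2 := by gcongr
        _ = _ := by ring

theorem intF (F : 𝓢(E3, ℂ)) : Integrable (fun ξ : E3 => (2 * Real.pi * ‖ξ‖) * ‖F ξ‖ ^ 2) := by
  have h1 : Integrable (fun ξ : E3 => ‖ξ‖ ^ 1 * ‖F ξ‖) := F.integrable_pow_mul volume 1
  have hb : ∃ C : ℝ, ∀ ξ, ‖F ξ‖ ≤ C := ⟨_, fun ξ => SchwartzMap.norm_le_seminorm ℝ F ξ⟩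
  obtain ⟨C, hC⟩ := hb
  have h2 : Integrable (fun ξ : E3 => (2 * Real.pi * C) * (‖ξ‖ ^ 1 * ‖F ξ‖)) := h1.const_mul _
  refine h2.mono' ?_ ?_
  · have := F.continuous
    exact Continuous.aestronglyMeasurable (by fun_prop)
  · filter_upwards with ξ
    rw [Real.norm_of_nonneg (by positivity)]
    have hpi := Real.pi_pos
    have h3 := hC ξ
    calc 2 * Real.pi * ‖ξ‖ * ‖F ξ‖ ^ 2 = (2 * Real.pi * ‖ξ‖ * ‖F ξ‖) * ‖F ξ‖ := by ring
      _ ≤ (2 * Real.pi * ‖ξ‖ * ‖F ξ‖) * C := by gcongr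
      _ = _ := by ring

/-- the decomposition -/
theorem main1 (f : 𝓢(E3, ℂ)) (A K : ℝ) (hA : 0 < A) (hK : 0 < K)
    (hKI : IntegrableOn (fun x : E3 => (2 * Real.pi * ‖x‖)⁻¹) (Metric.ball 0 (2 * A)))
    (hKR : ∫ x in Metric.ball (0:E3) (2 * A), (2 * Real.pi * ‖x‖)⁻¹ ≤ K * (2 * A) ^ 2) :
    ∃ u1 u2 : 𝓢(E3, ℂ), f = u1 + u2 ∧
      (∀ x, ‖u1 x‖ ^ 2 ≤ K * (2 * A) ^ 2 * ∫ ξ : E3, (2 * Real.pi * ‖ξ‖) * ‖𝓕 f ξ‖ ^ 2) ∧
      ∫ x, ‖u2 x‖ ^ 2 ≤ (2 * Real.pi * A)⁻¹ * ∫ ξ : E3, (2 * Real.pi * ‖ξ‖) * ‖𝓕 f ξ‖ ^ 2 := by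
  let χ : ContDiffBump (0 : E3) := ⟨A, 2 * A, hA, by linarith⟩
  have hc : HasCompactSupport (fun ξ : E3 => ((χ ξ : ℝ) : ℂ) * 𝓕 f ξ) := by
    apply HasCompactSupport.mul_right
    exact χ.hasCompactSupport.comp_left (g := fun r : ℝ => (r : ℂ)) (by simp)
  have hs : ContDiff ℝ ∞ (fun ξ : E3 => ((χ ξ : ℝ) : ℂ) * 𝓕 f ξ) := by
    apply ContDiff.mul
    · exact Complex.ofRealCLM.contDiff.comp χ.contDiff
    · exact (𝓕 f).smooth ⊤
  let g1 : 𝓢(E3, ℂ) := hc.toSchwartzMap hs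
  have hg1 : ∀ ξ, g1 ξ = ((χ ξ : ℝ) : ℂ) * 𝓕 f ξ := fun ξ => rfl
  let g2 : 𝓢(E3, ℂ) := 𝓕 f - g1
  have hg2 : ∀ ξ, g2 ξ = ((1 - χ ξ : ℝ) : ℂ) * 𝓕 f ξ := by
    intro ξ
    have : g2 ξ = 𝓕 f ξ - g1 ξ := rfl
    rw [this, hg1]
    push_cast
    ring
  refine ⟨𝓕⁻ g1, 𝓕⁻ g2, ?_, ?_, ?_⟩
  · rw [← FourierTransform.fourierInv_add]
    have : g1 + g2 = 𝓕 f := by simp [g2]
    rw [this]
    simp
  · intro x
    apply low g1 (𝓕 f) K (2 * A) hK (by positivity) hKI hKR _ _ (intF _) x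
    · intro ξ
      rw [hg1, norm_mul]
      have h0 := χ.nonneg (x := ξ)
      have h1 := χ.le_one (x := ξ)
      rw [Complex.norm_real, Real.norm_of_nonneg h0]
      calc χ ξ * ‖𝓕 f ξ‖ ≤ 1 * ‖𝓕 f ξ‖ := by gcongr
        _ = _ := one_mul _
    · intro ξ hξ
      rw [hg1, χ.zero_of_le_dist (by simpa using hξ)]
      simp
  · apply high g2 (𝓕 f) A hA _ _ (intF _)
    · intro ξ
      rw [hg2, norm_mul]
      have h0 := χ.nonneg (x := ξ)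
      have h1 := χ.le_one (x := ξ)
      rw [Complex.norm_real, Real.norm_of_nonneg (by linarith)]
      calc (1 - χ ξ) * ‖𝓕 f ξ‖ ≤ 1 * ‖𝓕 f ξ‖ := by gcongr; linarith
        _ = _ := one_mul _
    · intro ξ hξ
      rw [hg2, χ.one_of_mem_closedBall (by simpa using hξ.le)]
      simp

/-- TARGET -/
theorem faber1 : ∃ C : ℝ, 0 < C ∧ ∀ (Y : E3 → ℝ) (M : ℝ), Measurable Y →
      (∀ x, 0 ≤ Y x ∧ Y x ≤ 1) → Integrable Y → ∫ x, Y x ≤ M → ∀ u : E3 → ℂ,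
      ContDiff ℝ ((⊤ : ℕ∞) : WithTop ℕ∞) u → HasCompactSupport u →
      ∫ x, Y x * ‖u x‖ ^ 2 ≤
        C * M ^ (1 / 3 : ℝ) * ∫ ξ : E3, (2 * Real.pi * ‖ξ‖) ^ (1 : ℝ) * ‖ft1 u ξ‖ ^ 2 := by
  obtain ⟨K, hK, hKR⟩ := ball_int
  refine ⟨8 * K + 2 * (2 * Real.pi)⁻¹, by positivity, ?_⟩
  intro Y M hYm hY hYi hYM u hu hc
  let f : 𝓢(E3, ℂ) := hc.toSchwartzMap hu
  have hf : ∀ x, f x = u x := fun x => rfl
  have hfu : (f : E3 → ℂ) = u := rfl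
  have hG : ∫ ξ : E3, (2 * Real.pi * ‖ξ‖) ^ (1 : ℝ) * ‖ft1 u ξ‖ ^ 2 =
      ∫ ξ : E3, (2 * Real.pi * ‖ξ‖) * ‖𝓕 f ξ‖ ^ 2 := by
    congr 1
    ext ξ
    rw [Real.rpow_one, ← hfu, ft1_eq]
  rw [hG]
  set G := ∫ ξ : E3, (2 * Real.pi * ‖ξ‖) * ‖𝓕 f ξ‖ ^ 2 with hGd
  have hG0 : 0 ≤ G := by
    apply integral_nonneg
    intro ξ
    positivity
  have hY0 : 0 ≤ ∫ x, Y x := integral_nonneg (fun x => (hY x).1)
  rcases (hY0.trans hYM).eq_or_lt with hM | hM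
  · -- M = 0
    have h1 : ∫ x, Y x = 0 := le_antisymm (by rw [← hM] at hYM; exact hYM) hY0
    rw [integral_eq_zero_iff_of_nonneg (fun x => (hY x).1) hYi] at h1
    have h2 : ∫ x, Y x * ‖u x‖ ^ 2 = 0 := by
      rw [← integral_zero E3 ℝ (μ := volume)]
      apply integral_congr_ae
      filter_upwards [h1] with x hx
      rw [hx]
      simp
    rw [h2, ← hM]
    rw [Real.zero_rpow (by norm_num)]
    simp
  · set A : ℝ := M ^ (-(1 / 3) : ℝ) with hAd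
    have hA : 0 < A := Real.rpow_pos_of_pos hM _
    obtain ⟨u1, u2, h12, hu1, hu2⟩ := main1 f A K hA hK (hKR (2 * A) (by positivity)).1
      (hKR (2 * A) (by positivity)).2
    rw [← hGd] at hu1 hu2
    have hi2 : Integrable (fun x => ‖u2 x‖ ^ 2) := by
      have h := (u2.memLp 2 volume).integrable_norm_pow (by norm_num)
      simpa using h
    have hptw : ∀ x, Y x * ‖u x‖ ^ 2 ≤ (2 * (K * (2 * A) ^ 2 * G)) * Y x + 2 * ‖u2 x‖ ^ 2 := by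
      intro x
      have h3 : u x = u1 x + u2 x := by
        rw [← hf, h12]
        rfl
      have h4 : ‖u x‖ ≤ ‖u1 x‖ + ‖u2 x‖ := by rw [h3]; exact norm_add_le _ _
      have h5 : ‖u x‖ ^ 2 ≤ 2 * ‖u1 x‖ ^ 2 + 2 * ‖u2 x‖ ^ 2 := by
        calc ‖u x‖ ^ 2 ≤ (‖u1 x‖ + ‖u2 x‖) ^ 2 := by gcongr
          _ ≤ _ := by nlinarith [sq_nonneg (‖u1 x‖ - ‖u2 x‖)]
      have h6 := hu1 x
      obtain ⟨h7, h8⟩ := hY x
      have h9 : Y x * ‖u2 x‖ ^ 2 ≤ 1 * ‖u2 x‖ ^ 2 := by gcongr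
      calc Y x * ‖u x‖ ^ 2 ≤ Y x * (2 * ‖u1 x‖ ^ 2 + 2 * ‖u2 x‖ ^ 2) := by gcongr
        _ = 2 * (Y x * ‖u1 x‖ ^ 2) + 2 * (Y x * ‖u2 x‖ ^ 2) := by ring
        _ ≤ 2 * (Y x * (K * (2 * A) ^ 2 * G)) + 2 * (1 * ‖u2 x‖ ^ 2) := by gcongr
        _ = _ := by ring
    have hA1 : M * A ^ 2 = M ^ (1 / 3 : ℝ) := by
      rw [hAd, ← Real.rpow_natCast, ← Real.rpow_mul hM.le]
      nth_rewrite 1 [← Real.rpow_one M]
      rw [← Real.rpow_add hM]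
      norm_num
    have hA2 : A⁻¹ = M ^ (1 / 3 : ℝ) := by
      rw [hAd, Real.rpow_neg hM.le, inv_inv]
    calc ∫ x, Y x * ‖u x‖ ^ 2 ≤ ∫ x, ((2 * (K * (2 * A) ^ 2 * G)) * Y x + 2 * ‖u2 x‖ ^ 2) := by
          apply integral_mono_of_nonneg
          · filter_upwards with x
            exact mul_nonneg (hY x).1 (by positivity)
          · exact (hYi.const_mul _).add (hi2.const_mul _)
          · filter_upwards with x
            exact hptw x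
      _ = (2 * (K * (2 * A) ^ 2 * G)) * (∫ x, Y x) + 2 * ∫ x, ‖u2 x‖ ^ 2 := by
          rw [integral_add (hYi.const_mul _) (hi2.const_mul _), integral_const_mul,
            integral_const_mul]
      _ ≤ (2 * (K * (2 * A) ^ 2 * G)) * M + 2 * ((2 * Real.pi * A)⁻¹ * G) := by
          gcongr
      _ = (8 * K * (M * A ^ 2) + 2 * (2 * Real.pi)⁻¹ * A⁻¹) * G := by
          rw [mul_inv]
          ring
      _ = _ := by
          rw [hA1, hA2]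
          ring

end Pool.Agent.Helper780_BE.A8
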