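import Pool.Agent.Helper780_BE.Defs


set_option autoImplicit false

open MeasureTheory
open scoped Topology

namespace Pool.Agent.Helper780_BE.A9


open Pool.Agent.Helper780_BE

section A9aux

open Set FourierTransform SchwartzMap

/-- the inner product space -/
abbrev V9 (N : ℕ) : Type := EuclideanSpace ℝ (Fin N × Fin 3)

noncomputable def Phi (N : ℕ) : V9 N ≃ₗ[ℝ] (Fin N → E3) where
  toFun v := fun i => WithLp.toLp 2 (fun k => v (i, k))
  invFun x := WithLp.toLp 2 (fun p => x p.1 p.2)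
  map_add' _ _ := rfl
  map_smul' _ _ := rfl
  left_inv _ := rfl
  right_inv _ := rfl

noncomputable def PhiL (N : ℕ) : V9 N ≃L[ℝ] (Fin N → E3) := (Phi N).toContinuousLinearEquiv

theorem Phi_apply {N : ℕ} (v : V9 N) (i : Fin N) (k : Fin 3) : PhiL N v i k = v (i, k) := rfl

theorem Phi_inner {N : ℕ} (v w : V9 N) :
    inner ℝ v w = ∑ i, inner ℝ (PhiL N v i) (PhiL N w i) := by
  simp only [PiLp.inner_apply, Fintype.sum_prod_type, Phi_apply]

theorem Phi_norm {N : ℕ} (v : V9 N) (i : Fin N) : ‖PhiL N v i‖ ≤ ‖v‖ := by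
  have h : ‖PhiL N v i‖ ^ 2 ≤ ‖v‖ ^ 2 := by
    rw [← real_inner_self_eq_norm_sq, ← real_inner_self_eq_norm_sq, Phi_inner v v]
    exact Finset.single_le_sum (f := fun i => inner ℝ (PhiL N v i) (PhiL N v i))
      (fun j _ => real_inner_self_nonneg) (Finset.mem_univ i)
  exact (pow_le_pow_iff_left₀ (norm_nonneg _) (norm_nonneg _) two_ne_zero).1 h

theorem a9_box (ι : Type) [Fintype ι] :
    volume {y : EuclideanSpace ℝ ι | ∀ k, y k ∈ Icc (0 : ℝ) 1} = 1 := by
  have h := (PiLp.volume_preserving_ofLp ι).measure_preimage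
    (s := pi univ fun _ => Icc (0 : ℝ) 1)
    (MeasurableSet.univ_pi fun _ => measurableSet_Icc).nullMeasurableSet
  rw [volume_pi_pi] at h
  simp only [Real.volume_Icc, sub_zero, ENNReal.ofReal_one, Finset.prod_const_one] at h
  rw [← h]
  congr 1
  ext y
  simp [Pi.le_def, forall_and]

theorem Phi_vol (N : ℕ) : MeasurePreserving (PhiL N) volume volume := by
  refine ⟨(PhiL N).continuous.measurable, ?_⟩
  have h1 : (Measure.map (PhiL N) (volume : Measure (V9 N))).IsAddHaarMeasure :=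
    (PhiL N).isAddHaarMeasure_map _
  have h := Measure.isAddLeftInvariant_eq_smul (Measure.map (PhiL N) (volume : Measure (V9 N)))
    (volume : Measure (Fin N → E3))
  set c := (Measure.map (PhiL N) (volume : Measure (V9 N))).addHaarScalarFactor
    (volume : Measure (Fin N → E3)) with hc
  have hm : MeasurableSet (pi univ fun _ : Fin N => {y : E3 | ∀ k, y k ∈ Icc (0 : ℝ) 1}) := by
    refine MeasurableSet.univ_pi fun _ => ?_
    have : {y : E3 | ∀ k, y k ∈ Icc (0 : ℝ) 1} = ⋂ k, {y : E3 | y k ∈ Icc (0 : ℝ) 1} := by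
      ext y; simp
    rw [this]
    exact MeasurableSet.iInter fun k =>
      measurableSet_Icc.preimage (by fun_prop : Continuous fun y : E3 => y k).measurable
  have h2 : (volume : Measure (Fin N → E3))
      (pi univ fun _ : Fin N => {y : E3 | ∀ k, y k ∈ Icc (0 : ℝ) 1}) = 1 := by
    rw [volume_pi_pi]
    simp only [a9_box, Finset.prod_const_one]
  have h3 : (Measure.map (PhiL N) (volume : Measure (V9 N)))
      (pi univ fun _ : Fin N => {y : E3 | ∀ k, y k ∈ Icc (0 : ℝ) 1}) = 1 := by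
    rw [Measure.map_apply (PhiL N).continuous.measurable hm, ← a9_box (Fin N × Fin 3)]
    congr 1
    ext v
    simp only [mem_preimage, mem_pi, mem_univ, true_implies, mem_ofPred_eq, Phi_apply, Prod.forall]
  rw [h, Measure.smul_apply, h2] at h3
  have hc1 : c = 1 := by
    have : (c : ENNReal) * 1 = 1 := h3
    rw [mul_one] at this
    exact_mod_cast this
  rw [h, hc1, one_smul]

/-- the Schwartz function -/
noncomputable def g9 {N : ℕ} (ψ : (Fin N → E3) → ℂ) (hψ : Test ψ) : 𝓢(V9 N, ℂ) :=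
  HasCompactSupport.toSchwartzMap (f := ψ ∘ PhiL N)
    (hψ.compact.comp_homeomorph (PhiL N).toHomeomorph)
    (hψ.smooth.comp (PhiL N).contDiff)

theorem ft_eq {N : ℕ} (ψ : (Fin N → E3) → ℂ) (hψ : Test ψ) (w : V9 N) :
    ft ψ (PhiL N w) = 𝓕 (g9 ψ hψ) w := by
  rw [SchwartzMap.fourier_coe, Real.fourier_eq']
  unfold ft
  rw [← (Phi_vol N).integral_comp (PhiL N).toHomeomorph.measurableEmbedding]
  refine integral_congr_ae (Filter.Eventually.of_forall fun v => ?_)
  simp only [smul_eq_mul]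
  congr 2
  rw [Phi_inner]
  congr 1
  push_cast
  ring

theorem a9_decay {N : ℕ} (ψ : (Fin N → E3) → ℂ) (hψ : Test ψ) (j : Fin N) (β : ℝ) (hβ : 0 ≤ β) :
    Integrable (fun ξ : Fin N → E3 => (2 * Real.pi * ‖ξ j‖) ^ β * ‖ft ψ ξ‖ ^ 2) := by
  rw [← (Phi_vol N).integrable_comp_emb (PhiL N).toHomeomorph.measurableEmbedding]
  have hF := SchwartzMap.one_add_le_sup_seminorm_apply (𝕜 := ℝ) (m := (⌈β⌉₊, 0)) (k := ⌈β⌉₊) (n := 0)
    le_rfl le_rfl (𝓕 (g9 ψ hψ))
  simp only [norm_iteratedFDeriv_zero] at hF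
  set C := 2 ^ ((⌈β⌉₊, 0) : ℕ × ℕ).1 *
    ((Finset.Iic ((⌈β⌉₊, 0) : ℕ × ℕ)).sup (fun m => SchwartzMap.seminorm ℝ m.1 m.2))
      (𝓕 (g9 ψ hψ)) with hC
  have hint : Integrable (fun w => (2 * Real.pi) ^ β * C * ‖𝓕 (g9 ψ hψ) w‖) (volume : Measure (V9 N)) :=
    ((𝓕 (g9 ψ hψ)).integrable.norm).const_mul _
  refine hint.mono' ?_ (Filter.Eventually.of_forall fun w => ?_)
  · have hc : Continuous fun w : V9 N => (2 * Real.pi * ‖PhiL N w j‖) ^ β * ‖𝓕 (g9 ψ hψ) w‖ ^ 2 := by
      refine Continuous.mul ?_ ?_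
      · refine Continuous.rpow_const ?_ fun _ => Or.inr hβ
        have := (PhiL N).continuous
        fun_prop
      · exact ((𝓕 (g9 ψ hψ)).continuous.norm).pow 2
    refine hc.aestronglyMeasurable.congr (Filter.Eventually.of_forall fun w => ?_)
    simp only [Function.comp, ft_eq ψ hψ]
  · simp only [Function.comp, ft_eq ψ hψ]
    have hp := Real.pi_pos
    rw [Real.norm_of_nonneg (by positivity)]
    have h1 : (2 * Real.pi * ‖PhiL N w j‖) ^ β ≤ (2 * Real.pi) ^ β * (1 + ‖w‖) ^ ⌈β⌉₊ := by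
      have h2 : (2 * Real.pi * ‖PhiL N w j‖) ^ β ≤ (2 * Real.pi * (1 + ‖w‖)) ^ β := by
        apply Real.rpow_le_rpow (by positivity) _ hβ
        have := Phi_norm w j
        gcongr
        linarith
      refine h2.trans ?_
      rw [Real.mul_rpow (by positivity) (by positivity)]
      apply mul_le_mul_of_nonneg_left _ (by positivity)
      rw [← Real.rpow_natCast]
      apply Real.rpow_le_rpow_of_exponent_le
      · have := norm_nonneg w
        linarith
      · exact Nat.le_ceil β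
    calc (2 * Real.pi * ‖PhiL N w j‖) ^ β * ‖𝓕 (g9 ψ hψ) w‖ ^ 2
        ≤ ((2 * Real.pi) ^ β * (1 + ‖w‖) ^ ⌈β⌉₊) * ‖𝓕 (g9 ψ hψ) w‖ ^ 2 :=
          mul_le_mul_of_nonneg_right h1 (by positivity)
      _ = (2 * Real.pi) ^ β * ((1 + ‖w‖) ^ ⌈β⌉₊ * ‖𝓕 (g9 ψ hψ) w‖) * ‖𝓕 (g9 ψ hψ) w‖ := by ring
      _ ≤ (2 * Real.pi) ^ β * C * ‖𝓕 (g9 ψ hψ) w‖ := by
          have := hF w
          gcongr

theorem a9_planch {N : ℕ} (ψ : (Fin N → E3) → ℂ) (hψ : Test ψ) :
    Integrable (fun ξ : Fin N → E3 => ‖ft ψ ξ‖ ^ 2) ∧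
    ∫ ξ : Fin N → E3, ‖ft ψ ξ‖ ^ 2 = ∫ x : Fin N → E3, ‖ψ x‖ ^ 2 := by
  constructor
  · rw [← (Phi_vol N).integrable_comp_emb (PhiL N).toHomeomorph.measurableEmbedding]
    have h := ((𝓕 (g9 ψ hψ)).memLp 2 volume).integrable_norm_pow two_ne_zero
    refine h.congr (Filter.Eventually.of_forall fun w => ?_)
    simp only [Function.comp, ft_eq ψ hψ]
  · rw [← (Phi_vol N).integral_comp (PhiL N).toHomeomorph.measurableEmbedding,
      ← (Phi_vol N).integral_comp (PhiL N).toHomeomorph.measurableEmbedding]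
    have h := SchwartzMap.integral_norm_sq_fourier (g9 ψ hψ)
    simp only [ft_eq ψ hψ]
    exact h

variable {n : ℕ}

theorem a9_ins (j : Fin (n + 1)) : ContDiff ℝ ((⊤ : ℕ∞) : WithTop ℕ∞)
    (fun p : E3 × (Fin n → E3) => (j.insertNth (α := fun _ => E3) p.1 p.2 : Fin (n + 1) → E3)) := by
  rw [contDiff_pi]
  intro i
  rcases Fin.eq_self_or_eq_succAbove j i with h | ⟨k, rfl⟩
  · subst h
    simp only [Fin.insertNth_apply_same]
    exact contDiff_fst
  · simp only [Fin.insertNth_apply_succAbove]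
    exact (contDiff_apply ℝ E3 k).comp contDiff_snd

/-- the slice -/
noncomputable def sl9 (ψ : (Fin (n + 1) → E3) → ℂ) (j : Fin (n + 1)) (ζ : E3) (x' : Fin n → E3) : ℂ :=
  ft1 (fun y => ψ (j.insertNth (α := fun _ => E3) y x')) ζ

theorem a9_test (ψ : (Fin (n + 1) → E3) → ℂ) (hψ : Test ψ) (j : Fin (n + 1)) (ζ : E3) :
    Test (sl9 ψ j ζ) := by
  have hK : IsCompact (tsupport ψ) := hψ.compact
  have hout : ∀ x, x ∉ tsupport ψ → ψ x = 0 := fun x hx => image_eq_zero_of_notMem_tsupport hx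
  constructor
  · have hk : IsCompact ((fun x : Fin (n + 1) → E3 => -(x j)) '' tsupport ψ) :=
      hK.image (by fun_prop)
    have h := contDiffOn_convolution_right_with_param_comp (n := (⊤ : ℕ∞)) (μ := (volume : Measure E3))
      (ContinuousLinearMap.mul ℝ ℂ) (s := (univ : Set (Fin n → E3))) (v := fun _ => (0 : E3))
      contDiffOn_const
      (f := fun y : E3 => Complex.exp (((-(2 * Real.pi * inner ℝ y ζ) : ℝ) : ℂ) * Complex.I))
      (g := fun (x' : Fin n → E3) (y : E3) => ψ (j.insertNth (α := fun _ => E3) (-y) x'))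
      isOpen_univ hk ?_ ?_ ?_
    · rw [contDiffOn_univ] at h
      convert h using 1
      funext x'
      simp only [sl9, ft1, MeasureTheory.convolution, ContinuousLinearMap.mul_apply', zero_sub, neg_neg]
    · intro x' y _ hy
      apply hout
      intro hmem
      apply hy
      refine ⟨_, hmem, ?_⟩
      simp
    · refine Continuous.locallyIntegrable ?_
      fun_prop
    · refine ContDiff.contDiffOn ?_
      have h1 : ContDiff ℝ ((⊤ : ℕ∞) : WithTop ℕ∞) (fun p : (Fin n → E3) × E3 => (-p.2, p.1)) :=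
        contDiff_snd.neg.prodMk contDiff_fst
      exact (hψ.smooth.comp (a9_ins j)).comp h1
  · have hk : IsCompact ((fun x : Fin (n + 1) → E3 => fun k : Fin n => x (j.succAbove k)) ''
        tsupport ψ) := hK.image (by fun_prop)
    refine HasCompactSupport.of_support_subset_isCompact hk fun x' hx' => ?_
    by_contra hcon
    apply hx'
    unfold sl9 ft1
    have : ∀ y : E3, ψ (j.insertNth (α := fun _ => E3) y x') = 0 := by
      intro y
      apply hout
      intro hmem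
      apply hcon
      refine ⟨_, hmem, ?_⟩
      funext k
      simp
    simp only [this, mul_zero, integral_zero]

theorem a9_mp (j : Fin (n + 1)) : MeasurePreserving
    (fun p : E3 × (Fin n → E3) => (j.insertNth (α := fun _ => E3) p.1 p.2 : Fin (n + 1) → E3))
    volume volume :=
  (volume_preserving_piFinSuccAbove (fun _ : Fin (n + 1) => E3) j).symm

theorem a9_me (j : Fin (n + 1)) : MeasurableEmbedding
    (fun p : E3 × (Fin n → E3) => (j.insertNth (α := fun _ => E3) p.1 p.2 : Fin (n + 1) → E3)) :=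
  (MeasurableEquiv.piFinSuccAbove (fun _ : Fin (n + 1) => E3) j).symm.measurableEmbedding

theorem a9_fub (ψ : (Fin (n + 1) → E3) → ℂ) (hψ : Test ψ) (j : Fin (n + 1)) (ζ : E3)
    (ξ' : Fin n → E3) : ft ψ (j.insertNth (α := fun _ => E3) ζ ξ') = ft (sl9 ψ j ζ) ξ' := by
  unfold ft
  rw [← (a9_mp j).integral_comp (a9_me j)]
  have e : ∀ p : E3 × (Fin n → E3),
      Complex.exp (((-(2 * Real.pi * ∑ i, inner ℝ
        ((j.insertNth (α := fun _ => E3) p.1 p.2 : Fin (n + 1) → E3) i)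
        ((j.insertNth (α := fun _ => E3) ζ ξ' : Fin (n + 1) → E3) i)) : ℝ) : ℂ) * Complex.I) *
        ψ (j.insertNth (α := fun _ => E3) p.1 p.2) =
      Complex.exp (((-(2 * Real.pi * ∑ i, inner ℝ (p.2 i) (ξ' i)) : ℝ) : ℂ) * Complex.I) *
        (Complex.exp (((-(2 * Real.pi * inner ℝ p.1 ζ) : ℝ) : ℂ) * Complex.I) *
          ψ (j.insertNth (α := fun _ => E3) p.1 p.2)) := by
    intro p
    rw [← mul_assoc, ← Complex.exp_add, Fin.sum_univ_succAbove _ j]
    simp only [Fin.insertNth_apply_same, Fin.insertNth_apply_succAbove]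
    congr 2
    push_cast
    ring
  simp only [e]
  have hc : Continuous fun p : E3 × (Fin n → E3) =>
      Complex.exp (((-(2 * Real.pi * ∑ i, inner ℝ (p.2 i) (ξ' i)) : ℝ) : ℂ) * Complex.I) *
        (Complex.exp (((-(2 * Real.pi * inner ℝ p.1 ζ) : ℝ) : ℂ) * Complex.I) *
          ψ (j.insertNth (α := fun _ => E3) p.1 p.2)) := by
    have h1 : Continuous fun p : E3 × (Fin n → E3) => ψ (j.insertNth (α := fun _ => E3) p.1 p.2) :=
      hψ.smooth.continuous.comp (a9_ins j).continuous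
    exact Continuous.mul (by fun_prop) (Continuous.mul (by fun_prop) h1)
  have hs : HasCompactSupport fun p : E3 × (Fin n → E3) =>
      Complex.exp (((-(2 * Real.pi * ∑ i, inner ℝ (p.2 i) (ξ' i)) : ℝ) : ℂ) * Complex.I) *
        (Complex.exp (((-(2 * Real.pi * inner ℝ p.1 ζ) : ℝ) : ℂ) * Complex.I) *
          ψ (j.insertNth (α := fun _ => E3) p.1 p.2)) := by
    have hk : IsCompact ((fun x : Fin (n + 1) → E3 => (x j, fun k : Fin n => x (j.succAbove k))) ''
        tsupport ψ) := hψ.compact.isCompact.image (by fun_prop)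
    refine HasCompactSupport.of_support_subset_isCompact hk fun p hp => ?_
    by_contra hcon
    apply hp
    have : ψ (j.insertNth (α := fun _ => E3) p.1 p.2) = 0 := by
      apply image_eq_zero_of_notMem_tsupport
      intro hmem
      apply hcon
      refine ⟨_, hmem, ?_⟩
      ext1
      · simp
      · funext k
        simp
    simp only [this, mul_zero]
  have hi := hc.integrable_of_hasCompactSupport (μ := (volume : Measure (E3 × (Fin n → E3)))) hs
  rw [Measure.volume_eq_prod, integral_prod_symm _ (by rwa [Measure.volume_eq_prod] at hi)]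
  refine integral_congr_ae (Filter.Eventually.of_forall fun x' => ?_)
  simp only [sl9, ft1, integral_const_mul]

theorem a9_meas (ψ : (Fin (n + 1) → E3) → ℂ) (hψ : Test ψ) (j : Fin (n + 1)) (β : ℝ) :
    StronglyMeasurable (fun p : E3 × (Fin n → E3) =>
      (2 * Real.pi * ‖p.1‖) ^ β * ‖sl9 ψ j p.1 p.2‖ ^ 2) := by
  have h1 : StronglyMeasurable (fun p : E3 × (Fin n → E3) => sl9 ψ j p.1 p.2) := by
    have hc : Continuous (fun q : (E3 × (Fin n → E3)) × E3 =>
        Complex.exp (((-(2 * Real.pi * inner ℝ q.2 q.1.1) : ℝ) : ℂ) * Complex.I) *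
          ψ (j.insertNth (α := fun _ => E3) q.2 q.1.2)) := by
      have h1 : Continuous fun p : E3 × (Fin n → E3) => ψ (j.insertNth (α := fun _ => E3) p.1 p.2) :=
        hψ.smooth.continuous.comp (a9_ins j).continuous
      have h2 : Continuous fun q : (E3 × (Fin n → E3)) × E3 => (q.2, q.1.2) := by fun_prop
      have h3 := h1.comp h2
      simp only [Function.comp_def] at h3
      exact Continuous.mul (by fun_prop) h3
    exact hc.stronglyMeasurable.integral_prod_right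
  have h2 : Measurable (fun p : E3 × (Fin n → E3) => (2 * Real.pi * ‖p.1‖) ^ β) := by fun_prop
  exact h2.stronglyMeasurable.mul (h1.norm.pow 2)

end A9aux

/-- TARGET 1 -/
theorem slice {n : ℕ} (ψ : (Fin (n + 1) → E3) → ℂ) (hψ : Test ψ) (j : Fin (n + 1)) (β : ℝ)
    (hβ : 0 ≤ β) :
    Integrable (fun ξ : Fin (n + 1) → E3 => (2 * Real.pi * ‖ξ j‖) ^ β * ‖ft ψ ξ‖ ^ 2) ∧
    Integrable (fun x' : Fin n → E3 => ∫ ζ : E3, (2 * Real.pi * ‖ζ‖) ^ β *
      ‖ft1 (fun y => ψ (j.insertNth (α := fun _ => E3) y x')) ζ‖ ^ 2) ∧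
    ∫ ξ : Fin (n + 1) → E3, (2 * Real.pi * ‖ξ j‖) ^ β * ‖ft ψ ξ‖ ^ 2 =
      ∫ x' : Fin n → E3, ∫ ζ : E3, (2 * Real.pi * ‖ζ‖) ^ β *
        ‖ft1 (fun y => ψ (j.insertNth (α := fun _ => E3) y x')) ζ‖ ^ 2 := by
  have h1 := a9_decay ψ hψ j β hβ
  have h2 : Integrable (fun p : E3 × (Fin n → E3) =>
      (2 * Real.pi * ‖p.1‖) ^ β * ‖ft (sl9 ψ j p.1) p.2‖ ^ 2)
      ((volume : Measure E3).prod (volume : Measure (Fin n → E3))) := by
    have h3 := ((a9_mp j).integrable_comp_emb (a9_me j)).2 h1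
    rw [Measure.volume_eq_prod] at h3
    refine h3.congr (Filter.Eventually.of_forall fun p => ?_)
    simp only [Function.comp, Fin.insertNth_apply_same, a9_fub ψ hψ]
  have hpl : ∀ ζ : E3, ∫ ξ' : Fin n → E3, ‖ft (sl9 ψ j ζ) ξ'‖ ^ 2 = ∫ x', ‖sl9 ψ j ζ x'‖ ^ 2 :=
    fun ζ => (a9_planch _ (a9_test ψ hψ j ζ)).2
  have h4 : Integrable (fun p : E3 × (Fin n → E3) =>
      (2 * Real.pi * ‖p.1‖) ^ β * ‖sl9 ψ j p.1 p.2‖ ^ 2)
      ((volume : Measure E3).prod (volume : Measure (Fin n → E3))) := by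
    rw [integrable_prod_iff (a9_meas ψ hψ j β).aestronglyMeasurable]
    constructor
    · refine Filter.Eventually.of_forall fun ζ => ?_
      have ht := a9_test ψ hψ j ζ
      have h5 : Integrable (fun x' => ‖sl9 ψ j ζ x'‖ ^ 2) := by
        refine (ht.smooth.continuous.norm.pow 2).integrable_of_hasCompactSupport ?_
        exact ht.compact.norm.comp_left (g := fun t : ℝ => t ^ 2) (by simp)
      exact h5.const_mul ((2 * Real.pi * ‖ζ‖) ^ β)
    · have h5 := h2.integral_prod_left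
      refine h5.congr (Filter.Eventually.of_forall fun ζ => ?_)
      have hp := Real.pi_pos
      have e1 : ∀ x' : Fin n → E3, ‖(2 * Real.pi * ‖ζ‖) ^ β * ‖sl9 ψ j ζ x'‖ ^ 2‖ =
          (2 * Real.pi * ‖ζ‖) ^ β * ‖sl9 ψ j ζ x'‖ ^ 2 := fun x' =>
        Real.norm_of_nonneg (by positivity)
      simp only [e1, integral_const_mul, hpl]
  refine ⟨h1, h4.integral_prod_right, ?_⟩
  rw [← (a9_mp j).integral_comp (a9_me j)]
  simp only [Fin.insertNth_apply_same, a9_fub ψ hψ]
  rw [Measure.volume_eq_prod, integral_prod _ h2]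
  simp only [integral_const_mul, hpl]
  have h6 := integral_integral_swap (f := fun (ζ : E3) (x' : Fin n → E3) =>
    (2 * Real.pi * ‖ζ‖) ^ β * ‖sl9 ψ j ζ x'‖ ^ 2) h4
  simp only [integral_const_mul] at h6
  exact h6

/-- TARGET 2 -/
theorem planch {N : ℕ} (ψ : (Fin N → E3) → ℂ) (hψ : Test ψ) :
    Integrable (fun ξ : Fin N → E3 => ‖ft ψ ξ‖ ^ 2) ∧
    ∫ ξ : Fin N → E3, ‖ft ψ ξ‖ ^ 2 = ∫ x : Fin N → E3, ‖ψ x‖ ^ 2 :=
  a9_planch ψ hψ

end Pool.Agent.Helper780_BE.A9
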