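import Mathlib

/-! Charged particles with kinetic energy `|p|^α`. -/

set_option autoImplicit false

open MeasureTheory
open scoped Topology

namespace Pool.Agent.Helper780_BE

/-- Physical space `ℝ³`. -/
abbrev E3 : Type := EuclideanSpace ℝ (Fin 3)

/-- The Fourier transform `∫ e^{-2πi ∑ xᵢ·ξᵢ} ψ(x) dx` of a function of `N` positions. -/
noncomputable def ft {N : ℕ} (ψ : (Fin N → E3) → ℂ) (ξ : Fin N → E3) : ℂ :=
  ∫ x : Fin N → E3,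
    Complex.exp (((-(2 * Real.pi * ∑ i, inner ℝ (x i) (ξ i)) : ℝ) : ℂ) * Complex.I) * ψ x

/-- The kinetic energy `⟨ψ, ∑ᵢ |pᵢ|^α ψ⟩`, `|pᵢ|^α = (-Δᵢ)^(α/2)`. -/
noncomputable def kinE {N : ℕ} (α : ℝ) (ψ : (Fin N → E3) → ℂ) : ℝ :=
  ∫ ξ : Fin N → E3, (∑ i, (2 * Real.pi * ‖ξ i‖) ^ α) * ‖ft ψ ξ‖ ^ 2

/-- The potential energy `⟨ψ, ∑_{i<j} eᵢ eⱼ / |xᵢ - xⱼ| ψ⟩`. -/
noncomputable def potE {N : ℕ} (e : Fin N → ℝ) (ψ : (Fin N → E3) → ℂ) : ℝ :=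
  ∫ x : Fin N → E3, (∑ i, ∑ j, if i < j then e i * e j / ‖x i - x j‖ else 0) * ‖ψ x‖ ^ 2

/-- Test functions: smooth with compact support. -/
structure Test {N : ℕ} (ψ : (Fin N → E3) → ℂ) : Prop where
  smooth : ContDiff ℝ ((⊤ : ℕ∞) : WithTop ℕ∞) ψ
  compact : HasCompactSupport ψ

/-- The energies of the normalised test functions for all charges `±1`. -/
def energySet (α : ℝ) (N : ℕ) : Set ℝ :=
  {E | ∃ (e : Fin N → ℝ) (ψ : (Fin N → E3) → ℂ), (∀ i, e i = 1 ∨ e i = -1) ∧ Test ψ ∧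
    ∫ x, ‖ψ x‖ ^ 2 = 1 ∧ E = kinE α ψ + potE e ψ}

/-- The ground state energy. -/
noncomputable def E0 (α : ℝ) (N : ℕ) : ℝ := sInf (energySet α N)

/-! Tools for the lower bound. -/

/-- Fourier transform of a function of one position. -/
noncomputable def ft1 (u : E3 → ℂ) (ξ : E3) : ℂ :=
  ∫ y : E3, Complex.exp (((-(2 * Real.pi * inner ℝ y ξ) : ℝ) : ℂ) * Complex.I) * u y

/-- A bounded function `g` and a bounded kernel `P` on the unit ball: `g` represents the Coulomb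
potential, `P` is a symmetric kernel which reproduces polynomials of degree less than `m`, and
`P g P = 0`. -/
structure KG (m : ℕ) (c B : ℝ) (g : E3 → ℝ) (P : E3 → E3 → ℝ) : Prop where
  cpos : 0 < c
  gmeas : Measurable g
  gbd : ∀ x, |g x| ≤ 1
  gsupp : ∀ x, 1 ≤ ‖x‖ → g x = 0
  rep : ∀ x y : E3, x ≠ y → 1 / ‖x - y‖ =
    c * ∫ r in Set.Ioi (0 : ℝ), (r ^ 5)⁻¹ * ∫ z : E3, g (r⁻¹ • (x - z)) * g (r⁻¹ • (y - z))
  pmeas : Measurable (fun q : E3 × E3 => P q.1 q.2)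
  psymm : ∀ x y, P x y = P y x
  pbd : ∀ x y, |P x y| ≤ B
  psupp : ∀ x y, 1 ≤ ‖x‖ → P x y = 0
  repr : ∀ v : E3, ∀ k : ℕ, k < m → ∀ x : E3, ‖x‖ < 1 →
    ∫ y, P x y * (inner ℝ v y) ^ k = (inner ℝ v x) ^ k
  pgp : ∀ x y, ∫ w, P x w * g w * P w y = 0

/-- the interaction at scale `r` near `z` -/
noncomputable def tz {N : ℕ} (e : Fin N → ℝ) (g : E3 → ℝ) (r : ℝ) (z : E3)
    (ψ : (Fin N → E3) → ℂ) : ℝ :=
  ∫ x : Fin N → E3, (∑ i, ∑ j, if i = j then 0 else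
    e i * e j * (g (r⁻¹ • (x i - z)) * g (r⁻¹ • (x j - z)))) * ‖ψ x‖ ^ 2

/-- the interaction at scale `r` -/
noncomputable def tau {N : ℕ} (e : Fin N → ℝ) (g : E3 → ℝ) (r : ℝ)
    (ψ : (Fin N → E3) → ℂ) : ℝ :=
  ∫ z : E3, tz e g r z ψ

open Classical in
/-- number of the particles in the ball of radius `r` about `z` -/
noncomputable def nb {N : ℕ} (r : ℝ) (z : E3) (x : Fin N → E3) : ℝ :=
  ∑ i, if ‖x i - z‖ < r then 1 else 0

/-- the kernel `P` at scale `r` about `z`, in the variable `x j` -/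
noncomputable def PJ {N : ℕ} (P : E3 → E3 → ℝ) (r : ℝ) (z : E3) (j : Fin N)
    (ψ : (Fin N → E3) → ℂ) (x : Fin N → E3) : ℂ :=
  ∫ y : E3, (((r ^ 3)⁻¹ * P (r⁻¹ • (x j - z)) (r⁻¹ • (y - z)) : ℝ) : ℂ) *
    ψ (Function.update x j y)

open Classical in
/-- the error terms in the ball of radius `r` about `z` -/
noncomputable def Er {N : ℕ} (κ r : ℝ) (z : E3) (ψ : (Fin N → E3) → ℂ) : ℝ :=
  ∫ x : Fin N → E3, (∑ i, if ‖x i - z‖ < r ∧ 2 ≤ nb r z x then min 1 (κ * nb r z x) else 0) *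
    ‖ψ x‖ ^ 2

open Classical in
noncomputable def Qe {N : ℕ} (P : E3 → E3 → ℝ) (r : ℝ) (z : E3) (j : Fin N)
    (ψ : (Fin N → E3) → ℂ) : ℝ :=
  ∫ x : Fin N → E3, if ‖x j - z‖ < r then ‖ψ x - PJ P r z j ψ x‖ ^ 2 else 0

end Pool.Agent.Helper780_BE
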