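import Pool.Agent.Helper780_BE.A7
import Pool.Agent.Helper780_BE.A8
import Pool.Agent.Helper780_BE.A9
import Pool.Agent.Helper780_BE.Defs


set_option autoImplicit false

open MeasureTheory
open scoped Topology

namespace Pool.Agent.Helper780_BE.A10

open Pool.Agent.Helper780_BE.A7 (poincare1)
open Pool.Agent.Helper780_BE.A8 (faber1)
open Pool.Agent.Helper780_BE.A9 (slice)

open Pool.Agent.Helper780_BE





theorem a10_bint {α : Type*} [MeasurableSpace α] {μ : Measure α} {f : α → ℝ} {s : Set α} {C : ℝ}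
    (hf : AEStronglyMeasurable f μ) (hs : μ s < ⊤) (hsup : Function.support f ⊆ s)
    (hC : ∀ x, ‖f x‖ ≤ C) : Integrable f μ := by
  rw [← integrableOn_iff_integrable_of_support_subset hsup]
  have : IsFiniteMeasure (μ.restrict s) := ⟨by simpa using hs⟩
  exact Integrable.of_bound hf.restrict C (Filter.Eventually.of_forall hC)

theorem a10_fubX {n : ℕ} (j : Fin (n + 1)) {f : (Fin (n + 1) → E3) → ℝ} (hf : Integrable f) :
    ∫ x, f x = ∫ x' : Fin n → E3, ∫ y : E3, f (j.insertNth (α := fun _ => E3) y x') := by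
  have hmp := volume_preserving_piFinSuccAbove (fun _ : Fin (n + 1) => E3) j
  have e1 : ∫ x, f x = ∫ p : E3 × (Fin n → E3),
      f ((MeasurableEquiv.piFinSuccAbove (fun _ : Fin (n + 1) => E3) j).symm p) := by
    rw [← hmp.symm.integral_comp' (g := f)]
  have hi : Integrable (fun p : E3 × (Fin n → E3) =>
      f ((MeasurableEquiv.piFinSuccAbove (fun _ : Fin (n + 1) => E3) j).symm p)) :=
    (hmp.symm.integrable_comp_emb (MeasurableEquiv.measurableEmbedding _)).2 hf
  rw [e1, Measure.volume_eq_prod, integral_prod_symm _ hi]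
  rfl

theorem a10_ins {n : ℕ} (j : Fin (n + 1)) :
    Continuous fun p : E3 × (Fin n → E3) => j.insertNth (α := fun _ => E3) p.1 p.2 := by
  refine continuous_pi fun i => ?_
  rcases Fin.eq_self_or_eq_succAbove j i with h | ⟨k, h⟩
  · subst h; simp only [Fin.insertNth_apply_same]; exact continuous_fst
  · subst h; simp only [Fin.insertNth_apply_succAbove]
    exact (continuous_apply k).comp continuous_snd

theorem a10_norm {n : ℕ} (j : Fin (n + 1)) {y : E3} {x' : Fin n → E3} {L : ℝ}
    (h : ‖j.insertNth (α := fun _ => E3) y x'‖ ≤ L) : ‖y‖ ≤ L ∧ ‖x'‖ ≤ L := by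
  have hL : 0 ≤ L := (norm_nonneg _).trans h
  rw [pi_norm_le_iff_of_nonneg hL] at h
  constructor
  · simpa using h j
  · rw [pi_norm_le_iff_of_nonneg hL]
    intro k
    simpa using h (j.succAbove k)

theorem a10_fub {n : ℕ} (j : Fin (n + 1)) {F : E3 → (Fin (n + 1) → E3) → ℝ} {L C : ℝ}
    (hm : Measurable (fun p : E3 × (Fin (n + 1) → E3) => F p.1 p.2)) (hC : ∀ z x, ‖F z x‖ ≤ C)
    (hL : ∀ z x, F z x ≠ 0 → ‖z‖ ≤ L ∧ ‖x‖ ≤ L) :
    Integrable (fun z => ∫ x, F z x) ∧ (∫ z, ∫ x, F z x = ∫ x, ∫ z, F z x) ∧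
    (∫ z, ∫ x, F z x = ∫ x' : Fin n → E3, ∫ z, ∫ y,
      F z (j.insertNth (α := fun _ => E3) y x')) := by
  have hF : Integrable (fun p : E3 × (Fin (n + 1) → E3) => F p.1 p.2) (volume.prod volume) := by
    refine a10_bint (s := Metric.closedBall 0 L ×ˢ Metric.closedBall 0 L)
      hm.aestronglyMeasurable ?_ ?_ (fun p => hC p.1 p.2)
    · rw [Measure.prod_prod]
      exact ENNReal.mul_lt_top (measure_closedBall_lt_top) (measure_closedBall_lt_top)
    · intro p hp
      have := hL p.1 p.2 hp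
      exact ⟨by simpa using this.1, by simpa using this.2⟩
  have hFz : ∀ z, Integrable (fun x => F z x) := by
    intro z
    refine a10_bint (s := Metric.closedBall 0 L) (hm.comp measurable_prodMk_left).aestronglyMeasurable
      measure_closedBall_lt_top ?_ (fun p => hC z p)
    intro p hp
    simpa using (hL z p hp).2
  have hcm : Continuous fun q : (E3 × (Fin n → E3)) × E3 =>
      (q.1.1, j.insertNth (α := fun _ => E3) q.2 q.1.2) := by
    refine Continuous.prodMk (by fun_prop) ?_
    exact (a10_ins j).comp (by fun_prop : Continuous fun q : (E3 × (Fin n → E3)) × E3 => (q.2, q.1.2))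
  have hH : Integrable (fun q : (E3 × (Fin n → E3)) × E3 =>
      F q.1.1 (j.insertNth (α := fun _ => E3) q.2 q.1.2))
      ((volume.prod volume).prod volume) := by
    refine a10_bint (s := (Metric.closedBall 0 L ×ˢ Metric.closedBall 0 L) ×ˢ Metric.closedBall 0 L)
      (hm.comp hcm.measurable).aestronglyMeasurable ?_ ?_ (fun p => hC _ _)
    · rw [Measure.prod_prod, Measure.prod_prod]
      exact ENNReal.mul_lt_top (ENNReal.mul_lt_top measure_closedBall_lt_top
        measure_closedBall_lt_top) measure_closedBall_lt_top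
    · intro p hp
      have h1 := hL _ _ hp
      have h2 := a10_norm j h1.2
      exact ⟨⟨by simpa using h1.1, by simpa using h2.2⟩, by simpa using h2.1⟩
  have hJ := hH.integral_prod_left
  refine ⟨hF.integral_prod_left, integral_integral_swap hF, ?_⟩
  have e1 : ∀ z, ∫ x, F z x = ∫ x' : Fin n → E3, ∫ y, F z (j.insertNth (α := fun _ => E3) y x') :=
    fun z => a10_fubX j (hFz z)
  simp only [e1]
  exact integral_integral_swap (f := fun (z : E3) (x' : Fin n → E3) =>
    ∫ y, F z (j.insertNth (α := fun _ => E3) y x')) hJ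

theorem a10_test_slice {n : ℕ} {ψ : (Fin (n + 1) → E3) → ℂ} (hψ : Test ψ) (j : Fin (n + 1))
    (x' : Fin n → E3) :
    ContDiff ℝ ((⊤ : ℕ∞) : WithTop ℕ∞) (fun y => ψ (j.insertNth (α := fun _ => E3) y x')) ∧
      HasCompactSupport (fun y => ψ (j.insertNth (α := fun _ => E3) y x')) := by
  constructor
  · refine hψ.smooth.comp ?_
    rw [contDiff_pi]
    intro i
    rcases Fin.eq_self_or_eq_succAbove j i with h | ⟨k, h⟩
    · subst h; simp only [Fin.insertNth_apply_same]; exact contDiff_id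
    · subst h; simp only [Fin.insertNth_apply_succAbove]; exact contDiff_const
  · refine HasCompactSupport.intro (K := (fun x : Fin (n + 1) → E3 => x j) '' tsupport ψ)
      (hψ.compact.isCompact.image (continuous_apply j)) ?_
    intro y hy
    by_contra h
    apply hy
    refine ⟨j.insertNth (α := fun _ => E3) y x', subset_tsupport _ h, by simp⟩

theorem a10_bdd {N : ℕ} {ψ : (Fin N → E3) → ℂ} (hψ : Test ψ) :
    ∃ L S : ℝ, 0 ≤ L ∧ 0 ≤ S ∧ (∀ x, ‖ψ x‖ ≤ S) ∧ ∀ x, ψ x ≠ 0 → ‖x‖ ≤ L := by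
  obtain ⟨S, hS⟩ := hψ.compact.exists_bound_of_continuous hψ.smooth.continuous
  obtain ⟨L, hL⟩ := hψ.compact.isCompact.isBounded.subset_closedBall 0
  refine ⟨max L 0, max S 0, le_max_right _ _, le_max_right _ _,
    fun x => (hS x).trans (le_max_left _ _), fun x hx => ?_⟩
  have := hL (subset_tsupport _ hx)
  exact (by simpa using this : ‖x‖ ≤ L).trans (le_max_left _ _)

theorem a10_Pzero {m : ℕ} {c B : ℝ} {g : E3 → ℝ} {P : E3 → E3 → ℝ} (h : KG m c B g P) {r : ℝ}
    (hr : 0 < r) {x z y : E3} (hy : P (r⁻¹ • (x - z)) (r⁻¹ • (y - z)) ≠ 0) : ‖y - z‖ < r := by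
  by_contra hc
  apply hy
  rw [h.psymm]
  apply h.psupp
  rw [norm_smul, norm_inv, Real.norm_eq_abs, abs_of_pos hr]
  rw [← div_eq_inv_mul, le_div_iff₀ hr]
  linarith [not_lt.1 hc]

theorem a10_PJ_meas {m : ℕ} {c B : ℝ} {g : E3 → ℝ} {P : E3 → E3 → ℝ} (h : KG m c B g P) {N : ℕ}
    (r : ℝ) {ψ : (Fin N → E3) → ℂ} (hψ : Test ψ) (j : Fin N) :
    Measurable fun p : E3 × (Fin N → E3) => PJ P r p.1 j ψ p.2 := by
  have h1 : Measurable fun q : (E3 × (Fin N → E3)) × E3 =>
      (((r ^ 3)⁻¹ * P (r⁻¹ • (q.1.2 j - q.1.1)) (r⁻¹ • (q.2 - q.1.1)) : ℝ) : ℂ) *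
        ψ (Function.update q.1.2 j q.2) := by
    refine Measurable.mul ?_ ?_
    · refine Complex.measurable_ofReal.comp (Measurable.const_mul ?_ _)
      have h2 : Measurable fun q : (E3 × (Fin N → E3)) × E3 =>
          (r⁻¹ • (q.1.2 j - q.1.1), r⁻¹ • (q.2 - q.1.1)) := by
        have : Continuous fun q : (E3 × (Fin N → E3)) × E3 =>
          (r⁻¹ • (q.1.2 j - q.1.1), r⁻¹ • (q.2 - q.1.1)) := by fun_prop
        exact this.measurable
      exact h.pmeas.comp h2
    · have : Continuous fun q : (E3 × (Fin N → E3)) × E3 => ψ (Function.update q.1.2 j q.2) :=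
        hψ.smooth.continuous.comp
          ((by fun_prop : Continuous fun q : (E3 × (Fin N → E3)) × E3 => q.1.2).update j
            continuous_snd)
      exact this.measurable
  have := (h1.stronglyMeasurable).integral_prod_right' (ν := (volume : Measure E3))
  exact this.measurable

/-- the volume of the unit ball -/
noncomputable def c0 : ℝ := (volume (Metric.ball (0 : E3) 1)).toReal

theorem c0_pos : 0 < c0 := by
  unfold c0
  exact ENNReal.toReal_pos (Metric.measure_ball_pos _ _ one_pos).ne' measure_ball_lt_top.ne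

theorem ball_vol (x : E3) {r : ℝ} (hr : 0 < r) :
    (volume (Metric.ball x r)).toReal = r ^ 3 * c0 := by
  unfold c0
  rw [Measure.addHaar_ball_of_pos _ _ hr, ENNReal.toReal_mul]
  congr 1
  rw [ENNReal.toReal_ofReal (by positivity)]
  simp

theorem a10_PJ_bd {m : ℕ} {c B : ℝ} {g : E3 → ℝ} {P : E3 → E3 → ℝ} (h : KG m c B g P) {N : ℕ}
    {r : ℝ} (hr : 0 < r) {ψ : (Fin N → E3) → ℂ} {S : ℝ} (hS : ∀ x, ‖ψ x‖ ≤ S) (j : Fin N)
    (z : E3) (x : Fin N → E3) : ‖PJ P r z j ψ x‖ ≤ |B| * S * c0 := by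
  have hS0 : 0 ≤ S := (norm_nonneg _).trans (hS 0)
  unfold PJ
  have h1 : ∀ y : E3, ‖(((r ^ 3)⁻¹ * P (r⁻¹ • (x j - z)) (r⁻¹ • (y - z)) : ℝ) : ℂ) *
      ψ (Function.update x j y)‖ ≤
      (Metric.ball z r).indicator (fun _ => (r ^ 3)⁻¹ * (|B| * S)) y := by
    intro y
    by_cases hy : y ∈ Metric.ball z r
    · rw [Set.indicator_of_mem hy, norm_mul, Complex.norm_real, norm_mul, Real.norm_eq_abs,
        abs_of_pos (by positivity : (0 : ℝ) < (r ^ 3)⁻¹), mul_assoc]
      apply mul_le_mul_of_nonneg_left _ (by positivity)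
      apply mul_le_mul _ (hS _) (norm_nonneg _) (abs_nonneg _)
      exact (h.pbd _ _).trans (le_abs_self B)
    · rw [Set.indicator_of_notMem hy]
      have : P (r⁻¹ • (x j - z)) (r⁻¹ • (y - z)) = 0 := by
        by_contra hne
        apply hy
        rw [Metric.mem_ball, dist_eq_norm]
        exact a10_Pzero h hr hne
      rw [this]; simp
  have hint : Integrable ((Metric.ball z r).indicator (fun _ => (r ^ 3)⁻¹ * (|B| * S)))
      (volume : Measure E3) := by
    rw [integrable_indicator_iff measurableSet_ball]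
    exact integrableOn_const (hs := measure_ball_lt_top.ne)
  refine (norm_integral_le_of_norm_le hint (Filter.Eventually.of_forall h1)).trans ?_
  rw [integral_indicator measurableSet_ball, setIntegral_const, smul_eq_mul, Measure.real,
    ball_vol z hr]
  have : r ^ 3 * c0 * ((r ^ 3)⁻¹ * (|B| * S)) = |B| * S * c0 := by
    field_simp
  rw [this]

theorem a10_PJ_supp {m : ℕ} {c B : ℝ} {g : E3 → ℝ} {P : E3 → E3 → ℝ} (h : KG m c B g P) {N : ℕ}
    {r : ℝ} (hr : 0 < r) {ψ : (Fin N → E3) → ℂ} {L : ℝ} (hL : ∀ x, ψ x ≠ 0 → ‖x‖ ≤ L) (j : Fin N)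
    (z : E3) (x : Fin N → E3) (hP : PJ P r z j ψ x ≠ 0) :
    ∃ y : E3, ‖y - z‖ < r ∧ ‖Function.update x j y‖ ≤ L := by
  by_contra hcon
  push Not at hcon
  apply hP
  unfold PJ
  rw [← integral_zero E3 ℂ]
  congr 1
  funext y
  by_cases h1 : P (r⁻¹ • (x j - z)) (r⁻¹ • (y - z)) = 0
  · rw [h1]; simp
  · have h2 := hcon y (a10_Pzero h hr h1)
    have h3 : ψ (Function.update x j y) = 0 := by
      by_contra h4
      exact absurd (hL _ h4) (not_le.2 h2)
    rw [h3]; simp

theorem a10_upd {n : ℕ} (j : Fin (n + 1)) (y w : E3) (x' : Fin n → E3) :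
    Function.update (j.insertNth (α := fun _ => E3) y x') j w =
      j.insertNth (α := fun _ => E3) w x' := by
  funext i
  rcases Fin.eq_self_or_eq_succAbove j i with h | ⟨k, h⟩
  · subst h; simp
  · subst h
    rw [Function.update_of_ne (Fin.succAbove_ne j k)]
    simp

/-- TARGET 1 -/
theorem q_body {m : ℕ} {c B : ℝ} {g : E3 → ℝ} {P : E3 → E3 → ℝ} (h : KG m c B g P) (α : ℝ)
    (hα : 0 < α) (hm : α ≤ 2 * m) : ∃ C : ℝ, 0 < C ∧ ∀ {N : ℕ} (r : ℝ), 0 < r →
      ∀ (ψ : (Fin N → E3) → ℂ), Test ψ → ∀ j : Fin N,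
      Integrable (fun z : E3 => Qe P r z j ψ) ∧ ∫ z : E3, Qe P r z j ψ ≤
        C * r ^ (3 + α) * ∫ ξ : Fin N → E3, (2 * Real.pi * ‖ξ j‖) ^ α * ‖ft ψ ξ‖ ^ 2 := by
  classical
  obtain ⟨C, hC0, hC⟩ := poincare1 h α hα hm
  refine ⟨C, hC0, ?_⟩
  intro N r hr ψ hψ j
  cases N with
  | zero => exact j.elim0
  | succ n =>
  obtain ⟨L, S, hL0, hS0, hS, hL⟩ := a10_bdd hψ
  let F : E3 → (Fin (n + 1) → E3) → ℝ := fun z x =>
    if ‖x j - z‖ < r then ‖ψ x - PJ P r z j ψ x‖ ^ 2 else 0
  have hFm : Measurable (fun p : E3 × (Fin (n + 1) → E3) => F p.1 p.2) := by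
    refine Measurable.ite ?_ ?_ measurable_const
    · refine (isOpen_lt ?_ continuous_const).measurableSet
      fun_prop
    · exact ((hψ.smooth.continuous.measurable.comp measurable_snd).sub
        (a10_PJ_meas h r hψ j)).norm.pow_const 2
  have hFC : ∀ z x, ‖F z x‖ ≤ (S + |B| * S * c0) ^ 2 := by
    intro z x
    simp only [F]
    split_ifs
    · rw [norm_pow, norm_norm]
      apply pow_le_pow_left₀ (norm_nonneg _)
      exact (norm_sub_le _ _).trans (add_le_add (hS x) (a10_PJ_bd h hr hS j z x))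
    · rw [norm_zero]; positivity
  have hFL : ∀ z x, F z x ≠ 0 → ‖z‖ ≤ L + 2 * r ∧ ‖x‖ ≤ L + 2 * r := by
    intro z x hx
    simp only [F] at hx
    have h1 : ‖x j - z‖ < r := by
      by_contra hc; rw [if_neg hc] at hx; exact hx rfl
    rw [if_pos h1] at hx
    by_cases h2 : ψ x = 0
    · have h3 : PJ P r z j ψ x ≠ 0 := by
        intro h3; rw [h2, h3] at hx; simp at hx
      obtain ⟨y, hy, hyL⟩ := a10_PJ_supp h hr hL j z x h3
      rw [pi_norm_le_iff_of_nonneg hL0] at hyL
      have h4 : ‖y‖ ≤ L := by simpa using hyL j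
      have h5 : ‖z‖ ≤ L + r := by
        calc ‖z‖ = ‖y - (y - z)‖ := by congr 1; abel
          _ ≤ ‖y‖ + ‖y - z‖ := norm_sub_le _ _
          _ ≤ L + r := by linarith
      refine ⟨by linarith, ?_⟩
      rw [pi_norm_le_iff_of_nonneg (by linarith)]
      intro i
      by_cases hi : i = j
      · subst hi
        calc ‖x i‖ = ‖(x i - z) + z‖ := by congr 1; abel
          _ ≤ ‖x i - z‖ + ‖z‖ := norm_add_le _ _
          _ ≤ L + 2 * r := by linarith
      · have := hyL i
        rw [Function.update_of_ne hi] at this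
        linarith
    · have h3 := hL x h2
      refine ⟨?_, by linarith⟩
      have h4 : ‖x j‖ ≤ L := (norm_le_pi_norm x j).trans h3
      calc ‖z‖ = ‖x j - (x j - z)‖ := by congr 1; abel
        _ ≤ ‖x j‖ + ‖x j - z‖ := norm_sub_le _ _
        _ ≤ L + 2 * r := by linarith
  obtain ⟨f1, -, f3⟩ := a10_fub j hFm hFC hFL
  have hQ : ∀ z, Qe P r z j ψ = ∫ x, F z x := by
    intro z; unfold Qe; rfl
  simp only [hQ]
  refine ⟨f1, ?_⟩
  rw [f3]
  obtain ⟨-, sl2, sl3⟩ := slice ψ hψ j α hα.le
  rw [sl3, ← integral_const_mul]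
  refine integral_mono_of_nonneg (Filter.Eventually.of_forall fun x' => ?_)
    (sl2.const_mul _) (Filter.Eventually.of_forall fun x' => ?_)
  · refine integral_nonneg fun z => integral_nonneg fun y => ?_
    simp only [F, Pi.zero_apply]
    split_ifs
    · positivity
    · exact le_rfl
  · obtain ⟨t1, t2⟩ := a10_test_slice hψ j x'
    have := hC r hr _ t1 t2
    refine le_trans (le_of_eq ?_) this
    refine integral_congr_ae (Filter.Eventually.of_forall fun z => ?_)
    simp only
    rw [← integral_indicator measurableSet_ball]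
    refine integral_congr_ae (Filter.Eventually.of_forall fun y => ?_)
    simp only [F, Fin.insertNth_apply_same]
    by_cases hy : ‖y - z‖ < r
    · rw [if_pos hy, Set.indicator_of_mem (by rw [Metric.mem_ball, dist_eq_norm]; exact hy)]
      congr 3
      unfold PJ
      congr 1
      funext w
      rw [Fin.insertNth_apply_same, a10_upd]
    · rw [if_neg hy, Set.indicator_of_notMem (by rw [Metric.mem_ball, dist_eq_norm]; exact hy)]

/-- TARGET 2 -/
theorem y_body : ∃ C : ℝ, 0 < C ∧ ∀ {N : ℕ} (r κ : ℝ), 0 < r → 0 < κ →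
      ∀ (ψ : (Fin N → E3) → ℂ), Test ψ →
      Integrable (fun z : E3 => Er κ r z ψ) ∧ ∫ z : E3, Er κ r z ψ ≤
        C * r ^ 4 * (κ * N) ^ (1 / 3 : ℝ) * kinE 1 ψ := by
  classical
  obtain ⟨C, hC0, hC⟩ := faber1
  have hc0 := c0_pos
  refine ⟨c0 * (C * (16 * c0) ^ (1 / 3 : ℝ)), by positivity, ?_⟩
  intro N r κ hr hκ ψ hψ
  cases N with
  | zero =>
    have h1 : ∀ z, Er κ r z ψ = 0 := by
      intro z; unfold Er; simp
    simp only [h1]
    refine ⟨by simp, ?_⟩
    simp
  | succ n =>
  obtain ⟨L, S, hL0, hS0, hS, hL⟩ := a10_bdd hψ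
  have hnbm : Measurable fun p : E3 × (Fin (n + 1) → E3) => nb r p.1 p.2 := by
    unfold nb
    refine Finset.measurable_sum _ fun i _ => ?_
    refine Measurable.ite ?_ measurable_const measurable_const
    refine (isOpen_lt ?_ continuous_const).measurableSet
    fun_prop
  have hnb0 : ∀ z (x : Fin (n + 1) → E3), 0 ≤ nb r z x := by
    intro z x; unfold nb
    exact Finset.sum_nonneg fun i _ => by split_ifs <;> norm_num
  let F : E3 → (Fin (n + 1) → E3) → ℝ := fun z x =>
    (∑ i, if ‖x i - z‖ < r ∧ 2 ≤ nb r z x then min 1 (κ * nb r z x) else 0) * ‖ψ x‖ ^ 2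
  have hFm : Measurable (fun p : E3 × (Fin (n + 1) → E3) => F p.1 p.2) := by
    refine Measurable.mul ?_ ((hψ.smooth.continuous.measurable.comp measurable_snd).norm.pow_const 2)
    refine Finset.measurable_sum _ fun i _ => ?_
    refine Measurable.ite ?_ (measurable_const.min (hnbm.const_mul κ)) measurable_const
    have hms1 : MeasurableSet {p : E3 × (Fin (n + 1) → E3) | ‖p.2 i - p.1‖ < r} := by
      refine (isOpen_lt ?_ continuous_const).measurableSet
      fun_prop
    exact MeasurableSet.inter hms1 (measurableSet_le measurable_const hnbm)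
  have hterm : ∀ z (x : Fin (n + 1) → E3) i,
      0 ≤ (if ‖x i - z‖ < r ∧ 2 ≤ nb r z x then min 1 (κ * nb r z x) else 0) ∧
      (if ‖x i - z‖ < r ∧ 2 ≤ nb r z x then min 1 (κ * nb r z x) else 0) ≤ 1 := by
    intro z x i
    split_ifs
    · exact ⟨le_min zero_le_one (mul_nonneg hκ.le (hnb0 z x)), min_le_left _ _⟩
    · exact ⟨le_rfl, zero_le_one⟩
  have hF0 : ∀ z x, 0 ≤ F z x := by
    intro z x
    exact mul_nonneg (Finset.sum_nonneg fun i _ => (hterm z x i).1) (by positivity)
  have hFC : ∀ z x, ‖F z x‖ ≤ (n + 1 : ℕ) * S ^ 2 := by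
    intro z x
    rw [Real.norm_eq_abs, abs_of_nonneg (hF0 z x)]
    refine mul_le_mul ?_ (pow_le_pow_left₀ (norm_nonneg _) (hS x) 2) (by positivity) (by positivity)
    refine (Finset.sum_le_card_nsmul _ _ 1 fun i _ => (hterm z x i).2).trans ?_
    simp
  have hFL : ∀ z x, F z x ≠ 0 → ‖z‖ ≤ L + r ∧ ‖x‖ ≤ L + r := by
    intro z x hx
    have h1 : ψ x ≠ 0 := by
      intro h1; simp only [F] at hx; rw [h1] at hx; simp at hx
    have h2 := hL x h1
    have h3 : (∑ i, if ‖x i - z‖ < r ∧ 2 ≤ nb r z x then min 1 (κ * nb r z x) else 0) ≠ 0 := by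
      intro h3; simp only [F] at hx; rw [h3] at hx; simp at hx
    obtain ⟨i, -, hi⟩ := Finset.exists_ne_zero_of_sum_ne_zero h3
    have h4 : ‖x i - z‖ < r := by
      by_contra hc
      rw [if_neg (fun h => hc h.1)] at hi
      exact hi rfl
    have h5 : ‖x i‖ ≤ L := (norm_le_pi_norm x i).trans h2
    refine ⟨?_, by linarith⟩
    calc ‖z‖ = ‖x i - (x i - z)‖ := by congr 1; abel
      _ ≤ ‖x i‖ + ‖x i - z‖ := norm_sub_le _ _
      _ ≤ L + r := by linarith
  obtain ⟨f1, f2, -⟩ := a10_fub 0 hFm hFC hFL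
  have hE : ∀ z, Er κ r z ψ = ∫ x, F z x := by
    intro z; unfold Er; rfl
  simp only [hE]
  refine ⟨f1, ?_⟩
  rw [f2]
  -- the majorant
  let n' : Fin (n + 1) → (Fin (n + 1) → E3) → ℝ := fun j x =>
    ∑ k : Fin n, if ‖x (j.succAbove k) - x j‖ < 2 * r then 1 else 0
  let Y : Fin (n + 1) → (Fin (n + 1) → E3) → ℝ := fun j x => min 1 (2 * κ * n' j x)
  have hn'0 : ∀ j x, 0 ≤ n' j x := fun j x =>
    Finset.sum_nonneg fun k _ => by split_ifs <;> norm_num
  have hY0 : ∀ j x, 0 ≤ Y j x := fun j x =>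
    le_min zero_le_one (mul_nonneg (by positivity) (hn'0 j x))
  have hY1 : ∀ j x, Y j x ≤ 1 := fun j x => min_le_left _ _
  have hn'm : ∀ j, Measurable (n' j) := by
    intro j
    refine Finset.measurable_sum _ fun k _ => ?_
    refine Measurable.ite ?_ measurable_const measurable_const
    refine (isOpen_lt ?_ continuous_const).measurableSet
    fun_prop
  have hYm : ∀ j, Measurable (Y j) := fun j => measurable_const.min ((hn'm j).const_mul _)
  have hYint : ∀ j, Integrable fun x => Y j x * ‖ψ x‖ ^ 2 := by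
    intro j
    refine a10_bint (s := Metric.closedBall 0 L) (C := S ^ 2)
      ((hYm j).mul (hψ.smooth.continuous.measurable.norm.pow_const 2)).aestronglyMeasurable
      measure_closedBall_lt_top ?_ ?_
    · intro x hx
      have : ψ x ≠ 0 := by
        intro h1; simp only [Function.mem_support] at hx; rw [h1] at hx; simp at hx
      simpa using hL x this
    · intro x
      rw [Real.norm_eq_abs, abs_of_nonneg (mul_nonneg (hY0 j x) (by positivity))]
      calc Y j x * ‖ψ x‖ ^ 2 ≤ 1 * S ^ 2 :=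
            mul_le_mul (hY1 j x) (pow_le_pow_left₀ (norm_nonneg _) (hS x) 2) (by positivity)
              zero_le_one
        _ = S ^ 2 := one_mul _
  have hpt : ∀ x, ∫ z, F z x ≤ ∑ i, (r ^ 3 * c0) * (Y i x * ‖ψ x‖ ^ 2) := by
    intro x
    have h1 : ∀ z, F z x ≤ ∑ i, (Metric.ball (x i) r).indicator (fun _ => Y i x * ‖ψ x‖ ^ 2) z := by
      intro z
      simp only [F]
      rw [Finset.sum_mul]
      refine Finset.sum_le_sum fun i _ => ?_
      by_cases hz : ‖x i - z‖ < r ∧ 2 ≤ nb r z x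
      · rw [if_pos hz, Set.indicator_of_mem
          (by rw [Metric.mem_ball, dist_comm, dist_eq_norm]; exact hz.1)]
        refine mul_le_mul_of_nonneg_right ?_ (by positivity)
        refine min_le_min le_rfl ?_
        have h2 : nb r z x = 1 + ∑ k : Fin n, if ‖x (i.succAbove k) - z‖ < r then (1 : ℝ) else 0 := by
          unfold nb
          rw [Fin.sum_univ_succAbove _ i, if_pos hz.1]
        have h3 : (∑ k : Fin n, if ‖x (i.succAbove k) - z‖ < r then (1 : ℝ) else 0) ≤ n' i x := by
          refine Finset.sum_le_sum fun k _ => ?_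
          by_cases hk : ‖x (i.succAbove k) - z‖ < r
          · rw [if_pos hk, if_pos]
            calc ‖x (i.succAbove k) - x i‖ = ‖(x (i.succAbove k) - z) - (x i - z)‖ := by
                  congr 1; abel
              _ ≤ ‖x (i.succAbove k) - z‖ + ‖x i - z‖ := norm_sub_le _ _
              _ < 2 * r := by linarith [hz.1]
          · rw [if_neg hk]; split_ifs <;> norm_num
        have h4 := hz.2
        have h5 : nb r z x ≤ 2 * n' i x := by linarith
        calc κ * nb r z x ≤ κ * (2 * n' i x) := mul_le_mul_of_nonneg_left h5 hκ.le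
          _ = 2 * κ * n' i x := by ring
      · rw [if_neg hz, zero_mul]
        exact Set.indicator_nonneg (fun _ _ => mul_nonneg (hY0 i x) (by positivity)) _
    have hii : ∀ i ∈ Finset.univ, Integrable
        ((Metric.ball (x i) r).indicator (fun _ : E3 => Y i x * ‖ψ x‖ ^ 2)) := by
      intro i _
      rw [integrable_indicator_iff measurableSet_ball]
      exact integrableOn_const (hs := measure_ball_lt_top.ne)
    calc ∫ z, F z x ≤ ∫ z, ∑ i, (Metric.ball (x i) r).indicator (fun _ => Y i x * ‖ψ x‖ ^ 2) z :=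
          integral_mono_of_nonneg (Filter.Eventually.of_forall fun z => hF0 z x)
            (integrable_finsetSum _ hii) (Filter.Eventually.of_forall h1)
      _ = ∑ i, (r ^ 3 * c0) * (Y i x * ‖ψ x‖ ^ 2) := by
          rw [integral_finsetSum _ hii]
          refine Finset.sum_congr rfl fun i _ => ?_
          rw [integral_indicator measurableSet_ball, setIntegral_const, smul_eq_mul, Measure.real,
            ball_vol _ hr]
  have hstep : ∫ x, ∫ z, F z x ≤ ∑ i, (r ^ 3 * c0) * ∫ x, Y i x * ‖ψ x‖ ^ 2 := by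
    have hsi : ∀ i ∈ Finset.univ, Integrable fun x : Fin (n + 1) → E3 =>
        (r ^ 3 * c0) * (Y i x * ‖ψ x‖ ^ 2) := fun i _ => (hYint i).const_mul _
    calc ∫ x, ∫ z, F z x ≤ ∫ x, ∑ i, (r ^ 3 * c0) * (Y i x * ‖ψ x‖ ^ 2) :=
          integral_mono_of_nonneg
            (Filter.Eventually.of_forall fun x => integral_nonneg fun z => hF0 z x)
            (integrable_finsetSum _ hsi) (Filter.Eventually.of_forall hpt)
      _ = _ := by
          rw [integral_finsetSum _ hsi]
          refine Finset.sum_congr rfl fun i _ => ?_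
          rw [integral_const_mul]
  -- the one body estimate
  set M : ℝ := 16 * c0 * (κ * (n + 1 : ℕ)) * r ^ 3 with hM
  have hbody : ∀ j, ∫ x, Y j x * ‖ψ x‖ ^ 2 ≤ C * M ^ (1 / 3 : ℝ) *
      ∫ ξ : Fin (n + 1) → E3, (2 * Real.pi * ‖ξ j‖) ^ (1 : ℝ) * ‖ft ψ ξ‖ ^ 2 := by
    intro j
    obtain ⟨-, sl2, sl3⟩ := slice ψ hψ j 1 zero_le_one
    rw [a10_fubX j (hYint j), sl3, ← integral_const_mul]
    refine integral_mono_of_nonneg (Filter.Eventually.of_forall fun x' => ?_)
      (sl2.const_mul _) (Filter.Eventually.of_forall fun x' => ?_)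
    · exact integral_nonneg fun y => mul_nonneg (hY0 _ _) (by positivity)
    · obtain ⟨t1, t2⟩ := a10_test_slice hψ j x'
      have hYe : ∀ y, Y j (j.insertNth (α := fun _ => E3) y x') =
          min 1 (2 * κ * ∑ k : Fin n, if ‖x' k - y‖ < 2 * r then 1 else 0) := by
        intro y
        simp only [Y, n', Fin.insertNth_apply_same, Fin.insertNth_apply_succAbove]
      have hymeas : Measurable fun y => Y j (j.insertNth (α := fun _ => E3) y x') :=
        (hYm j).comp ((a10_ins j).comp (by fun_prop : Continuous fun y : E3 => (y, x'))).measurable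
      have hind : ∀ y, Y j (j.insertNth (α := fun _ => E3) y x') ≤
          ∑ k : Fin n, (Metric.ball (x' k) (2 * r)).indicator (fun _ => 2 * κ) y := by
        intro y
        rw [hYe]
        refine (min_le_right _ _).trans ?_
        rw [Finset.mul_sum]
        refine Finset.sum_le_sum fun k _ => ?_
        by_cases hk : ‖x' k - y‖ < 2 * r
        · rw [if_pos hk, Set.indicator_of_mem
            (by rw [Metric.mem_ball, dist_comm, dist_eq_norm]; exact hk), mul_one]
        · rw [if_neg hk, mul_zero]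
          exact Set.indicator_nonneg (fun _ _ => by positivity) _
      have hii : ∀ k ∈ (Finset.univ : Finset (Fin n)), Integrable
          ((Metric.ball (x' k) (2 * r)).indicator (fun _ : E3 => 2 * κ)) := by
        intro k _
        rw [integrable_indicator_iff measurableSet_ball]
        exact integrableOn_const (hs := measure_ball_lt_top.ne)
      have hsum := integrable_finsetSum _ hii
      have hYi : Integrable fun y => Y j (j.insertNth (α := fun _ => E3) y x') := by
        refine hsum.mono' hymeas.aestronglyMeasurable (Filter.Eventually.of_forall fun y => ?_)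
        rw [Real.norm_eq_abs, abs_of_nonneg (hY0 _ _)]
        exact hind y
      refine hC (fun y => Y j (j.insertNth (α := fun _ => E3) y x')) M hymeas
        (fun y => ⟨hY0 _ _, hY1 _ _⟩) hYi ?_ _ t1 t2
      calc ∫ y, Y j (j.insertNth (α := fun _ => E3) y x') ≤
            ∫ y, ∑ k : Fin n, (Metric.ball (x' k) (2 * r)).indicator (fun _ => 2 * κ) y :=
            integral_mono hYi hsum hind
        _ = ∑ k : Fin n, ((2 * r) ^ 3 * c0) * (2 * κ) := by
            rw [integral_finsetSum _ hii]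
            refine Finset.sum_congr rfl fun i _ => ?_
            rw [integral_indicator measurableSet_ball, setIntegral_const, smul_eq_mul,
              Measure.real, ball_vol _ (by positivity)]
        _ = 16 * c0 * (κ * n) * r ^ 3 := by
            rw [Finset.sum_const, Finset.card_univ, Fintype.card_fin, nsmul_eq_mul]; ring
        _ ≤ M := by
            rw [hM]; push_cast
            have : κ * (n : ℝ) ≤ κ * (n + 1) := mul_le_mul_of_nonneg_left (by linarith) hκ.le
            have h9 : 0 ≤ 16 * c0 * r ^ 3 := by positivity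
            nlinarith
  have hkin : kinE 1 ψ = ∑ j, ∫ ξ : Fin (n + 1) → E3, (2 * Real.pi * ‖ξ j‖) ^ (1 : ℝ) *
      ‖ft ψ ξ‖ ^ 2 := by
    unfold kinE
    simp only [Finset.sum_mul]
    rw [integral_finsetSum]
    intro j _
    exact (slice ψ hψ j 1 zero_le_one).1
  have hMr : M ^ (1 / 3 : ℝ) = (16 * c0) ^ (1 / 3 : ℝ) * (κ * (n + 1 : ℕ)) ^ (1 / 3 : ℝ) * r := by
    rw [hM, Real.mul_rpow (by positivity) (by positivity), Real.mul_rpow (by positivity)
      (by positivity)]
    congr 1
    rw [← Real.rpow_natCast, ← Real.rpow_mul hr.le]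
    norm_num
  calc ∫ x, ∫ z, F z x ≤ ∑ i, (r ^ 3 * c0) * ∫ x, Y i x * ‖ψ x‖ ^ 2 := hstep
    _ ≤ ∑ i, (r ^ 3 * c0) * (C * M ^ (1 / 3 : ℝ) *
        ∫ ξ : Fin (n + 1) → E3, (2 * Real.pi * ‖ξ i‖) ^ (1 : ℝ) * ‖ft ψ ξ‖ ^ 2) :=
        Finset.sum_le_sum fun i _ => mul_le_mul_of_nonneg_left (hbody i) (by positivity)
    _ = (r ^ 3 * c0) * (C * M ^ (1 / 3 : ℝ)) * kinE 1 ψ := by
        rw [hkin, Finset.mul_sum]
        refine Finset.sum_congr rfl fun i _ => ?_
        ring
    _ = _ := by rw [hMr]; ring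

end Pool.Agent.Helper780_BE.A10
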