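import Pool.Agent.Helper780_BE.Defs

set_option autoImplicit false
set_option linter.unusedSectionVars false

open MeasureTheory
open scoped Topology

namespace Pool.Agent.Helper780_BE.A6


section Abs

theorem integrable_bdd {X F : Type} [MeasurableSpace X] {μ : Measure X} [NormedAddCommGroup F]
    {f : X → F} (s : Set X) (hμ : μ s ≠ ⊤) (hf : AEStronglyMeasurable f μ)
    (M : ℝ) (hM : ∀ x, ‖f x‖ ≤ M) (h0 : ∀ x, x ∉ s → f x = 0) : Integrable f μ := by
  have h1 : IntegrableOn f s μ := Measure.integrableOn_of_bounded hμ hf (ae_of_all _ hM)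
  rw [integrableOn_iff_integrable_of_support_subset] at h1
  · exact h1
  · intro x hx
    by_contra h
    exact hx (h0 x h)

variable {E : Type} [MeasureSpace E] [SigmaFinite (volume : Measure E)]

theorem mp_sigma {A W : Type} [MeasureSpace A] [MeasureSpace W] [SigmaFinite (volume : Measure A)]
    [SigmaFinite (volume : Measure W)] :
    MeasurePreserving (fun p : (A × W) × A => ((p.2, p.1.2), p.1.1))
      (((volume : Measure A).prod (volume : Measure W)).prod (volume : Measure A))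
      (((volume : Measure A).prod (volume : Measure W)).prod (volume : Measure A)) := by
  have h1 := measurePreserving_prodAssoc (volume : Measure A) (volume : Measure W)
    (volume : Measure A)
  have h2 : MeasurePreserving (Prod.swap : A × (W × A) → (W × A) × A)
      ((volume : Measure A).prod ((volume : Measure W).prod (volume : Measure A)))
      (((volume : Measure W).prod (volume : Measure A)).prod (volume : Measure A)) :=
    Measure.measurePreserving_swap
  have h3 : MeasurePreserving (Prod.map (Prod.swap : W × A → A × W) (id : A → A))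
      (((volume : Measure W).prod (volume : Measure A)).prod (volume : Measure A))
      (((volume : Measure A).prod (volume : Measure W)).prod (volume : Measure A)) :=
    MeasurePreserving.prod Measure.measurePreserving_swap (MeasurePreserving.id _)
  exact h3.comp (h2.comp h1)

/-- exchange of the coordinate `j` with a new variable -/
def tq {N : ℕ} (j : Fin N) : (Fin N → E) × E ≃ᵐ (Fin N → E) × E where
  toFun p := (Function.update p.1 j p.2, p.1 j)
  invFun p := (Function.update p.1 j p.2, p.1 j)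
  left_inv p := by
    ext1
    · simp
    · simp
  right_inv p := by
    ext1
    · simp
    · simp
  measurable_toFun := by
    refine Measurable.prodMk ?_ ?_
    · exact measurable_update'
    · exact (measurable_pi_apply j).comp measurable_fst
  measurable_invFun := by
    refine Measurable.prodMk ?_ ?_
    · exact measurable_update'
    · exact (measurable_pi_apply j).comp measurable_fst

theorem tq_mp {N : ℕ} (j : Fin N) :
    MeasurePreserving (tq (E := E) j) (volume.prod volume) (volume.prod volume) := by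
  obtain ⟨n, rfl⟩ : ∃ n, N = n + 1 := ⟨N - 1, by have := j.2; omega⟩
  have he := volume_preserving_piFinSuccAbove (fun _ : Fin (n + 1) => E) j
  have h1 : MeasurePreserving (Prod.map (MeasurableEquiv.piFinSuccAbove (fun _ => E) j) (id : E → E))
      ((volume : Measure (Fin (n + 1) → E)).prod (volume : Measure E))
      (((volume : Measure E).prod (volume : Measure (Fin n → E))).prod (volume : Measure E)) :=
    MeasurePreserving.prod he (MeasurePreserving.id _)
  have h2 : MeasurePreserving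
      (Prod.map (MeasurableEquiv.piFinSuccAbove (fun _ => E) j).symm (id : E → E))
      (((volume : Measure E).prod (volume : Measure (Fin n → E))).prod (volume : Measure E))
      ((volume : Measure (Fin (n + 1) → E)).prod (volume : Measure E)) :=
    MeasurePreserving.prod (MeasurePreserving.symm _ he) (MeasurePreserving.id _)
  have h3 := h2.comp ((mp_sigma (A := E) (W := Fin n → E)).comp h1)
  have h4 : (tq (E := E) j : (Fin (n + 1) → E) × E → (Fin (n + 1) → E) × E) =
      (Prod.map (MeasurableEquiv.piFinSuccAbove (fun _ => E) j).symm (id : E → E)) ∘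
      (fun p : (E × (Fin n → E)) × E => ((p.2, p.1.2), p.1.1)) ∘
      (Prod.map (MeasurableEquiv.piFinSuccAbove (fun _ => E) j) (id : E → E)) := by
    funext p
    ext1
    · show Function.update p.1 j p.2 = Fin.insertNth j p.2 (Fin.removeNth j p.1)
      rw [Fin.insertNth_removeNth]
    · rfl
  rw [h4]
  exact h3

theorem swap_int {N : ℕ} (j : Fin N) {F : Type} [NormedAddCommGroup F] [NormedSpace ℝ F]
    (f : (Fin N → E) × E → F) :
    ∫ p, f (Function.update p.1 j p.2, p.1 j) ∂(volume.prod volume) =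
      ∫ p, f p ∂(volume.prod volume) :=
  (tq_mp (E := E) j).integral_comp (tq (E := E) j).measurableEmbedding f


/-- bounded measurable functions supported in a cube -/
structure Nc {N : ℕ} (S : Set E) (f : (Fin N → E) → ℂ) : Prop where
  meas : Measurable f
  bdd : ∃ M : ℝ, 0 ≤ M ∧ ∀ x, ‖f x‖ ≤ M
  supp : ∀ x, f x ≠ 0 → ∀ i, x i ∈ S

theorem pi_lt {N : ℕ} {S : Set E} (hS : (volume : Measure E) S ≠ ⊤) :
    (volume : Measure (Fin N → E)) (Set.pi Set.univ (fun _ => S)) ≠ ⊤ := by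
  rw [volume_pi, Measure.pi_pi]
  exact ENNReal.prod_ne_top (fun _ _ => hS)

theorem Nc.zero_off {N : ℕ} {S : Set E} {f : (Fin N → E) → ℂ} (hf : Nc S f) (x : Fin N → E)
    (hx : x ∉ Set.pi Set.univ (fun _ => S)) : f x = 0 := by
  by_contra h
  exact hx (fun i _ => hf.supp x h i)

theorem Nc.integrable {N : ℕ} {S : Set E} (hS : (volume : Measure E) S ≠ ⊤)
    {f : (Fin N → E) → ℂ} (hf : Nc S f) : Integrable f := by
  obtain ⟨M, _, hM⟩ := hf.bdd
  exact integrable_bdd _ (pi_lt hS) hf.meas.aestronglyMeasurable M hM hf.zero_off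

theorem Nc.mul {N : ℕ} {S : Set E} {f : (Fin N → E) → ℂ} (hf : Nc S f)
    {c : (Fin N → E) → ℂ} (hc : Measurable c) {M : ℝ} (hM : ∀ x, ‖c x‖ ≤ M) :
    Nc S (fun x => c x * f x) := by
  obtain ⟨M', hM0, hM'⟩ := hf.bdd
  refine ⟨hc.mul hf.meas, ⟨|M| * M', by positivity, fun x => ?_⟩, fun x hx => ?_⟩
  · rw [norm_mul]
    exact mul_le_mul ((hM x).trans (le_abs_self M)) (hM' x) (norm_nonneg _) (abs_nonneg _)
  · exact hf.supp x (right_ne_zero_of_mul hx)

theorem Nc.add {N : ℕ} {S : Set E} {f h : (Fin N → E) → ℂ} (hf : Nc S f) (hh : Nc S h) :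
    Nc S (fun x => f x + h x) := by
  obtain ⟨M, h0, hM⟩ := hf.bdd
  obtain ⟨M', h0', hM'⟩ := hh.bdd
  refine ⟨hf.meas.add hh.meas, ⟨M + M', by positivity, fun x => ?_⟩, fun x hx => ?_⟩
  · exact (norm_add_le _ _).trans (add_le_add (hM x) (hM' x))
  · by_cases h1 : f x = 0
    · refine hh.supp x ?_
      intro h2
      exact hx (by simp [h1, h2])
    · exact hf.supp x h1

theorem Nc.sub {N : ℕ} {S : Set E} {f h : (Fin N → E) → ℂ} (hf : Nc S f) (hh : Nc S h) :
    Nc S (fun x => f x - h x) := by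
  have h1 := hf.add (hh.mul (c := fun _ => (-1 : ℂ)) measurable_const (M := 1) (by simp))
  have h2 : (fun x => f x - h x) = fun x => f x + -1 * h x := by
    funext x
    ring
  rw [h2]
  exact h1

theorem Nc.zero {N : ℕ} {S : Set E} : Nc S (fun _ : Fin N → E => (0 : ℂ)) :=
  ⟨measurable_const, ⟨0, le_rfl, by simp⟩, fun x hx => absurd rfl hx⟩

theorem Nc.sum {N : ℕ} {S : Set E} {ι : Type} (t : Finset ι) {f : ι → (Fin N → E) → ℂ}
    (hf : ∀ j, Nc S (f j)) : Nc S (fun x => ∑ j ∈ t, f j x) := by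
  classical
  induction t using Finset.induction_on with
  | empty => simpa using Nc.zero
  | insert a t ha ih =>
    simp only [Finset.sum_insert ha]
    exact (hf a).add ih

theorem Nc.conj_mul_integrable {N : ℕ} {S : Set E} (hS : (volume : Measure E) S ≠ ⊤)
    {f h : (Fin N → E) → ℂ} (hf : Nc S f) (hh : Nc S h) :
    Integrable (fun x => (starRingEnd ℂ) (f x) * h x) := by
  obtain ⟨M, h0, hM⟩ := hf.bdd
  have h1 : Nc S (fun x => (starRingEnd ℂ) (f x) * h x) :=
    hh.mul (Complex.continuous_conj.measurable.comp hf.meas) (M := M)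
      (fun x => by rw [Complex.norm_conj]; exact hM x)
  exact h1.integrable hS

theorem Nc.sq_integrable {N : ℕ} {S : Set E} (hS : (volume : Measure E) S ≠ ⊤)
    {f : (Fin N → E) → ℂ} (hf : Nc S f) : Integrable (fun x => ‖f x‖ ^ 2) := by
  obtain ⟨M, h0, hM⟩ := hf.bdd
  refine integrable_bdd _ (pi_lt hS) (hf.meas.norm.pow_const 2).aestronglyMeasurable (M ^ 2)
    (fun x => ?_) (fun x hx => ?_)
  · rw [Real.norm_of_nonneg (by positivity)]
    exact pow_le_pow_left₀ (norm_nonneg _) (hM x) 2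
  · rw [hf.zero_off x hx]
    simp

/-- the kernel `K` and the function `G` -/
structure Ker (b : Set E) (B : ℝ) (K : E → E → ℝ) (G : E → ℝ) : Prop where
  bm : MeasurableSet b
  bf : (volume : Measure E) b ≠ ⊤
  B0 : 0 ≤ B
  Km : Measurable (fun q : E × E => K q.1 q.2)
  Ks : ∀ x y, K x y = K y x
  Kb : ∀ x y, |K x y| ≤ B
  K0 : ∀ x y, x ∉ b → K x y = 0
  Gm : Measurable G
  Gb : ∀ x, |G x| ≤ 1
  G0 : ∀ x, x ∉ b → G x = 0
  kgk : ∀ x y, ∫ w, K x w * G w * K w y = 0

/-- the operator with kernel `K` in the variable `j` -/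
noncomputable def Pop {N : ℕ} (K : E → E → ℝ) (j : Fin N) (f : (Fin N → E) → ℂ)
    (x : Fin N → E) : ℂ :=
  ∫ y : E, ((K (x j) y : ℝ) : ℂ) * f (Function.update x j y)

section K

variable {b S : Set E} {B : ℝ} {K : E → E → ℝ} {G : E → ℝ}

theorem Ker.K0' (h : Ker b B K G) (x y : E) (hy : y ∉ b) : K x y = 0 := by
  rw [h.Ks]
  exact h.K0 y x hy

theorem Ker.meas_in (h : Ker b B K G) {N : ℕ} (j : Fin N) {f : (Fin N → E) → ℂ}
    (hf : Measurable f) :
    Measurable (fun p : (Fin N → E) × E => ((K (p.1 j) p.2 : ℝ) : ℂ) *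
      f (Function.update p.1 j p.2)) := by
  have hm : Measurable (fun p : (Fin N → E) × E => (p.1 j, p.2)) :=
    ((measurable_pi_apply j).comp measurable_fst).prodMk measurable_snd
  have h1 : Measurable (fun p : (Fin N → E) × E => K (p.1 j) p.2) := h.Km.comp hm
  exact (Complex.continuous_ofReal.measurable.comp h1).mul (hf.comp measurable_update')

theorem Ker.int_in (h : Ker b B K G) {N : ℕ} (j : Fin N) {f : (Fin N → E) → ℂ}
    (hf : Nc S f) (x : Fin N → E) :
    Integrable (fun y : E => ((K (x j) y : ℝ) : ℂ) * f (Function.update x j y)) := by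
  obtain ⟨M, h0, hM⟩ := hf.bdd
  refine integrable_bdd b h.bf
    ((h.meas_in j hf.meas).comp measurable_prodMk_left).aestronglyMeasurable (B * M)
    (fun y => ?_) (fun y hy => ?_)
  · rw [norm_mul, Complex.norm_real, Real.norm_eq_abs]
    exact mul_le_mul (h.Kb _ _) (hM _) (norm_nonneg _) h.B0
  · rw [h.K0' _ _ hy]
    simp

theorem Ker.nc (h : Ker b B K G) (hb : b ⊆ S) {N : ℕ} (j : Fin N) {f : (Fin N → E) → ℂ}
    (hf : Nc S f) : Nc S (Pop K j f) := by
  obtain ⟨M, h0, hM⟩ := hf.bdd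
  refine ⟨?_, ⟨B * M * (volume : Measure E).real b,
    mul_nonneg (mul_nonneg h.B0 h0) measureReal_nonneg, fun x => ?_⟩, fun x hx => ?_⟩
  · exact (StronglyMeasurable.integral_prod_right' (ν := (volume : Measure E))
      (h.meas_in j hf.meas).stronglyMeasurable).measurable
  · unfold Pop
    have h1 : ∫ y : E, ((K (x j) y : ℝ) : ℂ) * f (Function.update x j y) =
        ∫ y in b, ((K (x j) y : ℝ) : ℂ) * f (Function.update x j y) := by
      rw [setIntegral_eq_integral_of_forall_compl_eq_zero]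
      intro y hy
      rw [h.K0' _ _ hy]
      simp
    rw [h1]
    refine norm_setIntegral_le_of_norm_le_const h.bf.lt_top (fun y _ => ?_)
    rw [norm_mul, Complex.norm_real, Real.norm_eq_abs]
    exact mul_le_mul (h.Kb _ _) (hM _) (norm_nonneg _) h.B0
  · have hxj : x j ∈ b := by
      by_contra hxj
      apply hx
      unfold Pop
      simp [h.K0 _ _ hxj]
    have hy : ∃ y, f (Function.update x j y) ≠ 0 := by
      by_contra hy
      simp only [not_exists, not_not] at hy
      apply hx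
      unfold Pop
      simp [hy]
    obtain ⟨y, hy⟩ := hy
    intro i
    by_cases hij : i = j
    · rw [hij]
      exact hb hxj
    · have := hf.supp _ hy i
      rwa [Function.update_of_ne hij] at this


theorem prod_lt {N : ℕ} (hS : (volume : Measure E) S ≠ ⊤) (hb : (volume : Measure E) b ≠ ⊤) :
    ((volume : Measure (Fin N → E)).prod (volume : Measure E))
      ((Set.pi Set.univ (fun _ => S)) ×ˢ b) ≠ ⊤ := by
  rw [Measure.prod_prod]
  exact ENNReal.mul_ne_top (pi_lt hS) hb

/-- the operator is symmetric -/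
theorem Ker.adj (h : Ker b B K G) (hS : (volume : Measure E) S ≠ ⊤)
    {N : ℕ} (j : Fin N) {f g : (Fin N → E) → ℂ} (hf : Nc S f) (hg : Nc S g) :
    ∫ x, (starRingEnd ℂ) (Pop K j f x) * g x = ∫ x, (starRingEnd ℂ) (f x) * Pop K j g x := by
  obtain ⟨M, h0, hM⟩ := hf.bdd
  obtain ⟨M', h0', hM'⟩ := hg.bdd
  have hFm : Measurable (fun p : (Fin N → E) × E =>
      (starRingEnd ℂ) (((K (p.1 j) p.2 : ℝ) : ℂ) * f (Function.update p.1 j p.2)) * g p.1) :=
    (Complex.continuous_conj.measurable.comp (h.meas_in j hf.meas)).mul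
      (hg.meas.comp measurable_fst)
  have hF : Integrable (fun p : (Fin N → E) × E =>
      (starRingEnd ℂ) (((K (p.1 j) p.2 : ℝ) : ℂ) * f (Function.update p.1 j p.2)) * g p.1)
      (volume.prod volume) := by
    refine integrable_bdd _ (prod_lt (N := N) hS h.bf) hFm.aestronglyMeasurable (B * M * M')
      (fun p => ?_) (fun p hp => ?_)
    · rw [norm_mul, Complex.norm_conj, norm_mul, Complex.norm_real, Real.norm_eq_abs]
      exact mul_le_mul (mul_le_mul (h.Kb _ _) (hM _) (norm_nonneg _) h.B0) (hM' _)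
        (norm_nonneg _) (mul_nonneg h.B0 h0)
    · rw [Set.mem_prod, not_and_or] at hp
      rcases hp with hp | hp
      · rw [hg.zero_off _ hp, mul_zero]
      · rw [h.K0' _ _ hp]
        simp
  have hG : Integrable (fun p : (Fin N → E) × E =>
      (starRingEnd ℂ) (f p.1) * (((K (p.1 j) p.2 : ℝ) : ℂ) * g (Function.update p.1 j p.2)))
      (volume.prod volume) := by
    have hGm : Measurable (fun p : (Fin N → E) × E =>
      (starRingEnd ℂ) (f p.1) * (((K (p.1 j) p.2 : ℝ) : ℂ) * g (Function.update p.1 j p.2))) :=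
      (Complex.continuous_conj.measurable.comp (hf.meas.comp measurable_fst)).mul
        (h.meas_in j hg.meas)
    refine integrable_bdd _ (prod_lt (N := N) hS h.bf) hGm.aestronglyMeasurable (M * (B * M'))
      (fun p => ?_) (fun p hp => ?_)
    · rw [norm_mul, Complex.norm_conj, norm_mul, Complex.norm_real, Real.norm_eq_abs]
      exact mul_le_mul (hM _) (mul_le_mul (h.Kb _ _) (hM' _) (norm_nonneg _) h.B0)
        (by positivity) h0
    · rw [Set.mem_prod, not_and_or] at hp
      rcases hp with hp | hp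
      · rw [hf.zero_off _ hp]
        simp
      · rw [h.K0' _ _ hp]
        simp
  have e1 : ∫ x, (starRingEnd ℂ) (Pop K j f x) * g x = ∫ p : (Fin N → E) × E,
      (starRingEnd ℂ) (((K (p.1 j) p.2 : ℝ) : ℂ) * f (Function.update p.1 j p.2)) * g p.1
      ∂(volume.prod volume) := by
    rw [integral_prod _ hF]
    refine integral_congr_ae (Filter.Eventually.of_forall fun x => ?_)
    show (starRingEnd ℂ) (Pop K j f x) * g x = _
    unfold Pop
    rw [← integral_conj, ← integral_mul_const]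
  have e2 : ∫ x, (starRingEnd ℂ) (f x) * Pop K j g x = ∫ p : (Fin N → E) × E,
      (starRingEnd ℂ) (f p.1) * (((K (p.1 j) p.2 : ℝ) : ℂ) * g (Function.update p.1 j p.2))
      ∂(volume.prod volume) := by
    rw [integral_prod _ hG]
    refine integral_congr_ae (Filter.Eventually.of_forall fun x => ?_)
    show (starRingEnd ℂ) (f x) * Pop K j g x = _
    unfold Pop
    rw [← integral_const_mul]
  rw [e1, e2, ← swap_int j]
  refine integral_congr_ae (Filter.Eventually.of_forall fun p => ?_)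
  simp only [Function.update_self, Function.update_idem, Function.update_eq_self, map_mul,
    Complex.conj_ofReal]
  rw [h.Ks]
  ring

theorem Ker.int2 (h : Ker b B K G) {N : ℕ} (i j : Fin N) (x : Fin N → E)
    {f : (Fin N → E) → ℂ} (hf : Nc S f) {k₁ k₂ : E × E → ℝ} (hk₁ : Measurable k₁)
    (hk₂ : Measurable k₂) {M₁ M₂ : ℝ} (hM₁ : ∀ p, |k₁ p| ≤ M₁) (hM₂ : ∀ p, |k₂ p| ≤ M₂)
    (hb₁ : ∀ p, p.1 ∉ b → k₁ p = 0) (hb₂ : ∀ p, p.2 ∉ b → k₂ p = 0) :
    Integrable (fun p : E × E => ((k₁ p : ℝ) : ℂ) * (((k₂ p : ℝ) : ℂ) *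
      f (Function.update (Function.update x i p.1) j p.2))) (volume.prod volume) := by
  obtain ⟨M, h0, hM⟩ := hf.bdd
  have hm1 : Measurable (fun p : E × E => (Function.update x i p.1, p.2)) :=
    ((measurable_update x).comp measurable_fst).prodMk measurable_snd
  have hm2 : Measurable (fun p : E × E => Function.update (Function.update x i p.1) j p.2) :=
    measurable_update'.comp hm1
  have hm : Measurable (fun p : E × E => ((k₁ p : ℝ) : ℂ) * (((k₂ p : ℝ) : ℂ) *
      f (Function.update (Function.update x i p.1) j p.2))) :=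
    (Complex.continuous_ofReal.measurable.comp hk₁).mul
      ((Complex.continuous_ofReal.measurable.comp hk₂).mul (hf.meas.comp hm2))
  have hfin : ((volume : Measure E).prod (volume : Measure E)) (b ×ˢ b) ≠ ⊤ := by
    rw [Measure.prod_prod]
    exact ENNReal.mul_ne_top h.bf h.bf
  refine integrable_bdd _ hfin hm.aestronglyMeasurable (|M₁| * (|M₂| * M))
    (fun p => ?_) (fun p hp => ?_)
  · rw [norm_mul, norm_mul, Complex.norm_real, Real.norm_eq_abs, Complex.norm_real,
      Real.norm_eq_abs]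
    exact mul_le_mul ((hM₁ p).trans (le_abs_self _))
      (mul_le_mul ((hM₂ p).trans (le_abs_self _)) (hM _) (norm_nonneg _) (abs_nonneg _))
      (by positivity) (abs_nonneg _)
  · rw [Set.mem_prod, not_and_or] at hp
    rcases hp with hp | hp
    · rw [hb₁ p hp]
      simp
    · rw [hb₂ p hp]
      simp

theorem Ker.comm (h : Ker b B K G) {N : ℕ} {i j : Fin N} (hij : i ≠ j)
    {f : (Fin N → E) → ℂ} (hf : Nc S f) (x : Fin N → E) :
    Pop K i (fun x => ((G (x i) : ℝ) : ℂ) * (((G (x j) : ℝ) : ℂ) * Pop K j f x)) x =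
      ((G (x j) : ℝ) : ℂ) * Pop K j (Pop K i (fun x => ((G (x i) : ℝ) : ℂ) * f x)) x := by
  unfold Pop
  have hKi : Measurable (fun p : E × E => K (x i) p.1 * G p.1) :=
    (h.Km.comp (measurable_const.prodMk measurable_fst)).mul (h.Gm.comp measurable_fst)
  have hKj : Measurable (fun p : E × E => K (x j) p.2) :=
    h.Km.comp (measurable_const.prodMk measurable_snd)
  have hI := h.int2 i j x hf hKi hKj (M₁ := B * 1) (M₂ := B)
    (fun p => by rw [abs_mul]; exact mul_le_mul (h.Kb _ _) (h.Gb _) (abs_nonneg _) h.B0)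
    (fun p => h.Kb _ _) (fun p hp => by simp [h.G0 _ hp]) (fun p hp => h.K0' _ _ hp)
  have hsw := integral_integral_swap (μ := (volume : Measure E)) (ν := (volume : Measure E))
    (f := fun y y' => (((K (x i) y * G y : ℝ) : ℂ)) * (((K (x j) y' : ℝ) : ℂ) *
      f (Function.update (Function.update x i y) j y'))) hI
  have e1 : ∀ y : E, ((K (x i) y : ℝ) : ℂ) * (((G (Function.update x i y i) : ℝ) : ℂ) *
      (((G (Function.update x i y j) : ℝ) : ℂ) *
        ∫ y', ((K (Function.update x i y j) y' : ℝ) : ℂ) *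
          f (Function.update (Function.update x i y) j y'))) =
      ((G (x j) : ℝ) : ℂ) * ∫ y', (((K (x i) y * G y : ℝ) : ℂ)) * (((K (x j) y' : ℝ) : ℂ) *
        f (Function.update (Function.update x i y) j y')) := by
    intro y
    rw [integral_const_mul]
    rw [Function.update_self, Function.update_of_ne hij.symm]
    push_cast
    ring
  have e2 : ∀ y' : E, ((K (x j) y' : ℝ) : ℂ) *
      ∫ y, ((K (Function.update x j y' i) y : ℝ) : ℂ) *
        (((G (Function.update (Function.update x j y') i y i) : ℝ) : ℂ) *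
          f (Function.update (Function.update x j y') i y)) =
      ∫ y, (((K (x i) y * G y : ℝ) : ℂ)) * (((K (x j) y' : ℝ) : ℂ) *
        f (Function.update (Function.update x i y) j y')) := by
    intro y'
    rw [← integral_const_mul]
    refine integral_congr_ae (Filter.Eventually.of_forall fun y => ?_)
    beta_reduce
    rw [Function.update_of_ne hij, Function.update_self, Function.update_comm hij]
    push_cast
    ring
  calc _ = ∫ y, ((G (x j) : ℝ) : ℂ) * ∫ y', (((K (x i) y * G y : ℝ) : ℂ)) *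
        (((K (x j) y' : ℝ) : ℂ) * f (Function.update (Function.update x i y) j y')) :=
        integral_congr_ae (Filter.Eventually.of_forall e1)
    _ = ((G (x j) : ℝ) : ℂ) * ∫ y, ∫ y', (((K (x i) y * G y : ℝ) : ℂ)) *
        (((K (x j) y' : ℝ) : ℂ) * f (Function.update (Function.update x i y) j y')) := by
        rw [integral_const_mul]
    _ = ((G (x j) : ℝ) : ℂ) * ∫ y', ∫ y, (((K (x i) y * G y : ℝ) : ℂ)) *
        (((K (x j) y' : ℝ) : ℂ) * f (Function.update (Function.update x i y) j y')) := by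
        rw [hsw]
    _ = _ := by
        congr 1
        exact (integral_congr_ae (Filter.Eventually.of_forall e2)).symm

theorem Ker.pgp (h : Ker b B K G) {N : ℕ} (j : Fin N)
    {f : (Fin N → E) → ℂ} (hf : Nc S f) (x : Fin N → E) :
    Pop K j (fun x => ((G (x j) : ℝ) : ℂ) * Pop K j f x) x = 0 := by
  unfold Pop
  have hKi : Measurable (fun p : E × E => K (x j) p.1 * G p.1) :=
    (h.Km.comp (measurable_const.prodMk measurable_fst)).mul (h.Gm.comp measurable_fst)
  have hKj : Measurable (fun p : E × E => K p.1 p.2) := h.Km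
  have hI := h.int2 j j x hf hKi hKj (M₁ := B * 1) (M₂ := B)
    (fun p => by rw [abs_mul]; exact mul_le_mul (h.Kb _ _) (h.Gb _) (abs_nonneg _) h.B0)
    (fun p => h.Kb _ _) (fun p hp => by simp [h.G0 _ hp]) (fun p hp => h.K0' _ _ hp)
  have hsw := integral_integral_swap (μ := (volume : Measure E)) (ν := (volume : Measure E))
    (f := fun y y' => (((K (x j) y * G y : ℝ) : ℂ)) * (((K y y' : ℝ) : ℂ) *
      f (Function.update (Function.update x j y) j y'))) hI
  have e1 : ∀ y : E, ((K (x j) y : ℝ) : ℂ) * (((G (Function.update x j y j) : ℝ) : ℂ) *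
        ∫ y', ((K (Function.update x j y j) y' : ℝ) : ℂ) *
          f (Function.update (Function.update x j y) j y')) =
      ∫ y', (((K (x j) y * G y : ℝ) : ℂ)) * (((K y y' : ℝ) : ℂ) *
        f (Function.update (Function.update x j y) j y')) := by
    intro y
    rw [integral_const_mul]
    rw [Function.update_self]
    push_cast
    ring
  have e2 : ∀ y' : E, ∫ y, (((K (x j) y * G y : ℝ) : ℂ)) * (((K y y' : ℝ) : ℂ) *
        f (Function.update (Function.update x j y) j y')) = 0 := by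
    intro y'
    have e3 : ∀ y, (((K (x j) y * G y : ℝ) : ℂ)) * (((K y y' : ℝ) : ℂ) *
        f (Function.update (Function.update x j y) j y')) =
        ((K (x j) y * G y * K y y' : ℝ) : ℂ) * f (Function.update x j y') := by
      intro y
      rw [Function.update_idem]
      push_cast
      ring
    calc _ = ∫ y, ((K (x j) y * G y * K y y' : ℝ) : ℂ) * f (Function.update x j y') :=
          integral_congr_ae (Filter.Eventually.of_forall e3)
      _ = 0 := by
          rw [integral_mul_const]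
          have e4 : ∫ y, ((K (x j) y * G y * K y y' : ℝ) : ℂ) =
              ((∫ y, K (x j) y * G y * K y y' : ℝ) : ℂ) := integral_ofReal
          rw [e4, h.kgk]
          simp
  calc _ = ∫ y, ∫ y', (((K (x j) y * G y : ℝ) : ℂ)) * (((K y y' : ℝ) : ℂ) *
        f (Function.update (Function.update x j y) j y')) :=
        integral_congr_ae (Filter.Eventually.of_forall e1)
    _ = ∫ y', ∫ y, (((K (x j) y * G y : ℝ) : ℂ)) * (((K y y' : ℝ) : ℂ) *
        f (Function.update (Function.update x j y) j y')) := hsw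
    _ = ∫ y' : E, (0 : ℂ) := integral_congr_ae (Filter.Eventually.of_forall e2)
    _ = 0 := by simp


theorem cross (h : Ker b B K G) (hb : b ⊆ S) (hS : (volume : Measure E) S ≠ ⊤) {N : ℕ}
    {i j : Fin N} (hij : i ≠ j) {f : (Fin N → E) → ℂ} (hf : Nc S f) :
    ∫ x, (starRingEnd ℂ) (((G (x i) : ℝ) : ℂ) * Pop K i f x) *
        (((G (x j) : ℝ) : ℂ) * Pop K j f x) =
      ∫ x, (starRingEnd ℂ) (Pop K j (fun x => ((G (x j) : ℝ) : ℂ) * f x) x) *
        Pop K i (fun x => ((G (x i) : ℝ) : ℂ) * f x) x := by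
  have hGm : ∀ k : Fin N, Measurable (fun x : Fin N → E => ((G (x k) : ℝ) : ℂ)) := fun k =>
    Complex.continuous_ofReal.measurable.comp (h.Gm.comp (measurable_pi_apply k))
  have hGb : ∀ (k : Fin N) (x : Fin N → E), ‖((G (x k) : ℝ) : ℂ)‖ ≤ 1 := fun k x => by
    rw [Complex.norm_real, Real.norm_eq_abs]
    exact h.Gb _
  have hGf : ∀ (k : Fin N) {g : (Fin N → E) → ℂ}, Nc S g →
      Nc S (fun x => ((G (x k) : ℝ) : ℂ) * g x) := fun k g hg => hg.mul (hGm k) (hGb k)
  calc _ = ∫ x, (starRingEnd ℂ) (Pop K i f x) *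
        (((G (x i) : ℝ) : ℂ) * (((G (x j) : ℝ) : ℂ) * Pop K j f x)) := by
        refine integral_congr_ae (Filter.Eventually.of_forall fun x => ?_)
        beta_reduce
        rw [map_mul, Complex.conj_ofReal]
        ring
    _ = ∫ x, (starRingEnd ℂ) (f x) *
        Pop K i (fun x => ((G (x i) : ℝ) : ℂ) * (((G (x j) : ℝ) : ℂ) * Pop K j f x)) x :=
        h.adj hS i hf (hGf i (hGf j (h.nc hb j hf)))
    _ = ∫ x, (starRingEnd ℂ) (((G (x j) : ℝ) : ℂ) * f x) *
        Pop K j (Pop K i (fun x => ((G (x i) : ℝ) : ℂ) * f x)) x := by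
        refine integral_congr_ae (Filter.Eventually.of_forall fun x => ?_)
        beta_reduce
        rw [h.comm hij hf x, map_mul, Complex.conj_ofReal]
        ring
    _ = _ := (h.adj hS j (hGf j hf) (h.nc hb i (hGf i hf))).symm

theorem sum_sq (hS : (volume : Measure E) S ≠ ⊤) {N : ℕ} (e : Fin N → ℝ)
    {f : Fin N → (Fin N → E) → ℂ} (hf : ∀ j, Nc S (f j)) :
    ∫ x, ‖∑ j, ((e j : ℝ) : ℂ) * f j x‖ ^ 2 =
      ∑ i, ∑ j, e i * e j * (∫ x, (starRingEnd ℂ) (f i x) * f j x).re := by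
  have hI : ∀ i j, Integrable (fun x => (starRingEnd ℂ) (f i x) * f j x) := fun i j =>
    (hf i).conj_mul_integrable hS (hf j)
  have e1 : ∀ x, ‖∑ j, ((e j : ℝ) : ℂ) * f j x‖ ^ 2 =
      ∑ i, ∑ j, e i * e j * ((starRingEnd ℂ) (f i x) * f j x).re := by
    intro x
    have e2 : ((‖∑ j, ((e j : ℝ) : ℂ) * f j x‖ ^ 2 : ℝ) : ℂ) =
        ∑ i, ∑ j, ((e i * e j : ℝ) : ℂ) * ((starRingEnd ℂ) (f i x) * f j x) := by
      rw [← Complex.normSq_eq_norm_sq, Complex.normSq_eq_conj_mul_self, map_sum,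
        Finset.sum_mul_sum]
      refine Finset.sum_congr rfl fun i _ => Finset.sum_congr rfl fun j _ => ?_
      rw [map_mul, Complex.conj_ofReal]
      push_cast
      ring
    have e3 := congrArg Complex.re e2
    rw [Complex.ofReal_re, Complex.re_sum] at e3
    rw [e3]
    refine Finset.sum_congr rfl fun i _ => ?_
    rw [Complex.re_sum]
    refine Finset.sum_congr rfl fun j _ => ?_
    rw [Complex.re_ofReal_mul]
  simp_rw [e1]
  rw [integral_finsetSum]
  · refine Finset.sum_congr rfl fun i _ => ?_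
    rw [integral_finsetSum]
    · refine Finset.sum_congr rfl fun j _ => ?_
      rw [integral_const_mul]
      congr 1
      exact integral_re (hI i j)
    · intro j _
      exact ((hI i j).re).const_mul _
  · intro i _
    exact integrable_finsetSum _ fun j _ => ((hI i j).re).const_mul _

theorem diag_sq (hS : (volume : Measure E) S ≠ ⊤) {N : ℕ} {f : (Fin N → E) → ℂ}
    (hf : Nc S f) : (∫ x, (starRingEnd ℂ) (f x) * f x).re = ∫ x, ‖f x‖ ^ 2 := by
  have e1 : ∀ x, (starRingEnd ℂ) (f x) * f x = ((‖f x‖ ^ 2 : ℝ) : ℂ) := by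
    intro x
    rw [← Complex.normSq_eq_norm_sq, Complex.normSq_eq_conj_mul_self]
  have e2 : ∫ x, ((‖f x‖ ^ 2 : ℝ) : ℂ) = ((∫ x, ‖f x‖ ^ 2 : ℝ) : ℂ) := integral_ofReal
  simp_rw [e1]
  rw [e2, Complex.ofReal_re]

theorem sum_split (hS : (volume : Measure E) S ≠ ⊤) {N : ℕ} (e : Fin N → ℝ)
    (he : ∀ i, e i = 1 ∨ e i = -1) {f : Fin N → (Fin N → E) → ℂ} (hf : ∀ j, Nc S (f j)) :
    ∫ x, ‖∑ j, ((e j : ℝ) : ℂ) * f j x‖ ^ 2 = (∑ j, ∫ x, ‖f j x‖ ^ 2) +
      ∑ i, ∑ j, if i = j then 0 else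
        e i * e j * (∫ x, (starRingEnd ℂ) (f i x) * f j x).re := by
  rw [sum_sq hS e hf, ← Finset.sum_add_distrib]
  refine Finset.sum_congr rfl fun i _ => ?_
  have h1 : ∀ j, e i * e j * (∫ x, (starRingEnd ℂ) (f i x) * f j x).re =
      (if i = j then (∫ x, ‖f i x‖ ^ 2) else 0) +
      (if i = j then 0 else e i * e j * (∫ x, (starRingEnd ℂ) (f i x) * f j x).re) := by
    intro j
    by_cases hij : i = j
    · subst hij
      rw [if_pos rfl, if_pos rfl, add_zero, diag_sq hS (hf i)]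
      rcases he i with h2 | h2 <;> rw [h2] <;> ring
    · rw [if_neg hij, if_neg hij, zero_add]
  rw [Finset.sum_congr rfl (fun j _ => h1 j), Finset.sum_add_distrib, Finset.sum_ite_eq,
    if_pos (Finset.mem_univ i)]

theorem main1 (h : Ker b B K G) (hb : b ⊆ S) (hS : (volume : Measure E) S ≠ ⊤) {N : ℕ}
    (e : Fin N → ℝ) (he : ∀ i, e i = 1 ∨ e i = -1) {f : (Fin N → E) → ℂ} (hf : Nc S f) :
    (∑ j, ∫ x, ‖((G (x j) : ℝ) : ℂ) * Pop K j f x‖ ^ 2) -
      (∑ j, ∫ x, ‖Pop K j (fun x => ((G (x j) : ℝ) : ℂ) * f x) x‖ ^ 2) ≤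
      ∫ x, ‖∑ j, ((e j : ℝ) : ℂ) * (((G (x j) : ℝ) : ℂ) * Pop K j f x)‖ ^ 2 := by
  have hGm : ∀ k : Fin N, Measurable (fun x : Fin N → E => ((G (x k) : ℝ) : ℂ)) := fun k =>
    Complex.continuous_ofReal.measurable.comp (h.Gm.comp (measurable_pi_apply k))
  have hGb : ∀ (k : Fin N) (x : Fin N → E), ‖((G (x k) : ℝ) : ℂ)‖ ≤ 1 := fun k x => by
    rw [Complex.norm_real, Real.norm_eq_abs]
    exact h.Gb _
  have hGf : ∀ (k : Fin N) {g : (Fin N → E) → ℂ}, Nc S g →
      Nc S (fun x => ((G (x k) : ℝ) : ℂ) * g x) := fun k g hg => hg.mul (hGm k) (hGb k)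
  have ha := sum_split hS e he (f := fun j x => ((G (x j) : ℝ) : ℂ) * Pop K j f x)
    (fun j => hGf j (h.nc hb j hf))
  have hb' := sum_split hS e he
    (f := fun j x => Pop K j (fun x => ((G (x j) : ℝ) : ℂ) * f x) x)
    (fun j => h.nc hb j (hGf j hf))
  have hx : (∑ i, ∑ j, if i = j then 0 else e i * e j *
      (∫ x, (starRingEnd ℂ) (((G (x i) : ℝ) : ℂ) * Pop K i f x) *
        (((G (x j) : ℝ) : ℂ) * Pop K j f x)).re) =
      ∑ i, ∑ j, if i = j then 0 else e i * e j *
      (∫ x, (starRingEnd ℂ) (Pop K i (fun x => ((G (x i) : ℝ) : ℂ) * f x) x) *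
        Pop K j (fun x => ((G (x j) : ℝ) : ℂ) * f x) x).re := by
    rw [Finset.sum_comm]
    refine Finset.sum_congr rfl fun j _ => Finset.sum_congr rfl fun i _ => ?_
    by_cases hij : i = j
    · rw [if_pos hij, if_pos hij.symm]
    · rw [if_neg hij, if_neg (fun hh => hij hh.symm), cross h hb hS hij hf]
      ring
  have hpos : 0 ≤ ∫ x, ‖∑ j, ((e j : ℝ) : ℂ) *
      Pop K j (fun x => ((G (x j) : ℝ) : ℂ) * f x) x‖ ^ 2 :=
    integral_nonneg fun x => by positivity
  rw [hb'] at hpos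
  rw [ha, hx]
  linarith


theorem cs_b (hbf : (volume : Measure E) b ≠ ⊤) {v : E → ℝ} (hv : Measurable v) {M : ℝ}
    (hM : ∀ y, |v y| ≤ M) :
    (∫ y in b, v y) ^ 2 ≤ (volume : Measure E).real b * ∫ y in b, (v y) ^ 2 := by
  have hM0 : 0 ≤ |M| := abs_nonneg M
  have hi1 : IntegrableOn v b := Measure.integrableOn_of_bounded hbf hv.aestronglyMeasurable
    (ae_of_all _ (fun y => by rw [Real.norm_eq_abs]; exact hM y))
  have hi2 : IntegrableOn (fun y => (v y) ^ 2) b :=
    Measure.integrableOn_of_bounded (M := |M| ^ 2) hbf (hv.pow_const 2).aestronglyMeasurable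
      (ae_of_all _ (fun y => by
        rw [Real.norm_eq_abs, abs_pow]
        exact pow_le_pow_left₀ (abs_nonneg _) ((hM y).trans (le_abs_self M)) 2))
  have hi3 : IntegrableOn (fun _ : E => (1 : ℝ)) b := integrableOn_const hbf
  have key : ∀ t : ℝ, 0 ≤ (volume : Measure E).real b * (t * t) +
      (-2 * ∫ y in b, v y) * t + ∫ y in b, (v y) ^ 2 := by
    intro t
    have h1 : 0 ≤ ∫ y in b, (v y - t) ^ 2 := integral_nonneg fun y => sq_nonneg _
    have h2 : ∫ y in b, (v y - t) ^ 2 =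
        ∫ y in b, ((v y) ^ 2 + (-2 * t) * v y) + (t * t) * 1 := by
      refine integral_congr_ae (Filter.Eventually.of_forall fun y => ?_)
      beta_reduce
      ring
    have h3 : ∫ y in b, ((v y) ^ 2 + (-2 * t) * v y) + (t * t) * 1 =
        (∫ y in b, ((v y) ^ 2 + (-2 * t) * v y)) + ∫ y in b, (t * t) * 1 :=
      integral_add (hi2.add (hi1.const_mul (-2 * t))) (hi3.const_mul (t * t))
    have h4 : ∫ y in b, ((v y) ^ 2 + (-2 * t) * v y) =
        (∫ y in b, (v y) ^ 2) + ∫ y in b, (-2 * t) * v y :=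
      integral_add hi2 (hi1.const_mul (-2 * t))
    have h5 : ∫ y in b, (-2 * t) * v y = (-2 * t) * ∫ y in b, v y := integral_const_mul _ _
    have h6 : ∫ _ in b, (t * t) * (1 : ℝ) = (t * t) * (volume : Measure E).real b := by
      rw [integral_const_mul]
      simp
    rw [h2, h3, h4, h5, h6] at h1
    linarith
  have hd := discrim_le_zero key
  unfold discrim at hd
  nlinarith

/-- the indicator function -/
noncomputable def chi (b : Set E) : E → ℝ := b.indicator (fun _ => (1 : ℝ))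

theorem chi_mem {y : E} (hy : y ∈ b) : chi b y = 1 := by
  unfold chi
  rw [Set.indicator_of_mem hy]

theorem chi_not {y : E} (hy : y ∉ b) : chi b y = 0 := by
  unfold chi
  rw [Set.indicator_of_notMem hy]

theorem chi_nonneg (y : E) : 0 ≤ chi b y := by
  by_cases hy : y ∈ b
  · rw [chi_mem hy]
    exact zero_le_one
  · rw [chi_not hy]

theorem chi_le (y : E) : chi b y ≤ 1 := by
  by_cases hy : y ∈ b
  · rw [chi_mem hy]
  · rw [chi_not hy]
    exact zero_le_one

theorem chi_sq (y : E) : chi b y * chi b y = chi b y := by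
  by_cases hy : y ∈ b
  · rw [chi_mem hy, one_mul]
  · rw [chi_not hy, zero_mul]

theorem Ker.chi_meas (h : Ker b B K G) : Measurable (chi b) := measurable_const.indicator h.bm

theorem Ker.Gchi (h : Ker b B K G) (y : E) : G y * chi b y = G y := by
  by_cases hy : y ∈ b
  · rw [chi_mem hy, mul_one]
  · rw [h.G0 y hy, zero_mul]

theorem Ker.Gle (h : Ker b B K G) (y : E) : |G y| ≤ chi b y := by
  by_cases hy : y ∈ b
  · rw [chi_mem hy]
    exact h.Gb y
  · rw [h.G0 y hy, chi_not hy, abs_zero]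

theorem Ker.pw (h : Ker b B K G) {N : ℕ} (j : Fin N) {f : (Fin N → E) → ℂ} (hf : Nc S f)
    (x : Fin N → E) : ‖Pop K j f x‖ ^ 2 ≤ B ^ 2 * (volume : Measure E).real b *
      ∫ y, chi b (x j) * (chi b y * ‖f (Function.update x j y)‖ ^ 2) := by
  obtain ⟨M, h0, hM⟩ := hf.bdd
  by_cases hxj : x j ∈ b
  · have h1 : Pop K j f x =
        ∫ y in b, ((K (x j) y : ℝ) : ℂ) * f (Function.update x j y) := by
      unfold Pop
      rw [setIntegral_eq_integral_of_forall_compl_eq_zero]
      intro y hy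
      rw [h.K0' _ _ hy]
      simp
    have hfu : Measurable (fun y => f (Function.update x j y)) :=
      hf.meas.comp (measurable_update x)
    have h2 : ‖Pop K j f x‖ ≤ ∫ y in b, B * ‖f (Function.update x j y)‖ := by
      rw [h1]
      refine (norm_integral_le_integral_norm _).trans ?_
      refine integral_mono_of_nonneg (ae_of_all _ fun y => norm_nonneg _) ?_
        (ae_of_all _ fun y => ?_)
      · exact Measure.integrableOn_of_bounded (M := B * M) h.bf
          (hfu.norm.const_mul B).aestronglyMeasurable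
          (ae_of_all _ (fun y => by
            rw [Real.norm_of_nonneg (mul_nonneg h.B0 (norm_nonneg _))]
            exact mul_le_mul_of_nonneg_left (hM _) h.B0))
      · beta_reduce
        rw [norm_mul, Complex.norm_real, Real.norm_eq_abs]
        exact mul_le_mul_of_nonneg_right (h.Kb _ _) (norm_nonneg _)
    rw [integral_const_mul] at h2
    have h3 := cs_b h.bf (v := fun y => ‖f (Function.update x j y)‖) hfu.norm (M := M)
      (fun y => by rw [abs_of_nonneg (norm_nonneg _)]; exact hM _)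
    have h4 : ∫ y, chi b (x j) * (chi b y * ‖f (Function.update x j y)‖ ^ 2) =
        ∫ y in b, ‖f (Function.update x j y)‖ ^ 2 := by
      rw [← integral_indicator h.bm]
      refine integral_congr_ae (Filter.Eventually.of_forall fun y => ?_)
      beta_reduce
      rw [chi_mem hxj, one_mul]
      by_cases hy : y ∈ b
      · rw [chi_mem hy, one_mul, Set.indicator_of_mem hy]
      · rw [chi_not hy, zero_mul, Set.indicator_of_notMem hy]
    rw [h4]
    calc ‖Pop K j f x‖ ^ 2 ≤ (B * ∫ y in b, ‖f (Function.update x j y)‖) ^ 2 :=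
          pow_le_pow_left₀ (norm_nonneg _) h2 2
      _ = B ^ 2 * (∫ y in b, ‖f (Function.update x j y)‖) ^ 2 := by ring
      _ ≤ B ^ 2 * ((volume : Measure E).real b *
            ∫ y in b, ‖f (Function.update x j y)‖ ^ 2) :=
          mul_le_mul_of_nonneg_left h3 (sq_nonneg B)
      _ = _ := by ring
  · have h1 : Pop K j f x = 0 := by
      unfold Pop
      simp [h.K0 _ _ hxj]
    rw [h1, chi_not hxj]
    simp

/-- the operator is bounded -/
theorem Ker.l2 (h : Ker b B K G) (hb : b ⊆ S) (hS : (volume : Measure E) S ≠ ⊤) {N : ℕ}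
    (j : Fin N) {f : (Fin N → E) → ℂ} (hf : Nc S f) :
    ∫ x, ‖Pop K j f x‖ ^ 2 ≤ (B * (volume : Measure E).real b) ^ 2 *
      ∫ x, chi b (x j) * ‖f x‖ ^ 2 := by
  obtain ⟨M, h0, hM⟩ := hf.bdd
  have hcj : Measurable (fun p : (Fin N → E) × E => chi b (p.1 j)) :=
    h.chi_meas.comp ((measurable_pi_apply j).comp measurable_fst)
  have hc2 : Measurable (fun p : (Fin N → E) × E => chi b p.2) :=
    h.chi_meas.comp measurable_snd
  have hF1m : Measurable (fun p : (Fin N → E) × E =>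
      chi b (p.1 j) * (chi b p.2 * ‖f (Function.update p.1 j p.2)‖ ^ 2)) :=
    hcj.mul (hc2.mul ((hf.meas.comp measurable_update').norm.pow_const 2))
  have hbd : ∀ (a c : E) (x : Fin N → E), ‖chi b a * (chi b c * ‖f x‖ ^ 2)‖ ≤ M ^ 2 := by
    intro a c x
    rw [Real.norm_of_nonneg (mul_nonneg (chi_nonneg _) (mul_nonneg (chi_nonneg _)
      (sq_nonneg _)))]
    calc chi b a * (chi b c * ‖f x‖ ^ 2) ≤ 1 * (1 * M ^ 2) := by
          refine mul_le_mul (chi_le _) (mul_le_mul (chi_le _) ?_ (sq_nonneg _) zero_le_one)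
            (mul_nonneg (chi_nonneg _) (sq_nonneg _)) zero_le_one
          exact pow_le_pow_left₀ (norm_nonneg _) (hM x) 2
      _ = M ^ 2 := by ring
  have hF1 : Integrable (fun p : (Fin N → E) × E =>
      chi b (p.1 j) * (chi b p.2 * ‖f (Function.update p.1 j p.2)‖ ^ 2))
      (volume.prod volume) := by
    refine integrable_bdd _ (prod_lt (N := N) hS h.bf) hF1m.aestronglyMeasurable (M ^ 2)
      (fun p => hbd _ _ _) (fun p hp => ?_)
    rw [Set.mem_prod, not_and_or] at hp
    rcases hp with hp | hp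
    · by_cases hpj : p.1 j ∈ b
      · have hfz : f (Function.update p.1 j p.2) = 0 := by
          by_contra hne
          apply hp
          intro i _
          by_cases hij : i = j
          · rw [hij]
            exact hb hpj
          · have := hf.supp _ hne i
            rwa [Function.update_of_ne hij] at this
        rw [hfz]
        simp
      · rw [chi_not hpj, zero_mul]
    · rw [chi_not hp]
      simp
  have hF2m : Measurable (fun p : (Fin N → E) × E =>
      chi b p.2 * (chi b (p.1 j) * ‖f p.1‖ ^ 2)) :=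
    hc2.mul (hcj.mul ((hf.meas.comp measurable_fst).norm.pow_const 2))
  have hF2 : Integrable (fun p : (Fin N → E) × E =>
      chi b p.2 * (chi b (p.1 j) * ‖f p.1‖ ^ 2)) (volume.prod volume) := by
    refine integrable_bdd _ (prod_lt (N := N) hS h.bf) hF2m.aestronglyMeasurable (M ^ 2)
      (fun p => hbd _ _ _) (fun p hp => ?_)
    rw [Set.mem_prod, not_and_or] at hp
    rcases hp with hp | hp
    · rw [hf.zero_off _ hp]
      simp
    · rw [chi_not hp, zero_mul]
  have hint : Integrable (fun x : Fin N → E => B ^ 2 * (volume : Measure E).real b *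
      ∫ y, chi b (x j) * (chi b y * ‖f (Function.update x j y)‖ ^ 2)) :=
    (hF1.integral_prod_left).const_mul _
  calc ∫ x, ‖Pop K j f x‖ ^ 2 ≤ ∫ x, B ^ 2 * (volume : Measure E).real b *
        ∫ y, chi b (x j) * (chi b y * ‖f (Function.update x j y)‖ ^ 2) :=
        integral_mono ((h.nc hb j hf).sq_integrable hS) hint (fun x => h.pw j hf x)
    _ = B ^ 2 * (volume : Measure E).real b * ∫ p : (Fin N → E) × E,
        chi b (p.1 j) * (chi b p.2 * ‖f (Function.update p.1 j p.2)‖ ^ 2)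
          ∂(volume.prod volume) := by
        rw [integral_const_mul, integral_prod _ hF1]
    _ = B ^ 2 * (volume : Measure E).real b * ∫ p : (Fin N → E) × E,
        chi b p.2 * (chi b (p.1 j) * ‖f p.1‖ ^ 2) ∂(volume.prod volume) := by
        rw [← swap_int j]
        congr 1
        refine integral_congr_ae (Filter.Eventually.of_forall fun p => ?_)
        simp only [Function.update_self, Function.update_idem, Function.update_eq_self]
    _ = B ^ 2 * (volume : Measure E).real b * ∫ x : Fin N → E,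
        (volume : Measure E).real b * (chi b (x j) * ‖f x‖ ^ 2) := by
        rw [integral_prod _ hF2]
        congr 1
        refine integral_congr_ae (Filter.Eventually.of_forall fun x => ?_)
        show ∫ y, chi b y * (chi b (x j) * ‖f x‖ ^ 2) =
          (volume : Measure E).real b * (chi b (x j) * ‖f x‖ ^ 2)
        rw [integral_mul_const]
        congr 1
        unfold chi
        rw [integral_indicator h.bm]
        simp
    _ = _ := by
        rw [integral_const_mul]
        ring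


theorem Ker.pop_sub (h : Ker b B K G) {N : ℕ} (j : Fin N) {f g : (Fin N → E) → ℂ}
    (hf : Nc S f) (hg : Nc S g) (x : Fin N → E) :
    Pop K j (fun x => f x - g x) x = Pop K j f x - Pop K j g x := by
  unfold Pop
  rw [← integral_sub (h.int_in j hf x) (h.int_in j hg x)]
  refine integral_congr_ae (Filter.Eventually.of_forall fun y => ?_)
  beta_reduce
  ring

/-- the part outside the range of the kernel -/
noncomputable def qf {N : ℕ} (b : Set E) (K : E → E → ℝ) (j : Fin N) (f : (Fin N → E) → ℂ)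
    (x : Fin N → E) : ℂ := ((chi b (x j) : ℝ) : ℂ) * (f x - Pop K j f x)

theorem Ker.qf_nc (h : Ker b B K G) (hb : b ⊆ S) {N : ℕ} (j : Fin N) {f : (Fin N → E) → ℂ}
    (hf : Nc S f) : Nc S (qf b K j f) :=
  (hf.sub (h.nc hb j hf)).mul
    (Complex.continuous_ofReal.measurable.comp (h.chi_meas.comp (measurable_pi_apply j)))
    (M := 1) (fun x => by
      show ‖((chi b (x j) : ℝ) : ℂ)‖ ≤ 1
      rw [Complex.norm_real, Real.norm_eq_abs, abs_of_nonneg (chi_nonneg _)]
      exact chi_le _)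

theorem Ker.bq (h : Ker b B K G) (hb : b ⊆ S) {N : ℕ} (j : Fin N) {f : (Fin N → E) → ℂ}
    (hf : Nc S f) (x : Fin N → E) :
    Pop K j (fun x => ((G (x j) : ℝ) : ℂ) * f x) x =
      Pop K j (fun x => ((G (x j) : ℝ) : ℂ) * qf b K j f x) x := by
  have hGm : Measurable (fun x : Fin N → E => ((G (x j) : ℝ) : ℂ)) :=
    Complex.continuous_ofReal.measurable.comp (h.Gm.comp (measurable_pi_apply j))
  have hGb : ∀ (x : Fin N → E), ‖((G (x j) : ℝ) : ℂ)‖ ≤ 1 := fun x => by
    rw [Complex.norm_real, Real.norm_eq_abs]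
    exact h.Gb _
  have h1 := h.pop_sub j (hf.mul hGm hGb) ((h.nc hb j hf).mul hGm hGb) x
  rw [h.pgp j hf x, sub_zero] at h1
  rw [← h1]
  congr 1
  funext x
  unfold qf
  have h2 : ((G (x j) : ℝ) : ℂ) = ((G (x j) : ℝ) : ℂ) * ((chi b (x j) : ℝ) : ℂ) := by
    rw [← Complex.ofReal_mul, h.Gchi]
  linear_combination (f x - Pop K j f x) * h2

theorem yo {δ a c : ℝ} (hδ : 0 < δ) : (1 - δ) * (a + c) ^ 2 ≤ a ^ 2 + (1 / δ - 1) * c ^ 2 := by
  have h1 : a ^ 2 + (1 / δ - 1) * c ^ 2 - (1 - δ) * (a + c) ^ 2 =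
      (δ * a - (1 - δ) * c) ^ 2 / δ := by
    field_simp
    ring
  have h2 : 0 ≤ (δ * a - (1 - δ) * c) ^ 2 / δ := by positivity
  linarith

theorem yo' {δ : ℝ} (hδ : 0 < δ) (hδ1 : δ ≤ 1) (u w : ℂ) :
    (1 - δ) * ‖u‖ ^ 2 ≤ ‖u + w‖ ^ 2 + (1 / δ - 1) * ‖w‖ ^ 2 := by
  have h1 : ‖u‖ ≤ ‖u + w‖ + ‖w‖ := by
    have := norm_sub_le (u + w) w
    rwa [add_sub_cancel_right] at this
  have h2 : ‖u‖ ^ 2 ≤ (‖u + w‖ + ‖w‖) ^ 2 := pow_le_pow_left₀ (norm_nonneg _) h1 2
  calc (1 - δ) * ‖u‖ ^ 2 ≤ (1 - δ) * (‖u + w‖ + ‖w‖) ^ 2 :=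
        mul_le_mul_of_nonneg_left h2 (by linarith)
    _ ≤ _ := yo hδ

/-- number of the particles in `b` -/
noncomputable def nn {N : ℕ} (b : Set E) (x : Fin N → E) : ℝ := ∑ i, chi b (x i)

theorem nn_upd {N : ℕ} (j : Fin N) (x : Fin N → E) (y : E) (hx : x j ∈ b) (hy : y ∈ b) :
    nn b (Function.update x j y) = nn b x := by
  unfold nn
  refine Finset.sum_congr rfl fun i _ => ?_
  by_cases hij : i = j
  · rw [hij, Function.update_self, chi_mem hx, chi_mem hy]
  · rw [Function.update_of_ne hij]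

theorem Ker.qf_supp (h : Ker b B K G) {N : ℕ} (j : Fin N) {f : (Fin N → E) → ℂ} {ν : ℝ}
    (hν : ∀ x, f x ≠ 0 → nn b x = ν) (x : Fin N → E) (hx : qf b K j f x ≠ 0) :
    nn b x = ν := by
  have hxj : x j ∈ b := by
    by_contra hxj
    apply hx
    unfold qf
    rw [chi_not hxj]
    simp
  by_cases hf0 : f x = 0
  · have hP : Pop K j f x ≠ 0 := by
      intro hP
      apply hx
      unfold qf
      rw [hf0, hP]
      simp
    have hy : ∃ y, y ∈ b ∧ f (Function.update x j y) ≠ 0 := by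
      by_contra hy
      apply hP
      unfold Pop
      have h0 : ∀ y, ((K (x j) y : ℝ) : ℂ) * f (Function.update x j y) = 0 := by
        intro y
        by_cases hyb : y ∈ b
        · have : f (Function.update x j y) = 0 := by
            by_contra hne
            exact hy ⟨y, hyb, hne⟩
          rw [this, mul_zero]
        · rw [h.K0' _ _ hyb]
          simp
      simp [h0]
    obtain ⟨y, hyb, hy⟩ := hy
    rw [← nn_upd j x y hxj hyb]
    exact hν _ hy
  · exact hν x hf0

/-- the interaction of pairs -/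
noncomputable def WW {N : ℕ} (e : Fin N → ℝ) (G : E → ℝ) (x : Fin N → E) : ℝ :=
  ∑ i, ∑ j, if i = j then 0 else e i * e j * (G (x i) * G (x j))

theorem WW_eq {N : ℕ} (e : Fin N → ℝ) (he : ∀ i, e i = 1 ∨ e i = -1) (G : E → ℝ)
    (x : Fin N → E) : WW e G x = (∑ j, e j * G (x j)) ^ 2 - ∑ j, (G (x j)) ^ 2 := by
  unfold WW
  rw [sq, Finset.sum_mul_sum, ← Finset.sum_sub_distrib]
  refine Finset.sum_congr rfl fun i _ => ?_
  have h1 : ∀ j, (if i = j then 0 else e i * e j * (G (x i) * G (x j))) =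
      e i * G (x i) * (e j * G (x j)) - (if i = j then (G (x i)) ^ 2 else 0) := by
    intro j
    by_cases hij : i = j
    · subst hij
      rw [if_pos rfl, if_pos rfl]
      rcases he i with h2 | h2 <;> rw [h2] <;> ring
    · rw [if_neg hij, if_neg hij]
      ring
  rw [Finset.sum_congr rfl (fun j _ => h1 j), Finset.sum_sub_distrib, Finset.sum_ite_eq,
    if_pos (Finset.mem_univ i)]

theorem Ker.WW_meas (h : Ker b B K G) {N : ℕ} (e : Fin N → ℝ) : Measurable (WW e G) := by
  unfold WW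
  refine Finset.measurable_sum _ fun i _ => Finset.measurable_sum _ fun j _ => ?_
  by_cases hij : i = j
  · simp [hij]
  · simp only [hij, if_false]
    exact ((h.Gm.comp (measurable_pi_apply i)).mul
      (h.Gm.comp (measurable_pi_apply j))).const_mul _

theorem Ker.WW_bdd (h : Ker b B K G) {N : ℕ} (e : Fin N → ℝ)
    (he : ∀ i, e i = 1 ∨ e i = -1) (x : Fin N → E) : |WW e G x| ≤ (N : ℝ) * N := by
  unfold WW
  refine (Finset.abs_sum_le_sum_abs _ _).trans ?_
  have h1 : ∀ i : Fin N, |∑ j, if i = j then 0 else e i * e j * (G (x i) * G (x j))| ≤ N := by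
    intro i
    refine (Finset.abs_sum_le_sum_abs _ _).trans ?_
    have h2 : ∀ j : Fin N, |if i = j then 0 else e i * e j * (G (x i) * G (x j))| ≤ 1 := by
      intro j
      by_cases hij : i = j
      · rw [if_pos hij]
        simp
      · rw [if_neg hij, abs_mul, abs_mul, abs_mul]
        have h3 : ∀ k, |e k| = 1 := by
          intro k
          rcases he k with h2 | h2 <;> rw [h2] <;> simp
        rw [h3, h3, one_mul, one_mul]
        exact mul_le_one₀ (h.Gb _) (abs_nonneg _) (h.Gb _)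
    calc _ ≤ ∑ _j : Fin N, (1 : ℝ) := Finset.sum_le_sum fun j _ => h2 j
      _ = N := by simp
  calc _ ≤ ∑ _i : Fin N, (N : ℝ) := Finset.sum_le_sum fun i _ => h1 i
    _ = (N : ℝ) * N := by simp

theorem Ker.WW_int (h : Ker b B K G) (hS : (volume : Measure E) S ≠ ⊤) {N : ℕ}
    (e : Fin N → ℝ) (he : ∀ i, e i = 1 ∨ e i = -1) {f : (Fin N → E) → ℂ} (hf : Nc S f) :
    Integrable (fun x => WW e G x * ‖f x‖ ^ 2) := by
  obtain ⟨M, h0, hM⟩ := hf.bdd
  refine integrable_bdd _ (pi_lt hS)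
    ((h.WW_meas e).mul (hf.meas.norm.pow_const 2)).aestronglyMeasurable
    ((N : ℝ) * N * M ^ 2) (fun x => ?_) (fun x hx => ?_)
  · rw [norm_mul, Real.norm_eq_abs, Real.norm_of_nonneg (sq_nonneg ‖f x‖)]
    exact mul_le_mul (h.WW_bdd e he x) (pow_le_pow_left₀ (norm_nonneg _) (hM x) 2)
      (sq_nonneg _) (by positivity)
  · rw [hf.zero_off x hx]
    simp

theorem Ker.triv (h : Ker b B K G) (hS : (volume : Measure E) S ≠ ⊤) {N : ℕ}
    (e : Fin N → ℝ) (he : ∀ i, e i = 1 ∨ e i = -1) {f : (Fin N → E) → ℂ} (hf : Nc S f)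
    {ν : ℝ} (hν : ∀ x, f x ≠ 0 → nn b x = ν) :
    -(ν * ∫ x, ‖f x‖ ^ 2) ≤ ∫ x, WW e G x * ‖f x‖ ^ 2 := by
  rw [← neg_mul, ← integral_const_mul]
  refine integral_mono ((hf.sq_integrable hS).const_mul _) (h.WW_int hS e he hf) fun x => ?_
  beta_reduce
  by_cases hx : f x = 0
  · rw [hx]
    simp
  · refine mul_le_mul_of_nonneg_right ?_ (sq_nonneg _)
    rw [WW_eq e he, ← hν x hx]
    have h1 : ∑ j, (G (x j)) ^ 2 ≤ nn b x := by
      unfold nn
      refine Finset.sum_le_sum fun j _ => ?_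
      have h2 := h.Gle (x j)
      calc (G (x j)) ^ 2 = |G (x j)| * |G (x j)| := by rw [← sq, sq_abs]
        _ ≤ chi b (x j) * chi b (x j) := mul_le_mul h2 h2 (abs_nonneg _) (chi_nonneg _)
        _ = chi b (x j) := chi_sq _
    have h3 := sq_nonneg (∑ j, e j * G (x j))
    linarith


theorem Ker.main (h : Ker b B K G) (hb : b ⊆ S) (hS : (volume : Measure E) S ≠ ⊤) {N : ℕ}
    (e : Fin N → ℝ) (he : ∀ i, e i = 1 ∨ e i = -1) {f : (Fin N → E) → ℂ} (hf : Nc S f)
    {ν δ : ℝ} (hν : ∀ x, f x ≠ 0 → nn b x = ν) (hν1 : 1 ≤ ν) (hδ : 0 < δ) (hδ1 : δ ≤ 1) :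
    -(2 * δ * ν * ∫ x, ‖f x‖ ^ 2) - (2 + (B * (volume : Measure E).real b) ^ 2) * (ν / δ) *
      ∑ j, ∫ x, ‖qf b K j f x‖ ^ 2 ≤ ∫ x, WW e G x * ‖f x‖ ^ 2 := by
  have hGm : ∀ k : Fin N, Measurable (fun x : Fin N → E => ((G (x k) : ℝ) : ℂ)) := fun k =>
    Complex.continuous_ofReal.measurable.comp (h.Gm.comp (measurable_pi_apply k))
  have hGb : ∀ (k : Fin N) (x : Fin N → E), ‖((G (x k) : ℝ) : ℂ)‖ ≤ 1 := fun k x => by
    rw [Complex.norm_real, Real.norm_eq_abs]
    exact h.Gb _
  have hGf : ∀ (k : Fin N) {g : (Fin N → E) → ℂ}, Nc S g →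
      Nc S (fun x => ((G (x k) : ℝ) : ℂ) * g x) := fun k g hg => hg.mul (hGm k) (hGb k)
  have hef : ∀ (k : Fin N) {g : (Fin N → E) → ℂ}, Nc S g →
      Nc S (fun x => ((e k : ℝ) : ℂ) * g x) := fun k g hg =>
    hg.mul (c := fun _ => ((e k : ℝ) : ℂ)) measurable_const (M := |e k|) (fun x => by
      rw [Complex.norm_real, Real.norm_eq_abs])
  have hq : ∀ j, Nc S (qf b K j f) := fun j => h.qf_nc hb j hf
  have hU : Nc S (fun x => ∑ j, ((e j : ℝ) : ℂ) * (((G (x j) : ℝ) : ℂ) * Pop K j f x)) :=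
    Nc.sum Finset.univ (fun j => hef j (hGf j (h.nc hb j hf)))
  have hV : Nc S (fun x => ∑ j, ((e j : ℝ) : ℂ) * (((G (x j) : ℝ) : ℂ) * qf b K j f x)) :=
    Nc.sum Finset.univ (fun j => hef j (hGf j (hq j)))
  have hGq : ∀ (j : Fin N) (x : Fin N → E), ((G (x j) : ℝ) : ℂ) * f x =
      ((G (x j) : ℝ) : ℂ) * Pop K j f x + ((G (x j) : ℝ) : ℂ) * qf b K j f x := by
    intro j x
    have h2 : ((G (x j) : ℝ) : ℂ) = ((G (x j) : ℝ) : ℂ) * ((chi b (x j) : ℝ) : ℂ) := by
      rw [← Complex.ofReal_mul, h.Gchi]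
    unfold qf
    linear_combination (f x - Pop K j f x) * h2
  have hgq : ∀ (j : Fin N) (x : Fin N → E), ‖((G (x j) : ℝ) : ℂ) * qf b K j f x‖ ^ 2 ≤
      ‖qf b K j f x‖ ^ 2 := by
    intro j x
    rw [norm_mul]
    refine pow_le_pow_left₀ (mul_nonneg (norm_nonneg _) (norm_nonneg _)) ?_ 2
    calc _ ≤ 1 * ‖qf b K j f x‖ := mul_le_mul_of_nonneg_right (hGb j x) (norm_nonneg _)
      _ = _ := one_mul _
  -- step 1
  have s0 : ∀ x, (∑ j, e j * G (x j)) ^ 2 * ‖f x‖ ^ 2 =
      ‖(∑ j, ((e j : ℝ) : ℂ) * (((G (x j) : ℝ) : ℂ) * Pop K j f x)) +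
        ∑ j, ((e j : ℝ) : ℂ) * (((G (x j) : ℝ) : ℂ) * qf b K j f x)‖ ^ 2 := by
    intro x
    have h3 : (∑ j, ((e j : ℝ) : ℂ) * (((G (x j) : ℝ) : ℂ) * Pop K j f x)) +
        ∑ j, ((e j : ℝ) : ℂ) * (((G (x j) : ℝ) : ℂ) * qf b K j f x) =
        ((∑ j, e j * G (x j) : ℝ) : ℂ) * f x := by
      rw [← Finset.sum_add_distrib]
      push_cast
      rw [Finset.sum_mul]
      refine Finset.sum_congr rfl fun j _ => ?_
      have := hGq j x
      linear_combination (-(e j : ℂ)) * this
    rw [h3, norm_mul, Complex.norm_real, Real.norm_eq_abs, mul_pow, sq_abs]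
  have hAAi : Integrable (fun x : Fin N → E => (∑ j, e j * G (x j)) ^ 2 * ‖f x‖ ^ 2) := by
    simp_rw [s0]
    exact (hU.add hV).sq_integrable hS
  have s1 : (1 - δ) * (∫ x, ‖∑ j, ((e j : ℝ) : ℂ) * (((G (x j) : ℝ) : ℂ) *
      Pop K j f x)‖ ^ 2) ≤ (∫ x, (∑ j, e j * G (x j)) ^ 2 * ‖f x‖ ^ 2) +
      (1 / δ - 1) * ∫ x, ‖∑ j, ((e j : ℝ) : ℂ) * (((G (x j) : ℝ) : ℂ) *
        qf b K j f x)‖ ^ 2 := by
    rw [← integral_const_mul, ← integral_const_mul, ← integral_add hAAi
      ((hV.sq_integrable hS).const_mul _)]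
    refine integral_mono ((hU.sq_integrable hS).const_mul _)
      (hAAi.add ((hV.sq_integrable hS).const_mul _)) fun x => ?_
    beta_reduce
    rw [s0]
    exact yo' hδ hδ1 _ _
  -- step 2
  have s2 : (∫ x, ‖∑ j, ((e j : ℝ) : ℂ) * (((G (x j) : ℝ) : ℂ) * qf b K j f x)‖ ^ 2) ≤
      ν * ∑ j, ∫ x, ‖qf b K j f x‖ ^ 2 := by
    rw [← integral_finsetSum _ (fun j _ => (hq j).sq_integrable hS), ← integral_const_mul]
    refine integral_mono (hV.sq_integrable hS)
      ((integrable_finsetSum _ (fun j _ => (hq j).sq_integrable hS)).const_mul _) fun x => ?_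
    beta_reduce
    have h5 : ‖∑ j, ((e j : ℝ) : ℂ) * (((G (x j) : ℝ) : ℂ) * qf b K j f x)‖ ≤
        ∑ j, chi b (x j) * ‖qf b K j f x‖ := by
      refine (norm_sum_le _ _).trans (Finset.sum_le_sum fun j _ => ?_)
      rw [norm_mul, norm_mul, Complex.norm_real, Complex.norm_real, Real.norm_eq_abs,
        Real.norm_eq_abs]
      have h6 : |e j| = 1 := by
        rcases he j with h7 | h7 <;> rw [h7] <;> simp
      rw [h6, one_mul]
      exact mul_le_mul_of_nonneg_right (h.Gle _) (norm_nonneg _)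
    have h8 : (∑ j, chi b (x j) * ‖qf b K j f x‖) ^ 2 ≤
        (∑ j, (chi b (x j)) ^ 2) * ∑ j, ‖qf b K j f x‖ ^ 2 :=
      Finset.sum_mul_sq_le_sq_mul_sq _ _ _
    have h9 : ∑ j, (chi b (x j)) ^ 2 = nn b x := by
      unfold nn
      exact Finset.sum_congr rfl fun j _ => by rw [sq, chi_sq]
    rw [h9] at h8
    have h10 := pow_le_pow_left₀ (norm_nonneg _) h5 2
    by_cases hall : ∀ j, qf b K j f x = 0
    · simp [hall]
    · rw [not_forall] at hall
      obtain ⟨j, hj⟩ := hall
      rw [h.qf_supp j hν x hj] at h8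
      exact h10.trans h8
  -- step 3
  have s3 := main1 h hb hS e he hf
  -- step 4
  have s4 : ∀ j : Fin N, (1 - δ) * (∫ x, ‖((G (x j) : ℝ) : ℂ) * f x‖ ^ 2) ≤
      (∫ x, ‖((G (x j) : ℝ) : ℂ) * Pop K j f x‖ ^ 2) +
        (1 / δ - 1) * ∫ x, ‖qf b K j f x‖ ^ 2 := by
    intro j
    rw [← integral_const_mul, ← integral_const_mul, ← integral_add
      ((hGf j (h.nc hb j hf)).sq_integrable hS) (((hq j).sq_integrable hS).const_mul _)]
    refine integral_mono (((hGf j hf).sq_integrable hS).const_mul _)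
      (((hGf j (h.nc hb j hf)).sq_integrable hS).add
        (((hq j).sq_integrable hS).const_mul _)) fun x => ?_
    beta_reduce
    have h11 := yo' hδ hδ1 (((G (x j) : ℝ) : ℂ) * f x) (-(((G (x j) : ℝ) : ℂ) * qf b K j f x))
    have h12 : ((G (x j) : ℝ) : ℂ) * f x + -(((G (x j) : ℝ) : ℂ) * qf b K j f x) =
        ((G (x j) : ℝ) : ℂ) * Pop K j f x := by
      rw [hGq j x]
      ring
    rw [h12, norm_neg] at h11
    have h13 : 0 ≤ 1 / δ - 1 := by
      rw [sub_nonneg, le_div_iff₀ hδ]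
      linarith
    exact h11.trans (add_le_add le_rfl (mul_le_mul_of_nonneg_left (hgq j x) h13))
  -- step 5
  have s5 : ∀ j : Fin N, (∫ x, ‖Pop K j (fun x => ((G (x j) : ℝ) : ℂ) * f x) x‖ ^ 2) ≤
      (B * (volume : Measure E).real b) ^ 2 * ∫ x, ‖qf b K j f x‖ ^ 2 := by
    intro j
    have h14 : (fun x => ‖Pop K j (fun x => ((G (x j) : ℝ) : ℂ) * f x) x‖ ^ 2) =
        fun x => ‖Pop K j (fun x => ((G (x j) : ℝ) : ℂ) * qf b K j f x) x‖ ^ 2 := by
      funext x
      rw [h.bq hb j hf x]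
    rw [h14]
    refine (h.l2 hb hS j (hGf j (hq j))).trans ?_
    refine mul_le_mul_of_nonneg_left ?_ (sq_nonneg _)
    have hle : ∀ x : Fin N → E, chi b (x j) * ‖((G (x j) : ℝ) : ℂ) * qf b K j f x‖ ^ 2 ≤
        ‖qf b K j f x‖ ^ 2 := by
      intro x
      calc _ ≤ 1 * ‖((G (x j) : ℝ) : ℂ) * qf b K j f x‖ ^ 2 :=
            mul_le_mul_of_nonneg_right (chi_le _) (sq_nonneg _)
        _ ≤ _ := by
            rw [one_mul]
            exact hgq j x
    refine integral_mono_of_nonneg (ae_of_all _ fun x =>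
      mul_nonneg (chi_nonneg _) (sq_nonneg _)) ((hq j).sq_integrable hS) (ae_of_all _ hle)
  -- step 6
  have s6 : ∫ x, WW e G x * ‖f x‖ ^ 2 = (∫ x, (∑ j, e j * G (x j)) ^ 2 * ‖f x‖ ^ 2) -
      ∑ j, ∫ x, ‖((G (x j) : ℝ) : ℂ) * f x‖ ^ 2 := by
    rw [← integral_finsetSum _ (fun j _ => (hGf j hf).sq_integrable hS),
      ← integral_sub hAAi (integrable_finsetSum _ (fun j _ => (hGf j hf).sq_integrable hS))]
    refine integral_congr_ae (Filter.Eventually.of_forall fun x => ?_)
    beta_reduce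
    rw [WW_eq e he, sub_mul, Finset.sum_mul]
    congr 1
    refine Finset.sum_congr rfl fun j _ => ?_
    rw [norm_mul, Complex.norm_real, Real.norm_eq_abs, mul_pow, sq_abs]
  -- step 7
  have s7 : ∑ j, ∫ x, ‖((G (x j) : ℝ) : ℂ) * f x‖ ^ 2 ≤ ν * ∫ x, ‖f x‖ ^ 2 := by
    rw [← integral_finsetSum _ (fun j _ => (hGf j hf).sq_integrable hS), ← integral_const_mul]
    refine integral_mono (integrable_finsetSum _ (fun j _ => (hGf j hf).sq_integrable hS))
      ((hf.sq_integrable hS).const_mul _) fun x => ?_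
    beta_reduce
    by_cases hx : f x = 0
    · rw [hx]
      simp
    · rw [← hν x hx]
      unfold nn
      rw [Finset.sum_mul]
      refine Finset.sum_le_sum fun j _ => ?_
      rw [norm_mul, Complex.norm_real, Real.norm_eq_abs, mul_pow]
      refine mul_le_mul_of_nonneg_right ?_ (sq_nonneg _)
      calc |G (x j)| ^ 2 = |G (x j)| * |G (x j)| := sq _
        _ ≤ chi b (x j) * chi b (x j) :=
            mul_le_mul (h.Gle _) (h.Gle _) (abs_nonneg _) (chi_nonneg _)
        _ = chi b (x j) := chi_sq _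
  have t4 := Finset.sum_le_sum (s := Finset.univ) fun j _ => s4 j
  have t5 := Finset.sum_le_sum (s := Finset.univ) fun j _ => s5 j
  rw [← Finset.mul_sum, Finset.sum_add_distrib, ← Finset.mul_sum] at t4
  rw [← Finset.mul_sum] at t5
  have hQ : 0 ≤ ∑ j, ∫ x, ‖qf b K j f x‖ ^ 2 :=
    Finset.sum_nonneg fun j _ => integral_nonneg fun x => sq_nonneg _
  have hPP : 0 ≤ ∑ j, ∫ x, ‖((G (x j) : ℝ) : ℂ) * f x‖ ^ 2 :=
    Finset.sum_nonneg fun j _ => integral_nonneg fun x => sq_nonneg _
  have hc : 0 ≤ (B * (volume : Measure E).real b) ^ 2 := sq_nonneg _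
  rw [s6]
  generalize (∑ j, ∫ x, ‖qf b K j f x‖ ^ 2) = Q at *
  generalize (∑ j, ∫ x, ‖((G (x j) : ℝ) : ℂ) * f x‖ ^ 2) = PP at *
  generalize (∑ j, ∫ x, ‖((G (x j) : ℝ) : ℂ) * Pop K j f x‖ ^ 2) = Sa at *
  generalize (∑ j, ∫ x, ‖Pop K j (fun x => ((G (x j) : ℝ) : ℂ) * f x) x‖ ^ 2) = Sb at *
  generalize (∫ x, (∑ j, e j * G (x j)) ^ 2 * ‖f x‖ ^ 2) = AA at *
  generalize (∫ x, ‖∑ j, ((e j : ℝ) : ℂ) * (((G (x j) : ℝ) : ℂ) * Pop K j f x)‖ ^ 2) = UU at *
  generalize (∫ x, ‖∑ j, ((e j : ℝ) : ℂ) * (((G (x j) : ℝ) : ℂ) * qf b K j f x)‖ ^ 2) =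
    VV at *
  generalize (∫ x, ‖f x‖ ^ 2) = F at *
  generalize (B * (volume : Measure E).real b) ^ 2 = c at *
  have hd0 : 0 ≤ 1 - δ := by linarith
  have hi0 : 0 ≤ 1 / δ - 1 := by
    rw [sub_nonneg, le_div_iff₀ hδ]
    linarith
  have hνδ : ν / δ = ν * (1 / δ) := by ring
  have hd1 : 1 ≤ 1 / δ := by linarith
  -- combine
  have u1 : (1 - δ) * (1 - δ) * PP - (1 - δ) * (1 / δ - 1) * Q - (1 - δ) * c * Q ≤
      (1 - δ) * UU := by
    have h15 : (1 - δ) * PP - (1 / δ - 1) * Q - c * Q ≤ UU := by linarith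
    have h16 := mul_le_mul_of_nonneg_left h15 hd0
    linarith
  have u2 : (1 / δ - 1) * VV ≤ (1 / δ - 1) * (ν * Q) := mul_le_mul_of_nonneg_left s2 hi0
  have u3 : (1 - δ) * (1 / δ - 1) * Q ≤ ν * (1 / δ) * Q := by
    refine mul_le_mul_of_nonneg_right ?_ hQ
    calc (1 - δ) * (1 / δ - 1) ≤ 1 * (1 / δ) :=
          mul_le_mul (by linarith) (by linarith) hi0 zero_le_one
      _ ≤ ν * (1 / δ) := mul_le_mul_of_nonneg_right hν1 (by linarith)
  have u4 : (1 - δ) * c * Q ≤ c * (ν * (1 / δ)) * Q := by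
    refine mul_le_mul_of_nonneg_right ?_ hQ
    have h17 : 1 - δ ≤ ν * (1 / δ) := by
      calc 1 - δ ≤ 1 * 1 := by linarith
        _ ≤ ν * (1 / δ) := mul_le_mul hν1 hd1 zero_le_one (by linarith)
    calc (1 - δ) * c ≤ (ν * (1 / δ)) * c := mul_le_mul_of_nonneg_right h17 hc
      _ = _ := by ring
  have u5 : (1 / δ - 1) * (ν * Q) ≤ ν * (1 / δ) * Q := by
    have h18 : 0 ≤ ν * Q := mul_nonneg (by linarith) hQ
    nlinarith
  have u6 : δ * PP ≤ δ * (ν * F) := mul_le_mul_of_nonneg_left s7 hδ.le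
  have u7 : 0 ≤ δ * δ * PP := mul_nonneg (mul_nonneg hδ.le hδ.le) hPP
  rw [hνδ]
  nlinarith

end K

end Abs

open Pool.Agent.Helper780_BE

theorem kerE {m : ℕ} {c B : ℝ} {g : E3 → ℝ} {P : E3 → E3 → ℝ} (h : KG m c B g P) {r : ℝ}
    (hr : 0 < r) (z : E3) : Ker (Metric.ball z r) ((r ^ 3)⁻¹ * B)
      (fun u y => (r ^ 3)⁻¹ * P (r⁻¹ • (u - z)) (r⁻¹ • (y - z)))
      (fun u => g (r⁻¹ • (u - z))) := by
  have hB : 0 ≤ B := (abs_nonneg (P 0 0)).trans (h.pbd 0 0)
  have hout : ∀ x : E3, x ∉ Metric.ball z r → 1 ≤ ‖r⁻¹ • (x - z)‖ := by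
    intro x hx
    rw [mem_ball_iff_norm, not_lt] at hx
    rw [norm_smul, Real.norm_of_nonneg (inv_nonneg.2 hr.le), inv_mul_eq_div, le_div_iff₀ hr,
      one_mul]
    exact hx
  have hm1 : Measurable (fun q : E3 × E3 => (r⁻¹ • (q.1 - z), r⁻¹ • (q.2 - z))) :=
    ((measurable_fst.sub_const z).const_smul r⁻¹).prodMk
      ((measurable_snd.sub_const z).const_smul r⁻¹)
  refine ⟨measurableSet_ball, measure_ball_lt_top.ne, by positivity, ?_, ?_, ?_, ?_, ?_, ?_,
    ?_, ?_⟩
  · exact (h.pmeas.comp hm1).const_mul _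
  · intro x y
    beta_reduce
    rw [h.psymm]
  · intro x y
    beta_reduce
    rw [abs_mul, abs_of_nonneg (show (0 : ℝ) ≤ (r ^ 3)⁻¹ by positivity)]
    exact mul_le_mul_of_nonneg_left (h.pbd _ _) (by positivity)
  · intro x y hx
    beta_reduce
    rw [h.psupp _ _ (hout x hx), mul_zero]
  · exact h.gmeas.comp ((measurable_id.sub_const z).const_smul r⁻¹)
  · intro x
    exact h.gbd _
  · intro x hx
    exact h.gsupp _ (hout x hx)
  · intro x y
    obtain ⟨F, hF⟩ : ∃ F : E3 → ℝ,
      F = fun w => P (r⁻¹ • (x - z)) w * g w * P w (r⁻¹ • (y - z)) := ⟨_, rfl⟩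
    have h1 : ∀ w : E3, (r ^ 3)⁻¹ * P (r⁻¹ • (x - z)) (r⁻¹ • (w - z)) * g (r⁻¹ • (w - z)) *
        ((r ^ 3)⁻¹ * P (r⁻¹ • (w - z)) (r⁻¹ • (y - z))) =
        ((r ^ 3)⁻¹ * (r ^ 3)⁻¹) * F (r⁻¹ • (w - z)) := by
      intro w
      rw [hF]
      ring
    have h2 : ∫ w : E3, F (r⁻¹ • (w - z)) = ∫ w : E3, F (r⁻¹ • w) :=
      integral_sub_right_eq_self (fun w => F (r⁻¹ • w)) z
    simp_rw [h1]
    rw [integral_const_mul, h2, Measure.integral_comp_smul, hF, h.pgp]
    simp

theorem nn_nat {N : ℕ} (b : Set E3) (x : Fin N → E3) : ∃ k : ℕ, k ≤ N ∧ nn b x = k := by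
  classical
  refine ⟨(Finset.univ.filter (fun i => x i ∈ b)).card, ?_, ?_⟩
  · exact (Finset.card_filter_le _ _).trans (by simp)
  · unfold nn
    rw [Finset.card_filter]
    push_cast
    refine Finset.sum_congr rfl fun i _ => ?_
    by_cases hi : x i ∈ b
    · rw [chi_mem hi, if_pos hi]
    · rw [chi_not hi, if_neg hi]

open Classical in
/-- the part of `ψ` with `ν` particles in `b` -/
noncomputable def sec {N : ℕ} (b : Set E3) (ψ : (Fin N → E3) → ℂ) (ν : ℕ)
    (x : Fin N → E3) : ℂ := if nn b x = ν then ψ x else 0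

theorem sec_self {N : ℕ} {b : Set E3} {ψ : (Fin N → E3) → ℂ} {ν : ℕ} {x : Fin N → E3}
    (hx : nn b x = ν) : sec b ψ ν x = ψ x := by
  unfold sec
  rw [if_pos hx]

theorem sec_ne {N : ℕ} {b : Set E3} {ψ : (Fin N → E3) → ℂ} {ν : ℕ} {x : Fin N → E3}
    (hx : nn b x ≠ ν) : sec b ψ ν x = 0 := by
  unfold sec
  rw [if_neg hx]

theorem sec_supp {N : ℕ} {b : Set E3} {ψ : (Fin N → E3) → ℂ} {ν : ℕ} (x : Fin N → E3)
    (hx : sec b ψ ν x ≠ 0) : nn b x = ν := by
  by_contra hne
  exact hx (sec_ne hne)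

theorem sum_sec {N : ℕ} {b : Set E3} (H : ℕ → ℝ) (x : Fin N → E3) (k : ℕ) (hk : k ≤ N)
    (_hx : nn b x = k) (h0 : ∀ ν, ν ≠ k → H ν = 0) : ∑ ν ∈ Finset.range (N + 1), H ν = H k :=
  Finset.sum_eq_single k (fun ν _ hν => h0 ν hν) (fun hk' => by
    exfalso
    exact hk' (Finset.mem_range.2 (by omega)))

theorem WW_zero {N : ℕ} {b : Set E3} {B : ℝ} {K : E3 → E3 → ℝ} {G : E3 → ℝ}
    (h : Ker b B K G) (e : Fin N → ℝ) (x : Fin N → E3) (hx : nn b x < 2) :
    WW e G x = 0 := by
  unfold WW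
  refine Finset.sum_eq_zero fun i _ => Finset.sum_eq_zero fun j _ => ?_
  by_cases hij : i = j
  · rw [if_pos hij]
  · rw [if_neg hij]
    by_cases hi : x i ∈ b
    · by_cases hj : x j ∈ b
      · exfalso
        have h1 : chi b (x i) + chi b (x j) ≤ nn b x := by
          unfold nn
          rw [← Finset.sum_pair (f := fun i => chi b (x i)) hij]
          exact Finset.sum_le_sum_of_subset_of_nonneg (Finset.subset_univ _)
            (fun k _ _ => chi_nonneg _)
        rw [chi_mem hi, chi_mem hj] at h1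
        linarith
      · rw [h.G0 _ hj, mul_zero, mul_zero]
    · rw [h.G0 _ hi, zero_mul, mul_zero]

/-- TARGET -/
theorem piece {m : ℕ} {c B : ℝ} {g : E3 → ℝ} {P : E3 → E3 → ℝ} (h : KG m c B g P) :
    ∃ C : ℝ, 0 < C ∧ ∀ {N : ℕ} (e : Fin N → ℝ), (∀ i, e i = 1 ∨ e i = -1) →
      ∀ (r κ : ℝ), 0 < r → 0 < κ → ∀ (z : E3) (ψ : (Fin N → E3) → ℂ), Test ψ →
      -2 * Er κ r z ψ - (C / κ) * ∑ j, Qe P r z j ψ ≤ tz e g r z ψ := by
  refine ⟨2 + (B * (volume : Measure E3).real (Metric.ball 0 1)) ^ 2, by positivity, ?_⟩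
  intro N e he r κ hr hκ z ψ hψ
  have hK := kerE h hr z
  set b : Set E3 := Metric.ball z r with hbdef
  set K : E3 → E3 → ℝ := fun u y => (r ^ 3)⁻¹ * P (r⁻¹ • (u - z)) (r⁻¹ • (y - z)) with hKdef
  set G : E3 → ℝ := fun u => g (r⁻¹ • (u - z)) with hGdef
  have hcont : Continuous ψ := hψ.smooth.continuous
  obtain ⟨M, hM⟩ := hψ.compact.exists_bound_of_continuous hcont
  obtain ⟨R, hR⟩ := (hψ.compact.isCompact.isBounded).subset_closedBall (0 : Fin N → E3)
  set S : Set E3 := Metric.closedBall 0 R ∪ b with hSdef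
  have hbS : b ⊆ S := Set.subset_union_right
  have hS : (volume : Measure E3) S ≠ ⊤ :=
    (measure_union_lt_top measure_closedBall_lt_top measure_ball_lt_top).ne
  have hnm : Measurable (fun x : Fin N → E3 => nn b x) := by
    unfold nn
    exact Finset.measurable_sum _ fun i _ => hK.chi_meas.comp (measurable_pi_apply i)
  have hψn : Nc S ψ := by
    refine ⟨hcont.measurable, ⟨|M|, abs_nonneg _, fun x => (hM x).trans (le_abs_self _)⟩,
      fun x hx i => ?_⟩
    have h1 : x ∈ Metric.closedBall (0 : Fin N → E3) R := hR (subset_tsupport _ hx)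
    rw [mem_closedBall_zero_iff] at h1
    exact Or.inl (mem_closedBall_zero_iff.2 ((norm_le_pi_norm x i).trans h1))
  have hsec : ∀ ν, Nc S (sec b ψ ν) := by
    intro ν
    refine ⟨?_, ⟨|M|, abs_nonneg _, fun x => ?_⟩, fun x hx i => ?_⟩
    · unfold sec
      exact Measurable.ite (measurableSet_eq_fun hnm measurable_const) hcont.measurable
        measurable_const
    · by_cases hx : nn b x = ν
      · rw [sec_self hx]
        exact (hM x).trans (le_abs_self _)
      · rw [sec_ne hx]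
        simp
    · have hne : ψ x ≠ 0 := by
        intro h0
        apply hx
        unfold sec
        split_ifs
        · exact h0
        · rfl
      exact hψn.supp x hne i
  have hnb : ∀ x : Fin N → E3, nb r z x = nn b x := by
    intro x
    unfold nb nn
    refine Finset.sum_congr rfl fun i _ => ?_
    by_cases hi : ‖x i - z‖ < r
    · rw [if_pos hi, chi_mem (mem_ball_iff_norm.2 hi)]
    · rw [if_neg hi, chi_not (fun hh => hi (mem_ball_iff_norm.1 hh))]
  -- the three decompositions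
  have d1 : tz e g r z ψ = ∑ ν ∈ Finset.range (N + 1), ∫ x, WW e G x * ‖sec b ψ ν x‖ ^ 2 := by
    rw [← integral_finsetSum _ (fun ν _ => hK.WW_int hS e he (hsec ν))]
    unfold tz
    refine integral_congr_ae (Filter.Eventually.of_forall fun x => ?_)
    obtain ⟨k, hk, hx⟩ := nn_nat b x
    beta_reduce
    rw [sum_sec (fun ν => WW e G x * ‖sec b ψ ν x‖ ^ 2) x k hk hx (fun ν hν => by
      rw [sec_ne (by rw [hx]; intro hh; exact hν (by exact_mod_cast hh.symm))]
      simp), sec_self hx]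
    rfl
  have d2 : Er κ r z ψ = ∑ ν ∈ Finset.range (N + 1),
      (if 2 ≤ ν then (ν : ℝ) * min 1 (κ * ν) else 0) * ∫ x, ‖sec b ψ ν x‖ ^ 2 := by
    have h1 : ∀ ν : ℕ, (if 2 ≤ ν then (ν : ℝ) * min 1 (κ * ν) else 0) *
        ∫ x, ‖sec b ψ ν x‖ ^ 2 = ∫ x, (if 2 ≤ ν then (ν : ℝ) * min 1 (κ * ν) else 0) *
        ‖sec b ψ ν x‖ ^ 2 := fun ν => (integral_const_mul _ _).symm
    simp_rw [h1]
    rw [← integral_finsetSum _ (fun ν _ => ((hsec ν).sq_integrable hS).const_mul _)]
    unfold Er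
    refine integral_congr_ae (Filter.Eventually.of_forall fun x => ?_)
    obtain ⟨k, hk, hx⟩ := nn_nat b x
    beta_reduce
    rw [sum_sec (fun ν => (if 2 ≤ ν then (ν : ℝ) * min 1 (κ * ν) else 0) *
      ‖sec b ψ ν x‖ ^ 2) x k hk hx (fun ν hν => by
      rw [sec_ne (by rw [hx]; intro hh; exact hν (by exact_mod_cast hh.symm))]
      simp), sec_self hx, hnb x, hx]
    congr 1
    have h2 : ∀ i : Fin N, (if ‖x i - z‖ < r ∧ (2 : ℝ) ≤ (k : ℝ) then min 1 (κ * (k : ℝ))
        else 0) = chi b (x i) * (if 2 ≤ k then min 1 (κ * (k : ℝ)) else 0) := by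
      intro i
      have hk2 : (2 : ℝ) ≤ (k : ℝ) ↔ 2 ≤ k := by exact_mod_cast Iff.rfl
      by_cases hi : ‖x i - z‖ < r
      · rw [chi_mem (mem_ball_iff_norm.2 hi), one_mul]
        by_cases hkk : 2 ≤ k
        · rw [if_pos ⟨hi, hk2.2 hkk⟩, if_pos hkk]
        · rw [if_neg (fun hh => hkk (hk2.1 hh.2)), if_neg hkk]
      · rw [chi_not (fun hh => hi (mem_ball_iff_norm.1 hh)), zero_mul,
          if_neg (fun hh => hi hh.1)]
    rw [Finset.sum_congr rfl (fun i _ => h2 i), ← Finset.sum_mul]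
    have h3 : ∑ i, chi b (x i) = (k : ℝ) := hx
    rw [h3]
    split_ifs
    · rfl
    · rw [mul_zero]
  have d3 : ∀ j, Qe P r z j ψ =
      ∑ ν ∈ Finset.range (N + 1), ∫ x, ‖qf b K j (sec b ψ ν) x‖ ^ 2 := by
    intro j
    rw [← integral_finsetSum _ (fun ν _ => (hK.qf_nc hbS j (hsec ν)).sq_integrable hS)]
    unfold Qe
    refine integral_congr_ae (Filter.Eventually.of_forall fun x => ?_)
    obtain ⟨k, hk, hx⟩ := nn_nat b x
    beta_reduce
    rw [sum_sec (fun ν => ‖qf b K j (sec b ψ ν) x‖ ^ 2) x k hk hx (fun ν hν => by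
      have h4 : qf b K j (sec b ψ ν) x = 0 := by
        by_contra hne
        have h5 := hK.qf_supp j (ν := (ν : ℝ)) (fun x hx => sec_supp x hx) x hne
        rw [hx] at h5
        exact hν (by exact_mod_cast h5.symm)
      rw [h4]
      simp)]
    by_cases hj : ‖x j - z‖ < r
    · have hjb : x j ∈ b := mem_ball_iff_norm.2 hj
      rw [if_pos hj]
      unfold qf
      rw [chi_mem hjb, sec_self hx, Complex.ofReal_one, one_mul]
      have h6 : Pop K j (sec b ψ k) x = PJ P r z j ψ x := by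
        unfold Pop PJ
        refine integral_congr_ae (Filter.Eventually.of_forall fun y => ?_)
        beta_reduce
        by_cases hy : y ∈ b
        · rw [sec_self (by rw [nn_upd j x y hjb hy, hx])]
        · have h7 : K (x j) y = 0 := hK.K0' _ _ hy
          have h8 : (r ^ 3)⁻¹ * P (r⁻¹ • (x j - z)) (r⁻¹ • (y - z)) = 0 := h7
          rw [h7, h8]
          simp
      rw [h6]
    · rw [if_neg hj]
      unfold qf
      rw [chi_not (fun hh => hj (mem_ball_iff_norm.1 hh))]
      simp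
  have hvol : (r ^ 3)⁻¹ * B * (volume : Measure E3).real b =
      B * (volume : Measure E3).real (Metric.ball 0 1) := by
    have h1 := Measure.addHaar_ball_of_pos (volume : Measure E3) z hr
    have h2 : Module.finrank ℝ E3 = 3 := by simp
    rw [h2] at h1
    rw [hbdef, measureReal_def, h1, ENNReal.toReal_mul, ENNReal.toReal_ofReal (by positivity),
      ← measureReal_def]
    field_simp
  have hC : 0 ≤ 2 + (B * (volume : Measure E3).real (Metric.ball 0 1)) ^ 2 := by positivity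
  have hsector : ∀ ν : ℕ, -2 * ((if 2 ≤ ν then (ν : ℝ) * min 1 (κ * ν) else 0) *
      ∫ x, ‖sec b ψ ν x‖ ^ 2) -
      ((2 + (B * (volume : Measure E3).real (Metric.ball 0 1)) ^ 2) / κ) *
        ∑ j, ∫ x, ‖qf b K j (sec b ψ ν) x‖ ^ 2 ≤ ∫ x, WW e G x * ‖sec b ψ ν x‖ ^ 2 := by
    intro ν
    have hQ : 0 ≤ ∑ j, ∫ x, ‖qf b K j (sec b ψ ν) x‖ ^ 2 :=
      Finset.sum_nonneg fun j _ => integral_nonneg fun x => sq_nonneg _
    have hF : 0 ≤ ∫ x, ‖sec b ψ ν x‖ ^ 2 := integral_nonneg fun x => sq_nonneg _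
    have hCQ := mul_nonneg (div_nonneg hC hκ.le) hQ
    by_cases hν2 : 2 ≤ ν
    · rw [if_pos hν2]
      have hνr : (2 : ℝ) ≤ ν := by exact_mod_cast hν2
      by_cases hκν : κ * ν < 1
      · have h1 := hK.main hbS hS e he (hsec ν) (ν := (ν : ℝ)) (δ := κ * ν)
          (fun x hx => sec_supp x hx) (by linarith) (by positivity) hκν.le
        rw [hvol] at h1
        rw [min_eq_right hκν.le]
        have h2 : (ν : ℝ) / (κ * ν) = 1 / κ := by
          field_simp
        rw [h2] at h1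
        refine le_trans (le_of_eq ?_) h1
        ring
      · have h1 := hK.triv hS e he (hsec ν) (ν := (ν : ℝ)) (fun x hx => sec_supp x hx)
        rw [min_eq_left (not_lt.1 hκν)]
        have h3 : 0 ≤ (ν : ℝ) * ∫ x, ‖sec b ψ ν x‖ ^ 2 := mul_nonneg (by linarith) hF
        linarith
    · rw [if_neg hν2]
      have h1 : ∫ x, WW e G x * ‖sec b ψ ν x‖ ^ 2 = 0 := by
        have h2 : ∀ x, WW e G x * ‖sec b ψ ν x‖ ^ 2 = 0 := by
          intro x
          by_cases hx : nn b x = ν
          · rw [WW_zero hK e x (by rw [hx]; exact_mod_cast not_le.1 hν2), zero_mul]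
          · rw [sec_ne hx]
            simp
        simp_rw [h2]
        simp
      rw [h1]
      linarith
  have hsum := Finset.sum_le_sum (s := Finset.range (N + 1)) fun ν _ => hsector ν
  rw [Finset.sum_sub_distrib, ← Finset.mul_sum, ← Finset.mul_sum, ← d1, ← d2,
    Finset.sum_comm] at hsum
  have h9 : ∑ j, ∑ ν ∈ Finset.range (N + 1), ∫ x, ‖qf b K j (sec b ψ ν) x‖ ^ 2 =
      ∑ j, Qe P r z j ψ := Finset.sum_congr rfl fun j _ => (d3 j).symm
  rw [h9] at hsum
  exact hsum

end Pool.Agent.Helper780_BE.A6
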