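import Pool.Agent.Helper780_BE.A5
import Pool.Agent.Helper780_BE.A6
import Pool.Agent.Helper780_BE.A10
import Pool.Agent.Helper780_BE.A9
import Pool.Agent.Helper780_BE.Defs


set_option autoImplicit false

open MeasureTheory
open scoped Topology

namespace Pool.Agent.Helper780_BE.A11

open Pool.Agent.Helper780_BE.A5 (pot_rep)
open Pool.Agent.Helper780_BE.A6 (piece)
open Pool.Agent.Helper780_BE.A10 (q_body y_body)
open Pool.Agent.Helper780_BE.A9 (slice)

open Pool.Agent.Helper780_BE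







theorem nsq_int {N : ℕ} (ψ : (Fin N → E3) → ℂ) (hψ : Test ψ) :
    Integrable (fun x => ‖ψ x‖ ^ 2) := by
  refine Continuous.integrable_of_hasCompactSupport
    ((hψ.smooth.continuous.norm).pow 2) ?_
  exact hψ.compact.comp_left (g := fun w : ℂ => ‖w‖ ^ 2) (by simp)

open Classical in
/-- the particle `i` is near `z` -/
noncomputable def GG {N : ℕ} (r : ℝ) (ψ : (Fin N → E3) → ℂ) (i : Fin N)
    (q : E3 × (Fin N → E3)) : ℝ :=
  if ‖q.2 i - q.1‖ < r then ‖ψ q.2‖ ^ 2 else 0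

theorem GG_nonneg {N : ℕ} (r : ℝ) (ψ : (Fin N → E3) → ℂ) (i : Fin N)
    (q : E3 × (Fin N → E3)) : 0 ≤ GG r ψ i q := by
  unfold GG
  split_ifs
  · positivity
  · exact le_rfl

theorem GG_le {N : ℕ} (r : ℝ) (ψ : (Fin N → E3) → ℂ) (i : Fin N)
    (q : E3 × (Fin N → E3)) : GG r ψ i q ≤ ‖ψ q.2‖ ^ 2 := by
  unfold GG
  split_ifs
  · exact le_rfl
  · positivity

theorem GG_meas {N : ℕ} (r : ℝ) (ψ : (Fin N → E3) → ℂ) (hψ : Test ψ) (i : Fin N) :
    Measurable (GG r ψ i) := by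
  unfold GG
  refine Measurable.ite ?_ ?_ measurable_const
  · refine measurableSet_lt ?_ measurable_const
    have h1 : Continuous (fun q : E3 × (Fin N → E3) => ‖q.2 i - q.1‖) := by fun_prop
    exact h1.measurable
  · exact ((hψ.smooth.continuous.comp continuous_snd).norm.pow 2).measurable

theorem GG_z {N : ℕ} (r : ℝ) (ψ : (Fin N → E3) → ℂ) (i : Fin N) (x : Fin N → E3) :
    (fun z : E3 => GG r ψ i (z, x)) =
      (Metric.ball (x i) r).indicator (fun _ => ‖ψ x‖ ^ 2) := by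
  funext z
  unfold GG
  by_cases hz : ‖x i - z‖ < r
  · rw [if_pos hz, Set.indicator_of_mem]
    rw [Metric.mem_ball, dist_eq_norm, norm_sub_rev]
    exact hz
  · rw [if_neg hz, Set.indicator_of_notMem]
    rw [Metric.mem_ball, dist_eq_norm, norm_sub_rev]
    exact hz

theorem GG_int {N : ℕ} (r : ℝ) (hr : 0 < r) (ψ : (Fin N → E3) → ℂ) (hψ : Test ψ) (i : Fin N) :
    Integrable (GG r ψ i) (volume.prod volume) ∧
    ∫ z, ∫ x, GG r ψ i (z, x) =
      volume.real (Metric.ball (0 : E3) 1) * r ^ 3 * ∫ x, ‖ψ x‖ ^ 2 := by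
  have hv : ∀ y : E3, volume.real (Metric.ball y r) =
      volume.real (Metric.ball (0 : E3) 1) * r ^ 3 := by
    intro y
    rw [Measure.real, Measure.addHaar_ball _ _ hr.le, ENNReal.toReal_mul,
      ENNReal.toReal_ofReal (by positivity), finrank_euclideanSpace_fin, mul_comm]
    rfl
  have h1 : ∀ x : Fin N → E3, ∫ z, GG r ψ i (z, x) =
      volume.real (Metric.ball (0 : E3) 1) * r ^ 3 * ‖ψ x‖ ^ 2 := by
    intro x
    rw [GG_z, integral_indicator_const _ measurableSet_ball, hv, smul_eq_mul]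
  have hI : Integrable (GG r ψ i) (volume.prod volume) := by
    rw [integrable_prod_iff' (GG_meas r ψ hψ i).aestronglyMeasurable]
    constructor
    · refine Filter.Eventually.of_forall fun x => ?_
      rw [GG_z]
      rw [integrable_indicator_iff measurableSet_ball]
      exact integrableOn_const measure_ball_lt_top.ne
    · have : (fun x : Fin N → E3 => ∫ z, ‖GG r ψ i (z, x)‖) = fun x =>
          volume.real (Metric.ball (0 : E3) 1) * r ^ 3 * ‖ψ x‖ ^ 2 := by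
        funext x
        rw [← h1 x]
        refine integral_congr_ae (Filter.Eventually.of_forall fun z => ?_)
        exact Real.norm_of_nonneg (GG_nonneg r ψ i (z, x))
      rw [this]
      exact (nsq_int ψ hψ).const_mul _
  refine ⟨hI, ?_⟩
  rw [integral_integral_swap (f := fun z x => GG r ψ i (z, x)) hI]
  simp only [h1]
  exact integral_const_mul _ _

theorem tz_lower {N : ℕ} {g : E3 → ℝ} (gbd : ∀ x, |g x| ≤ 1) (gsupp : ∀ x, 1 ≤ ‖x‖ → g x = 0)
    (e : Fin N → ℝ) (he : ∀ i, e i = 1 ∨ e i = -1) (r : ℝ) (hr : 0 < r)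
    (ψ : (Fin N → E3) → ℂ) (hψ : Test ψ) (z : E3) :
    -∑ i, ∫ x, GG r ψ i (z, x) ≤ tz e g r z ψ := by
  have hGi : ∀ i, Integrable (fun x => GG r ψ i (z, x)) := fun i =>
    (nsq_int ψ hψ).mono' ((GG_meas r ψ hψ i).comp measurable_prodMk_left).aestronglyMeasurable
      (Filter.Eventually.of_forall fun x => by
        rw [Real.norm_of_nonneg (GG_nonneg r ψ i (z, x))]
        exact GG_le r ψ i (z, x))
  by_cases hi : Integrable (fun x : Fin N → E3 => (∑ i, ∑ j, if i = j then 0 else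
      e i * e j * (g (r⁻¹ • (x i - z)) * g (r⁻¹ • (x j - z)))) * ‖ψ x‖ ^ 2)
  · unfold tz
    rw [← integral_finsetSum _ (fun i _ => hGi i), ← integral_neg]
    refine integral_mono (integrable_finsetSum _ (fun i _ => hGi i)).neg hi fun x => ?_
    show -∑ i, GG r ψ i (z, x) ≤ (∑ i, ∑ j, if i = j then 0 else
      e i * e j * (g (r⁻¹ • (x i - z)) * g (r⁻¹ • (x j - z)))) * ‖ψ x‖ ^ 2
    have h1 : (∑ i, ∑ j, if i = j then 0 else
        e i * e j * (g (r⁻¹ • (x i - z)) * g (r⁻¹ • (x j - z)))) =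
        (∑ i, e i * g (r⁻¹ • (x i - z))) ^ 2 - ∑ i, (e i * g (r⁻¹ • (x i - z))) ^ 2 := by
      rw [sq, Finset.sum_mul_sum, ← Finset.sum_sub_distrib]
      refine Finset.sum_congr rfl fun i _ => ?_
      rw [← Finset.add_sum_erase _ _ (Finset.mem_univ i), if_pos rfl,
        ← Finset.add_sum_erase _ _ (Finset.mem_univ i)]
      rw [zero_add, sq, add_sub_cancel_left]
      refine Finset.sum_congr rfl fun j hj => ?_
      rw [if_neg (Finset.ne_of_mem_erase hj).symm]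
      ring
    have h2 : ∑ i, (e i * g (r⁻¹ • (x i - z))) ^ 2 * ‖ψ x‖ ^ 2 ≤ ∑ i, GG r ψ i (z, x) := by
      refine Finset.sum_le_sum fun i _ => ?_
      unfold GG
      by_cases hz : ‖x i - z‖ < r
      · rw [if_pos hz]
        have h3 : (e i * g (r⁻¹ • (x i - z))) ^ 2 ≤ 1 := by
          have h4 : e i ^ 2 = 1 := by rcases he i with h | h <;> rw [h] <;> norm_num
          rw [mul_pow, h4, one_mul, sq_le_one_iff_abs_le_one]
          exact gbd _
        calc _ ≤ 1 * ‖ψ x‖ ^ 2 := mul_le_mul_of_nonneg_right h3 (by positivity)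
          _ = _ := one_mul _
      · rw [if_neg hz, gsupp]
        · simp
        · rw [norm_smul, norm_inv, Real.norm_of_nonneg hr.le]
          rw [le_inv_mul_iff₀ hr, mul_one]
          exact not_lt.1 hz
    rw [h1, sub_mul, Finset.sum_mul]
    have h5 : 0 ≤ (∑ i, e i * g (r⁻¹ • (x i - z))) ^ 2 * ‖ψ x‖ ^ 2 := by positivity
    linarith
  · unfold tz
    rw [integral_undef hi]
    have : 0 ≤ ∑ i, ∫ x, GG r ψ i (z, x) := Finset.sum_nonneg fun i _ =>
      integral_nonneg fun x => GG_nonneg r ψ i (z, x)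
    linarith

/-- TARGET 1 -/
theorem tau_triv {m : ℕ} {c B : ℝ} {g : E3 → ℝ} {P : E3 → E3 → ℝ} (h : KG m c B g P) :
    ∃ C : ℝ, 0 < C ∧ ∀ {N : ℕ} (e : Fin N → ℝ), (∀ i, e i = 1 ∨ e i = -1) → ∀ r : ℝ, 0 < r →
      ∀ (ψ : (Fin N → E3) → ℂ), Test ψ → -(C * r ^ 3 * N * ∫ x, ‖ψ x‖ ^ 2) ≤ tau e g r ψ := by
  refine ⟨volume.real (Metric.ball (0 : E3) 1),
    ENNReal.toReal_pos (Metric.measure_ball_pos _ _ one_pos).ne' measure_ball_lt_top.ne, ?_⟩
  intro N e he r hr ψ hψ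
  have hI := fun i => GG_int r hr ψ hψ i
  have h1 := ((pot_rep h e ψ hψ).1 r hr)
  have h2 : Integrable (fun z : E3 => ∑ i, ∫ x, GG r ψ i (z, x)) :=
    integrable_finsetSum _ fun i _ => (hI i).1.integral_prod_left
  have h3 : ∫ z : E3, -∑ i, ∫ x, GG r ψ i (z, x) ≤ ∫ z : E3, tz e g r z ψ :=
    integral_mono h2.neg h1 fun z => tz_lower h.gbd h.gsupp e he r hr ψ hψ z
  rw [integral_neg, integral_finsetSum _ fun i _ => (hI i).1.integral_prod_left] at h3
  unfold tau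
  refine le_trans (le_of_eq ?_) h3
  simp only [(hI _).2]
  rw [Finset.sum_const, Finset.card_univ, Fintype.card_fin, nsmul_eq_mul]
  ring

theorem kinE_nonneg {N : ℕ} (α : ℝ) (ψ : (Fin N → E3) → ℂ) : 0 ≤ kinE α ψ := by
  unfold kinE
  refine integral_nonneg fun ξ => ?_
  have : 0 ≤ ∑ i, (2 * Real.pi * ‖ξ i‖) ^ α :=
    Finset.sum_nonneg fun i _ => Real.rpow_nonneg (by positivity) _
  positivity

theorem kinE_sum {N : ℕ} (α : ℝ) (hα : 0 ≤ α) (ψ : (Fin N → E3) → ℂ) (hψ : Test ψ) :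
    ∑ j, ∫ ξ : Fin N → E3, (2 * Real.pi * ‖ξ j‖) ^ α * ‖ft ψ ξ‖ ^ 2 = kinE α ψ := by
  unfold kinE
  cases N with
  | zero => simp
  | succ n =>
    rw [← integral_finsetSum _ fun j _ => (slice ψ hψ j α hα).1]
    simp only [Finset.sum_mul]

/-- TARGET 2 -/
theorem tau_lower {m : ℕ} {c B : ℝ} {g : E3 → ℝ} {P : E3 → E3 → ℝ} (h : KG m c B g P) (α : ℝ)
    (hα : 0 < α) (hm : α ≤ 2 * m) : ∃ C : ℝ, 0 < C ∧ ∀ {N : ℕ} (e : Fin N → ℝ),
      (∀ i, e i = 1 ∨ e i = -1) → ∀ (r κ : ℝ), 0 < r → 0 < κ →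
      ∀ (ψ : (Fin N → E3) → ℂ), Test ψ →
      -(C * r ^ 4 * (κ * N) ^ (1 / 3 : ℝ) * kinE 1 ψ) - C / κ * r ^ (3 + α) * kinE α ψ ≤
        tau e g r ψ := by
  obtain ⟨C1, hC1, H1⟩ := piece h
  obtain ⟨C2, hC2, H2⟩ := q_body h α hα hm
  obtain ⟨C3, hC3, H3⟩ := y_body
  refine ⟨max (2 * C3) (C1 * C2), lt_max_of_lt_left (by positivity), ?_⟩
  intro N e he r κ hr hκ ψ hψ
  have hT := (pot_rep h e ψ hψ).1 r hr
  have hE := H3 r κ hr hκ ψ hψ
  have hQ := fun j => H2 r hr ψ hψ j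
  have hL : Integrable (fun z : E3 => -2 * Er κ r z ψ - (C1 / κ) * ∑ j, Qe P r z j ψ) :=
    (hE.1.const_mul _).sub ((integrable_finsetSum _ fun j _ => (hQ j).1).const_mul _)
  have h1 : ∫ z : E3, (-2 * Er κ r z ψ - (C1 / κ) * ∑ j, Qe P r z j ψ) ≤ tau e g r ψ :=
    integral_mono hL hT fun z => H1 e he r κ hr hκ z ψ hψ
  have h2 : ∫ z : E3, (-2 * Er κ r z ψ - (C1 / κ) * ∑ j, Qe P r z j ψ) =
      -2 * (∫ z : E3, Er κ r z ψ) - (C1 / κ) * ∑ j, ∫ z : E3, Qe P r z j ψ := by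
    rw [integral_sub (hE.1.const_mul _)
      ((integrable_finsetSum _ fun j _ => (hQ j).1).const_mul _), integral_const_mul,
      integral_const_mul, integral_finsetSum _ fun j _ => (hQ j).1]
  have h3 : ∑ j, ∫ z : E3, Qe P r z j ψ ≤ C2 * r ^ (3 + α) * kinE α ψ := by
    rw [← kinE_sum α hα.le ψ hψ, Finset.mul_sum]
    exact Finset.sum_le_sum fun j _ => (hQ j).2
  have h4 := hE.2
  have k1 := kinE_nonneg 1 ψ
  have k2 := kinE_nonneg α ψ
  have p1 : 0 ≤ r ^ 4 * (κ * N) ^ (1 / 3 : ℝ) * kinE 1 ψ := by positivity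
  have p2 : 0 ≤ 1 / κ * r ^ (3 + α) * kinE α ψ := by positivity
  have h5 : (C1 / κ) * ∑ j, ∫ z : E3, Qe P r z j ψ ≤
      (C1 * C2) * (1 / κ * r ^ (3 + α) * kinE α ψ) := by
    calc _ ≤ (C1 / κ) * (C2 * r ^ (3 + α) * kinE α ψ) :=
          mul_le_mul_of_nonneg_left h3 (by positivity)
      _ = _ := by ring
  have h6 := mul_le_mul_of_nonneg_right (le_max_left (2 * C3) (C1 * C2)) p1
  have h7 := mul_le_mul_of_nonneg_right (le_max_right (2 * C3) (C1 * C2)) p2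
  have e1 : max (2 * C3) (C1 * C2) / κ * r ^ (3 + α) * kinE α ψ =
      max (2 * C3) (C1 * C2) * (1 / κ * r ^ (3 + α) * kinE α ψ) := by ring
  have e2 : C3 * r ^ 4 * (κ * N) ^ (1 / 3 : ℝ) * kinE 1 ψ =
      C3 * (r ^ 4 * (κ * N) ^ (1 / 3 : ℝ) * kinE 1 ψ) := by ring
  have e3 : max (2 * C3) (C1 * C2) * r ^ 4 * (κ * N) ^ (1 / 3 : ℝ) * kinE 1 ψ =
      max (2 * C3) (C1 * C2) * (r ^ 4 * (κ * N) ^ (1 / 3 : ℝ) * kinE 1 ψ) := by ring
  rw [e1, e3]
  rw [e2] at h4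
  rw [h2] at h1
  linarith

end Pool.Agent.Helper780_BE.A11
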