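import Pool.Agent.Helper780_BE.A4
import Pool.Agent.Helper780_BE.Defs
import Pool.Agent.Helper985.CP.M_int_coul

set_option autoImplicit false

open MeasureTheory
open scoped Topology

namespace Pool.Agent.Helper780_BE.A5

open Pool.Agent.Helper780_BE.A4 (fdl)

open Pool.Agent.Helper780_BE


/-- a.e. two of the positions are distinct -/
theorem a5_ae {N : ℕ} (i j : Fin N) (hij : i ≠ j) :
    ∀ᵐ x : Fin N → E3, x i ≠ x j := by
  have h : volume {x : Fin N → E3 | x i = x j} = 0 := by
    let L : (Fin N → E3) →ₗ[ℝ] E3 :=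
      LinearMap.proj (R := ℝ) (φ := fun _ : Fin N => E3) i - LinearMap.proj (R := ℝ) (φ := fun _ : Fin N => E3) j
    have e : {x : Fin N → E3 | x i = x j} = ((LinearMap.ker L : Submodule ℝ (Fin N → E3)) : Set (Fin N → E3)) := by
      ext x
      simp [L, sub_eq_zero]
    rw [e]
    apply Measure.addHaar_submodule
    intro htop
    obtain ⟨v, hv⟩ := exists_ne (0 : E3)
    have : (Pi.single i v : Fin N → E3) ∈ LinearMap.ker L := by rw [htop]; trivial
    simp [L, Pi.single_eq_of_ne hij.symm] at this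
    exact hv this
  rw [ae_iff]
  simpa using h

variable {m : ℕ} {c B : ℝ} {g : E3 → ℝ} {P : E3 → E3 → ℝ}

/-- one term of the integrand -/
noncomputable def FF {N : ℕ} (g : E3 → ℝ) (i j : Fin N) (ρ : (Fin N → E3) → ℝ) (r : ℝ) (z : E3)
    (x : Fin N → E3) : ℝ :=
  g (r⁻¹ • (x i - z)) * g (r⁻¹ • (x j - z)) * ρ x

theorem a5_meas {N : ℕ} (h : KG m c B g P) (i j : Fin N) (ρ : (Fin N → E3) → ℝ)
    (hρ : Continuous ρ) :
    Measurable (fun q : (ℝ × E3) × (Fin N → E3) => FF g i j ρ q.1.1 q.1.2 q.2) := by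
  unfold FF
  have hg := h.gmeas
  refine Measurable.mul (Measurable.mul (hg.comp ?_) (hg.comp ?_)) (hρ.measurable.comp measurable_snd)
  · fun_prop
  · fun_prop

theorem a5_g (h : KG m c B g P) (r : ℝ) (hr : 0 < r) (y z : E3) :
    |g (r⁻¹ • (y - z))| ≤ if ‖y - z‖ < r then 1 else 0 := by
  split_ifs with hc
  · exact h.gbd _
  · rw [h.gsupp]
    · simp
    · rw [norm_smul, norm_inv, Real.norm_of_nonneg hr.le, ← div_eq_inv_mul, one_le_div hr]
      exact not_lt.1 hc

theorem a5_dom {N : ℕ} (h : KG m c B g P) (i j : Fin N) (ρ : (Fin N → E3) → ℝ)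
    (hρ0 : ∀ x, 0 ≤ ρ x) (r : ℝ) (hr : 0 < r) (z : E3) (x : Fin N → E3) :
    |FF g i j ρ r z x| ≤ (if ‖x i - z‖ < r ∧ ‖x j - z‖ < r then 1 else 0) * ρ x := by
  unfold FF
  rw [abs_mul, abs_mul, abs_of_nonneg (hρ0 x)]
  refine mul_le_mul_of_nonneg_right ?_ (hρ0 x)
  have h1 := a5_g h r hr (x i) z
  have h2 := a5_g h r hr (x j) z
  refine (mul_le_mul h1 h2 (abs_nonneg _) (by split_ifs <;> norm_num)).trans ?_
  by_cases c1 : ‖x i - z‖ < r <;> by_cases c2 : ‖x j - z‖ < r <;> simp [c1, c2]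

/-- Claim B -/
theorem a5_B {N : ℕ} (h : KG m c B g P) (i j : Fin N) (ρ : (Fin N → E3) → ℝ)
    (hρ : Continuous ρ) (hc : HasCompactSupport ρ) (hρ0 : ∀ x, 0 ≤ ρ x) (r : ℝ) (hr : 0 < r) :
    Integrable (fun q : E3 × (Fin N → E3) => FF g i j ρ r q.1 q.2) (volume.prod volume) := by
  obtain ⟨R, hR⟩ := (hc.isCompact.isBounded).subset_closedBall (0 : Fin N → E3)
  have hρi : Integrable ρ := hρ.integrable_of_hasCompactSupport hc
  have hK : Integrable ((Metric.closedBall (0 : E3) (R + r)).indicator (fun _ => (1 : ℝ))) := by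
    rw [integrable_indicator_iff Metric.isClosed_closedBall.measurableSet]
    exact integrableOn_const measure_closedBall_lt_top.ne
  have hD := hK.mul_prod hρi
  refine Integrable.mono' hD ?_ ?_
  · have := a5_meas h i j ρ hρ
    exact (this.comp (f := fun q : E3 × (Fin N → E3) => ((r, q.1), q.2)) (by fun_prop)).aestronglyMeasurable
  · refine Filter.Eventually.of_forall (fun q => ?_)
    rw [Real.norm_eq_abs]
    refine (a5_dom h i j ρ hρ0 r hr q.1 q.2).trans ?_
    by_cases hx : ρ q.2 = 0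
    · rw [hx]; simp
    · refine mul_le_mul_of_nonneg_right ?_ (hρ0 _)
      split_ifs with hh
      · rw [Set.indicator_of_mem]
        rw [mem_closedBall_zero_iff]
        have h1 : q.2 ∈ Metric.closedBall (0 : Fin N → E3) R := hR (subset_tsupport ρ hx)
        rw [mem_closedBall_zero_iff] at h1
        have h2 : ‖q.2 i‖ ≤ R := (norm_le_pi_norm q.2 i).trans h1
        have h3 := norm_sub_norm_le (q.1) (q.1 - q.2 i)
        have h4 : q.1 - (q.1 - q.2 i) = q.2 i := by abel
        rw [h4] at h3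
        have h5 : ‖q.1 - q.2 i‖ < r := by rw [norm_sub_rev]; exact hh.1
        linarith
      · exact Set.indicator_nonneg (fun _ _ => zero_le_one) _

/-- Claim A -/
theorem a5_A {N : ℕ} (h : KG m c B g P) (i j : Fin N) (hij : i ≠ j) (ρ : (Fin N → E3) → ℝ)
    (hρ : Continuous ρ) (hc : HasCompactSupport ρ) (hρ0 : ∀ x, 0 ≤ ρ x) :
    Integrable (fun q : (ℝ × E3) × (Fin N → E3) => (q.1.1 ^ 5)⁻¹ * FF g i j ρ q.1.1 q.1.2 q.2)
      (((volume.restrict (Set.Ioi (0 : ℝ))).prod volume).prod volume) := by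
  obtain ⟨C, hC, hfd⟩ := fdl
  have hm := a5_meas h i j ρ hρ
  refine ⟨?_, ?_⟩
  · refine (Measurable.mul ?_ hm).aestronglyMeasurable
    fun_prop
  · unfold HasFiniteIntegral
    -- the dominating function
    set S : Set ((ℝ × E3) × (Fin N → E3)) := {q | ‖q.2 i - q.1.2‖ < q.1.1 ∧ ‖q.2 j - q.1.2‖ < q.1.1} with hS
    have hSm : MeasurableSet S := by
      have h1 : MeasurableSet {q : (ℝ × E3) × (Fin N → E3) | ‖q.2 i - q.1.2‖ < q.1.1} :=
        measurableSet_lt (by fun_prop) (by fun_prop)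
      have h2 : MeasurableSet {q : (ℝ × E3) × (Fin N → E3) | ‖q.2 j - q.1.2‖ < q.1.1} :=
        measurableSet_lt (by fun_prop) (by fun_prop)
      exact h1.inter h2
    set D : (ℝ × E3) × (Fin N → E3) → ENNReal := fun q =>
      ENNReal.ofReal (ρ q.2) * (ENNReal.ofReal ((q.1.1 ^ 5)⁻¹) * S.indicator 1 q) with hD
    have hDm : Measurable D := by
      refine Measurable.mul ?_ (Measurable.mul ?_ (measurable_one.indicator hSm))
      · exact ENNReal.measurable_ofReal.comp (hρ.measurable.comp measurable_snd)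
      · fun_prop
    have hle : ∀ᵐ q ∂(((volume.restrict (Set.Ioi (0 : ℝ))).prod (volume : Measure E3)).prod
        (volume : Measure (Fin N → E3))), ‖(q.1.1 ^ 5)⁻¹ * FF g i j ρ q.1.1 q.1.2 q.2‖ₑ ≤ D q := by
      have hpos : ∀ᵐ q ∂(((volume.restrict (Set.Ioi (0 : ℝ))).prod (volume : Measure E3)).prod
          (volume : Measure (Fin N → E3))), 0 < q.1.1 := by
        have a1 : ∀ᵐ r : ℝ ∂(volume.restrict (Set.Ioi (0 : ℝ))), 0 < r :=
          ae_restrict_mem measurableSet_Ioi
        have a2 := (Measure.quasiMeasurePreserving_fst (μ := volume.restrict (Set.Ioi (0 : ℝ)))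
          (ν := (volume : Measure E3))).ae a1
        exact (Measure.quasiMeasurePreserving_fst
          (μ := (volume.restrict (Set.Ioi (0 : ℝ))).prod (volume : Measure E3))
          (ν := (volume : Measure (Fin N → E3)))).ae a2
      filter_upwards [hpos] with q hq
      have h1 := a5_dom h i j ρ hρ0 q.1.1 hq q.1.2 q.2
      have h2 : ‖(q.1.1 ^ 5)⁻¹ * FF g i j ρ q.1.1 q.1.2 q.2‖ ≤
          ρ q.2 * ((q.1.1 ^ 5)⁻¹ * (if ‖q.2 i - q.1.2‖ < q.1.1 ∧ ‖q.2 j - q.1.2‖ < q.1.1 then 1 else 0)) := by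
        rw [norm_mul, Real.norm_eq_abs, Real.norm_eq_abs, abs_of_pos (by positivity)]
        calc _ ≤ (q.1.1 ^ 5)⁻¹ * ((if ‖q.2 i - q.1.2‖ < q.1.1 ∧ ‖q.2 j - q.1.2‖ < q.1.1 then 1 else 0) * ρ q.2) := by
              exact mul_le_mul_of_nonneg_left h1 (by positivity)
          _ = _ := by ring
      rw [← ofReal_norm]
      refine (ENNReal.ofReal_le_ofReal h2).trans ?_
      rw [ENNReal.ofReal_mul (hρ0 _), ENNReal.ofReal_mul (by positivity)]
      refine le_of_eq ?_
      simp only [hD]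
      congr 2
      by_cases hh : ‖q.2 i - q.1.2‖ < q.1.1 ∧ ‖q.2 j - q.1.2‖ < q.1.1
      · rw [Set.indicator_of_mem (show q ∈ S from hh), if_pos hh]; simp
      · rw [Set.indicator_of_notMem (show q ∉ S from hh), if_neg hh]; simp
    refine lt_of_le_of_lt (lintegral_mono_ae hle) ?_
    rw [lintegral_prod_symm' _ hDm]
    have hin : ∀ᵐ x : Fin N → E3, (∫⁻ p : ℝ × E3, D (p, x) ∂((volume.restrict (Set.Ioi (0 : ℝ))).prod volume)) ≤
        ‖(C : ℝ) * (1 / ‖x i - x j‖ * ρ x)‖ₑ := by
      filter_upwards [a5_ae i j hij] with x hx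
      have hDx : Measurable (fun p : ℝ × E3 => D (p, x)) :=
        hDm.comp (f := fun p : ℝ × E3 => (p, x)) (by fun_prop)
      rw [lintegral_prod _ hDx.aemeasurable]
      have hz : ∀ r : ℝ, ∫⁻ z : E3, D ((r, z), x) = ENNReal.ofReal (ρ x) *
          (ENNReal.ofReal ((r ^ 5)⁻¹) *
            volume (Metric.ball (x i) r ∩ Metric.ball (x j) r)) := by
        intro r
        have e1 : ∀ z : E3, D ((r, z), x) = ENNReal.ofReal (ρ x) * ENNReal.ofReal ((r ^ 5)⁻¹) *
            (Metric.ball (x i) r ∩ Metric.ball (x j) r).indicator 1 z := by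
          intro z
          simp only [hD]
          rw [mul_assoc]
          congr 2
          by_cases hh : ‖x i - z‖ < r ∧ ‖x j - z‖ < r
          · rw [Set.indicator_of_mem (show ((r, z), x) ∈ S from hh), Set.indicator_of_mem]
            · rfl
            · refine ⟨?_, ?_⟩
              · rw [Metric.mem_ball, dist_comm, dist_eq_norm]; exact hh.1
              · rw [Metric.mem_ball, dist_comm, dist_eq_norm]; exact hh.2
          · rw [Set.indicator_of_notMem (show ((r, z), x) ∉ S from hh), Set.indicator_of_notMem]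
            rintro ⟨h1, h2⟩
            rw [Metric.mem_ball, dist_comm, dist_eq_norm] at h1 h2
            exact hh ⟨h1, h2⟩
        simp only [e1]
        rw [lintegral_const_mul _ (measurable_one.indicator
          (Metric.isOpen_ball.measurableSet.inter Metric.isOpen_ball.measurableSet)),
          lintegral_indicator_one
          (Metric.isOpen_ball.measurableSet.inter Metric.isOpen_ball.measurableSet), mul_assoc]
      simp only [hz]
      rw [lintegral_const_mul' _ _ ENNReal.ofReal_ne_top]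
      refine (mul_le_mul_right (hfd _ _ hx) _).trans ?_
      rw [← ofReal_norm, ← ENNReal.ofReal_mul (hρ0 x)]
      apply ENNReal.ofReal_le_ofReal
      rw [Real.norm_of_nonneg (mul_nonneg hC.le (mul_nonneg (by positivity) (hρ0 x)))]
      apply le_of_eq
      ring
    refine lt_of_le_of_lt (lintegral_mono_ae hin) ?_
    have := (Pool.Agent.Helper985.CP.int_coul i j hij ρ hρ hc).const_mul C
    exact this.hasFiniteIntegral

/-- the Coulomb integral -/
noncomputable def II {N : ℕ} (ρ : (Fin N → E3) → ℝ) (i j : Fin N) : ℝ :=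
  ∫ x : Fin N → E3, 1 / ‖x i - x j‖ * ρ x

theorem a5_II_symm {N : ℕ} (ρ : (Fin N → E3) → ℝ) (i j : Fin N) : II ρ i j = II ρ j i := by
  unfold II
  congr 1
  ext x
  rw [norm_sub_rev]

/-- the term integrated over everything -/
theorem a5_C {N : ℕ} (h : KG m c B g P) (i j : Fin N) (hij : i ≠ j) (ρ : (Fin N → E3) → ℝ)
    (hρ : Continuous ρ) (hc : HasCompactSupport ρ) (hρ0 : ∀ x, 0 ≤ ρ x) :
    IntegrableOn (fun r : ℝ => (r ^ 5)⁻¹ * ∫ z : E3, ∫ x : Fin N → E3, FF g i j ρ r z x) (Set.Ioi 0) ∧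
    ∫ r in Set.Ioi (0 : ℝ), (r ^ 5)⁻¹ * ∫ z : E3, ∫ x : Fin N → E3, FF g i j ρ r z x =
      c⁻¹ * II ρ i j := by
  have hA := a5_A h i j hij ρ hρ hc hρ0
  have h1 := hA.integral_prod_left
  have h2 := h1.integral_prod_left
  have e1 : (fun r : ℝ => (r ^ 5)⁻¹ * ∫ z : E3, ∫ x : Fin N → E3, FF g i j ρ r z x) =
      fun r : ℝ => ∫ z : E3, ∫ x : Fin N → E3, (r ^ 5)⁻¹ * FF g i j ρ r z x := by
    ext r
    simp only [integral_const_mul]
  rw [e1]
  refine ⟨h2, ?_⟩
  have h3 := integral_prod _ h1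
  have h4 := integral_prod _ hA
  have h5 := integral_prod_symm _ hA
  have h6 : ∫ r in Set.Ioi (0 : ℝ), ∫ z : E3, ∫ x : Fin N → E3, (r ^ 5)⁻¹ * FF g i j ρ r z x =
      ∫ x : Fin N → E3, ∫ p : ℝ × E3, (p.1 ^ 5)⁻¹ * FF g i j ρ p.1 p.2 x
        ∂((volume.restrict (Set.Ioi (0 : ℝ))).prod volume) := by
    rw [← h5, h4, h3]
  rw [h6]
  unfold II
  rw [← integral_const_mul]
  apply integral_congr_ae
  filter_upwards [hA.prod_left_ae, a5_ae i j hij] with x hx hne
  rw [integral_prod _ hx]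
  have hrep := h.rep (x i) (x j) hne
  have hc0 : c ≠ 0 := h.cpos.ne'
  have e2 : ∀ r : ℝ, ∫ z : E3, (r ^ 5)⁻¹ * FF g i j ρ r z x =
      ((r ^ 5)⁻¹ * ∫ z : E3, g (r⁻¹ • (x i - z)) * g (r⁻¹ • (x j - z))) * ρ x := by
    intro r
    unfold FF
    rw [integral_const_mul, integral_mul_const, mul_assoc]
  simp only [e2]
  rw [integral_mul_const, hrep]
  field_simp

/-- TARGET -/
theorem pot_rep {m : ℕ} {c B : ℝ} {g : E3 → ℝ} {P : E3 → E3 → ℝ} (h : KG m c B g P) {N : ℕ}
    (e : Fin N → ℝ) (ψ : (Fin N → E3) → ℂ) (hψ : Test ψ) :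
    (∀ r : ℝ, 0 < r → Integrable (fun z : E3 => tz e g r z ψ)) ∧
    IntegrableOn (fun r : ℝ => (r ^ 5)⁻¹ * tau e g r ψ) (Set.Ioi 0) ∧
    potE e ψ = (c / 2) * ∫ r in Set.Ioi (0 : ℝ), (r ^ 5)⁻¹ * tau e g r ψ := by
  set ρ : (Fin N → E3) → ℝ := fun x => ‖ψ x‖ ^ 2 with hρd
  have hρ : Continuous ρ := hψ.smooth.continuous.norm.pow 2
  have hcs : HasCompactSupport ρ := hψ.compact.comp_left (g := fun z : ℂ => ‖z‖ ^ 2) (by simp)
  have hρ0 : ∀ x, 0 ≤ ρ x := fun x => by simp only [hρd]; positivity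
  set w : Fin N → Fin N → ℝ := fun i j => if i = j then 0 else e i * e j with hw
  set T : ℝ → E3 × (Fin N → E3) → ℝ := fun r q => ∑ i, ∑ j, w i j * FF g i j ρ r q.1 q.2 with hT
  have htz : ∀ r z, tz e g r z ψ = ∫ x : Fin N → E3, T r (z, x) := by
    intro r z
    unfold tz
    congr 1
    ext x
    simp only [hT, hw]
    rw [Finset.sum_mul]
    refine Finset.sum_congr rfl fun i _ => ?_
    rw [Finset.sum_mul]
    refine Finset.sum_congr rfl fun j _ => ?_
    by_cases hh : i = j
    · simp [hh]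
    · simp only [if_neg hh, FF, hρd]; ring
  have hTi : ∀ r, 0 < r → Integrable (T r) (volume.prod volume) := by
    intro r hr
    refine integrable_finsetSum _ fun i _ => integrable_finsetSum _ fun j _ => ?_
    exact (a5_B h i j ρ hρ hcs hρ0 r hr).const_mul _
  have p1 : ∀ r : ℝ, 0 < r → Integrable (fun z : E3 => tz e g r z ψ) := by
    intro r hr
    simp only [htz]
    exact (hTi r hr).integral_prod_left
  have htau : ∀ r, 0 < r → (r ^ 5)⁻¹ * tau e g r ψ =
      ∑ i, ∑ j, w i j * ((r ^ 5)⁻¹ * ∫ z : E3, ∫ x : Fin N → E3, FF g i j ρ r z x) := by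
    intro r hr
    unfold tau
    simp only [htz]
    rw [← integral_prod _ (hTi r hr)]
    simp only [hT]
    rw [integral_finsetSum _ (fun i _ => integrable_finsetSum _ fun j _ =>
      (a5_B h i j ρ hρ hcs hρ0 r hr).const_mul _), Finset.mul_sum]
    refine Finset.sum_congr rfl fun i _ => ?_
    rw [integral_finsetSum _ (fun j _ => (a5_B h i j ρ hρ hcs hρ0 r hr).const_mul _),
      Finset.mul_sum]
    refine Finset.sum_congr rfl fun j _ => ?_
    rw [integral_const_mul, integral_prod _ (a5_B h i j ρ hρ hcs hρ0 r hr)]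
    ring
  have hterm : ∀ i j, IntegrableOn (fun r : ℝ => w i j * ((r ^ 5)⁻¹ * ∫ z : E3, ∫ x : Fin N → E3,
      FF g i j ρ r z x)) (Set.Ioi 0) := by
    intro i j
    by_cases hh : i = j
    · simp only [hw, if_pos hh, zero_mul]
      exact integrableOn_zero
    · exact (a5_C h i j hh ρ hρ hcs hρ0).1.const_mul _
  refine ⟨p1, ?_, ?_⟩
  · have h2 : IntegrableOn (fun r : ℝ => ∑ i, ∑ j, w i j * ((r ^ 5)⁻¹ * ∫ z : E3,
        ∫ x : Fin N → E3, FF g i j ρ r z x)) (Set.Ioi 0) :=
      integrable_finsetSum _ fun i _ => integrable_finsetSum _ fun j _ => hterm i j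
    refine h2.congr_fun (fun r hr => ?_) measurableSet_Ioi
    exact (htau r hr).symm
  · rw [setIntegral_congr_fun measurableSet_Ioi (fun r hr => htau r hr)]
    rw [integral_finsetSum _ (fun i _ => integrable_finsetSum _ fun j _ => hterm i j)]
    have e1 : ∀ i, ∫ r in Set.Ioi (0 : ℝ), ∑ j, w i j * ((r ^ 5)⁻¹ * ∫ z : E3,
        ∫ x : Fin N → E3, FF g i j ρ r z x) = ∑ j, w i j * (c⁻¹ * II ρ i j) := by
      intro i
      rw [integral_finsetSum _ (fun j _ => hterm i j)]
      refine Finset.sum_congr rfl fun j _ => ?_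
      rw [integral_const_mul]
      by_cases hh : i = j
      · simp only [hw, if_pos hh, zero_mul]
      · rw [(a5_C h i j hh ρ hρ hcs hρ0).2]
    simp only [e1]
    have hint : ∀ i j : Fin N, i ≠ j → Integrable (fun x : Fin N → E3 => 1 / ‖x i - x j‖ * ρ x) :=
      fun i j hij => Pool.Agent.Helper985.CP.int_coul i j hij ρ hρ hcs
    have hpot : potE e ψ = ∑ i, ∑ j, (if i < j then e i * e j else 0) * II ρ i j := by
      unfold potE
      have e3 : ∀ x : Fin N → E3, (∑ i, ∑ j, if i < j then e i * e j / ‖x i - x j‖ else 0) *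
          ‖ψ x‖ ^ 2 = ∑ i, ∑ j, (if i < j then e i * e j else 0) * (1 / ‖x i - x j‖ * ρ x) := by
        intro x
        rw [Finset.sum_mul]
        refine Finset.sum_congr rfl fun i _ => ?_
        rw [Finset.sum_mul]
        refine Finset.sum_congr rfl fun j _ => ?_
        by_cases hh : i < j
        · simp only [if_pos hh, hρd]; ring
        · simp [if_neg hh]
      simp only [e3]
      have hi2 : ∀ i j, Integrable (fun x : Fin N → E3 => (if i < j then e i * e j else 0) *
          (1 / ‖x i - x j‖ * ρ x)) := by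
        intro i j
        by_cases hh : i < j
        · exact (hint i j hh.ne).const_mul _
        · simp only [if_neg hh, zero_mul]; exact integrable_zero _ _ _
      rw [integral_finsetSum _ (fun i _ => integrable_finsetSum _ fun j _ => hi2 i j)]
      refine Finset.sum_congr rfl fun i _ => ?_
      rw [integral_finsetSum _ (fun j _ => hi2 i j)]
      refine Finset.sum_congr rfl fun j _ => ?_
      rw [integral_const_mul]
      rfl
    have hc0 : c ≠ 0 := h.cpos.ne'
    have hsum : ∑ i, ∑ j, w i j * (c⁻¹ * II ρ i j) =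
        2 * c⁻¹ * ∑ i, ∑ j, (if i < j then e i * e j else 0) * II ρ i j := by
      have s1 : ∀ i j, w i j * (c⁻¹ * II ρ i j) =
          c⁻¹ * ((if i < j then e i * e j else 0) * II ρ i j) +
          c⁻¹ * ((if j < i then e j * e i else 0) * II ρ j i) := by
        intro i j
        rw [a5_II_symm ρ j i]
        rcases lt_trichotomy i j with hh | hh | hh
        · simp only [hw, if_neg hh.ne, if_pos hh, if_neg (asymm hh)]; ring
        · simp [hw, hh]
        · simp only [hw, if_neg hh.ne', if_pos hh, if_neg (asymm hh)]; ring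
      simp only [s1, Finset.sum_add_distrib]
      rw [Finset.sum_comm (f := fun i j => c⁻¹ * ((if j < i then e j * e i else 0) * II ρ j i))]
      simp only [← Finset.mul_sum]
      ring
    rw [hpot, hsum]
    field_simp

end Pool.Agent.Helper780_BE.A5
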