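import Pool.Agent.Helper780_BE.A3
import Pool.Agent.Helper780_BE.A5
import Pool.Agent.Helper780_BE.A9
import Pool.Agent.Helper780_BE.A11
import Pool.Agent.Helper780_BE.Defs


set_option autoImplicit false

open MeasureTheory
open scoped Topology

namespace Pool.Agent.Helper780_BE.A12

open Pool.Agent.Helper780_BE.A3 (exists_KG)
open Pool.Agent.Helper780_BE.A5 (pot_rep)
open Pool.Agent.Helper780_BE.A9 (slice planch)
open Pool.Agent.Helper780_BE.A11 (tau_triv tau_lower)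

open Pool.Agent.Helper780_BE







/-- the lower bound of the integral -/
theorem int_lower (f : ℝ → ℝ) (hf : IntegrableOn f (Set.Ioi 0)) (H s a b d : ℝ)
    (hH : 0 < H) (hs : 0 < s)
    (h1 : ∀ r, 0 < r → r ≤ H → -(a * r ^ (s / 3 - 1) + b * r ^ (s - 1)) ≤ f r)
    (h2 : ∀ r, H < r → -(d * r ^ (-2 : ℝ)) ≤ f r) :
    -(a * (3 * H ^ (s / 3) / s) + b * (H ^ s / s) + d / H) ≤ ∫ r in Set.Ioi (0 : ℝ), f r := by
  have hu : Set.Ioi (0 : ℝ) = Set.Ioc 0 H ∪ Set.Ioi H := (Set.Ioc_union_Ioi_eq_Ioi hH.le).symm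
  have hd : Disjoint (Set.Ioc 0 H) (Set.Ioi H) := by
    rw [Set.disjoint_left]
    intro x hx hx'
    exact absurd hx.2 (not_le.2 hx')
  have hf1 : IntegrableOn f (Set.Ioc 0 H) := hf.mono_set (by rw [hu]; exact Set.subset_union_left)
  have hf2 : IntegrableOn f (Set.Ioi H) := hf.mono_set (by rw [hu]; exact Set.subset_union_right)
  rw [hu, setIntegral_union hd measurableSet_Ioi hf1 hf2]
  have hr1 : IntegrableOn (fun r : ℝ => r ^ (s / 3 - 1)) (Set.Ioc 0 H) := by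
    have := intervalIntegral.intervalIntegrable_rpow' (a := 0) (b := H) (r := s / 3 - 1)
      (by linarith)
    rwa [intervalIntegrable_iff_integrableOn_Ioc_of_le hH.le] at this
  have hr2 : IntegrableOn (fun r : ℝ => r ^ (s - 1)) (Set.Ioc 0 H) := by
    have := intervalIntegral.intervalIntegrable_rpow' (a := 0) (b := H) (r := s - 1)
      (by linarith)
    rwa [intervalIntegrable_iff_integrableOn_Ioc_of_le hH.le] at this
  have hr3 : IntegrableOn (fun r : ℝ => r ^ (-2 : ℝ)) (Set.Ioi H) :=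
    integrableOn_Ioi_rpow_of_lt (by norm_num) hH
  have i1 : ∫ r in Set.Ioc 0 H, r ^ (s / 3 - 1) = 3 * H ^ (s / 3) / s := by
    rw [← intervalIntegral.integral_of_le hH.le, integral_rpow (Or.inl (by linarith))]
    rw [show s / 3 - 1 + 1 = s / 3 by ring, Real.zero_rpow (by positivity), sub_zero]
    field_simp
  have i2 : ∫ r in Set.Ioc 0 H, r ^ (s - 1) = H ^ s / s := by
    rw [← intervalIntegral.integral_of_le hH.le, integral_rpow (Or.inl (by linarith))]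
    rw [show s - 1 + 1 = s by ring, Real.zero_rpow hs.ne', sub_zero]
  have i3 : ∫ r in Set.Ioi H, r ^ (-2 : ℝ) = 1 / H := by
    rw [integral_Ioi_rpow_of_lt (by norm_num) hH]
    rw [show (-2 : ℝ) + 1 = -1 by norm_num, Real.rpow_neg_one]
    field_simp
  have j1 : -(a * (3 * H ^ (s / 3) / s) + b * (H ^ s / s)) ≤ ∫ r in Set.Ioc 0 H, f r := by
    have e : ∫ r in Set.Ioc 0 H, -(a * r ^ (s / 3 - 1) + b * r ^ (s - 1)) =
        -(a * (3 * H ^ (s / 3) / s) + b * (H ^ s / s)) := by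
      rw [integral_neg, integral_add (hr1.const_mul a) (hr2.const_mul b), integral_const_mul,
        integral_const_mul, i1, i2]
    rw [← e]
    exact setIntegral_mono_on ((hr1.const_mul a).add (hr2.const_mul b)).neg hf1 measurableSet_Ioc
      fun r hr => h1 r hr.1 hr.2
  have j2 : -(d / H) ≤ ∫ r in Set.Ioi H, f r := by
    have e : ∫ r in Set.Ioi H, -(d * r ^ (-2 : ℝ)) = -(d / H) := by
      rw [integral_neg, integral_const_mul, i3]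
      ring
    rw [← e]
    exact setIntegral_mono_on (hr3.const_mul d).neg hf2 measurableSet_Ioi fun r hr => h2 r hr
  linarith

theorem kinE_nonneg {N : ℕ} (β : ℝ) (ψ : (Fin N → E3) → ℂ) : 0 ≤ kinE β ψ := by
  unfold kinE
  refine integral_nonneg fun ξ => mul_nonneg (Finset.sum_nonneg fun i _ => ?_) (sq_nonneg _)
  exact Real.rpow_nonneg (by positivity) _

theorem kin_int {n : ℕ} (ψ : (Fin (n + 1) → E3) → ℂ) (hψ : Test ψ) (β : ℝ) (hβ : 0 ≤ β) :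
    Integrable (fun ξ : Fin (n + 1) → E3 =>
      (∑ i, (2 * Real.pi * ‖ξ i‖) ^ β) * ‖ft ψ ξ‖ ^ 2) := by
  have h : (fun ξ : Fin (n + 1) → E3 => (∑ i, (2 * Real.pi * ‖ξ i‖) ^ β) * ‖ft ψ ξ‖ ^ 2) =
      fun ξ => ∑ i, (2 * Real.pi * ‖ξ i‖) ^ β * ‖ft ψ ξ‖ ^ 2 := by
    funext ξ
    rw [Finset.sum_mul]
  rw [h]
  exact integrable_finsetSum _ fun i _ => (slice ψ hψ i β hβ).1

theorem interp_pt (α : ℝ) (hα : 1 < α) (R t : ℝ) (hR : 0 < R) (ht : 0 ≤ t) :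
    t ^ (1 : ℝ) ≤ R ^ (α - 1) * t ^ α + 1 / R := by
  rw [Real.rpow_one]
  rcases le_or_gt (R * t) 1 with h | h
  · have h1 : t ≤ 1 / R := by
      rw [le_div_iff₀ hR]
      linarith
    have h2 : 0 ≤ R ^ (α - 1) * t ^ α :=
      mul_nonneg (Real.rpow_nonneg hR.le _) (Real.rpow_nonneg ht _)
    linarith
  · have ht' : 0 < t := by
      rcases ht.lt_or_eq with h' | h'
      · exact h'
      · rw [← h', mul_zero] at h
        linarith
    have h1 : R ^ (α - 1) * t ^ α = (R * t) ^ (α - 1) * t := by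
      rw [Real.mul_rpow hR.le ht, mul_assoc]
      congr 1
      have h2 : t ^ α = t ^ (α - 1) * t ^ (1 : ℝ) := by
        rw [← Real.rpow_add ht']
        congr 1
        ring
      rw [h2, Real.rpow_one]
    have h3 : 1 ≤ (R * t) ^ (α - 1) := Real.one_le_rpow h.le (by linarith)
    have h4 : 0 < 1 / R := by positivity
    rw [h1]
    nlinarith

theorem interp {n : ℕ} (α : ℝ) (hα : 1 < α) (ψ : (Fin (n + 1) → E3) → ℂ) (hψ : Test ψ) (R : ℝ)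
    (hR : 0 < R) : kinE 1 ψ ≤ R ^ (α - 1) * kinE α ψ + ((n + 1 : ℕ) : ℝ) / R * ∫ x, ‖ψ x‖ ^ 2 := by
  have hp := planch ψ hψ
  have e : R ^ (α - 1) * kinE α ψ + ((n + 1 : ℕ) : ℝ) / R * ∫ x, ‖ψ x‖ ^ 2 =
      ∫ ξ : Fin (n + 1) → E3, (R ^ (α - 1) * ((∑ i, (2 * Real.pi * ‖ξ i‖) ^ α) * ‖ft ψ ξ‖ ^ 2) +
        ((n + 1 : ℕ) : ℝ) / R * ‖ft ψ ξ‖ ^ 2) := by
    rw [integral_add ((kin_int ψ hψ α (by linarith)).const_mul _) (hp.1.const_mul _),
      integral_const_mul, integral_const_mul, hp.2]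
    rfl
  rw [e]
  unfold kinE
  refine integral_mono (kin_int ψ hψ 1 (by norm_num))
    (((kin_int ψ hψ α (by linarith)).const_mul _).add (hp.1.const_mul _)) fun ξ => ?_
  show (∑ i, (2 * Real.pi * ‖ξ i‖) ^ (1 : ℝ)) * ‖ft ψ ξ‖ ^ 2 ≤
    R ^ (α - 1) * ((∑ i, (2 * Real.pi * ‖ξ i‖) ^ α) * ‖ft ψ ξ‖ ^ 2) +
      ((n + 1 : ℕ) : ℝ) / R * ‖ft ψ ξ‖ ^ 2
  have h1 : ∑ i : Fin (n + 1), (2 * Real.pi * ‖ξ i‖) ^ (1 : ℝ) ≤
      R ^ (α - 1) * (∑ i, (2 * Real.pi * ‖ξ i‖) ^ α) + ((n + 1 : ℕ) : ℝ) / R := by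
    calc ∑ i : Fin (n + 1), (2 * Real.pi * ‖ξ i‖) ^ (1 : ℝ) ≤
        ∑ i : Fin (n + 1), (R ^ (α - 1) * (2 * Real.pi * ‖ξ i‖) ^ α + 1 / R) :=
          Finset.sum_le_sum fun i _ => interp_pt α hα R _ hR (by positivity)
      _ = _ := by
          rw [Finset.sum_add_distrib, ← Finset.mul_sum, Finset.sum_const, Finset.card_univ,
            Fintype.card_fin, nsmul_eq_mul]
          ring
  calc (∑ i, (2 * Real.pi * ‖ξ i‖) ^ (1 : ℝ)) * ‖ft ψ ξ‖ ^ 2 ≤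
      (R ^ (α - 1) * (∑ i, (2 * Real.pi * ‖ξ i‖) ^ α) + ((n + 1 : ℕ) : ℝ) / R) * ‖ft ψ ξ‖ ^ 2 :=
        mul_le_mul_of_nonneg_right h1 (sq_nonneg _)
    _ = _ := by ring

/-- the bound at small scales -/
theorem small_scale (α s C C0 K H r k1 ka N τ : ℝ) (hα : α = 2 * s + 1) (hC : 0 ≤ C)
    (hC0 : C ≤ C0) (hK : 0 < K) (hH : 0 < H) (hr : 0 < r) (hN : 0 ≤ N) (hk1 : 0 ≤ k1)
    (hka : 0 ≤ ka)
    (h : -(C * r ^ 4 * ((K * r ^ s * H ^ s) * N) ^ (1 / 3 : ℝ) * k1) -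
      C / (K * r ^ s * H ^ s) * r ^ (3 + α) * ka ≤ τ) :
    -((C0 * (K * N * H ^ s) ^ (1 / 3 : ℝ) * k1) * r ^ (s / 3 - 1) +
      (C0 / K * (H ^ s)⁻¹ * ka) * r ^ (s - 1)) ≤ (r ^ 5)⁻¹ * τ := by
  have hHs : 0 < H ^ s := Real.rpow_pos_of_pos hH s
  have hrs : 0 < r ^ s := Real.rpow_pos_of_pos hr s
  have e1 : ((K * r ^ s * H ^ s) * N) ^ (1 / 3 : ℝ) =
      (K * N * H ^ s) ^ (1 / 3 : ℝ) * r ^ (s / 3) := by
    rw [show (K * r ^ s * H ^ s) * N = (K * N * H ^ s) * r ^ s by ring,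
      Real.mul_rpow (by positivity) hrs.le, ← Real.rpow_mul hr.le]
    congr 2
    ring
  have e2 : (r ^ 5)⁻¹ * r ^ 4 * r ^ (s / 3) = r ^ (s / 3 - 1) := by
    rw [Real.rpow_sub hr, Real.rpow_one]
    field_simp
  have e3 : (r ^ 5)⁻¹ * r ^ (3 + α) / r ^ s = r ^ (s - 1) := by
    have h1 : r ^ (3 + α) = r ^ s * r ^ (s - 1) * r ^ 5 := by
      rw [← Real.rpow_natCast r 5, ← Real.rpow_add hr, ← Real.rpow_add hr]
      congr 1
      rw [hα]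
      push_cast
      ring
    rw [h1]
    field_simp
  have h5 : (0 : ℝ) < (r ^ 5)⁻¹ := by positivity
  have h6 := mul_le_mul_of_nonneg_left h h5.le
  refine le_trans ?_ h6
  rw [e1]
  have p1 : (r ^ 5)⁻¹ * (C * r ^ 4 * ((K * N * H ^ s) ^ (1 / 3 : ℝ) * r ^ (s / 3)) * k1) =
      (C * (K * N * H ^ s) ^ (1 / 3 : ℝ) * k1) * r ^ (s / 3 - 1) := by
    rw [← e2]
    ring
  have p2 : (r ^ 5)⁻¹ * (C / (K * r ^ s * H ^ s) * r ^ (3 + α) * ka) =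
      (C / K * (H ^ s)⁻¹ * ka) * r ^ (s - 1) := by
    rw [← e3]
    field_simp
  have q1 : (C * (K * N * H ^ s) ^ (1 / 3 : ℝ) * k1) * r ^ (s / 3 - 1) ≤
      (C0 * (K * N * H ^ s) ^ (1 / 3 : ℝ) * k1) * r ^ (s / 3 - 1) := by
    have : 0 ≤ (K * N * H ^ s) ^ (1 / 3 : ℝ) := Real.rpow_nonneg (by positivity) _
    have h7 : 0 ≤ r ^ (s / 3 - 1) := Real.rpow_nonneg hr.le _
    gcongr
  have q2 : (C / K * (H ^ s)⁻¹ * ka) * r ^ (s - 1) ≤ (C0 / K * (H ^ s)⁻¹ * ka) * r ^ (s - 1) := by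
    have h7 : 0 ≤ r ^ (s - 1) := Real.rpow_nonneg hr.le _
    gcongr
  rw [mul_sub, mul_neg, p1, p2]
  linarith

/-- the choice of the parameters -/
theorem param (α A1 : ℝ) (hα : 1 < α) (hA1 : 0 < A1) : ∃ h0 : ℝ, 0 < h0 ∧ ∀ N : ℝ, 1 ≤ N →
    ∃ H R : ℝ, 0 < H ∧ 0 < R ∧
      A1 * N ^ (1 / 3 : ℝ) * H ^ (2 * ((α - 1) / 2) / 3) * R ^ (α - 1) = 1 / 4 ∧
      A1 * N ^ (1 / 3 : ℝ) * H ^ (2 * ((α - 1) / 2) / 3) / R = 1 / 4 / H ∧
      N / H = h0 * N ^ ((α ^ 2 + 3 * α - 3) / ((α - 1) * (α + 3))) := by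
  have ha : 0 < α := by linarith
  have ha1 : 0 < α - 1 := by linarith
  have ha3 : 0 < α + 3 := by linarith
  set e1 : ℝ := (α - 1) * (α + 3) / (3 * α) with he1
  have he1p : 0 < e1 := by positivity
  set q : ℝ := α / ((α - 1) * (α + 3)) with hq
  set g : ℝ := (1 / (4 * A1)) ^ (1 / e1) with hg
  have hg0 : 0 < g := Real.rpow_pos_of_pos (by positivity) _
  have hge : g ^ e1 = 1 / (4 * A1) := by
    rw [hg, ← Real.rpow_mul (by positivity), one_div_mul_cancel he1p.ne', Real.rpow_one]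
  refine ⟨g⁻¹, inv_pos.2 hg0, fun N hN => ?_⟩
  have hN0 : 0 < N := by linarith
  set H : ℝ := g * N ^ (-q) with hH
  have hH0 : 0 < H := mul_pos hg0 (Real.rpow_pos_of_pos hN0 _)
  set R : ℝ := H ^ (1 / α) with hR
  have hR0 : 0 < R := Real.rpow_pos_of_pos hH0 _
  have hRa : R ^ (α - 1) * R = H := by
    have h1 : R ^ (α - 1) * R = R ^ (α - 1) * R ^ (1 : ℝ) := by rw [Real.rpow_one]
    rw [h1, ← Real.rpow_add hR0, sub_add_cancel, hR, ← Real.rpow_mul hH0.le,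
      one_div_mul_cancel ha.ne', Real.rpow_one]
  have hHe : H ^ e1 = 1 / (4 * A1) * N ^ (-(1 / 3) : ℝ) := by
    rw [hH, Real.mul_rpow hg0.le (Real.rpow_nonneg hN0.le _), hge, ← Real.rpow_mul hN0.le]
    congr 2
    rw [hq, he1]
    field_simp
  have hF : A1 * N ^ (1 / 3 : ℝ) * H ^ (2 * ((α - 1) / 2) / 3) * R ^ (α - 1) = 1 / 4 := by
    have h1 : H ^ (2 * ((α - 1) / 2) / 3) * R ^ (α - 1) = H ^ e1 := by
      rw [hR, ← Real.rpow_mul hH0.le, ← Real.rpow_add hH0]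
      congr 1
      rw [he1]
      field_simp
      try ring
    have h2 : N ^ (1 / 3 : ℝ) * N ^ (-(1 / 3) : ℝ) = 1 := by
      rw [← Real.rpow_add hN0]
      norm_num
    calc A1 * N ^ (1 / 3 : ℝ) * H ^ (2 * ((α - 1) / 2) / 3) * R ^ (α - 1) =
        A1 * N ^ (1 / 3 : ℝ) * (H ^ (2 * ((α - 1) / 2) / 3) * R ^ (α - 1)) := by ring
      _ = A1 * (1 / (4 * A1)) * (N ^ (1 / 3 : ℝ) * N ^ (-(1 / 3) : ℝ)) := by
          rw [h1, hHe]
          ring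
      _ = 1 / 4 := by
          rw [h2]
          field_simp
  refine ⟨H, R, hH0, hR0, hF, ?_, ?_⟩
  · have h1 : 0 < R ^ (α - 1) := Real.rpow_pos_of_pos hR0 _
    have h2 : ∀ X : ℝ, X / R = (X * R ^ (α - 1)) / (R ^ (α - 1) * R) := by
      intro X
      rw [mul_comm X, mul_div_mul_left _ _ h1.ne']
    rw [h2, hF, hRa]
  · have h1 : (α ^ 2 + 3 * α - 3) / ((α - 1) * (α + 3)) = 1 + q := by
      rw [hq]
      field_simp
      ring
    rw [h1, Real.rpow_add hN0, Real.rpow_one, hH, Real.rpow_neg hN0.le]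
    have h2 : 0 < N ^ q := Real.rpow_pos_of_pos hN0 _
    field_simp

/-- TARGET -/
theorem lower (α : ℝ) (hα : 1 < α) : ∃ C : ℝ, 0 < C ∧ ∀ (N : ℕ), 1 ≤ N →
      ∀ (e : Fin N → ℝ), (∀ i, e i = 1 ∨ e i = -1) → ∀ (ψ : (Fin N → E3) → ℂ), Test ψ →
      -(C * (N : ℝ) ^ ((α ^ 2 + 3 * α - 3) / ((α - 1) * (α + 3))) * ∫ x, ‖ψ x‖ ^ 2) ≤
        kinE α ψ + potE e ψ := by
  obtain ⟨c, B, g, P, hKG⟩ := exists_KG ⌈α⌉₊
  obtain ⟨C1, hC1, ht1⟩ := tau_triv hKG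
  obtain ⟨C2, hC2, ht2⟩ := tau_lower hKG α (by linarith) (by
    have := Nat.le_ceil α
    have h2 : (0 : ℝ) ≤ (⌈α⌉₊ : ℝ) := Nat.cast_nonneg _
    linarith)
  have hc := hKG.cpos
  set C0 : ℝ := max C1 C2 with hC0
  have h10 : C1 ≤ C0 := le_max_left _ _
  have h20 : C2 ≤ C0 := le_max_right _ _
  have hC0p : 0 < C0 := lt_of_lt_of_le hC1 h10
  set s : ℝ := (α - 1) / 2 with hs
  have hs0 : 0 < s := by
    rw [hs]
    linarith
  have hαs : α = 2 * s + 1 := by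
    rw [hs]
    ring
  set K : ℝ := 2 * c * C0 / s with hK
  have hK0 : 0 < K := by positivity
  set A1 : ℝ := c / 2 * C0 * (3 / s) * K ^ (1 / 3 : ℝ) with hA1
  have hA10 : 0 < A1 := by
    have : 0 < K ^ (1 / 3 : ℝ) := Real.rpow_pos_of_pos hK0 _
    positivity
  obtain ⟨h0, hh0, hpar⟩ := param α A1 hα hA10
  refine ⟨(1 / 4 + c / 2 * C0) * h0, by positivity, ?_⟩
  intro N hN e he ψ hψ
  obtain ⟨n, rfl⟩ : ∃ n, N = n + 1 := ⟨N - 1, by omega⟩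
  have hN1 : (1 : ℝ) ≤ ((n + 1 : ℕ) : ℝ) := by exact_mod_cast hN
  obtain ⟨H, R, hH, hR, hF1, hF2, hF3⟩ := hpar _ hN1
  set Nr : ℝ := ((n + 1 : ℕ) : ℝ) with hNr
  have hNr0 : 0 ≤ Nr := by linarith
  set n0 : ℝ := ∫ x, ‖ψ x‖ ^ 2 with hn0
  have hn00 : 0 ≤ n0 := integral_nonneg fun x => sq_nonneg _
  have hk1 := kinE_nonneg 1 ψ
  have hka := kinE_nonneg α ψ
  have hi := interp α hα ψ hψ R hR
  rw [← hNr, ← hn0] at hi
  obtain ⟨-, hint, hpot⟩ := pot_rep hKG e ψ hψ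
  have hlow := int_lower (fun r : ℝ => (r ^ 5)⁻¹ * tau e g r ψ) hint H s
    (C0 * (K * Nr * H ^ s) ^ (1 / 3 : ℝ) * kinE 1 ψ) (C0 / K * (H ^ s)⁻¹ * kinE α ψ)
    (C0 * Nr * n0) hH hs0 (fun r hr hrH => ?_) (fun r hr => ?_)
  · have hHs : 0 < H ^ s := Real.rpow_pos_of_pos hH s
    have e1 : c / 2 * ((C0 * (K * Nr * H ^ s) ^ (1 / 3 : ℝ) * kinE 1 ψ) * (3 * H ^ (s / 3) / s)) =
        A1 * Nr ^ (1 / 3 : ℝ) * H ^ (2 * s / 3) * kinE 1 ψ := by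
      have h1 : (K * Nr * H ^ s) ^ (1 / 3 : ℝ) =
          K ^ (1 / 3 : ℝ) * Nr ^ (1 / 3 : ℝ) * H ^ (s / 3) := by
        rw [Real.mul_rpow (by positivity) hHs.le, Real.mul_rpow hK0.le hNr0,
          ← Real.rpow_mul hH.le]
        congr 2
        ring
      have h2 : H ^ (2 * s / 3) = H ^ (s / 3) * H ^ (s / 3) := by
        rw [← Real.rpow_add hH]
        congr 1
        ring
      rw [h1, h2, hA1]
      ring
    have e2 : c / 2 * ((C0 / K * (H ^ s)⁻¹ * kinE α ψ) * (H ^ s / s)) = 1 / 4 * kinE α ψ := by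
      have h1 : (H ^ s)⁻¹ * H ^ s = 1 := inv_mul_cancel₀ hHs.ne'
      calc c / 2 * ((C0 / K * (H ^ s)⁻¹ * kinE α ψ) * (H ^ s / s)) =
          c / 2 * (C0 / K) / s * kinE α ψ * ((H ^ s)⁻¹ * H ^ s) := by ring
        _ = 1 / 4 * kinE α ψ := by
            rw [h1, hK]
            field_simp
            ring
    have h3 : potE e ψ ≥ -(A1 * Nr ^ (1 / 3 : ℝ) * H ^ (2 * s / 3) * kinE 1 ψ +
        1 / 4 * kinE α ψ + c / 2 * (C0 * Nr * n0 / H)) := by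
      rw [hpot, ← e1, ← e2]
      have h4 := mul_le_mul_of_nonneg_left hlow (show (0 : ℝ) ≤ c / 2 by positivity)
      refine le_trans (le_of_eq ?_) h4
      ring
    set Gc : ℝ := A1 * Nr ^ (1 / 3 : ℝ) * H ^ (2 * s / 3) with hGc
    have hGc0 : 0 ≤ Gc := by
      have a1 : 0 ≤ Nr ^ (1 / 3 : ℝ) := Real.rpow_nonneg hNr0 _
      have a2 : 0 ≤ H ^ (2 * s / 3) := Real.rpow_nonneg hH.le _
      positivity
    have h5 : Gc * kinE 1 ψ ≤ 1 / 4 * kinE α ψ + 1 / 4 * (Nr / H * n0) := by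
      refine (mul_le_mul_of_nonneg_left hi hGc0).trans (le_of_eq ?_)
      calc Gc * (R ^ (α - 1) * kinE α ψ + Nr / R * n0) =
          (Gc * R ^ (α - 1)) * kinE α ψ + (Gc / R) * (Nr * n0) := by ring
        _ = 1 / 4 * kinE α ψ + 1 / 4 / H * (Nr * n0) := by rw [hF1, hF2]
        _ = _ := by ring
    have h6 : (1 / 4 + c / 2 * C0) * h0 * Nr ^ ((α ^ 2 + 3 * α - 3) / ((α - 1) * (α + 3))) * n0 =
        (1 / 4 + c / 2 * C0) * (Nr / H * n0) := by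
      rw [hF3]
      ring
    rw [h6]
    have h7 : c / 2 * (C0 * Nr * n0 / H) = c / 2 * C0 * (Nr / H * n0) := by ring
    rw [h7] at h3
    nlinarith
  · have hHs : 0 < H ^ s := Real.rpow_pos_of_pos hH s
    have hrs : 0 < r ^ s := Real.rpow_pos_of_pos hr s
    have h1 := ht2 e he r (K * r ^ s * H ^ s) hr (by positivity) ψ hψ
    exact small_scale α s C2 C0 K H r (kinE 1 ψ) (kinE α ψ) Nr _ hαs hC2.le h20 hK0 hH hr hNr0
      hk1 hka h1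
  · have hr0 : 0 < r := hH.trans hr
    have h1 := ht1 e he r hr0 ψ hψ
    have h5 : (0 : ℝ) < (r ^ 5)⁻¹ := by positivity
    have h6 := mul_le_mul_of_nonneg_left h1 h5.le
    refine le_trans ?_ h6
    have e3 : r ^ (-2 : ℝ) = (r ^ 5)⁻¹ * r ^ 3 := by
      rw [Real.rpow_neg hr0.le, Real.rpow_two]
      field_simp
    rw [e3]
    have h7 : C1 * ((r ^ 5)⁻¹ * r ^ 3 * Nr * n0) ≤ C0 * ((r ^ 5)⁻¹ * r ^ 3 * Nr * n0) :=
      mul_le_mul_of_nonneg_right h10 (by positivity)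
    have h8 : (r ^ 5)⁻¹ * -(C1 * r ^ 3 * Nr * n0) = -(C1 * ((r ^ 5)⁻¹ * r ^ 3 * Nr * n0)) := by
      ring
    have h9 : C0 * Nr * n0 * ((r ^ 5)⁻¹ * r ^ 3) = C0 * ((r ^ 5)⁻¹ * r ^ 3 * Nr * n0) := by ring
    rw [h9]
    show _ ≤ (r ^ 5)⁻¹ * -(C1 * r ^ 3 * Nr * n0)
    rw [h8]
    linarith

end Pool.Agent.Helper780_BE.A12
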