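import Pool.Agent.Helper780_BE.Defs

set_option autoImplicit false

open MeasureTheory
open scoped Topology

namespace Pool.Agent.Helper780_BE.A2


open Pool.Agent.Helper780_BE

/-- powers of linear forms, cut off at the unit ball -/
noncomputable def GG (v : E3) (k : ℕ) : E3 → ℝ := fun x => if ‖x‖ < 1 then (inner ℝ v x) ^ k else 0

/-- monomials, cut off at the unit ball -/
noncomputable def HH {m : ℕ} (s : (k : Fin m) × (Fin k → Fin 3)) : E3 → ℝ :=
  fun x => if ‖x‖ < 1 then ∏ j, x (s.2 j) else 0

/-- the span -/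
def Vs (m : ℕ) : Submodule ℝ (E3 → ℝ) := Submodule.span ℝ {g | ∃ v k, k < m ∧ g = GG v k}

theorem GG_mem {m : ℕ} (v : E3) {k : ℕ} (hk : k < m) : GG v k ∈ Vs m :=
  Submodule.subset_span ⟨v, k, hk, rfl⟩

theorem finiteDim (m : ℕ) : FiniteDimensional ℝ (Vs m) := by
  have h1 : Vs m ≤ Submodule.span ℝ (Set.range (HH (m := m))) := by
    unfold Vs
    rw [Submodule.span_le]
    rintro g ⟨v, k, hk, rfl⟩
    have h2 : GG v k = ∑ f : Fin k → Fin 3, (∏ j, v (f j)) • HH (m := m) ⟨⟨k, hk⟩, f⟩ := by
      ext x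
      rw [Finset.sum_apply]
      simp only [Pi.smul_apply, smul_eq_mul, GG, HH]
      by_cases hx : ‖x‖ < 1
      · simp only [if_pos hx]
        have h3 : (inner ℝ v x : ℝ) = ∑ i, v i * x i := by
          rw [PiLp.inner_apply]
          apply Finset.sum_congr rfl
          intro i _
          simp [mul_comm]
        rw [h3, Fintype.sum_pow]
        apply Finset.sum_congr rfl
        intro f _
        rw [← Finset.prod_mul_distrib]
      · simp only [if_neg hx, mul_zero, Finset.sum_const_zero]
    rw [h2]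
    exact Submodule.sum_mem _ fun f _ => Submodule.smul_mem _ _ (Submodule.subset_span ⟨_, rfl⟩)
  have h3 : FiniteDimensional ℝ (Submodule.span ℝ (Set.range (HH (m := m)))) :=
    FiniteDimensional.span_of_finite ℝ (Set.finite_range _)
  exact Submodule.finiteDimensional_of_le h1

theorem zero_out {m : ℕ} {p : E3 → ℝ} (hp : p ∈ Vs m) : ∀ x, 1 ≤ ‖x‖ → p x = 0 := by
  induction hp using Submodule.span_induction with
  | mem g hg =>
    obtain ⟨v, k, -, rfl⟩ := hg
    intro x hx
    simp only [GG, if_neg (not_lt.2 hx)]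
  | zero => intro x _; rfl
  | add a b _ _ ha hb => intro x hx; rw [Pi.add_apply, ha x hx, hb x hx, add_zero]
  | smul c a _ ha => intro x hx; rw [Pi.smul_apply, ha x hx, smul_zero]

theorem bdd {m : ℕ} {p : E3 → ℝ} (hp : p ∈ Vs m) : ∃ B : ℝ, ∀ x, |p x| ≤ B := by
  induction hp using Submodule.span_induction with
  | mem g hg =>
    obtain ⟨v, k, -, rfl⟩ := hg
    refine ⟨‖v‖ ^ k, fun x => ?_⟩
    by_cases hx : ‖x‖ < 1
    · simp only [GG, if_pos hx, abs_pow]
      apply pow_le_pow_left₀ (abs_nonneg _)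
      refine (abs_real_inner_le_norm v x).trans ?_
      nlinarith [norm_nonneg v]
    · simp only [GG, if_neg hx, abs_zero]
      positivity
  | zero => exact ⟨0, fun x => by simp⟩
  | add a b _ _ ha hb =>
    obtain ⟨A, hA⟩ := ha
    obtain ⟨B, hB⟩ := hb
    exact ⟨A + B, fun x => (abs_add_le _ _).trans (add_le_add (hA x) (hB x))⟩
  | smul c a _ ha =>
    obtain ⟨A, hA⟩ := ha
    refine ⟨|c| * A, fun x => ?_⟩
    rw [Pi.smul_apply, smul_eq_mul, abs_mul]
    exact mul_le_mul_of_nonneg_left (hA x) (abs_nonneg _)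

theorem meas {m : ℕ} {p : E3 → ℝ} (hp : p ∈ Vs m) : Measurable p := by
  induction hp using Submodule.span_induction with
  | mem g hg =>
    obtain ⟨v, k, -, rfl⟩ := hg
    refine Measurable.ite ?_ ?_ measurable_const
    · exact measurableSet_lt measurable_norm measurable_const
    · have : Continuous fun x : E3 => (inner ℝ v x : ℝ) ^ k := by fun_prop
      exact this.measurable
  | zero => exact measurable_const
  | add a b _ _ ha hb => exact ha.add hb
  | smul c a _ ha => exact ha.const_smul c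

theorem contOn {m : ℕ} {p : E3 → ℝ} (hp : p ∈ Vs m) : ContinuousOn p (Metric.ball (0 : E3) 1) := by
  induction hp using Submodule.span_induction with
  | mem g hg =>
    obtain ⟨v, k, -, rfl⟩ := hg
    have : Continuous fun x : E3 => (inner ℝ v x : ℝ) ^ k := by fun_prop
    refine this.continuousOn.congr fun x hx => ?_
    rw [Metric.mem_ball, dist_zero_right] at hx
    simp only [GG, if_pos hx]
  | zero => exact continuousOn_const
  | add a b _ _ ha hb => exact ha.add hb
  | smul c a _ ha => exact ha.const_smul c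

theorem repr {m : ℕ} {p : E3 → ℝ} (hp : p ∈ Vs m) :
    ∃ (q : ℕ) (a : Fin q → ℝ) (v : Fin q → E3) (k : Fin q → ℕ), (∀ l, k l < m) ∧
      ∀ x, ‖x‖ < 1 → p x = ∑ l, a l * (inner ℝ (v l) x) ^ (k l) := by
  induction hp using Submodule.span_induction with
  | mem g hg =>
    obtain ⟨v, k, hk, rfl⟩ := hg
    refine ⟨1, fun _ => 1, fun _ => v, fun _ => k, fun _ => hk, fun x hx => ?_⟩
    simp only [GG, if_pos hx, Finset.univ_unique, Finset.sum_singleton, one_mul]
  | zero =>
    refine ⟨0, Fin.elim0, Fin.elim0, Fin.elim0, fun l => l.elim0, fun x _ => ?_⟩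
    simp
  | add a b _ _ ha hb =>
    obtain ⟨q, c, v, k, h1, h2⟩ := ha
    obtain ⟨q', c', v', k', h1', h2'⟩ := hb
    refine ⟨q + q', Fin.append c c', Fin.append v v', Fin.append k k', ?_, ?_⟩
    · intro l
      refine Fin.addCases (fun i => ?_) (fun i => ?_) l
      · rw [Fin.append_left]; exact h1 i
      · rw [Fin.append_right]; exact h1' i
    · intro x hx
      rw [Pi.add_apply, h2 x hx, h2' x hx, Fin.sum_univ_add]
      simp only [Fin.append_left, Fin.append_right]
  | smul c a _ ha =>
    obtain ⟨q, b, v, k, h1, h2⟩ := ha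
    refine ⟨q, fun l => c * b l, v, k, h1, fun x hx => ?_⟩
    rw [Pi.smul_apply, h2 x hx, smul_eq_mul, Finset.mul_sum]
    apply Finset.sum_congr rfl
    intro l _
    ring

theorem integ {m : ℕ} {p q : E3 → ℝ} (hp : p ∈ Vs m) (hq : q ∈ Vs m) :
    Integrable (fun x => p x * q x) := by
  obtain ⟨A, hA⟩ := bdd hp
  obtain ⟨B, hB⟩ := bdd hq
  have h1 : (fun x => p x * q x) = (Metric.ball (0 : E3) 1).indicator (fun x => p x * q x) := by
    ext x
    by_cases hx : x ∈ Metric.ball (0 : E3) 1
    · rw [Set.indicator_of_mem hx]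
    · rw [Set.indicator_of_notMem hx]
      rw [Metric.mem_ball, dist_zero_right, not_lt] at hx
      rw [zero_out hp x hx, zero_mul]
  rw [h1, integrable_indicator_iff Metric.isOpen_ball.measurableSet]
  refine Measure.integrableOn_of_bounded (M := A * B) ?_ ?_ ?_
  · exact measure_ball_lt_top.ne
  · exact ((meas hp).mul (meas hq)).aestronglyMeasurable
  · refine Filter.Eventually.of_forall fun x => ?_
    rw [Real.norm_eq_abs, abs_mul]
    exact mul_le_mul (hA x) (hB x) (abs_nonneg _) ((abs_nonneg _).trans (hA x))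

theorem definite {m : ℕ} {p : E3 → ℝ} (hp : p ∈ Vs m) (h : ∫ x, p x * p x = 0) : p = 0 := by
  have h1 : (fun x => p x * p x) =ᵐ[volume] 0 :=
    (integral_eq_zero_iff_of_nonneg (fun x => mul_self_nonneg (p x)) (integ hp hp)).1 h
  have h2 : p =ᵐ[volume.restrict (Metric.ball (0 : E3) 1)] fun _ => 0 := by
    refine ae_restrict_of_ae ?_
    filter_upwards [h1] with x hx
    exact mul_self_eq_zero.1 hx
  have h3 := Measure.eqOn_open_of_ae_eq h2 Metric.isOpen_ball (contOn hp) continuousOn_const
  ext x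
  by_cases hx : ‖x‖ < 1
  · exact h3 (by rwa [Metric.mem_ball, dist_zero_right])
  · exact zero_out hp x (not_lt.1 hx)

/-- the span as a type of its own -/
def VT (m : ℕ) : Type := Vs m

instance (m : ℕ) : AddCommGroup (VT m) := inferInstanceAs (AddCommGroup (Vs m))
instance (m : ℕ) : Module ℝ (VT m) := inferInstanceAs (Module ℝ (Vs m))
instance (m : ℕ) : FiniteDimensional ℝ (VT m) := finiteDim m

/-- the function -/
def toF {m : ℕ} (p : VT m) : E3 → ℝ := Subtype.val (p := fun x => x ∈ Vs m) p

theorem toF_mem {m : ℕ} (p : VT m) : toF p ∈ Vs m := Subtype.property (p := fun x => x ∈ Vs m) p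

theorem toF_add {m : ℕ} (p q : VT m) : toF (p + q) = toF p + toF q := rfl

theorem toF_smul {m : ℕ} (c : ℝ) (p : VT m) : toF (c • p) = c • toF p := rfl

theorem toF_inj {m : ℕ} {p q : VT m} (h : toF p = toF q) : p = q := Subtype.ext h

theorem toF_zero {m : ℕ} : toF (0 : VT m) = 0 := rfl

theorem toF_sum {m : ℕ} {ι : Type} (s : Finset ι) (f : ι → VT m) : toF (∑ i ∈ s, f i) = ∑ i ∈ s, toF (f i) := by
  classical
  induction s using Finset.induction_on with
  | empty => simp [toF_zero]
  | insert a s ha ih => rw [Finset.sum_insert ha, Finset.sum_insert ha, toF_add, ih]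

/-- the inner product -/
@[instance_reducible]
noncomputable def core (m : ℕ) : InnerProductSpace.Core ℝ (VT m) where
  inner p q := ∫ x, toF p x * toF q x
  conj_inner_symm p q := by
    simp only [conj_trivial]
    congr 1
    ext x
    ring
  re_inner_nonneg p := by
    simp only [RCLike.re_to_real]
    exact integral_nonneg fun x => mul_self_nonneg _
  add_left p q r := by
    simp only [toF_add, Pi.add_apply, add_mul]
    exact integral_add (integ (toF_mem p) (toF_mem r)) (integ (toF_mem q) (toF_mem r))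
  smul_left p q c := by
    simp only [toF_smul, Pi.smul_apply, smul_eq_mul, conj_trivial, mul_assoc]
    exact integral_const_mul _ _
  definite p h := by
    apply toF_inj
    rw [toF_zero]
    exact definite (toF_mem p) h

noncomputable instance (m : ℕ) : NormedAddCommGroup (VT m) :=
  InnerProductSpace.Core.toNormedAddCommGroup (𝕜 := ℝ) (cd := core m)

noncomputable instance (m : ℕ) : InnerProductSpace ℝ (VT m) := InnerProductSpace.ofCore (core m).toCore

theorem inner_def {m : ℕ} (p q : VT m) : (inner ℝ p q : ℝ) = ∫ x, toF p x * toF q x := rfl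

/-- TARGET -/
theorem exists_P (m : ℕ) : ∃ (d : ℕ) (p : Fin d → E3 → ℝ) (B : ℝ), (∀ i x, |p i x| ≤ B) ∧
    (∀ i, ∃ (q : ℕ) (a : Fin q → ℝ) (v : Fin q → E3) (k : Fin q → ℕ), (∀ l, k l < m) ∧
      ∀ x, ‖x‖ < 1 → p i x = ∑ l, a l * (inner ℝ (v l) x) ^ (k l)) ∧
    (∀ i x, 1 ≤ ‖x‖ → p i x = 0) ∧
    (∀ (v : E3) (k : ℕ), k < m → ∀ x : E3, ‖x‖ < 1 →
      ∑ i, p i x * ∫ y, p i y * (inner ℝ v y) ^ k = (inner ℝ v x) ^ k) := by
  classical
  set d := Module.finrank ℝ (VT m) with hd
  let b : OrthonormalBasis (Fin d) ℝ (VT m) := stdOrthonormalBasis ℝ (VT m)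
  choose B hB using fun i => bdd (toF_mem (b i))
  refine ⟨d, fun i => toF (b i), ∑ i, |B i|, ?_, fun i => repr (toF_mem (b i)),
    fun i => zero_out (toF_mem (b i)), ?_⟩
  · intro i x
    refine (hB i x).trans ((le_abs_self _).trans ?_)
    exact Finset.single_le_sum (f := fun i => |B i|) (fun j _ => abs_nonneg _) (Finset.mem_univ i)
  · intro v k hk x hx
    let g : VT m := (⟨GG v k, GG_mem v hk⟩ : Vs m)
    have hg : toF g = GG v k := rfl
    have h1 := b.sum_repr' g
    have h2 := congrFun (congrArg toF h1) x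
    rw [toF_sum, Finset.sum_apply] at h2
    simp only [toF_smul, Pi.smul_apply, smul_eq_mul, inner_def, hg] at h2
    have h3 : GG v k x = (inner ℝ v x) ^ k := by simp only [GG, if_pos hx]
    rw [h3] at h2
    rw [← h2]
    apply Finset.sum_congr rfl
    intro i _
    rw [mul_comm]
    congr 1
    congr 1
    ext y
    by_cases hy : ‖y‖ < 1
    · simp only [GG, if_pos hy]
    · have h0 : toF (b i) y = 0 := zero_out (toF_mem (b i)) y (not_lt.1 hy)
      simp only [h0, zero_mul]

end Pool.Agent.Helper780_BE.A2
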