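import Pool.Agent.Helper780_BE.A1
import Pool.Agent.Helper780_BE.A2
import Pool.Agent.Helper780_BE.Defs


set_option autoImplicit false

open MeasureTheory
open scoped Topology

namespace Pool.Agent.Helper780_BE.A3

open Pool.Agent.Helper780_BE.A1 (exists_g)
open Pool.Agent.Helper780_BE.A2 (exists_P)

open Pool.Agent.Helper780_BE



theorem integ {h q : E3 → ℝ} {B : ℝ} (hm : Measurable h) (hb : ∀ x, |h x| ≤ B)
    (hs : ∀ x, 1 ≤ ‖x‖ → h x = 0) (hq : Continuous q) : Integrable (fun x => h x * q x) := by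
  have h1 : IntegrableOn q (Metric.closedBall (0 : E3) 1) :=
    hq.continuousOn.integrableOn_compact (isCompact_closedBall 0 1)
  have h2 : IntegrableOn (fun x => h x * q x) (Metric.closedBall (0 : E3) 1) := by
    apply Integrable.bdd_mul (c := B) h1 hm.aestronglyMeasurable
    exact Filter.Eventually.of_forall (fun x => by rw [Real.norm_eq_abs]; exact hb x)
  rwa [integrableOn_iff_integrable_of_support_subset] at h2
  intro x hx
  rw [Function.mem_support] at hx
  rw [Metric.mem_closedBall, dist_zero_right]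
  by_contra hc
  push Not at hc
  apply hx
  rw [hs x hc.le, zero_mul]

theorem meas_p {m : ℕ} {p : E3 → ℝ}
    (h1 : ∃ (q : ℕ) (a : Fin q → ℝ) (v : Fin q → E3) (k : Fin q → ℕ), (∀ l, k l < m) ∧
      ∀ x, ‖x‖ < 1 → p x = ∑ l, a l * (inner ℝ (v l) x) ^ (k l))
    (h2 : ∀ x, 1 ≤ ‖x‖ → p x = 0) : Measurable p := by
  obtain ⟨q, a, v, k, -, hp⟩ := h1
  have h3 : p = (Metric.ball (0 : E3) 1).indicator (fun x => ∑ l, a l * (inner ℝ (v l) x) ^ (k l)) := by
    ext x
    by_cases hx : ‖x‖ < 1
    · rw [Set.indicator_of_mem (by simpa using hx), hp x hx]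
    · rw [Set.indicator_of_notMem (by simpa using hx), h2 x (not_lt.mp hx)]
  rw [h3]
  apply Measurable.indicator _ Metric.isOpen_ball.measurableSet
  have : Continuous (fun x : E3 => ∑ l, a l * (inner ℝ (v l) x) ^ (k l)) := by fun_prop
  exact this.measurable

theorem pgp0 {m : ℕ} {p p' g : E3 → ℝ}
    (h1 : ∃ (q : ℕ) (a : Fin q → ℝ) (v : Fin q → E3) (k : Fin q → ℕ), (∀ l, k l < m) ∧
      ∀ x, ‖x‖ < 1 → p x = ∑ l, a l * (inner ℝ (v l) x) ^ (k l))
    (h2 : ∃ (q : ℕ) (a : Fin q → ℝ) (v : Fin q → E3) (k : Fin q → ℕ), (∀ l, k l < m) ∧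
      ∀ x, ‖x‖ < 1 → p' x = ∑ l, a l * (inner ℝ (v l) x) ^ (k l))
    (hgm : Measurable g) (hg1 : ∀ x, |g x| ≤ 1) (hg2 : ∀ x, 1 ≤ ‖x‖ → g x = 0)
    (hg : ∀ (v v' : E3) (k k' : ℕ), k < m → k' < m →
      ∫ x, g x * ((inner ℝ v x) ^ k * (inner ℝ v' x) ^ k') = 0) :
    ∫ w, p w * g w * p' w = 0 := by
  obtain ⟨q, a, v, k, hk, hp⟩ := h1
  obtain ⟨q', a', v', k', hk', hp'⟩ := h2
  have h3 : (fun w => p w * g w * p' w) = fun w => ∑ l, ∑ l', (a l * a' l') *
      (g w * ((inner ℝ (v l) w) ^ (k l) * (inner ℝ (v' l') w) ^ (k' l'))) := by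
    ext w
    by_cases hw : ‖w‖ < 1
    · rw [hp w hw, hp' w hw, mul_right_comm, Finset.sum_mul_sum, Finset.sum_mul]
      apply Finset.sum_congr rfl
      intro l _
      rw [Finset.sum_mul]
      apply Finset.sum_congr rfl
      intro l' _
      ring
    · rw [hg2 w (not_lt.mp hw)]
      simp
  have hint : ∀ l l', Integrable (fun w => (a l * a' l') *
      (g w * ((inner ℝ (v l) w) ^ (k l) * (inner ℝ (v' l') w) ^ (k' l')))) := by
    intro l l'
    apply Integrable.const_mul
    apply integ hgm hg1 hg2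
    fun_prop
  rw [h3, integral_finsetSum _ (fun l _ => integrable_finsetSum _ (fun l' _ => hint l l'))]
  apply Finset.sum_eq_zero
  intro l _
  rw [integral_finsetSum _ (fun l' _ => hint l l')]
  apply Finset.sum_eq_zero
  intro l' _
  rw [integral_const_mul, hg _ _ _ _ (hk l) (hk' l'), mul_zero]

/-- TARGET -/
theorem exists_KG (m : ℕ) : ∃ (c B : ℝ) (g : E3 → ℝ) (P : E3 → E3 → ℝ), KG m c B g P := by
  obtain ⟨c, g, hc, hgm, hg1, hg2, hrep, hg⟩ := exists_g m
  obtain ⟨d, p, B, hpB, hpoly, hp0, hprep⟩ := exists_P m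
  have hpm : ∀ i, Measurable (p i) := fun i => meas_p (hpoly i) (hp0 i)
  have hB : ∀ i x y, |p i x * p i y| ≤ B * B := by
    intro i x y
    rw [abs_mul]
    exact mul_le_mul (hpB i x) (hpB i y) (abs_nonneg _) ((abs_nonneg _).trans (hpB i x))
  have hI : ∀ i j, Integrable (fun w => p i w * g w * p j w) := by
    intro i j
    have h1 : (fun w => p i w * g w * p j w) = fun w => (g w * (p i w * p j w)) * (1 : ℝ) := by
      ext w; ring
    rw [h1]
    apply integ (h := fun w => g w * (p i w * p j w)) (B := 1 * (B * B))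
      (hgm.mul ((hpm i).mul (hpm j))) _ _ continuous_const
    · intro x
      show |g x * (p i x * p j x)| ≤ _
      rw [abs_mul, abs_mul]
      have hB0 : 0 ≤ B := (abs_nonneg _).trans (hpB i x)
      exact mul_le_mul (hg1 x) (mul_le_mul (hpB i x) (hpB j x) (abs_nonneg _) hB0)
        (by positivity) (by norm_num)
    · intro x hx
      show g x * (p i x * p j x) = 0
      rw [hg2 x hx, zero_mul]
  refine ⟨c, d * (B * B), g, fun x y => ∑ i, p i x * p i y, ?_⟩
  constructor
  · exact hc
  · exact hgm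
  · exact hg1
  · exact hg2
  · exact hrep
  · show Measurable (fun q : E3 × E3 => ∑ i, p i q.1 * p i q.2)
    apply Finset.measurable_fun_sum
    intro i _
    exact ((hpm i).comp measurable_fst).mul ((hpm i).comp measurable_snd)
  · intro x y
    exact Finset.sum_congr rfl (fun i _ => mul_comm _ _)
  · intro x y
    refine (Finset.abs_sum_le_sum_abs _ _).trans ?_
    refine (Finset.sum_le_sum (fun i _ => hB i x y)).trans ?_
    simp
  · intro x y hx
    exact Finset.sum_eq_zero (fun i _ => by rw [hp0 i x hx, zero_mul])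
  · intro v k hk x hx
    rw [← hprep v k hk x hx]
    have h1 : (fun y => (∑ i, p i x * p i y) * (inner ℝ v y) ^ k) =
        fun y => ∑ i, p i x * (p i y * (inner ℝ v y) ^ k) := by
      ext y
      rw [Finset.sum_mul]
      exact Finset.sum_congr rfl (fun i _ => by ring)
    rw [h1, integral_finsetSum]
    · apply Finset.sum_congr rfl
      intro i _
      rw [integral_const_mul]
    · intro i _
      apply Integrable.const_mul
      apply integ (hpm i) (hpB i) (hp0 i)
      fun_prop
  · intro x y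
    have h1 : (fun w => (∑ i, p i x * p i w) * g w * (∑ i, p i w * p i y)) =
        fun w => ∑ i, ∑ j, (p i x * p j y) * (p i w * g w * p j w) := by
      ext w
      rw [mul_right_comm, Finset.sum_mul_sum, Finset.sum_mul]
      apply Finset.sum_congr rfl
      intro i _
      rw [Finset.sum_mul]
      apply Finset.sum_congr rfl
      intro j _
      ring
    rw [h1, integral_finsetSum _ (fun i _ => integrable_finsetSum _ (fun j _ => (hI i j).const_mul _))]
    apply Finset.sum_eq_zero
    intro i _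
    rw [integral_finsetSum _ (fun j _ => (hI i j).const_mul _)]
    apply Finset.sum_eq_zero
    intro j _
    rw [integral_const_mul, pgp0 (hpoly i) (hpoly j) hgm hg1 hg2 hg, mul_zero]

end Pool.Agent.Helper780_BE.A3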