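import Pool.Agent.Helper780_BE.Defs


set_option autoImplicit false

open MeasureTheory
open scoped Topology

namespace Pool.Agent.Helper780_BE.A4


open Pool.Agent.Helper780_BE

/-- TARGET -/
theorem fdl : ∃ C : ℝ, 0 < C ∧ ∀ x y : E3, x ≠ y →
    ∫⁻ r in Set.Ioi (0 : ℝ), ENNReal.ofReal ((r ^ 5)⁻¹) *
      volume (Metric.ball x r ∩ Metric.ball y r) ≤ ENNReal.ofReal (C / ‖x - y‖) := by
  obtain ⟨K, hK⟩ : ∃ K : ENNReal, K = volume (Metric.ball (0 : E3) 1) := ⟨_, rfl⟩
  have hKtop : K ≠ ⊤ := by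
    rw [hK]
    exact (measure_ball_lt_top).ne
  have hKpos : 0 < K := by
    rw [hK]
    exact Metric.measure_ball_pos _ _ one_pos
  have hKr : 0 < K.toReal := ENNReal.toReal_pos hKpos.ne' hKtop
  refine ⟨2 * K.toReal, by positivity, ?_⟩
  intro x y hxy
  have hd : 0 < ‖x - y‖ := norm_pos_iff.2 (sub_ne_zero.2 hxy)
  have hd2 : 0 < ‖x - y‖ / 2 := by positivity
  have hfin : Module.finrank ℝ E3 = 3 := by simp [E3]
  have hbound : ∀ r ∈ Set.Ioi (0 : ℝ), ENNReal.ofReal ((r ^ 5)⁻¹) *
      volume (Metric.ball x r ∩ Metric.ball y r) ≤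
      (Set.Ioi (‖x - y‖ / 2)).indicator (fun r => ENNReal.ofReal (r ^ (-2 : ℝ)) * K) r := by
    intro r hr
    have hr0 : (0 : ℝ) < r := hr
    by_cases h : r ∈ Set.Ioi (‖x - y‖ / 2)
    · rw [Set.indicator_of_mem h]
      have h1 : volume (Metric.ball x r ∩ Metric.ball y r) ≤ ENNReal.ofReal (r ^ 3) * K := by
        refine (measure_mono Set.inter_subset_left).trans ?_
        rw [Measure.addHaar_ball volume x hr0.le, hfin, hK]
      refine (mul_le_mul_right h1 _).trans ?_
      rw [← mul_assoc, ← ENNReal.ofReal_mul (by positivity)]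
      have h2 : (r ^ 5)⁻¹ * r ^ 3 = r ^ (-2 : ℝ) := by
        have h3 : r ^ (-2 : ℝ) = (r ^ 2)⁻¹ := by
          rw [Real.rpow_neg hr0.le]
          congr 1
          exact_mod_cast Real.rpow_natCast r 2
        rw [h3]
        field_simp
      rw [h2]
    · rw [Set.indicator_of_notMem h]
      have hle : r ≤ ‖x - y‖ / 2 := by
        simpa using h
      have hempty : Metric.ball x r ∩ Metric.ball y r = ∅ := by
        ext z
        simp only [Set.mem_inter_iff, Metric.mem_ball, Set.mem_empty_iff_false, iff_false, not_and,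
          not_lt]
        intro hz
        by_contra hcon
        push Not at hcon
        have h1 : dist x y ≤ dist x z + dist z y := dist_triangle _ _ _
        rw [dist_comm x z, dist_eq_norm x y] at h1
        linarith
      rw [hempty, measure_empty, mul_zero]
  calc ∫⁻ r in Set.Ioi (0 : ℝ), ENNReal.ofReal ((r ^ 5)⁻¹) *
        volume (Metric.ball x r ∩ Metric.ball y r)
      ≤ ∫⁻ r in Set.Ioi (0 : ℝ),
        (Set.Ioi (‖x - y‖ / 2)).indicator (fun r => ENNReal.ofReal (r ^ (-2 : ℝ)) * K) r :=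
        setLIntegral_mono' measurableSet_Ioi hbound
    _ ≤ ∫⁻ r, (Set.Ioi (‖x - y‖ / 2)).indicator (fun r => ENNReal.ofReal (r ^ (-2 : ℝ)) * K) r :=
        setLIntegral_le_lintegral _ _
    _ = ∫⁻ r in Set.Ioi (‖x - y‖ / 2), ENNReal.ofReal (r ^ (-2 : ℝ)) * K :=
        lintegral_indicator measurableSet_Ioi _
    _ = (∫⁻ r in Set.Ioi (‖x - y‖ / 2), ENNReal.ofReal (r ^ (-2 : ℝ))) * K := by
        rw [lintegral_mul_const' _ _ hKtop]
    _ = ENNReal.ofReal (∫ r in Set.Ioi (‖x - y‖ / 2), r ^ (-2 : ℝ)) * K := by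
        rw [ofReal_integral_eq_lintegral_ofReal
          (integrableOn_Ioi_rpow_of_lt (by norm_num) hd2)]
        filter_upwards [ae_restrict_mem measurableSet_Ioi] with r hr
        have hr' : ‖x - y‖ / 2 < r := hr
        exact Real.rpow_nonneg (by linarith) _
    _ = ENNReal.ofReal (2 / ‖x - y‖) * K := by
        rw [integral_Ioi_rpow_of_lt (by norm_num) hd2]
        congr 2
        have h1 : (-2 : ℝ) + 1 = -1 := by norm_num
        rw [h1, Real.rpow_neg_one]
        field_simp
    _ = ENNReal.ofReal (2 * K.toReal / ‖x - y‖) := by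
        conv_lhs => rw [← ENNReal.ofReal_toReal hKtop]
        rw [← ENNReal.ofReal_mul (by positivity)]
        congr 1
        ring
    _ ≤ _ := le_rfl

end Pool.Agent.Helper780_BE.A4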