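import Pool.Agent.Helper780_BE.Defs


set_option autoImplicit false

open MeasureTheory
open scoped Topology

namespace Pool.Agent.Helper780_BE.A7


open Pool.Agent.Helper780_BE

section mult

variable {m : ℕ} {c B : ℝ} {g : E3 → ℝ} {P : E3 → E3 → ℝ}

theorem B_nonneg (h : KG m c B g P) : 0 ≤ B := le_trans (abs_nonneg _) (h.pbd 0 0)

theorem psupp' (h : KG m c B g P) (x y : E3) (hy : 1 ≤ ‖y‖) : P x y = 0 := by
  rw [h.psymm]; exact h.psupp y x hy

theorem pmeas' (h : KG m c B g P) (x : E3) : Measurable (fun y => P x y) :=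
  h.pmeas.comp (measurable_const.prodMk measurable_id)

/-- the volume of the unit ball -/
noncomputable def VV : ℝ := (volume (Metric.ball (0 : E3) 1)).toReal

theorem VV_nonneg : 0 ≤ VV := ENNReal.toReal_nonneg

theorem ind_int (r K : ℝ) : Integrable ((Metric.ball (0 : E3) r).indicator (fun _ => K)) := by
  rw [integrable_indicator_iff measurableSet_ball]
  exact integrableOn_const (by
    have : volume (Metric.ball (0 : E3) r) < ⊤ := measure_ball_lt_top
    exact this.ne)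

theorem ind_integral (K : ℝ) : ∫ y, (Metric.ball (0 : E3) 1).indicator (fun _ => K) y = VV * K := by
  rw [integral_indicator measurableSet_ball, setIntegral_const]
  rfl

theorem int_P (h : KG m c B g P) (x : E3) (F : E3 → ℂ) (hF : Measurable F) (K : ℝ) (hK0 : 0 ≤ K)
    (hK : ∀ y, ‖y‖ < 1 → ‖F y‖ ≤ K) :
    Integrable (fun y => (P x y : ℂ) * F y) ∧ ‖∫ y, (P x y : ℂ) * F y‖ ≤ VV * (B * K) := by
  have hbd : ∀ y, ‖(P x y : ℂ) * F y‖ ≤ (Metric.ball (0 : E3) 1).indicator (fun _ => B * K) y := by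
    intro y
    by_cases hy : ‖y‖ < 1
    · rw [Set.indicator_of_mem (by simpa using hy), norm_mul, Complex.norm_real, Real.norm_eq_abs]
      exact mul_le_mul (h.pbd x y) (hK y hy) (norm_nonneg _) (B_nonneg h)
    · rw [psupp' h x y (not_lt.1 hy)]
      simp only [Complex.ofReal_zero, zero_mul, norm_zero]
      exact Set.indicator_nonneg (fun _ _ => mul_nonneg (B_nonneg h) hK0) _
  have hm : AEStronglyMeasurable (fun y => (P x y : ℂ) * F y) volume :=
    ((Complex.measurable_ofReal.comp (pmeas' h x)).mul hF).aestronglyMeasurable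
  refine ⟨(ind_int 1 (B * K)).mono' hm (Filter.Eventually.of_forall hbd), ?_⟩
  refine (norm_integral_le_of_norm_le (ind_int 1 (B * K)) (Filter.Eventually.of_forall hbd)).trans ?_
  rw [ind_integral]

/-- the multiplier -/
noncomputable def MM (P : E3 → E3 → ℝ) (x v : E3) : ℂ :=
  Complex.exp ((inner ℝ v x : ℝ) * Complex.I) -
    ∫ y : E3, (P x y : ℂ) * Complex.exp ((inner ℝ v y : ℝ) * Complex.I)

theorem MM_le1 (h : KG m c B g P) (x v : E3) : ‖MM P x v‖ ≤ 1 + VV * B := by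
  have h1 := (int_P h x (fun y => Complex.exp ((inner ℝ v y : ℝ) * Complex.I)) (by fun_prop) 1
    zero_le_one (fun y _ => by rw [Complex.norm_exp_ofReal_mul_I])).2
  unfold MM
  refine (norm_sub_le _ _).trans ?_
  rw [Complex.norm_exp_ofReal_mul_I]
  linarith

/-- the remainder of the exponential series -/
noncomputable def Er (m : ℕ) (t : ℝ) : ℂ :=
  Complex.exp ((t : ℂ) * Complex.I) - ∑ k ∈ Finset.range m, ((t : ℂ) * Complex.I) ^ k / k.factorial

theorem Er_bd (m : ℕ) (t a : ℝ) (h1 : |t| ≤ a) (ha : a ≤ 1) : ‖Er m t‖ ≤ a ^ m * Real.exp 1 := by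
  unfold Er
  refine (Complex.norm_exp_sub_sum_le_norm_mul_exp _ m).trans ?_
  rw [norm_mul, Complex.norm_I, mul_one, Complex.norm_real, Real.norm_eq_abs]
  exact mul_le_mul (pow_le_pow_left₀ (abs_nonneg _) h1 m) (Real.exp_le_exp.2 (h1.trans ha))
    (Real.exp_pos _).le (by have := (abs_nonneg t).trans h1; positivity)

theorem Er_meas (m : ℕ) (v : E3) : Measurable (fun y : E3 => Er m (inner ℝ v y)) := by
  unfold Er
  fun_prop

theorem MM_eq (h : KG m c B g P) (x v : E3) (hx : ‖x‖ < 1) :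
    MM P x v = Er m (inner ℝ v x) - ∫ y : E3, (P x y : ℂ) * Er m (inner ℝ v y) := by
  have hin : ∀ y : E3, ‖y‖ < 1 → |inner ℝ v y| ≤ ‖v‖ := by
    intro y hy
    refine (abs_real_inner_le_norm v y).trans ?_
    calc ‖v‖ * ‖y‖ ≤ ‖v‖ * 1 := mul_le_mul_of_nonneg_left hy.le (norm_nonneg _)
      _ = ‖v‖ := mul_one _
  have hk : ∀ k ∈ Finset.range m, ∫ y : E3, (P x y : ℂ) * ((((inner ℝ v y : ℝ) : ℂ) * Complex.I) ^ k / k.factorial) =
      (((inner ℝ v x : ℝ) : ℂ) * Complex.I) ^ k / k.factorial := by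
    intro k hk
    have h1 := h.repr v k (Finset.mem_range.1 hk) x hx
    have h2 : ∀ y : E3, (P x y : ℂ) * ((((inner ℝ v y : ℝ) : ℂ) * Complex.I) ^ k / k.factorial) =
        (Complex.I ^ k / k.factorial) * ((P x y * (inner ℝ v y) ^ k : ℝ) : ℂ) := by
      intro y
      push_cast
      rw [mul_pow]
      ring
    simp_rw [h2]
    rw [integral_const_mul, integral_complex_ofReal, h1]
    push_cast
    rw [mul_pow]
    ring
  have hint : ∀ k ∈ Finset.range m, Integrable (fun y : E3 =>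
      (P x y : ℂ) * ((((inner ℝ v y : ℝ) : ℂ) * Complex.I) ^ k / k.factorial)) := by
    intro k _
    refine (int_P h x (fun y => (((inner ℝ v y : ℝ) : ℂ) * Complex.I) ^ k / k.factorial) (by fun_prop)
      (‖v‖ ^ k) (by positivity) (fun y hy => ?_)).1
    rw [norm_div, norm_pow, norm_mul, Complex.norm_I, mul_one, Complex.norm_real, Real.norm_eq_abs,
      Complex.norm_natCast]
    have h3 : |inner ℝ v y| ^ k ≤ ‖v‖ ^ k := pow_le_pow_left₀ (abs_nonneg _) (hin y hy) k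
    have h4 : (1 : ℝ) ≤ k.factorial := by exact_mod_cast Nat.succ_le_of_lt k.factorial_pos
    calc |inner ℝ v y| ^ k / k.factorial ≤ |inner ℝ v y| ^ k := div_le_self (by positivity) h4
      _ ≤ _ := h3
  have hsum : ∫ y : E3, (P x y : ℂ) * ∑ k ∈ Finset.range m,
      (((inner ℝ v y : ℝ) : ℂ) * Complex.I) ^ k / k.factorial =
      ∑ k ∈ Finset.range m, (((inner ℝ v x : ℝ) : ℂ) * Complex.I) ^ k / k.factorial := by
    simp_rw [Finset.mul_sum]
    rw [integral_finsetSum _ hint]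
    exact Finset.sum_congr rfl hk
  have hint2 : Integrable (fun y : E3 => (P x y : ℂ) * ∑ k ∈ Finset.range m,
      (((inner ℝ v y : ℝ) : ℂ) * Complex.I) ^ k / k.factorial) := by
    simp_rw [Finset.mul_sum]
    exact integrable_finsetSum _ hint
  have hint1 : Integrable (fun y : E3 => (P x y : ℂ) * Complex.exp (((inner ℝ v y : ℝ) : ℂ) * Complex.I)) :=
    (int_P h x (fun y => Complex.exp ((inner ℝ v y : ℝ) * Complex.I)) (by fun_prop) 1
      zero_le_one (fun y _ => by rw [Complex.norm_exp_ofReal_mul_I])).1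
  unfold MM Er
  simp_rw [mul_sub]
  rw [integral_sub hint1 hint2, hsum]
  ring

theorem MM_bd (h : KG m c B g P) (α : ℝ) (hα : 0 < α) (hm : α ≤ 2 * m) :
    ∃ C : ℝ, 0 < C ∧ ∀ x v : E3, ‖x‖ < 1 → ‖MM P x v‖ ^ 2 ≤ C * ‖v‖ ^ α := by
  have hB := B_nonneg h
  have hV := VV_nonneg
  have he : 1 ≤ Real.exp 1 := Real.one_le_exp zero_le_one
  obtain ⟨C0, hC0⟩ : ∃ C0 : ℝ, C0 = Real.exp 1 * (1 + VV * B) := ⟨_, rfl⟩
  have hVB : 0 ≤ VV * B := mul_nonneg hV hB
  have hC01 : 1 + VV * B ≤ C0 := by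
    rw [hC0]
    nlinarith
  have hC0pos : 0 < C0 := by linarith
  refine ⟨C0 ^ 2, by positivity, ?_⟩
  intro x v hx
  by_cases hv : ‖v‖ ≤ 1
  · have h1 : ‖MM P x v‖ ≤ C0 * ‖v‖ ^ m := by
      rw [MM_eq h x v hx]
      have hin : ∀ y : E3, ‖y‖ < 1 → |inner ℝ v y| ≤ ‖v‖ := by
        intro y hy
        refine (abs_real_inner_le_norm v y).trans ?_
        calc ‖v‖ * ‖y‖ ≤ ‖v‖ * 1 := mul_le_mul_of_nonneg_left hy.le (norm_nonneg _)
          _ = ‖v‖ := mul_one _
      have h2 := Er_bd m _ _ (hin x hx) hv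
      have h3 := (int_P h x (fun y => Er m (inner ℝ v y)) (Er_meas m v) (‖v‖ ^ m * Real.exp 1)
        (by positivity) (fun y hy => Er_bd m _ _ (hin y hy) hv)).2
      refine (norm_sub_le _ _).trans ?_
      rw [hC0]
      nlinarith
    calc ‖MM P x v‖ ^ 2 ≤ (C0 * ‖v‖ ^ m) ^ 2 := pow_le_pow_left₀ (norm_nonneg _) h1 2
      _ = C0 ^ 2 * ‖v‖ ^ (((2 * m : ℕ)) : ℝ) := by rw [Real.rpow_natCast]; ring
      _ ≤ C0 ^ 2 * ‖v‖ ^ α := by
          refine mul_le_mul_of_nonneg_left ?_ (by positivity)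
          refine Real.rpow_le_rpow_of_exponent_ge' (norm_nonneg _) hv hα.le ?_
          push_cast
          exact hm
  · push Not at hv
    have h1 := (MM_le1 h x v).trans hC01
    have h2 : 1 ≤ ‖v‖ ^ α := Real.one_le_rpow hv.le hα.le
    calc ‖MM P x v‖ ^ 2 ≤ C0 ^ 2 := pow_le_pow_left₀ (norm_nonneg _) h1 2
      _ = C0 ^ 2 * 1 := (mul_one _).symm
      _ ≤ _ := mul_le_mul_of_nonneg_left h2 (by positivity)

end mult

section kern

open scoped FourierTransform Convolution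

variable {m : ℕ} {c B : ℝ} {g : E3 → ℝ} {P : E3 → E3 → ℝ}

/-- the scaled kernel -/
noncomputable def kk (P : E3 → E3 → ℝ) (r : ℝ) (x w : E3) : ℂ := (((r ^ 3)⁻¹ * P x (r⁻¹ • w) : ℝ) : ℂ)

theorem kk_zero (h : KG m c B g P) {r : ℝ} (hr : 0 < r) (x w : E3) (hw : r ≤ ‖w‖) : kk P r x w = 0 := by
  unfold kk
  rw [psupp' h x (r⁻¹ • w)]
  · simp
  · rw [norm_smul, norm_inv, Real.norm_of_nonneg hr.le, inv_mul_eq_div, le_div_iff₀ hr]
    linarith

theorem kk_bd (h : KG m c B g P) {r : ℝ} (hr : 0 < r) (x w : E3) :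
    ‖kk P r x w‖ ≤ (Metric.ball (0 : E3) r).indicator (fun _ => (r ^ 3)⁻¹ * B) w := by
  have hB := B_nonneg h
  by_cases hw : ‖w‖ < r
  · rw [Set.indicator_of_mem (by simpa using hw)]
    unfold kk
    rw [Complex.norm_real, Real.norm_eq_abs, abs_mul, abs_of_pos (by positivity : 0 < (r ^ 3)⁻¹)]
    exact mul_le_mul_of_nonneg_left (h.pbd _ _) (by positivity)
  · rw [kk_zero h hr x w (not_lt.1 hw), norm_zero]
    exact Set.indicator_nonneg (fun _ _ => by positivity) _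

theorem kk_meas (h : KG m c B g P) (r : ℝ) (x : E3) : Measurable (kk P r x) := by
  unfold kk
  have h1 : Measurable (fun w : E3 => P x (r⁻¹ • w)) := (pmeas' h x).comp (by fun_prop)
  exact Complex.measurable_ofReal.comp (h1.const_mul _)

theorem kk_int (h : KG m c B g P) {r : ℝ} (hr : 0 < r) (x : E3) : Integrable (kk P r x) :=
  (ind_int r ((r ^ 3)⁻¹ * B)).mono' (kk_meas h r x).aestronglyMeasurable
    (Filter.Eventually.of_forall (kk_bd h hr x))

theorem kk_scale {r : ℝ} (hr : 0 < r) (x : E3) (F : E3 → ℂ) :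
    ∫ w, kk P r x w * F w = ∫ y, (P x y : ℂ) * F (r • y) := by
  have h1 := Measure.integral_comp_smul (volume : Measure E3) (fun y => (P x y : ℂ) * F (r • y)) r⁻¹
  have h2 : ∀ w : E3, r • r⁻¹ • w = w := fun w => by rw [smul_smul, mul_inv_cancel₀ hr.ne', one_smul]
  simp only [h2] at h1
  have h3 : Module.finrank ℝ E3 = 3 := by simp
  rw [h3] at h1
  have h4 : |((r⁻¹) ^ 3)⁻¹| = r ^ 3 := by
    rw [inv_pow, inv_inv, abs_of_pos (by positivity)]
  rw [h4] at h1
  have h5 : ∀ w, kk P r x w * F w = (((r ^ 3)⁻¹ : ℝ) : ℂ) * ((P x (r⁻¹ • w) : ℂ) * F w) := by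
    intro w
    unfold kk
    push_cast
    ring
  simp_rw [h5]
  rw [integral_const_mul, h1, Complex.real_smul, ← mul_assoc, ← Complex.ofReal_mul,
    inv_mul_cancel₀ (by positivity), Complex.ofReal_one, one_mul]

/-- the function whose square is integrated -/
noncomputable def DD (P : E3 → E3 → ℝ) (r : ℝ) (u : E3 → ℂ) (s z : E3) : ℂ :=
  u (z + s) - ∫ w, kk P r (r⁻¹ • s) w * u (z + w)

theorem conv_eq (r : ℝ) (x : E3) (u : E3 → ℂ) (z : E3) :
    ((fun t => kk P r x (-t)) ⋆[ContinuousLinearMap.mul ℂ ℂ, volume] u) z =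
      ∫ w, kk P r x w * u (z + w) := by
  rw [convolution_def]
  rw [← integral_neg_eq_self]
  simp

theorem DD_contDiff (h : KG m c B g P) {r : ℝ} (hr : 0 < r) (u : E3 → ℂ)
    (hu : ContDiff ℝ ((⊤ : ℕ∞) : WithTop ℕ∞) u) (hc : HasCompactSupport u) (s : E3) :
    ContDiff ℝ ((⊤ : ℕ∞) : WithTop ℕ∞) (DD P r u s) := by
  have h1 : ContDiff ℝ ((⊤ : ℕ∞) : WithTop ℕ∞) (fun z => u (z + s)) :=
    hu.comp (contDiff_id.add contDiff_const)
  have hint : Integrable (fun t => kk P r (r⁻¹ • s) (-t)) := (kk_int h hr _).comp_neg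
  have h2 : ContDiff ℝ ((⊤ : ℕ∞) : WithTop ℕ∞)
      ((fun t => kk P r (r⁻¹ • s) (-t)) ⋆[ContinuousLinearMap.mul ℝ ℂ, volume] u) :=
    hc.contDiff_convolution_right _ hint.locallyIntegrable hu
  have h3 : ((fun t => kk P r (r⁻¹ • s) (-t)) ⋆[ContinuousLinearMap.mul ℝ ℂ, volume] u) =
      fun z => ∫ w, kk P r (r⁻¹ • s) w * u (z + w) := by
    funext z
    rw [← conv_eq]
    rfl
  rw [h3] at h2
  exact h1.sub h2

theorem DD_zero (h : KG m c B g P) {r : ℝ} (hr : 0 < r) (u : E3 → ℂ) {R : ℝ}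
    (hR : ∀ x, R < ‖x‖ → u x = 0) (s z : E3) (hs : ‖s‖ < r) (hz : R + r < ‖z‖) : DD P r u s z = 0 := by
  have h1 : ∀ w : E3, ‖w‖ < r → u (z + w) = 0 := by
    intro w hw
    apply hR
    have := norm_sub_norm_le z (-w)
    rw [norm_neg, sub_neg_eq_add] at this
    linarith
  unfold DD
  rw [h1 s hs, zero_sub, neg_eq_zero]
  have h2 : ∀ w, kk P r (r⁻¹ • s) w * u (z + w) = 0 := by
    intro w
    by_cases hw : ‖w‖ < r
    · rw [h1 w hw, mul_zero]
    · rw [kk_zero h hr _ w (not_lt.1 hw), zero_mul]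
  simp only [h2, integral_zero]

theorem DD_bd (h : KG m c B g P) {r : ℝ} (hr : 0 < r) (u : E3 → ℂ) {M : ℝ}
    (hu : Continuous u) (hM : ∀ x, ‖u x‖ ≤ M) (s z : E3) : ‖DD P r u s z‖ ≤ M + VV * (B * M) := by
  unfold DD
  rw [kk_scale hr]
  refine (norm_sub_le _ _).trans (add_le_add (hM _) ?_)
  exact (int_P h (r⁻¹ • s) (fun y => u (z + r • y)) (by fun_prop) M
    ((norm_nonneg _).trans (hM 0)) (fun y _ => hM _)).2

/-- the Fourier transform -/
theorem DD_fourier (h : KG m c B g P) {r : ℝ} (hr : 0 < r) (u : E3 → ℂ)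
    (hu : Integrable u) (s ξ : E3) :
    𝓕 (DD P r u s) ξ = MM P (r⁻¹ • s) ((2 * Real.pi * r) • ξ) * 𝓕 u ξ := by
  have hk : Integrable (fun t => kk P r (r⁻¹ • s) (-t)) := (kk_int h hr _).comp_neg
  have hus : Integrable (fun z => u (z + s)) := hu.comp_add_right s
  have hcv : Integrable ((fun t => kk P r (r⁻¹ • s) (-t)) ⋆[ContinuousLinearMap.mul ℂ ℂ, volume] u) :=
    hk.integrable_convolution _ hu
  have h3 : ((fun t => kk P r (r⁻¹ • s) (-t)) ⋆[ContinuousLinearMap.mul ℂ ℂ, volume] u) =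
      fun z => ∫ w, kk P r (r⁻¹ • s) w * u (z + w) := by
    funext z
    rw [← conv_eq]
  have e1 : 𝓕 (DD P r u s) ξ = 𝓕 (fun z => u (z + s)) ξ -
      𝓕 ((fun t => kk P r (r⁻¹ • s) (-t)) ⋆[ContinuousLinearMap.mul ℂ ℂ, volume] u) ξ := by
    rw [Real.fourier_eq, Real.fourier_eq, Real.fourier_eq, ← integral_sub]
    · congr 1
      funext z
      rw [← smul_sub, h3]
      rfl
    · exact (Real.fourierIntegral_convergent_iff ξ).2 hus
    · exact (Real.fourierIntegral_convergent_iff ξ).2 hcv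
  have e2 : 𝓕 (fun z => u (z + s)) ξ = Complex.exp ((2 * Real.pi * inner ℝ s ξ : ℝ) * Complex.I) * 𝓕 u ξ := by
    rw [Real.fourier_eq', Real.fourier_eq', ← integral_const_mul]
    rw [← integral_add_right_eq_self (fun v : E3 => Complex.exp ((2 * Real.pi * inner ℝ s ξ : ℝ) * Complex.I) *
      Complex.exp ((-2 * Real.pi * inner ℝ v ξ : ℝ) * Complex.I) • u v) s]
    congr 1
    funext z
    simp only [smul_eq_mul]
    rw [← mul_assoc, ← Complex.exp_add]
    congr 2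
    rw [inner_add_left]
    push_cast
    ring
  have e3 : 𝓕 (fun t => kk P r (r⁻¹ • s) (-t)) ξ =
      ∫ y : E3, (P (r⁻¹ • s) y : ℂ) * Complex.exp ((inner ℝ ((2 * Real.pi * r) • ξ) y : ℝ) * Complex.I) := by
    rw [Real.fourier_eq', ← integral_neg_eq_self]
    simp only [neg_neg, smul_eq_mul]
    have e4 := kk_scale (P := P) hr (r⁻¹ • s)
      (fun w : E3 => Complex.exp ((-2 * Real.pi * inner ℝ (-w) ξ : ℝ) * Complex.I))
    simp only [mul_comm (kk P r (r⁻¹ • s) _)] at e4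
    rw [e4]
    congr 1
    funext y
    congr 3
    rw [inner_neg_left, inner_smul_left, inner_smul_left, real_inner_comm ξ y]
    simp
    ring
  have e5 : (inner ℝ ((2 * Real.pi * r) • ξ) (r⁻¹ • s) : ℝ) = 2 * Real.pi * inner ℝ s ξ := by
    rw [inner_smul_left, inner_smul_right, real_inner_comm ξ s]
    simp
    field_simp
  rw [e1, e2, Real.fourier_mul_convolution_eq hk hu, e3]
  unfold MM
  rw [e5]
  ring

end kern

section fin

open scoped FourierTransform Convolution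

variable {m : ℕ} {c B : ℝ} {g : E3 → ℝ} {P : E3 → E3 → ℝ}

theorem ft1_eq (u : E3 → ℂ) (ξ : E3) : ft1 u ξ = 𝓕 u ξ := by
  rw [Real.fourier_eq']
  unfold ft1
  congr 1
  funext y
  rw [smul_eq_mul]
  congr 3
  push_cast
  ring

theorem wint (u : E3 → ℂ) (hu : ContDiff ℝ ((⊤ : ℕ∞) : WithTop ℕ∞) u) (hc : HasCompactSupport u)
    (m : ℕ) (α : ℝ) (hα : 0 < α) (hm : α ≤ 2 * m) :
    Integrable (fun ξ : E3 => (2 * Real.pi * ‖ξ‖) ^ α * ‖ft1 u ξ‖ ^ 2) := by
  obtain ⟨S, hS⟩ : ∃ S : SchwartzMap E3 ℂ, S = 𝓕 (hc.toSchwartzMap hu) := ⟨_, rfl⟩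
  have hSe : ∀ ξ, ft1 u ξ = S ξ := by
    intro ξ
    rw [ft1_eq, hS]
    rfl
  obtain ⟨K, hK⟩ : ∃ K, K = SchwartzMap.seminorm ℝ 0 0 S := ⟨_, rfl⟩
  have hb : ∀ ξ, ‖S ξ‖ ≤ K := fun ξ => by rw [hK]; exact SchwartzMap.norm_le_seminorm ℝ S ξ
  have hpi := Real.pi_pos
  have h1 : Integrable (fun ξ : E3 => K * ‖S ξ‖ + K * (2 * Real.pi) ^ (2 * m) * (‖ξ‖ ^ (2 * m) * ‖S ξ‖)) :=
    ((S.integrable.norm).const_mul K).add ((S.integrable_pow_mul volume (2 * m)).const_mul _)
  simp_rw [hSe]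
  refine h1.mono' ?_ (Filter.Eventually.of_forall fun ξ => ?_)
  · apply Continuous.aestronglyMeasurable
    have h2 : Continuous (fun ξ : E3 => (2 * Real.pi * ‖ξ‖) ^ α) :=
      Continuous.rpow_const (by fun_prop) (fun _ => Or.inr hα.le)
    exact h2.mul (S.continuous.norm.pow 2)
  · have hx : 0 ≤ 2 * Real.pi * ‖ξ‖ := by positivity
    rw [Real.norm_of_nonneg (by positivity)]
    have h3 : (2 * Real.pi * ‖ξ‖) ^ α ≤ 1 + (2 * Real.pi * ‖ξ‖) ^ (2 * m) := by
      by_cases hle : 2 * Real.pi * ‖ξ‖ ≤ 1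
      · have := Real.rpow_le_one hx hle hα.le
        have h4 : 0 ≤ (2 * Real.pi * ‖ξ‖) ^ (2 * m) := by positivity
        linarith
      · push Not at hle
        have h5 : (2 * Real.pi * ‖ξ‖) ^ α ≤ (2 * Real.pi * ‖ξ‖) ^ (((2 * m : ℕ)) : ℝ) :=
          Real.rpow_le_rpow_of_exponent_le hle.le (by push_cast; exact hm)
        rw [Real.rpow_natCast] at h5
        linarith
    have h6 : ‖S ξ‖ ^ 2 ≤ K * ‖S ξ‖ := by
      rw [sq]
      exact mul_le_mul_of_nonneg_right (hb ξ) (norm_nonneg _)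
    calc (2 * Real.pi * ‖ξ‖) ^ α * ‖S ξ‖ ^ 2
        ≤ (1 + (2 * Real.pi * ‖ξ‖) ^ (2 * m)) * (K * ‖S ξ‖) :=
          mul_le_mul h3 h6 (by positivity) (by positivity)
      _ = K * ‖S ξ‖ + K * (2 * Real.pi) ^ (2 * m) * (‖ξ‖ ^ (2 * m) * ‖S ξ‖) := by
          rw [mul_pow]
          ring

theorem inner_eq (r : ℝ) (u : E3 → ℂ) (z : E3) :
    (∫ x in Metric.ball z r, ‖u x - ∫ y : E3,
        (((r ^ 3)⁻¹ * P (r⁻¹ • (x - z)) (r⁻¹ • (y - z)) : ℝ) : ℂ) * u y‖ ^ 2) =
      ∫ s in Metric.ball (0 : E3) r, ‖DD P r u s z‖ ^ 2 := by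
  rw [← integral_indicator measurableSet_ball, ← integral_indicator measurableSet_ball]
  rw [← integral_add_left_eq_self _ z]
  congr 1
  funext s
  by_cases hs : s ∈ Metric.ball (0 : E3) r
  · have hs' : z + s ∈ Metric.ball z r := by
      simpa [Metric.mem_ball, dist_eq_norm] using hs
    rw [Set.indicator_of_mem hs, Set.indicator_of_mem hs']
    congr 2
    unfold DD
    congr 1
    rw [← integral_add_left_eq_self _ z]
    congr 1
    funext w
    unfold kk
    rw [add_sub_cancel_left, add_sub_cancel_left]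
  · have hs' : z + s ∉ Metric.ball z r := by
      simpa [Metric.mem_ball, dist_eq_norm] using hs
    rw [Set.indicator_of_notMem hs, Set.indicator_of_notMem hs']

theorem DD_meas (h : KG m c B g P) (r : ℝ) (u : E3 → ℂ) (hu : Continuous u) :
    StronglyMeasurable (fun q : E3 × E3 => ‖DD P r u q.2 q.1‖ ^ 2) := by
  have h1 : StronglyMeasurable (fun q : E3 × E3 => u (q.1 + q.2)) :=
    (hu.comp (by fun_prop)).stronglyMeasurable
  have h2 : Measurable (fun q : (E3 × E3) × E3 => kk P r (r⁻¹ • q.1.2) q.2 * u (q.1.1 + q.2)) := by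
    have h3 : Measurable (fun q : (E3 × E3) × E3 => P (r⁻¹ • q.1.2) (r⁻¹ • q.2)) :=
      h.pmeas.comp (by fun_prop : Measurable (fun q : (E3 × E3) × E3 => (r⁻¹ • q.1.2, r⁻¹ • q.2)))
    have h4 : Measurable (fun q : (E3 × E3) × E3 => kk P r (r⁻¹ • q.1.2) q.2) := by
      unfold kk
      exact Complex.measurable_ofReal.comp (h3.const_mul _)
    have h5 : Measurable (fun q : (E3 × E3) × E3 => u (q.1.1 + q.2)) :=
      (hu.comp (by fun_prop)).measurable
    exact h4.mul h5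
  have h6 : StronglyMeasurable (fun q : E3 × E3 => ∫ w, kk P r (r⁻¹ • q.2) w * u (q.1 + w)) :=
    h2.stronglyMeasurable.integral_prod_right'
  have h7 := (h1.sub h6).norm.pow 2
  exact h7

theorem DD_int (h : KG m c B g P) {r : ℝ} (hr : 0 < r) (u : E3 → ℂ) (hu : Continuous u)
    (hc : HasCompactSupport u) :
    Integrable (Function.uncurry fun z s : E3 => ‖DD P r u s z‖ ^ 2)
      ((volume : Measure E3).prod ((volume : Measure E3).restrict (Metric.ball 0 r))) := by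
  obtain ⟨M, hM⟩ := hc.exists_bound_of_continuous hu
  obtain ⟨R, hR⟩ := hc.isCompact.isBounded.subset_closedBall 0
  have hR' : ∀ x, R < ‖x‖ → u x = 0 := by
    intro x hx
    apply image_eq_zero_of_notMem_tsupport
    intro hmem
    have := hR hmem
    simp at this
    linarith
  have hmeas : (volume : Measure E3).prod ((volume : Measure E3).restrict (Metric.ball 0 r)) =
      ((volume : Measure E3).prod volume).restrict (Set.univ ×ˢ Metric.ball 0 r) := by
    have := Measure.prod_restrict (μ := (volume : Measure E3)) (ν := (volume : Measure E3))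
      Set.univ (Metric.ball 0 r)
    rw [Measure.restrict_univ] at this
    exact this
  rw [hmeas]
  obtain ⟨K, hK⟩ : ∃ K, K = (M + VV * (B * M)) ^ 2 := ⟨_, rfl⟩
  have hg : Integrable ((Metric.closedBall (0 : E3) (R + r) ×ˢ Metric.ball (0 : E3) r).indicator
      (fun _ : E3 × E3 => K)) ((volume : Measure E3).prod volume) := by
    rw [integrable_indicator_iff (measurableSet_closedBall.prod measurableSet_ball)]
    refine integrableOn_const ?_
    rw [Measure.prod_prod]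
    exact (ENNReal.mul_lt_top measure_closedBall_lt_top measure_ball_lt_top).ne
  refine hg.restrict.mono' (DD_meas h r u hu).aestronglyMeasurable ?_
  refine (ae_restrict_iff' (MeasurableSet.univ.prod measurableSet_ball)).2
    (Filter.Eventually.of_forall ?_)
  rintro ⟨z, s⟩ hq
  have hs : s ∈ Metric.ball (0 : E3) r := hq.2
  have hs' : ‖s‖ < r := by simpa using hs
  simp only [Function.uncurry]
  rw [Real.norm_of_nonneg (by positivity)]
  by_cases hz : z ∈ Metric.closedBall (0 : E3) (R + r)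
  · rw [Set.indicator_of_mem (Set.mk_mem_prod hz hs), hK]
    exact pow_le_pow_left₀ (norm_nonneg _) (DD_bd h hr u hu hM s z) 2
  · have hz' : R + r < ‖z‖ := by simpa using hz
    rw [DD_zero h hr u hR' s z hs' hz', norm_zero]
    rw [Set.indicator_of_notMem (fun hmem => hz hmem.1)]
    norm_num

theorem DD_planch (h : KG m c B g P) {r : ℝ} (hr : 0 < r) (u : E3 → ℂ)
    (hu : ContDiff ℝ ((⊤ : ℕ∞) : WithTop ℕ∞) u) (hc : HasCompactSupport u) (s : E3) (hs : ‖s‖ < r) :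
    ∫ z, ‖DD P r u s z‖ ^ 2 = ∫ ξ : E3, ‖MM P (r⁻¹ • s) ((2 * Real.pi * r) • ξ)‖ ^ 2 * ‖ft1 u ξ‖ ^ 2 := by
  obtain ⟨R, hR⟩ := hc.isCompact.isBounded.subset_closedBall 0
  have hR' : ∀ x, R < ‖x‖ → u x = 0 := by
    intro x hx
    apply image_eq_zero_of_notMem_tsupport
    intro hmem
    have := hR hmem
    simp at this
    linarith
  have hDc : HasCompactSupport (DD P r u s) := by
    refine HasCompactSupport.intro (isCompact_closedBall (0 : E3) (R + r)) (fun z hz => ?_)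
    exact DD_zero h hr u hR' s z hs (by simpa using hz)
  have hDs := DD_contDiff h hr u hu hc s
  have h1 := SchwartzMap.integral_norm_sq_fourier (hDc.toSchwartzMap hDs)
  have h2 : ∀ z, (hDc.toSchwartzMap hDs) z = DD P r u s z := fun z => rfl
  simp only [h2] at h1
  rw [← h1]
  congr 1
  funext ξ
  have h3 : (𝓕 (hDc.toSchwartzMap hDs)) ξ = 𝓕 (DD P r u s) ξ := rfl
  have hui : Integrable u := hu.continuous.integrable_of_hasCompactSupport hc
  rw [h3, DD_fourier h hr u hui s ξ, norm_mul, mul_pow, ft1_eq]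

end fin

/-- TARGET -/
theorem poincare1 {m : ℕ} {c B : ℝ} {g : E3 → ℝ} {P : E3 → E3 → ℝ} (h : KG m c B g P) (α : ℝ)
    (hα : 0 < α) (hm : α ≤ 2 * m) : ∃ C : ℝ, 0 < C ∧ ∀ r : ℝ, 0 < r → ∀ u : E3 → ℂ,
      ContDiff ℝ ((⊤ : ℕ∞) : WithTop ℕ∞) u → HasCompactSupport u →
      ∫ z : E3, (∫ x in Metric.ball z r, ‖u x - ∫ y : E3,
        (((r ^ 3)⁻¹ * P (r⁻¹ • (x - z)) (r⁻¹ • (y - z)) : ℝ) : ℂ) * u y‖ ^ 2) ≤
      C * r ^ (3 + α) * ∫ ξ : E3, (2 * Real.pi * ‖ξ‖) ^ α * ‖ft1 u ξ‖ ^ 2 := by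
  obtain ⟨C, hC, hMM⟩ := MM_bd h α hα hm
  have hV := VV_nonneg
  refine ⟨VV * C + 1, by positivity, ?_⟩
  intro r hr u hu hc
  have hpi := Real.pi_pos
  obtain ⟨J, hJ⟩ : ∃ J, J = ∫ ξ : E3, (2 * Real.pi * ‖ξ‖) ^ α * ‖ft1 u ξ‖ ^ 2 := ⟨_, rfl⟩
  have hJ0 : 0 ≤ J := by
    rw [hJ]
    exact integral_nonneg (fun ξ => by positivity)
  have hs : ∀ s : E3, ‖s‖ < r → ∫ z, ‖DD P r u s z‖ ^ 2 ≤ C * r ^ α * J := by
    intro s hs
    rw [DD_planch h hr u hu hc s hs, hJ, ← integral_const_mul]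
    refine integral_mono_of_nonneg (Filter.Eventually.of_forall fun ξ => by positivity)
      ((wint u hu hc m α hα hm).const_mul _) (Filter.Eventually.of_forall fun ξ => ?_)
    have hx : ‖r⁻¹ • s‖ < 1 := by
      rw [norm_smul, norm_inv, Real.norm_of_nonneg hr.le, inv_mul_eq_div, div_lt_one hr]
      exact hs
    have h1 := hMM (r⁻¹ • s) ((2 * Real.pi * r) • ξ) hx
    have h2 : ‖(2 * Real.pi * r) • ξ‖ = r * (2 * Real.pi * ‖ξ‖) := by
      rw [norm_smul, Real.norm_of_nonneg (by positivity)]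
      ring
    rw [h2, Real.mul_rpow hr.le (by positivity)] at h1
    show ‖MM P (r⁻¹ • s) ((2 * Real.pi * r) • ξ)‖ ^ 2 * ‖ft1 u ξ‖ ^ 2 ≤
      C * r ^ α * ((2 * Real.pi * ‖ξ‖) ^ α * ‖ft1 u ξ‖ ^ 2)
    calc ‖MM P (r⁻¹ • s) ((2 * Real.pi * r) • ξ)‖ ^ 2 * ‖ft1 u ξ‖ ^ 2
        ≤ (C * (r ^ α * (2 * Real.pi * ‖ξ‖) ^ α)) * ‖ft1 u ξ‖ ^ 2 :=
          mul_le_mul_of_nonneg_right h1 (by positivity)
      _ = _ := by ring
  simp_rw [inner_eq]
  rw [integral_integral_swap (DD_int h hr u hu.continuous hc)]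
  have hvol : (volume (Metric.ball (0 : E3) r)).toReal = r ^ 3 * VV := by
    rw [Measure.addHaar_ball _ _ hr.le, ENNReal.toReal_mul, ENNReal.toReal_ofReal (by positivity)]
    have h3 : Module.finrank ℝ E3 = 3 := by simp
    rw [h3]
    rfl
  have h4 : ∫ s in Metric.ball (0 : E3) r, ∫ z, ‖DD P r u s z‖ ^ 2 ≤
      ∫ s in Metric.ball (0 : E3) r, C * r ^ α * J := by
    refine integral_mono_of_nonneg (Filter.Eventually.of_forall fun s =>
      integral_nonneg (fun z => by positivity)) (integrableOn_const measure_ball_lt_top.ne) ?_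
    refine (ae_restrict_iff' measurableSet_ball).2 (Filter.Eventually.of_forall fun s hs' => ?_)
    exact hs s (by simpa using hs')
  refine h4.trans ?_
  rw [setIntegral_const, smul_eq_mul, Measure.real, hvol, ← hJ]
  have h5 : r ^ (3 + α) = r ^ 3 * r ^ α := by
    rw [Real.rpow_add hr]
    congr 1
    exact_mod_cast Real.rpow_natCast r 3
  rw [h5]
  have h6 : 0 ≤ r ^ 3 * r ^ α * J := by positivity
  nlinarith

end Pool.Agent.Helper780_BE.A7
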