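import Pool.Agent.Helper780_BE.Defs
import Pool.Agent.Helper780_CQ.DyDefs

/-! Trial states for the upper bound. -/

set_option autoImplicit false

open MeasureTheory
open scoped Topology

namespace Pool.Agent.Helper780_BE

open Pool.Agent.Helper780_CQ

/-- the two charges -/
noncomputable def sg (b : Bool) : ℝ := if b then 1 else -1

/-- the weights -/
noncomputable def hw (_ : Bool) : ℝ := 1 / 2

/-- the modes, translates of `η` at scale `h` -/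
noncomputable def md {M : ℕ} (h : ℝ) (η : E3 → ℝ) (y : Fin M → E3) (k : Fin M) (x : E3) : ℝ :=
  η (h⁻¹ • (x - y k))

/-- the profile of the modes -/
structure Prof (η : E3 → ℝ) : Prop where
  smooth : ContDiff ℝ ((⊤ : ℕ∞) : WithTop ℕ∞) η
  nonneg : ∀ x, 0 ≤ η x
  le_one : ∀ x, η x ≤ 1
  supp : ∀ x, 1 ≤ ‖x‖ → η x = 0
  pos : 0 < ∫ x, η x

/-- one-particle function `f`, constant `c0` on the disjoint balls about the centers `y k` -/
structure Cells {M : ℕ} (h c0 : ℝ) (f : E3 → ℝ) (y : Fin M → E3) : Prop where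
  hpos : 0 < h
  cpos : 0 < c0
  smooth : ContDiff ℝ ((⊤ : ℕ∞) : WithTop ℕ∞) f
  compact : HasCompactSupport f
  norm : ∫ x, f x ^ 2 = 1
  const : ∀ k x, ‖x - y k‖ < 2 * h → f x = c0
  sep : ∀ k l, k ≠ l → 4 * h ≤ ‖y k - y l‖

/-- the trial function for the charges `b` -/
noncomputable def Tr {M n : ℕ} (ν : ℝ) (f : E3 → ℝ) (φ : Fin M → E3 → ℝ) (b : Fin n → Bool)
    (x : Fin n → E3) : ℂ :=
  ((Jm ν (fun i => sg (b i)) φ x * ∏ i, f (x i) : ℝ) : ℂ)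

/-- average of the norms -/
noncomputable def zn {M : ℕ} (ν : ℝ) (f : E3 → ℝ) (φ : Fin M → E3 → ℝ) (n : ℕ) : ℝ :=
  ∑ b : Fin n → Bool, (1 / 2) ^ n * ∫ x : Fin n → E3, ‖Tr ν f φ b x‖ ^ 2

/-- average of the potential energies -/
noncomputable def pn {M : ℕ} (ν : ℝ) (f : E3 → ℝ) (φ : Fin M → E3 → ℝ) (n : ℕ) : ℝ :=
  ∑ b : Fin n → Bool, (1 / 2) ^ n * potE (fun i => sg (b i)) (Tr ν f φ b)

/-- average of the kinetic energies -/
noncomputable def kn {M : ℕ} (α ν : ℝ) (f : E3 → ℝ) (φ : Fin M → E3 → ℝ) (n : ℕ) : ℝ :=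
  ∑ b : Fin n → Bool, (1 / 2) ^ n * kinE α (Tr ν f φ b)

/-- kinetic energy of a real function of one position -/
noncomputable def k1 (α : ℝ) (f : E3 → ℝ) : ℝ :=
  ∫ ξ : E3, (2 * Real.pi * ‖ξ‖) ^ α * ‖ft1 (fun x => (f x : ℂ)) ξ‖ ^ 2

/-- one-cell quantities -/
noncomputable def be (η : E3 → ℝ) (t : ℝ) : ℝ := ∫ x, (1 - Real.cos (t * η x))

noncomputable def Z1 (η : E3 → ℝ) (ν : ℝ) : ℝ :=
  (√Real.pi)⁻¹ * ∫ ξ : ℝ, Real.exp (-ξ ^ 2 - ν * be η (ξ / √ν))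

noncomputable def De (u v : E3 → ℝ) : ℝ := ∫ q : E3 × E3, u q.1 * v q.2 / ‖q.1 - q.2‖

noncomputable def W1 (η : E3 → ℝ) (ν : ℝ) : ℝ :=
  (√Real.pi)⁻¹ * ∫ ξ : ℝ, Real.exp (-ξ ^ 2 - ν * be η (ξ / √ν)) *
    De (fun x => Real.sin (ξ / √ν * η x)) (fun x => Real.sin (ξ / √ν * η x))

end Pool.Agent.Helper780_BE
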