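import Pool.Agent.Helper780_BE.DefsU
import Pool.Agent.Helper780_CQ.DY1
import Pool.Agent.Helper985.CP.M_int_coul


set_option autoImplicit false

open MeasureTheory
open scoped Topology

namespace Pool.Agent.Helper780_BE.V1


open Pool.Agent.Helper780_BE Pool.Agent.Helper780_CQ Filter

open Pool.Agent.Helper780_CQ.DY1

section one

variable {I : Type} [Fintype I] [DecidableEq I] {M : ℕ} (ν : ℝ)
    (e : Bool → ℝ) (f : E3 → ℝ) (φ : Fin M → E3 → ℝ)

/-- the product of the densities -/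
noncomputable def F0 (x : I → E3) : ℂ := ∏ k, ((f (x k) ^ 2 : ℝ) : ℂ)

omit [DecidableEq I] in
theorem f2_int (hf : Continuous f) (hfs : HasCompactSupport f) :
    Integrable (fun y => ((f y ^ 2 : ℝ) : ℂ)) := by
  have h1 : Integrable (fun y => f y ^ 2) := by
    have h2 : (fun y => f y ^ 2) = f * f := by
      funext y
      simp [pow_two]
    rw [h2]
    exact (hf.mul hf).integrable_of_hasCompactSupport hfs.mul_left
  exact h1.ofReal

omit [DecidableEq I] in
theorem F0_int (hf : Continuous f) (hfs : HasCompactSupport f) :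
    Integrable (F0 (I := I) f) := by
  unfold F0
  exact Integrable.fintype_prod (fun (_ : I) => f2_int f hf hfs)

theorem HH0_int (hf : Continuous f) (hfs : HasCompactSupport f) (hφ : ∀ k, Continuous (φ k))
    (b : I → Bool) :
    Integrable (Function.uncurry fun (x : I → E3) (ξ : Fin M → ℝ) =>
      F0 f x * (((Real.exp (-∑ k, ξ k ^ 2) : ℝ) : ℂ) * EE ν e φ b x ξ))
      ((volume : Measure (I → E3)).prod (volume : Measure (Fin M → ℝ))) := by
  have h0 := (F0_int (I := I) f hf hfs).mul_prod (G_int M)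
  have h1 : (Function.uncurry fun (x : I → E3) (ξ : Fin M → ℝ) =>
      F0 f x * (((Real.exp (-∑ k, ξ k ^ 2) : ℝ) : ℂ) * EE ν e φ b x ξ)) =
      fun p : (I → E3) × (Fin M → ℝ) => (F0 f p.1 *
        ((Real.exp (-∑ k, p.2 k ^ 2) : ℝ) : ℂ)) * EE ν e φ b p.1 p.2 := by
    funext p
    simp only [Function.uncurry]
    ring
  rw [h1]
  refine h0.mono (h0.aestronglyMeasurable.mul (EE_cont ν e φ hφ b).aestronglyMeasurable)
    (Filter.Eventually.of_forall fun p => ?_)
  rw [norm_mul, EE_norm, mul_one]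

omit [DecidableEq I] in
theorem inner0 (b : I → Bool) (ξ : Fin M → ℝ) :
    ∫ x, F0 f x * (((Real.exp (-∑ k, ξ k ^ 2) : ℝ) : ℂ) * EE ν e φ b x ξ) =
      ((Real.exp (-∑ k, ξ k ^ 2) : ℝ) : ℂ) * ∏ k, ab ν e f φ ξ (b k) := by
  have h1 : (fun x : I → E3 => F0 f x *
      (((Real.exp (-∑ k, ξ k ^ 2) : ℝ) : ℂ) * EE ν e φ b x ξ)) = fun x : I → E3 =>
      ((Real.exp (-∑ k, ξ k ^ 2) : ℝ) : ℂ) *
      ∏ k, (fun (k : I) (y : E3) => ((f y ^ 2 : ℝ) : ℂ) *
        Complex.exp ((th ν e φ ξ (b k) y : ℂ) * Complex.I)) k (x k) := by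
    funext x
    unfold EE F0
    rw [E_eq, Finset.prod_mul_distrib]
    ring
  rw [h1, integral_const_mul, integral_fintype_prod_volume_eq_prod
    (fun (k : I) (y : E3) => ((f y ^ 2 : ℝ) : ℂ) *
        Complex.exp ((th ν e φ ξ (b k) y : ℂ) * Complex.I))]
  rfl

theorem key0 (hν : 0 < ν) (hf : Continuous f) (hfs : HasCompactSupport f)
    (hφ : ∀ k, Continuous (φ k)) (b : I → Bool) :
    ((∫ x : I → E3, Jm ν (fun k => e (b k)) φ x ^ 2 * ∏ k, f (x k) ^ 2 : ℝ) : ℂ) =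
      ((Real.pi ^ (-((M : ℝ) / 2)) : ℝ) : ℂ) * ∫ ξ : Fin M → ℝ,
        ((Real.exp (-∑ k, ξ k ^ 2) : ℝ) : ℂ) * ∏ k, ab ν e f φ ξ (b k) := by
  rw [← integral_complex_ofReal]
  have h1 : (fun x : I → E3 => ((Jm ν (fun k => e (b k)) φ x ^ 2 *
      ∏ k, f (x k) ^ 2 : ℝ) : ℂ)) =
      fun x : I → E3 => ((Real.pi ^ (-((M : ℝ) / 2)) : ℝ) : ℂ) * ∫ ξ : Fin M → ℝ,
        F0 f x * (((Real.exp (-∑ k, ξ k ^ 2) : ℝ) : ℂ) * EE ν e φ b x ξ) := by
    funext x
    rw [integral_const_mul, Complex.ofReal_mul]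
    unfold Jm
    rw [gauss ν hν]
    unfold F0 EE
    push_cast
    ring
  rw [h1, integral_const_mul, integral_integral_swap (HH0_int ν e f φ hf hfs hφ b)]
  congr 1
  congr 1
  funext ξ
  exact inner0 ν e f φ b ξ

theorem key0_int (hf : Continuous f) (hfs : HasCompactSupport f)
    (hφ : ∀ k, Continuous (φ k)) (b : I → Bool) :
    Integrable (fun ξ : Fin M → ℝ =>
        ((Real.exp (-∑ k, ξ k ^ 2) : ℝ) : ℂ) * ∏ k, ab ν e f φ ξ (b k)) := by
  have h := (HH0_int ν e f φ hf hfs hφ b).integral_prod_right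
  refine h.congr (Filter.Eventually.of_forall fun ξ => ?_)
  exact inner0 ν e f φ b ξ

theorem sum0 (w a : Bool → ℂ) (n : ℕ) :
    ∑ b : Fin n → Bool, (∏ k, w (b k)) * ∏ k, a (b k) = (∑ β, w β * a β) ^ n := by
  have h3 := Finset.prod_univ_sum (fun _ : Fin n =>
      (Finset.univ : Finset Bool)) (fun _ β => w β * a β)
  rw [Fintype.piFinset_univ, Finset.prod_const, Finset.card_univ, Fintype.card_fin] at h3
  rw [h3]
  refine Finset.sum_congr rfl fun b _ => ?_
  rw [Finset.prod_mul_distrib]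

end one

theorem nrm_eq {M n : ℕ} (ν : ℝ) (f : E3 → ℝ) (φ : Fin M → E3 → ℝ) (b : Fin n → Bool)
    (x : Fin n → E3) :
    ‖Tr ν f φ b x‖ ^ 2 = Jm ν (fun i => sg (b i)) φ x ^ 2 * ∏ i, f (x i) ^ 2 := by
  unfold Tr
  rw [Complex.norm_real, Real.norm_eq_abs, sq_abs, mul_pow, Finset.prod_pow]

theorem hw_prod {n : ℕ} (b : Fin n → Bool) : ∏ k, hw (b k) = (1 / 2) ^ n := by
  unfold hw
  rw [Finset.prod_const, Finset.card_univ, Fintype.card_fin]

theorem Jm_le {I : Type} [Fintype I] {M : ℕ} (ν : ℝ) (hν : 0 < ν) (c : I → ℝ)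
    (φ : Fin M → E3 → ℝ) (x : I → E3) : Jm ν c φ x ≤ 1 := by
  unfold Jm
  rw [Real.exp_le_one_iff]
  have h : 0 ≤ ∑ k, Qm c φ x k ^ 2 := Finset.sum_nonneg fun k _ => sq_nonneg _
  exact div_nonpos_of_nonpos_of_nonneg (by linarith) (by positivity)

theorem Jm_cont {I : Type} [Fintype I] {M : ℕ} (ν : ℝ) (c : I → ℝ)
    (φ : Fin M → E3 → ℝ) (hφ : ∀ k, Continuous (φ k)) :
    Continuous fun x : I → E3 => Jm ν c φ x := by
  unfold Jm
  refine Real.continuous_exp.comp (Continuous.div_const (Continuous.neg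
    (continuous_finsetSum _ fun k _ => ?_)) _)
  exact (Qm_cont c φ hφ k).pow 2

theorem KV_int (f : E3 → ℝ) (hf : Continuous f) (hfs : HasCompactSupport f) (β β' : Bool) :
    Integrable (KV sg f β β') := by
  have h1 : Integrable (fun x : Fin 2 → E3 => (1 / ‖x 0 - x 1‖) * (f (x 0) ^ 2 * f (x 1) ^ 2)) := by
    refine Pool.Agent.Helper985.CP.int_coul (0 : Fin 2) 1 (by decide)
      (fun x => f (x 0) ^ 2 * f (x 1) ^ 2) ?_ ?_
    · exact ((hf.comp (continuous_apply 0)).pow 2).mul ((hf.comp (continuous_apply 1)).pow 2)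
    · have hK : IsCompact (Set.pi Set.univ (fun _ : Fin 2 => tsupport f)) :=
        isCompact_univ_pi fun _ => hfs
      refine HasCompactSupport.intro hK fun x hx => ?_
      by_cases h0 : x 0 ∈ tsupport f
      · by_cases h1 : x 1 ∈ tsupport f
        · refine absurd ?_ hx
          intro k _
          fin_cases k
          · exact h0
          · exact h1
        · rw [image_eq_zero_of_notMem_tsupport h1]
          simp
      · rw [image_eq_zero_of_notMem_tsupport h0]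
        simp
  have h2 : Integrable (fun z : E3 × E3 => (1 / ‖z.1 - z.2‖) * (f z.1 ^ 2 * f z.2 ^ 2)) := by
    rw [← (volume_preserving_finTwoArrow E3).integrable_comp_emb
      (MeasurableEquiv.finTwoArrow).measurableEmbedding]
    exact h1
  have h3 := h2.const_mul (sg β * sg β')
  refine h3.congr (Filter.Eventually.of_forall fun z => ?_)
  unfold KV
  simp only
  ring

theorem pair_int {M n : ℕ} (ν : ℝ) (hν : 0 < ν) (f : E3 → ℝ) (hf : Continuous f)
    (hfs : HasCompactSupport f) (φ : Fin M → E3 → ℝ) (hφ : ∀ k, Continuous (φ k))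
    (b : Fin n → Bool) (i j : Fin n) (hij : i ≠ j) :
    Integrable (fun x : Fin n → E3 => Jm ν (fun k => sg (b k)) φ x ^ 2 *
      (KV sg f (b i) (b j) (x i, x j) * ∏ k ∈ Finset.univ \ {i, j}, f (x k) ^ 2)) := by
  have h1 := (FF_int f (KV sg f) hf hfs (KV_int f hf hfs) b i j hij).re
  have h2 : (fun x => RCLike.re (FF f (KV sg f) b i j x)) = fun x : Fin n → E3 =>
      (KV sg f (b i) (b j) (x i, x j) * ∏ k ∈ Finset.univ \ {i, j}, f (x k) ^ 2) := by
    funext x
    unfold FF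
    rw [← Complex.ofReal_prod, ← Complex.ofReal_mul]
    exact Complex.ofReal_re _
  rw [h2] at h1
  refine h1.mono (((Jm_cont ν _ φ hφ).pow 2).aestronglyMeasurable.mul h1.aestronglyMeasurable)
    (Filter.Eventually.of_forall fun x => ?_)
  rw [norm_mul]
  have h3 : ‖Jm ν (fun k => sg (b k)) φ x ^ 2‖ ≤ 1 := by
    rw [norm_pow, Real.norm_eq_abs]
    have h4 : 0 < Jm ν (fun k => sg (b k)) φ x := by
      unfold Jm
      exact Real.exp_pos _
    rw [abs_of_pos h4]
    exact pow_le_one₀ h4.le (Jm_le ν hν _ φ x)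
  exact mul_le_of_le_one_left (norm_nonneg _) h3

theorem pair_eq {M n : ℕ} (ν : ℝ) (f : E3 → ℝ)
    (φ : Fin M → E3 → ℝ) (b : Fin n → Bool) (i j : Fin n) (hij : i ≠ j) (x : Fin n → E3) :
    (sg (b i) * sg (b j) / ‖x i - x j‖) * ‖Tr ν f φ b x‖ ^ 2 =
      Jm ν (fun k => sg (b k)) φ x ^ 2 *
      (KV sg f (b i) (b j) (x i, x j) * ∏ k ∈ Finset.univ \ {i, j}, f (x k) ^ 2) := by
  rw [nrm_eq, ← Finset.prod_sdiff (Finset.subset_univ ({i, j} : Finset (Fin n))),
    Finset.prod_pair hij]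
  unfold KV
  simp only
  ring

theorem potE_eq {M n : ℕ} (ν : ℝ) (hν : 0 < ν) (f : E3 → ℝ) (hf : Continuous f)
    (hfs : HasCompactSupport f) (φ : Fin M → E3 → ℝ) (hφ : ∀ k, Continuous (φ k))
    (b : Fin n → Bool) :
    potE (fun i => sg (b i)) (Tr ν f φ b) = ∑ i : Fin n, ∑ j : Fin n, if i < j then
      ∫ x : Fin n → E3, Jm ν (fun k => sg (b k)) φ x ^ 2 *
        (KV sg f (b i) (b j) (x i, x j) * ∏ k ∈ Finset.univ \ {i, j}, f (x k) ^ 2)
      else 0 := by
  unfold potE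
  have h1 : (fun x : Fin n → E3 => (∑ i, ∑ j, if i < j then sg (b i) * sg (b j) / ‖x i - x j‖
      else 0) * ‖Tr ν f φ b x‖ ^ 2) = fun x => ∑ i : Fin n, ∑ j : Fin n, if i < j then
      Jm ν (fun k => sg (b k)) φ x ^ 2 *
        (KV sg f (b i) (b j) (x i, x j) * ∏ k ∈ Finset.univ \ {i, j}, f (x k) ^ 2) else 0 := by
    funext x
    rw [Finset.sum_mul]
    refine Finset.sum_congr rfl fun i _ => ?_
    rw [Finset.sum_mul]
    refine Finset.sum_congr rfl fun j _ => ?_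
    by_cases hij : i < j
    · rw [if_pos hij, if_pos hij, pair_eq ν f φ b i j hij.ne x]
    · rw [if_neg hij, if_neg hij, zero_mul]
  rw [h1]
  have h2 : ∀ i j : Fin n, Integrable (fun x : Fin n → E3 => if i < j then
      Jm ν (fun k => sg (b k)) φ x ^ 2 *
        (KV sg f (b i) (b j) (x i, x j) * ∏ k ∈ Finset.univ \ {i, j}, f (x k) ^ 2) else 0) := by
    intro i j
    by_cases hij : i < j
    · simp only [if_pos hij]
      exact pair_int ν hν f hf hfs φ hφ b i j hij.ne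
    · simp only [if_neg hij]
      exact integrable_zero _ _ _
  rw [integral_finsetSum _ fun i _ => integrable_finsetSum _ fun j _ => h2 i j]
  refine Finset.sum_congr rfl fun i _ => ?_
  rw [integral_finsetSum _ fun j _ => h2 i j]
  refine Finset.sum_congr rfl fun j _ => ?_
  by_cases hij : i < j
  · simp only [if_pos hij]
  · simp only [if_neg hij]
    exact integral_zero _ _

theorem cnt_pairs (n : ℕ) : ∑ i : Fin n, ∑ j : Fin n, (if i < j then (1 : ℂ) else 0) =
    (n : ℂ) * ((n : ℂ) - 1) / 2 := by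
  have h1 : ∑ i : Fin n, ∑ j : Fin n, (if j < i then (1 : ℂ) else 0) =
      ∑ i : Fin n, ∑ j : Fin n, (if i < j then (1 : ℂ) else 0) := Finset.sum_comm
  have h2 : ∑ i : Fin n, ∑ j : Fin n, (if i = j then (1 : ℂ) else 0) = n := by
    simp
  have h3 : ∑ i : Fin n, ∑ j : Fin n, ((if i < j then (1 : ℂ) else 0) +
      (if j < i then (1 : ℂ) else 0) + (if i = j then (1 : ℂ) else 0)) = (n : ℂ) * n := by
    have h4 : ∀ i j : Fin n, ((if i < j then (1 : ℂ) else 0) +
      (if j < i then (1 : ℂ) else 0) + (if i = j then (1 : ℂ) else 0)) = 1 := by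
      intro i j
      rcases lt_trichotomy i j with h | h | h
      · simp [h, h.not_gt, h.ne]
      · simp [h]
      · simp [h, h.not_gt, h.ne']
    simp only [h4]
    simp
  simp only [Finset.sum_add_distrib] at h3
  rw [h1, h2] at h3
  linear_combination h3 / 2

/-- TARGET 1 -/
theorem norm_rep {M : ℕ} (ν : ℝ) (hν : 0 < ν) (f : E3 → ℝ) (hf : Continuous f)
    (hfs : HasCompactSupport f) (φ : Fin M → E3 → ℝ) (hφ : ∀ k, Continuous (φ k)) (n : ℕ) :
    ((zn ν f φ n : ℝ) : ℂ) = ((Real.pi ^ (-((M : ℝ) / 2)) : ℝ) : ℂ) * ∫ ξ : Fin M → ℝ,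
      ((Real.exp (-∑ k, ξ k ^ 2) : ℝ) : ℂ) * AA ν hw sg f φ ξ ^ n := by
  have hkey : ∀ b : Fin n → Bool, (((1 / 2 : ℝ) ^ n * ∫ x : Fin n → E3,
      ‖Tr ν f φ b x‖ ^ 2 : ℝ) : ℂ) =
      ((Real.pi ^ (-((M : ℝ) / 2)) : ℝ) : ℂ) * ∫ ξ : Fin M → ℝ, (∏ k, (hw (b k) : ℂ)) *
        (((Real.exp (-∑ k, ξ k ^ 2) : ℝ) : ℂ) * ∏ k, ab ν sg f φ ξ (b k)) := by
    intro b
    simp only [nrm_eq]
    rw [Complex.ofReal_mul, key0 ν sg f φ hν hf hfs hφ b, integral_const_mul,
      ← Complex.ofReal_prod, hw_prod]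
    ring
  unfold zn
  rw [Complex.ofReal_sum, Finset.sum_congr rfl (fun b _ => hkey b), ← Finset.mul_sum,
    ← integral_finsetSum _ (fun b _ => (key0_int ν sg f φ hf hfs hφ b).const_mul _)]
  congr 1
  congr 1
  funext ξ
  have h2 := sum0 (fun β => (hw β : ℂ)) (fun β => ab ν sg f φ ξ β) n
  rw [AA_eq, ← h2, Finset.mul_sum]
  refine Finset.sum_congr rfl fun b _ => ?_
  ring

/-- TARGET 2 -/
theorem pot_repU {M : ℕ} (ν : ℝ) (hν : 0 < ν) (f : E3 → ℝ) (hf : Continuous f)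
    (hfs : HasCompactSupport f) (φ : Fin M → E3 → ℝ) (hφ : ∀ k, Continuous (φ k)) (n : ℕ) :
    (∀ β β', Integrable (KV sg f β β')) ∧
    ((pn ν f φ n : ℝ) : ℂ) = ((n : ℂ) * ((n : ℂ) - 1) / 2) * GG (n - 2) ν hw sg f φ (KV sg f) := by
  refine ⟨KV_int f hf hfs, ?_⟩
  have h1 : pn ν f φ n = ∑ i : Fin n, ∑ j : Fin n, if i < j then
      AV ν hw sg f φ (KV sg f) i j else 0 := by
    unfold pn
    simp only [potE_eq ν hν f hf hfs φ hφ]
    simp only [Finset.mul_sum]
    rw [Finset.sum_comm]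
    refine Finset.sum_congr rfl fun i _ => ?_
    rw [Finset.sum_comm]
    refine Finset.sum_congr rfl fun j _ => ?_
    by_cases hij : i < j
    · simp only [if_pos hij]
      unfold AV
      refine Finset.sum_congr rfl fun b _ => ?_
      rw [hw_prod]
    · simp only [if_neg hij, mul_zero, Finset.sum_const_zero]
  have h2 : ((pn ν f φ n : ℝ) : ℂ) = ∑ i : Fin n, ∑ j : Fin n,
      (if i < j then (1 : ℂ) else 0) * GG (n - 2) ν hw sg f φ (KV sg f) := by
    rw [h1, Complex.ofReal_sum]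
    refine Finset.sum_congr rfl fun i _ => ?_
    rw [Complex.ofReal_sum]
    refine Finset.sum_congr rfl fun j _ => ?_
    by_cases hij : i < j
    · rw [if_pos hij, if_pos hij, one_mul, four ν hν hw sg f hf hfs φ hφ (KV sg f)
        (KV_int f hf hfs) i j hij.ne, Fintype.card_fin]
    · rw [if_neg hij, if_neg hij, zero_mul, Complex.ofReal_zero]
  rw [h2]
  simp only [← Finset.sum_mul]
  rw [cnt_pairs]

end Pool.Agent.Helper780_BE.V1
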