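import Pool.Agent.Helper780_BE.DefsU
import Pool.Agent.Helper985.CP.M_pot_props

set_option autoImplicit false

open MeasureTheory
open scoped Topology

namespace Pool.Agent.Helper780_BE.V2


open Pool.Agent.Helper780_BE Pool.Agent.Helper780_CQ Filter

/-- integrability of the pair function -/
theorem pair_int (f g : E3 → ℝ) (hf : Continuous f) (hfc : HasCompactSupport f)
    (hg : Continuous g) (hgc : HasCompactSupport g) :
    Integrable (fun p : E3 × E3 => f p.1 * g p.2 / ‖p.1 - p.2‖) := by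
  obtain ⟨R, hR⟩ := (hfc.isCompact.isBounded).subset_closedBall (0 : E3)
  obtain ⟨R', hR'⟩ := (hgc.isCompact.isBounded).subset_closedBall (0 : E3)
  obtain ⟨C, hC⟩ := hfc.exists_bound_of_continuous hf
  have hK : Integrable ((Metric.closedBall (0 : E3) (R + R')).indicator (fun w : E3 => ‖w‖⁻¹)) :=
    (integrable_indicator_iff Metric.isClosed_closedBall.measurableSet).2
      (Pool.Agent.Helper985.CP.pot_props_locInt.integrableOn_isCompact (isCompact_closedBall _ _))
  have h1 := (hg.integrable_of_hasCompactSupport hgc (μ := volume)).convolution_integrand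
    (ContinuousLinearMap.mul ℝ ℝ) hK
  have h2 := h1.bdd_mul (c := C) (f := fun p : E3 × E3 => f p.1)
    (hf.comp continuous_fst).aestronglyMeasurable (Filter.Eventually.of_forall fun p => hC p.1)
  refine h2.congr (Filter.Eventually.of_forall fun p => ?_)
  simp only [ContinuousLinearMap.mul_apply']
  by_cases h3 : f p.1 = 0
  · simp [h3]
  by_cases h4 : g p.2 = 0
  · simp [h4]
  have h5 : p.1 ∈ Metric.closedBall (0 : E3) R := hR (subset_tsupport _ h3)
  have h6 : p.2 ∈ Metric.closedBall (0 : E3) R' := hR' (subset_tsupport _ h4)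
  rw [mem_closedBall_zero_iff] at h5 h6
  rw [Set.indicator_of_mem, div_eq_mul_inv]
  · ring
  rw [mem_closedBall_zero_iff]
  exact (norm_sub_le _ _).trans (by linarith)

theorem four_add {α : Type} [MeasureSpace α] {A B C D : α → ℂ} (hA : Integrable A)
    (hB : Integrable B) (hC : Integrable C) (hD : Integrable D) :
    ((∫ x, A x) + ∫ x, B x) + ((∫ x, C x) + ∫ x, D x) =
      ∫ x, ((A x + B x) + (C x + D x)) := by
  have h1 := integral_add (hA.add hB) (hC.add hD)
  simp only [Pi.add_apply] at h1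
  rw [h1, integral_add hA hB, integral_add hC hD]

theorem ofR {α : Type} [MeasureSpace α] (g : α → ℝ) :
    ((∫ x, g x : ℝ) : ℂ) = ∫ x, ((g x : ℝ) : ℂ) := (integral_ofReal (𝕜 := ℂ)).symm

/-- modes supported in the balls -/
structure Ms {M : ℕ} (h : ℝ) (φ : Fin M → E3 → ℝ) (y : Fin M → E3) : Prop where
  cont : ∀ k, Continuous (φ k)
  supp : ∀ k x, h ≤ ‖x - y k‖ → φ k x = 0

section gen

variable {M : ℕ} {h c0 : ℝ} {f : E3 → ℝ} {y : Fin M → E3} {φ : Fin M → E3 → ℝ}

theorem lt_of_ne (hm : Ms h φ y) (k : Fin M) (x : E3) (hx : φ k x ≠ 0) : ‖x - y k‖ < h := by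
  by_contra hcon
  exact hx (hm.supp k x (not_lt.1 hcon))

theorem cell_id (hc : Cells h c0 f y) (hm : Ms h φ y) (a : Fin M → ℝ) (G : ℝ → ℝ) (hG : G 0 = 0)
    (x : E3) : f x ^ 2 * G (∑ k, a k * φ k x) = ∑ k, c0 ^ 2 * G (a k * φ k x) := by
  by_cases hex : ∃ k, φ k x ≠ 0
  · obtain ⟨k, hk⟩ := hex
    have hlt := lt_of_ne hm k x hk
    have hz : ∀ l, l ≠ k → φ l x = 0 := by
      intro l hl
      by_contra hne
      have h1 := lt_of_ne hm l x hne
      have h2 := hc.sep k l (Ne.symm hl)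
      have h3 : ‖y k - y l‖ ≤ ‖x - y k‖ + ‖x - y l‖ := by
        have : y k - y l = (x - y l) - (x - y k) := by abel
        rw [this, add_comm]
        exact norm_sub_le _ _
      have := hc.hpos
      linarith
    have hf : f x = c0 := hc.const k x (by have := hc.hpos; linarith)
    rw [Finset.sum_eq_single k, Finset.sum_eq_single k, hf]
    · intro l _ hl
      rw [hz l hl, mul_zero, hG, mul_zero]
    · intro hn
      exact absurd (Finset.mem_univ k) hn
    · intro l _ hl
      rw [hz l hl, mul_zero]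
    · intro hn
      exact absurd (Finset.mem_univ k) hn
  · push Not at hex
    simp [hex, hG]

theorem comp_supp (hm : Ms h φ y) (G : ℝ → ℝ) (hG : G 0 = 0) (t : ℝ) (k : Fin M) :
    HasCompactSupport fun x => G (t * φ k x) := by
  refine HasCompactSupport.of_support_subset_isCompact (isCompact_closedBall (y k) h) ?_
  intro x hx
  rw [Metric.mem_closedBall, dist_eq_norm]
  by_contra hcon
  apply hx
  show G (t * φ k x) = 0
  rw [hm.supp k x (le_of_lt (not_le.1 hcon)), mul_zero, hG]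

theorem comp_cont (hm : Ms h φ y) (G : ℝ → ℝ) (hG : Continuous G) (t : ℝ) (k : Fin M) :
    Continuous fun x => G (t * φ k x) :=
  hG.comp (continuous_const.mul (hm.cont k))

theorem th_cont (hm : Ms h φ y) (a : Fin M → ℝ) : Continuous fun x => ∑ k, a k * φ k x :=
  continuous_finsetSum _ fun k _ => continuous_const.mul (hm.cont k)

theorem f2_int (hc : Cells h c0 f y) : Integrable fun x => f x ^ 2 := by
  have h1 : HasCompactSupport fun x => f x ^ 2 :=
    hc.compact.comp_left (g := fun t : ℝ => t ^ 2) (by norm_num)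
  exact (hc.smooth.continuous.pow 2).integrable_of_hasCompactSupport h1

/-- the two integrals -/
theorem AA_real (hc : Cells h c0 f y) (hm : Ms h φ y) (ν : ℝ) (ξ : Fin M → ℝ) :
    AA ν hw sg f φ ξ = ((∫ x, f x ^ 2 * Real.cos (∑ k, ξ k / √ν * φ k x) : ℝ) : ℂ) := by
  have hθ : ∀ x, (∑ k, ξ k * φ k x) / √ν = ∑ k, ξ k / √ν * φ k x := by
    intro x
    rw [Finset.sum_div]
    exact Finset.sum_congr rfl fun k _ => by ring
  have hint : ∀ s : ℝ, Integrable fun x => ((f x ^ 2 : ℝ) : ℂ) *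
      Complex.exp (((s * ∑ k, ξ k / √ν * φ k x : ℝ) : ℂ) * Complex.I) := by
    intro s
    refine (f2_int hc).ofReal.mul_bdd (c := 1) ?_ ?_
    · refine Continuous.aestronglyMeasurable ?_
      exact Complex.continuous_exp.comp ((Complex.continuous_ofReal.comp
        (continuous_const.mul (th_cont hm _))).mul continuous_const)
    · exact Eventually.of_forall fun x => (Complex.norm_exp_ofReal_mul_I _).le
  unfold AA
  rw [Fintype.sum_bool]
  have e1 : ∀ b : Bool, (∫ x : E3, ((f x ^ 2 : ℝ) : ℂ) *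
      Complex.exp (((sg b * (∑ k, ξ k * φ k x) / √ν : ℝ) : ℂ) * Complex.I)) =
      ∫ x : E3, ((f x ^ 2 : ℝ) : ℂ) *
        Complex.exp (((sg b * ∑ k, ξ k / √ν * φ k x : ℝ) : ℂ) * Complex.I) := by
    intro b
    refine integral_congr_ae (Eventually.of_forall fun x => ?_)
    simp only
    rw [mul_div_assoc, hθ]
  rw [e1, e1, ← integral_const_mul, ← integral_const_mul,
    ← integral_add ((hint _).const_mul _) ((hint _).const_mul _), ofR]
  refine integral_congr_ae (Eventually.of_forall fun x => ?_)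
  simp only [hw, sg, if_true, Bool.false_eq_true, if_false]
  set t : ℝ := ∑ k, ξ k / √ν * φ k x with ht
  have h1 : Complex.exp (((1 * t : ℝ) : ℂ) * Complex.I) =
      Complex.cos t + Complex.sin t * Complex.I := by
    rw [one_mul, Complex.exp_mul_I]
  have h2 : Complex.exp (((-1 * t : ℝ) : ℂ) * Complex.I) =
      Complex.cos t - Complex.sin t * Complex.I := by
    rw [Complex.exp_mul_I]
    push_cast
    rw [show (-1 * (t : ℂ)) = -(t : ℂ) by ring, Complex.cos_neg, Complex.sin_neg]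
    ring
  rw [h1, h2]
  push_cast
  ring

theorem AA_gen (hc : Cells h c0 f y) (hm : Ms h φ y) (ν : ℝ) (ξ : Fin M → ℝ) :
    AA ν hw sg f φ ξ =
      ((1 - c0 ^ 2 * ∑ k, ∫ x, (1 - Real.cos (ξ k / √ν * φ k x)) : ℝ) : ℂ) := by
  refine (AA_real hc hm ν ξ).trans (congrArg (fun t : ℝ => (t : ℂ)) ?_)
  have hG0 : (fun t : ℝ => 1 - Real.cos t) 0 = 0 := by simp
  have hGc : Continuous (fun t : ℝ => 1 - Real.cos t) := by fun_prop
  have hterm : ∀ k, Integrable fun x => 1 - Real.cos (ξ k / √ν * φ k x) := fun k =>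
    (comp_cont hm (fun t : ℝ => 1 - Real.cos t) hGc (ξ k / √ν) k).integrable_of_hasCompactSupport
      (comp_supp hm (fun t : ℝ => 1 - Real.cos t) hG0 (ξ k / √ν) k)
  have h1 : (fun x => f x ^ 2 * Real.cos (∑ k, ξ k / √ν * φ k x)) =
      fun x => f x ^ 2 - ∑ k, c0 ^ 2 * (1 - Real.cos (ξ k / √ν * φ k x)) := by
    funext x
    have := cell_id hc hm (fun k => ξ k / √ν) (fun t : ℝ => 1 - Real.cos t) hG0 x
    beta_reduce at this
    linarith
  have hterm2 : ∀ k ∈ (Finset.univ : Finset (Fin M)),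
      Integrable fun x => c0 ^ 2 * (1 - Real.cos (ξ k / √ν * φ k x)) := fun k _ =>
    (hterm k).const_mul _
  have hsum : Integrable fun x => ∑ k, c0 ^ 2 * (1 - Real.cos (ξ k / √ν * φ k x)) :=
    integrable_finsetSum _ hterm2
  have h2 : ∫ x, (f x ^ 2 - ∑ k, c0 ^ 2 * (1 - Real.cos (ξ k / √ν * φ k x))) =
      (∫ x, f x ^ 2) - ∫ x, ∑ k, c0 ^ 2 * (1 - Real.cos (ξ k / √ν * φ k x)) :=
    integral_sub (f2_int hc) hsum
  have h3 : ∫ x, ∑ k, c0 ^ 2 * (1 - Real.cos (ξ k / √ν * φ k x)) =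
      ∑ k, ∫ x, c0 ^ 2 * (1 - Real.cos (ξ k / √ν * φ k x)) :=
    integral_finsetSum _ hterm2
  rw [h1, h2, h3, hc.norm, Finset.mul_sum]
  refine congrArg (fun t : ℝ => 1 - t) ?_
  exact Finset.sum_congr rfl fun k _ => integral_const_mul _ _

end gen

section two

variable {M : ℕ} {h c0 : ℝ} {f : E3 → ℝ} {y : Fin M → E3} {φ : Fin M → E3 → ℝ}

theorem BB_real (hc : Cells h c0 f y) (hm : Ms h φ y) (ν : ℝ) (ξ : Fin M → ℝ) :
    BB ν hw sg φ (KV sg f) ξ = ((-∫ z : E3 × E3,
      (f z.1 ^ 2 * Real.sin (∑ k, ξ k / √ν * φ k z.1)) *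
        (f z.2 ^ 2 * Real.sin (∑ k, ξ k / √ν * φ k z.2)) / ‖z.1 - z.2‖ : ℝ) : ℂ) := by
  have hθ : ∀ x, (∑ k, ξ k * φ k x) / √ν = ∑ k, ξ k / √ν * φ k x := by
    intro x
    rw [Finset.sum_div]
    exact Finset.sum_congr rfl fun k _ => by ring
  have hf2 : HasCompactSupport fun x => f x ^ 2 :=
    hc.compact.comp_left (g := fun t : ℝ => t ^ 2) (by norm_num)
  have hP := pair_int (fun x => f x ^ 2) (fun x => f x ^ 2) (hc.smooth.continuous.pow 2) hf2
    (hc.smooth.continuous.pow 2) hf2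
  have hint : ∀ (r s s' : ℝ), Integrable fun z : E3 × E3 =>
      ((r * (f z.1 ^ 2 * f z.2 ^ 2 / ‖z.1 - z.2‖) : ℝ) : ℂ) *
      Complex.exp (((s * (∑ k, ξ k / √ν * φ k z.1) + s' * (∑ k, ξ k / √ν * φ k z.2) : ℝ) : ℂ) *
        Complex.I) := by
    intro r s s'
    refine (hP.const_mul r).ofReal.mul_bdd (c := 1) ?_ ?_
    · refine Continuous.aestronglyMeasurable ?_
      refine Complex.continuous_exp.comp ((Complex.continuous_ofReal.comp ?_).mul continuous_const)
      exact (continuous_const.mul ((th_cont hm _).comp continuous_fst)).add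
        (continuous_const.mul ((th_cont hm _).comp continuous_snd))
    · exact Eventually.of_forall fun x => (Complex.norm_exp_ofReal_mul_I _).le
  have e1 : ∀ b b' : Bool, (∫ z : E3 × E3, ((KV sg f b b' z : ℝ) : ℂ) *
      Complex.exp ((((sg b * (∑ k, ξ k * φ k z.1) + sg b' * (∑ k, ξ k * φ k z.2)) / √ν : ℝ) : ℂ) *
        Complex.I)) =
      ∫ z : E3 × E3, ((sg b * sg b' * (f z.1 ^ 2 * f z.2 ^ 2 / ‖z.1 - z.2‖) : ℝ) : ℂ) *
      Complex.exp (((sg b * (∑ k, ξ k / √ν * φ k z.1) +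
        sg b' * (∑ k, ξ k / √ν * φ k z.2) : ℝ) : ℂ) * Complex.I) := by
    intro b b'
    refine integral_congr_ae (Eventually.of_forall fun z => ?_)
    simp only [KV]
    rw [show (sg b * (∑ k, ξ k * φ k z.1) + sg b' * (∑ k, ξ k * φ k z.2)) / √ν =
      sg b * (∑ k, ξ k / √ν * φ k z.1) + sg b' * (∑ k, ξ k / √ν * φ k z.2) from by
        rw [add_div, mul_div_assoc, mul_div_assoc, hθ, hθ]]
  unfold BB
  rw [Fintype.sum_bool, Fintype.sum_bool, Fintype.sum_bool]
  rw [e1, e1, e1, e1, ← integral_const_mul, ← integral_const_mul, ← integral_const_mul,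
    ← integral_const_mul, four_add ((hint _ _ _).const_mul _) ((hint _ _ _).const_mul _)
      ((hint _ _ _).const_mul _) ((hint _ _ _).const_mul _), ← integral_neg, ofR]
  refine integral_congr_ae (Eventually.of_forall fun z => ?_)
  simp only [hw, sg, if_true, Bool.false_eq_true, if_false]
  set t : ℝ := ∑ k, ξ k / √ν * φ k z.1 with ht
  set u : ℝ := ∑ k, ξ k / √ν * φ k z.2 with hu
  have key : ∀ s s' : ℝ, Complex.exp (((s * t + s' * u : ℝ) : ℂ) * Complex.I) =
      (Complex.cos (s * t) + Complex.sin (s * t) * Complex.I) *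
        (Complex.cos (s' * u) + Complex.sin (s' * u) * Complex.I) := by
    intro s s'
    rw [← Complex.exp_mul_I, ← Complex.exp_mul_I, ← Complex.exp_add]
    congr 1
    push_cast
    ring
  rw [key, key, key, key]
  have n1 : Complex.cos (((-1 : ℝ) : ℂ) * (t : ℂ)) = Complex.cos t := by
    rw [show (((-1 : ℝ) : ℂ) * (t : ℂ)) = -(t : ℂ) by push_cast; ring, Complex.cos_neg]
  have n2 : Complex.sin (((-1 : ℝ) : ℂ) * (t : ℂ)) = -Complex.sin t := by
    rw [show (((-1 : ℝ) : ℂ) * (t : ℂ)) = -(t : ℂ) by push_cast; ring, Complex.sin_neg]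
  have n3 : Complex.cos (((-1 : ℝ) : ℂ) * (u : ℂ)) = Complex.cos u := by
    rw [show (((-1 : ℝ) : ℂ) * (u : ℂ)) = -(u : ℂ) by push_cast; ring, Complex.cos_neg]
  have n4 : Complex.sin (((-1 : ℝ) : ℂ) * (u : ℂ)) = -Complex.sin u := by
    rw [show (((-1 : ℝ) : ℂ) * (u : ℂ)) = -(u : ℂ) by push_cast; ring, Complex.sin_neg]
  have n5 : (((1 : ℝ) : ℂ) * (t : ℂ)) = (t : ℂ) := by push_cast; ring
  have n6 : (((1 : ℝ) : ℂ) * (u : ℂ)) = (u : ℂ) := by push_cast; ring
  rw [n1, n2, n3, n4, n5, n6]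
  push_cast
  ring_nf
  rw [Complex.I_sq]
  ring

theorem BB_gen (hc : Cells h c0 f y) (hm : Ms h φ y) (ν : ℝ) (ξ : Fin M → ℝ) :
    BB ν hw sg φ (KV sg f) ξ = ((-(c0 ^ 4 * ∑ k, ∑ l,
      De (fun x => Real.sin (ξ k / √ν * φ k x))
        (fun x => Real.sin (ξ l / √ν * φ l x))) : ℝ) : ℂ) := by
  rw [BB_real hc hm]
  congr 2
  have hterm : ∀ k l, Integrable fun z : E3 × E3 => c0 ^ 4 *
      (Real.sin (ξ k / √ν * φ k z.1) * Real.sin (ξ l / √ν * φ l z.2) / ‖z.1 - z.2‖) := by
    intro k l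
    exact (pair_int _ _ (comp_cont hm _ Real.continuous_sin (ξ k / √ν) k)
      (comp_supp hm _ Real.sin_zero (ξ k / √ν) k)
      (comp_cont hm _ Real.continuous_sin (ξ l / √ν) l)
      (comp_supp hm _ Real.sin_zero (ξ l / √ν) l)).const_mul _
  have h1 : (fun z : E3 × E3 => (f z.1 ^ 2 * Real.sin (∑ k, ξ k / √ν * φ k z.1)) *
        (f z.2 ^ 2 * Real.sin (∑ k, ξ k / √ν * φ k z.2)) / ‖z.1 - z.2‖) =
      fun z => ∑ k, ∑ l, c0 ^ 4 *
      (Real.sin (ξ k / √ν * φ k z.1) * Real.sin (ξ l / √ν * φ l z.2) / ‖z.1 - z.2‖) := by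
    funext z
    rw [cell_id hc hm (fun k => ξ k / √ν) Real.sin Real.sin_zero z.1,
      cell_id hc hm (fun k => ξ k / √ν) Real.sin Real.sin_zero z.2, Finset.sum_mul_sum,
      Finset.sum_div]
    refine Finset.sum_congr rfl fun k _ => ?_
    rw [Finset.sum_div]
    refine Finset.sum_congr rfl fun l _ => ?_
    ring
  rw [h1, integral_finsetSum _ fun k _ => integrable_finsetSum _ fun l _ => hterm k l,
    Finset.mul_sum]
  refine Finset.sum_congr rfl fun k _ => ?_
  rw [integral_finsetSum _ fun l _ => hterm k l, Finset.mul_sum]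
  refine Finset.sum_congr rfl fun l _ => ?_
  rw [integral_const_mul]
  rfl

end two

theorem md_ms {M : ℕ} {h : ℝ} {η : E3 → ℝ} (y : Fin M → E3) (hη : Prof η) (hh : 0 < h) :
    Ms h (md h η y) y := by
  refine ⟨fun k => ?_, fun k x hx => ?_⟩
  · have h1 : Continuous fun x : E3 => h⁻¹ • (x - y k) := by fun_prop
    exact hη.smooth.continuous.comp h1
  · unfold md
    apply hη.supp
    rw [norm_smul, norm_inv, Real.norm_eq_abs, abs_of_pos hh, inv_mul_eq_div, le_div_iff₀ hh,
      one_mul]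
    exact hx

theorem md_int {M : ℕ} {h : ℝ} {η : E3 → ℝ} (y : Fin M → E3) (hh : 0 < h) (k : Fin M) (t : ℝ) :
    ∫ x, (1 - Real.cos (t * md h η y k x)) = h ^ 3 * be η t := by
  unfold md be
  rw [integral_sub_right_eq_self (μ := (volume : Measure E3))
    (fun x : E3 => 1 - Real.cos (t * η (h⁻¹ • x))) (y k),
    Measure.integral_comp_smul (volume : Measure E3) (fun x : E3 => 1 - Real.cos (t * η x)) h⁻¹]
  have hd : Module.finrank ℝ E3 = 3 := by simp
  rw [hd, smul_eq_mul, inv_pow, inv_inv, abs_of_pos (by positivity)]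

/-- TARGET -/
theorem aa_cell {M : ℕ} {h c0 : ℝ} {f η : E3 → ℝ} {y : Fin M → E3} (hη : Prof η)
    (hc : Cells h c0 f y) (ν : ℝ) (hν : 0 < ν) (ξ : Fin M → ℝ) :
    AA ν hw sg f (md h η y) ξ =
      ((1 - c0 ^ 2 * h ^ 3 * ∑ k, be η (ξ k / √ν) : ℝ) : ℂ) ∧
    (∀ k, AA ν hw sg f (Function.update (md h η y) k 0) ξ =
      ((1 - c0 ^ 2 * h ^ 3 * ∑ l ∈ Finset.univ.erase k, be η (ξ l / √ν) : ℝ) : ℂ)) ∧
    BB ν hw sg (md h η y) (KV sg f) ξ = ((-(c0 ^ 4 * ∑ k, ∑ l,
      De (fun x => Real.sin (ξ k / √ν * md h η y k x))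
        (fun x => Real.sin (ξ l / √ν * md h η y l x))) : ℝ) : ℂ) := by
  have hm := md_ms y hη hc.hpos
  refine ⟨?_, fun k => ?_, BB_gen hc hm ν ξ⟩
  · rw [AA_gen hc hm]
    congr 2
    rw [mul_assoc]
    congr 1
    rw [Finset.mul_sum]
    exact Finset.sum_congr rfl fun k _ => md_int y hc.hpos k _
  · have hm' : Ms h (Function.update (md h η y) k 0) y := by
      refine ⟨fun l => ?_, fun l x hx => ?_⟩
      · by_cases hl : l = k
        · subst hl
          rw [Function.update_self]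
          exact continuous_const
        · rw [Function.update_of_ne hl]
          exact hm.cont l
      · by_cases hl : l = k
        · subst hl
          rw [Function.update_self]
          rfl
        · rw [Function.update_of_ne hl]
          exact hm.supp l x hx
    rw [AA_gen hc hm']
    congr 2
    rw [mul_assoc]
    congr 1
    rw [Finset.mul_sum, ← Finset.sum_erase Finset.univ (a := k)]
    · refine Finset.sum_congr rfl fun l hl => ?_
      rw [Function.update_of_ne (Finset.ne_of_mem_erase hl)]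
      exact md_int y hc.hpos l _
    · rw [Function.update_self]
      simp

end Pool.Agent.Helper780_BE.V2
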