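-- sumZ, compiled (75 s)
import Pool.Agent.Helper780_BE.V1
import Pool.Agent.Helper780_BE.V2
import Pool.Agent.Helper780_BE.DefsU


set_option autoImplicit false

open MeasureTheory
open scoped Topology

namespace Pool.Agent.Helper780_BE.V3

open Pool.Agent.Helper780_BE.V1 (norm_rep)
open Pool.Agent.Helper780_BE.V2 (aa_cell)

open Pool.Agent.Helper780_BE Pool.Agent.Helper780_CQ Filter



theorem AA_le {M : ℕ} (ν : ℝ) (f : E3 → ℝ) (hn : ∫ x, f x ^ 2 = 1) (φ : Fin M → E3 → ℝ)
    (ξ : Fin M → ℝ) : ‖AA ν hw sg f φ ξ‖ ≤ 1 := by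
  unfold AA
  have h1 : ∀ β : Bool, ‖((hw β : ℝ) : ℂ) * ∫ y : E3, ((f y ^ 2 : ℝ) : ℂ) *
      Complex.exp (((sg β * (∑ k, ξ k * φ k y) / √ν : ℝ) : ℂ) * Complex.I)‖ ≤ 1 / 2 := by
    intro β
    rw [norm_mul]
    have e1 : ‖((hw β : ℝ) : ℂ)‖ = 1 / 2 := by
      rw [Complex.norm_real, hw, Real.norm_eq_abs]
      norm_num
    rw [e1]
    have e2 : ‖∫ y : E3, ((f y ^ 2 : ℝ) : ℂ) *
        Complex.exp (((sg β * (∑ k, ξ k * φ k y) / √ν : ℝ) : ℂ) * Complex.I)‖ ≤ 1 := by
      refine (norm_integral_le_integral_norm _).trans (le_of_eq ?_)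
      rw [← hn]
      congr 1
      funext y
      rw [norm_mul, Complex.norm_exp_ofReal_mul_I, mul_one, Complex.norm_real,
        Real.norm_of_nonneg (sq_nonneg _)]
    linarith
  refine (norm_sum_le _ _).trans ((Finset.sum_le_sum fun β _ => h1 β).trans (le_of_eq ?_))
  simp

theorem AA_cont {M : ℕ} (ν : ℝ) (f : E3 → ℝ) (hf : Continuous f) (hfs : HasCompactSupport f)
    (φ : Fin M → E3 → ℝ) (hφ : ∀ k, Continuous (φ k)) : Continuous (AA ν hw sg f φ) := by
  unfold AA
  refine continuous_finsetSum _ fun β _ => continuous_const.mul ?_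
  have hf2 : Integrable (fun y => f y ^ 2) := by
    apply (hf.pow 2).integrable_of_hasCompactSupport
    exact hfs.comp_left (g := fun t : ℝ => t ^ 2) (by norm_num)
  refine continuous_of_dominated (bound := fun y => f y ^ 2) ?_ ?_ hf2 ?_
  · intro ξ
    apply Continuous.aestronglyMeasurable
    fun_prop
  · intro ξ
    refine Filter.Eventually.of_forall fun y => le_of_eq ?_
    rw [norm_mul, Complex.norm_exp_ofReal_mul_I, mul_one, Complex.norm_real,
      Real.norm_of_nonneg (sq_nonneg _)]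
  · refine Filter.Eventually.of_forall fun y => ?_
    fun_prop

theorem gauss_int : Integrable (fun t : ℝ => Real.exp (-t ^ 2)) := by
  have := integrable_exp_neg_mul_sq (b := 1) one_pos
  simpa using this

theorem gauss_val : ∫ t : ℝ, Real.exp (-t ^ 2) = √Real.pi := by
  have := integral_gaussian 1
  simpa using this

theorem G_int (M : ℕ) : Integrable (fun ξ : Fin M → ℝ => Real.exp (-∑ k, ξ k ^ 2)) := by
  have h := Integrable.fintype_prod (ι := Fin M) (𝕜 := ℝ)
    (f := fun _ (t : ℝ) => Real.exp (-t ^ 2)) (μ := fun _ => volume) (fun _ => gauss_int)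
  have e : (fun ξ : Fin M → ℝ => Real.exp (-∑ k, ξ k ^ 2)) =
      fun ξ => ∏ k, Real.exp (-ξ k ^ 2) := by
    funext ξ
    rw [← Real.exp_sum, Finset.sum_neg_distrib]
  rw [e]
  exact h

theorem core {M : ℕ} {h c0 : ℝ} {f η : E3 → ℝ} {y : Fin M → E3}
    (hc : Cells h c0 f y) (z ν : ℝ) (hz : 0 < z) (hν : ν = z * c0 ^ 2 * h ^ 3)
    (φ : Fin M → E3 → ℝ) (hφ : ∀ k, Continuous (φ k)) (S : Finset (Fin M))
    (hAA : ∀ ξ, AA ν hw sg f φ ξ =
      ((1 - c0 ^ 2 * h ^ 3 * ∑ k ∈ S, be η (ξ k / √ν) : ℝ) : ℂ)) :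
    HasSum (fun n : ℕ => z ^ n / (n.factorial : ℝ) * zn ν f φ n)
      (Real.exp z * Z1 η ν ^ S.card) := by
  have hνp : 0 < ν := by
    rw [hν]
    have := hc.hpos
    have := hc.cpos
    positivity
  have hf : Continuous f := hc.smooth.continuous
  set a : (Fin M → ℝ) → ℝ := fun ξ => 1 - c0 ^ 2 * h ^ 3 * ∑ k ∈ S, be η (ξ k / √ν) with ha
  have haA : ∀ ξ, AA ν hw sg f φ ξ = (a ξ : ℂ) := hAA
  have ha1 : ∀ ξ, |a ξ| ≤ 1 := by
    intro ξ
    have := AA_le ν f hc.norm φ ξ
    rwa [haA, Complex.norm_real] at this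
  have hac : Continuous a := by
    have h1 : Continuous fun ξ => (AA ν hw sg f φ ξ).re :=
      Complex.continuous_re.comp (AA_cont ν f hf hc.compact φ hφ)
    have h2 : (fun ξ => (AA ν hw sg f φ ξ).re) = a := by
      funext ξ
      rw [haA, Complex.ofReal_re]
    rwa [h2] at h1
  set G : (Fin M → ℝ) → ℝ := fun ξ => Real.exp (-∑ k, ξ k ^ 2) with hG
  have hGc : Continuous G := by
    rw [hG]
    fun_prop
  have hGi : Integrable G := G_int M
  have hG0 : ∀ ξ, 0 < G ξ := fun ξ => Real.exp_pos _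
  set P : ℝ := Real.pi ^ (-((M : ℝ) / 2)) with hP
  have hzn : ∀ n, zn ν f φ n = P * ∫ ξ, G ξ * a ξ ^ n := by
    intro n
    have h1 := norm_rep ν hνp f hf hc.compact φ hφ n
    have h2 : (fun ξ : Fin M → ℝ => ((Real.exp (-∑ k, ξ k ^ 2) : ℝ) : ℂ) *
        AA ν hw sg f φ ξ ^ n) = fun ξ => ((G ξ * a ξ ^ n : ℝ) : ℂ) := by
      funext ξ
      rw [haA, Complex.ofReal_mul, Complex.ofReal_pow]
    rw [h2, integral_complex_ofReal, ← Complex.ofReal_mul] at h1
    exact Complex.ofReal_injective h1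
  have hsum : ∀ t : ℝ, HasSum (fun n : ℕ => t ^ n / (n.factorial : ℝ)) (Real.exp t) := by
    intro t
    have := NormedSpace.expSeries_div_hasSum_exp (𝔸 := ℝ) t
    rwa [← Real.exp_eq_exp_ℝ] at this
  have hmain : HasSum (fun n : ℕ => ∫ ξ, G ξ * ((z * a ξ) ^ n / (n.factorial : ℝ)))
      (∫ ξ, G ξ * Real.exp (z * a ξ)) := by
    refine hasSum_integral_of_dominated_convergence
      (fun n ξ => G ξ * (z ^ n / (n.factorial : ℝ))) ?_ ?_ ?_ ?_ ?_
    · intro n
      apply Continuous.aestronglyMeasurable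
      fun_prop
    · intro n
      refine Filter.Eventually.of_forall fun ξ => ?_
      rw [norm_mul, Real.norm_of_nonneg (hG0 ξ).le]
      apply mul_le_mul_of_nonneg_left _ (hG0 ξ).le
      rw [norm_div, norm_pow, norm_mul, Real.norm_of_nonneg hz.le, Real.norm_natCast]
      apply div_le_div_of_nonneg_right _ (Nat.cast_nonneg _)
      apply pow_le_pow_left₀ (by positivity)
      have := ha1 ξ
      rw [Real.norm_eq_abs]
      nlinarith
    · exact Filter.Eventually.of_forall fun ξ => ((hsum z).summable).mul_left _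
    · have : (fun ξ => ∑' n : ℕ, G ξ * (z ^ n / (n.factorial : ℝ))) =
          fun ξ => G ξ * Real.exp z := by
        funext ξ
        rw [tsum_mul_left, (hsum z).tsum_eq]
      rw [this]
      exact hGi.mul_const _
    · exact Filter.Eventually.of_forall fun ξ => (hsum (z * a ξ)).mul_left _
  have h3 := hmain.mul_left P
  have h4 : (fun n : ℕ => z ^ n / (n.factorial : ℝ) * zn ν f φ n) =
      fun n : ℕ => P * ∫ ξ, G ξ * ((z * a ξ) ^ n / (n.factorial : ℝ)) := by
    funext n
    rw [hzn, ← mul_assoc, mul_comm _ P, mul_assoc, ← integral_const_mul]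
    congr 2
    funext ξ
    rw [mul_pow]
    ring
  have h5 : P * ∫ ξ, G ξ * Real.exp (z * a ξ) = Real.exp z * Z1 η ν ^ S.card := by
    let g : Fin M → ℝ → ℝ := fun l t =>
      Real.exp (-t ^ 2 - if l ∈ S then ν * be η (t / √ν) else 0)
    have e1 : (fun ξ => G ξ * Real.exp (z * a ξ)) =
        fun ξ : Fin M → ℝ => Real.exp z * ∏ l, g l (ξ l) := by
      funext ξ
      show Real.exp (-∑ k, ξ k ^ 2) * Real.exp (z * (1 - c0 ^ 2 * h ^ 3 *
        ∑ k ∈ S, be η (ξ k / √ν))) = Real.exp z * ∏ l, Real.exp (-ξ l ^ 2 -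
          if l ∈ S then ν * be η (ξ l / √ν) else 0)
      rw [← Real.exp_sum, ← Real.exp_add, ← Real.exp_add]
      congr 1
      rw [Finset.sum_sub_distrib, Finset.sum_neg_distrib, Finset.sum_ite_mem,
        Finset.univ_inter, ← Finset.mul_sum]
      have : ν * ∑ i ∈ S, be η (ξ i / √ν) =
          z * (c0 ^ 2 * h ^ 3 * ∑ i ∈ S, be η (ξ i / √ν)) := by
        conv_lhs => rw [show ν * ∑ i ∈ S, be η (ξ i / √ν) =
          (z * c0 ^ 2 * h ^ 3) * ∑ i ∈ S, be η (ξ i / √ν) from by rw [← hν]]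
        ring
      rw [this]
      ring
    have hpi : (0 : ℝ) < √Real.pi := Real.sqrt_pos.mpr Real.pi_pos
    have e2 : ∀ l, ∫ t, g l t = √Real.pi * (if l ∈ S then Z1 η ν else 1) := by
      intro l
      by_cases hl : l ∈ S
      · simp only [g, hl, if_true]
        rw [Z1, ← mul_assoc, mul_inv_cancel₀ hpi.ne', one_mul]
      · simp only [g, hl, if_false, sub_zero, mul_one]
        exact gauss_val
    rw [e1, integral_const_mul, integral_fintype_prod_volume_eq_prod]
    simp_rw [e2]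
    rw [Finset.prod_mul_distrib, Finset.prod_const, Finset.card_univ, Fintype.card_fin,
      Finset.prod_ite_mem, Finset.univ_inter, Finset.prod_const]
    have e3 : P * √Real.pi ^ M = 1 := by
      rw [hP, Real.sqrt_eq_rpow, ← Real.rpow_natCast, ← Real.rpow_mul Real.pi_pos.le,
        ← Real.rpow_add Real.pi_pos]
      have : -((M : ℝ) / 2) + 1 / 2 * (M : ℝ) = 0 := by ring
      rw [this, Real.rpow_zero]
    calc P * (Real.exp z * (√Real.pi ^ M * Z1 η ν ^ S.card))
        = (P * √Real.pi ^ M) * (Real.exp z * Z1 η ν ^ S.card) := by ring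
      _ = _ := by rw [e3, one_mul]
  rw [h4, ← h5]
  exact h3

/-- TARGET -/
theorem sumZ {M : ℕ} {h c0 : ℝ} {f η : E3 → ℝ} {y : Fin M → E3} (hη : Prof η)
    (hc : Cells h c0 f y) (z ν : ℝ) (hz : 0 < z) (hν : ν = z * c0 ^ 2 * h ^ 3) :
    HasSum (fun n : ℕ => z ^ n / (n.factorial : ℝ) * zn ν f (md h η y) n)
      (Real.exp z * Z1 η ν ^ M) ∧
    ∀ k, HasSum (fun n : ℕ => z ^ n / (n.factorial : ℝ) *
      zn ν f (Function.update (md h η y) k 0) n) (Real.exp z * Z1 η ν ^ (M - 1)) := by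
  have hηc : Continuous η := hη.smooth.continuous
  have hνp : 0 < ν := by
    rw [hν]
    have := hc.hpos
    have := hc.cpos
    positivity
  have hm : ∀ k, Continuous (md h η y k) := by
    intro k
    unfold md
    fun_prop
  refine ⟨?_, fun k => ?_⟩
  · have := core hc z ν hz hν (md h η y) hm Finset.univ (fun ξ => (aa_cell hη hc ν hνp ξ).1)
    rwa [Finset.card_univ, Fintype.card_fin] at this
  · have := core hc z ν hz hν (Function.update (md h η y) k 0) (fun l => by
      by_cases hl : l = k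
      · subst hl
        rw [Function.update_self]
        exact continuous_zero
      · rw [Function.update_of_ne hl]
        exact hm l) (Finset.univ.erase k) (fun ξ => (aa_cell hη hc ν hνp ξ).2.1 k)
    rwa [Finset.card_erase_of_mem (Finset.mem_univ k), Finset.card_univ,
      Fintype.card_fin] at this

end Pool.Agent.Helper780_BE.V3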