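import Pool.Agent.Helper780_BE.V1
import Pool.Agent.Helper780_BE.V2
import Pool.Agent.Helper780_BE.DefsU
import Pool.Agent.Helper985.CP.M_pot_props


set_option autoImplicit false

open MeasureTheory
open scoped Topology

namespace Pool.Agent.Helper780_BE.V4

open Pool.Agent.Helper780_BE.V1 (pot_repU)
open Pool.Agent.Helper780_BE.V2 (aa_cell)

open Pool.Agent.Helper780_BE Pool.Agent.Helper780_CQ Filter



/-! ### The form `De` -/

/-- functions supported in the ball of radius `R` about `0` -/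
def Sp (R : ℝ) (u : E3 → ℝ) : Prop := ∀ x, R ≤ ‖x‖ → u x = 0

/-- the dominating function -/
noncomputable def dom (R : ℝ) (q : E3 × E3) : ℝ :=
  (Metric.ball (0 : E3) R).indicator (fun _ => (1 : ℝ)) q.2 *
    (Metric.ball (0 : E3) (2 * R)).indicator (fun w : E3 => ‖w‖⁻¹) (q.1 - q.2)

theorem dom_int (R : ℝ) : Integrable (dom R) := by
  have h1 : Integrable ((Metric.ball (0 : E3) R).indicator (fun _ => (1 : ℝ))) :=
    (integrable_indicator_iff Metric.isOpen_ball.measurableSet).2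
      (integrableOn_const measure_ball_lt_top.ne)
  have h2 : Integrable ((Metric.ball (0 : E3) (2 * R)).indicator (fun w : E3 => ‖w‖⁻¹)) := by
    refine (integrable_indicator_iff Metric.isOpen_ball.measurableSet).2 ?_
    exact (Pool.Agent.Helper985.CP.pot_props_locInt.integrableOn_isCompact
      (isCompact_closedBall (0 : E3) (2 * R))).mono_set Metric.ball_subset_closedBall
  exact h1.convolution_integrand (ContinuousLinearMap.mul ℝ ℝ) h2

theorem dom_nonneg (R : ℝ) (q : E3 × E3) : 0 ≤ dom R q := by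
  unfold dom
  refine mul_nonneg (Set.indicator_nonneg (fun _ _ => zero_le_one) _)
    (Set.indicator_nonneg (fun _ _ => by positivity) _)

theorem le_dom {R : ℝ} {u v : E3 → ℝ} (hu : Sp R u) (hv : Sp R v) (hu1 : ∀ x, |u x| ≤ 1)
    (hv1 : ∀ x, |v x| ≤ 1) (q : E3 × E3) : ‖u q.1 * v q.2 / ‖q.1 - q.2‖‖ ≤ dom R q := by
  by_cases h1 : R ≤ ‖q.1‖
  · rw [hu _ h1, zero_mul, zero_div, norm_zero]; exact dom_nonneg R q
  by_cases h2 : R ≤ ‖q.2‖
  · rw [hv _ h2, mul_zero, zero_div, norm_zero]; exact dom_nonneg R q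
  push Not at h1 h2
  have m2 : q.2 ∈ Metric.ball (0 : E3) R := by simpa using h2
  have m3 : q.1 - q.2 ∈ Metric.ball (0 : E3) (2 * R) := by
    rw [mem_ball_zero_iff]
    calc ‖q.1 - q.2‖ ≤ ‖q.1‖ + ‖q.2‖ := norm_sub_le _ _
      _ < 2 * R := by linarith
  unfold dom
  rw [Set.indicator_of_mem m2, Set.indicator_of_mem m3, one_mul, Real.norm_eq_abs, abs_div,
    abs_mul, abs_norm, div_eq_mul_inv]
  have : |u q.1| * |v q.2| ≤ 1 := mul_le_one₀ (hu1 _) (abs_nonneg _) (hv1 _)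
  calc |u q.1| * |v q.2| * ‖q.1 - q.2‖⁻¹ ≤ 1 * ‖q.1 - q.2‖⁻¹ :=
        mul_le_mul_of_nonneg_right this (by positivity)
    _ = ‖q.1 - q.2‖⁻¹ := one_mul _

theorem De_meas {u v : E3 → ℝ} (hu : Continuous u) (hv : Continuous v) :
    AEStronglyMeasurable (fun q : E3 × E3 => u q.1 * v q.2 / ‖q.1 - q.2‖) volume := by
  have h : Measurable (fun q : E3 × E3 => u q.1 * v q.2 / ‖q.1 - q.2‖) := by
    have h1 : Measurable (fun q : E3 × E3 => u q.1 * v q.2) :=
      (hu.measurable.comp measurable_fst).mul (hv.measurable.comp measurable_snd)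
    have h2 : Measurable (fun q : E3 × E3 => ‖q.1 - q.2‖) :=
      (measurable_fst.sub measurable_snd).norm
    exact h1.div h2
  exact h.aestronglyMeasurable

theorem De_bdd {R : ℝ} {u v : E3 → ℝ} (hu : Sp R u) (hv : Sp R v) (hu1 : ∀ x, |u x| ≤ 1)
    (hv1 : ∀ x, |v x| ≤ 1) : |De u v| ≤ ∫ q, dom R q := by
  unfold De
  rw [← Real.norm_eq_abs]
  refine norm_integral_le_of_norm_le (dom_int R) (Eventually.of_forall fun q => ?_)
  exact le_dom hu hv hu1 hv1 q

/-- the form on two modes -/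
noncomputable def DD (φ ψ : E3 → ℝ) (p : ℝ × ℝ) : ℝ :=
  De (fun x => Real.sin (p.1 * φ x)) (fun x => Real.sin (p.2 * ψ x))

theorem Sp_sin {R : ℝ} {φ : E3 → ℝ} (h : Sp R φ) (t : ℝ) : Sp R (fun x => Real.sin (t * φ x)) := by
  intro x hx
  simp only [h x hx, mul_zero, Real.sin_zero]

theorem DD_bdd {R : ℝ} {φ ψ : E3 → ℝ} (hφ : Sp R φ) (hψ : Sp R ψ) (p : ℝ × ℝ) :
    |DD φ ψ p| ≤ ∫ q, dom R q :=
  De_bdd (Sp_sin hφ _) (Sp_sin hψ _) (fun _ => Real.abs_sin_le_one _)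
    (fun _ => Real.abs_sin_le_one _)

theorem DD_cont {R : ℝ} {φ ψ : E3 → ℝ} (cφ : Continuous φ) (cψ : Continuous ψ) (hφ : Sp R φ)
    (hψ : Sp R ψ) : Continuous (DD φ ψ) := by
  unfold DD De
  refine continuous_of_dominated (bound := dom R) (fun p => ?_) (fun p => ?_) (dom_int R) ?_
  · exact De_meas (Real.continuous_sin.comp (continuous_const.mul cφ))
      (Real.continuous_sin.comp (continuous_const.mul cψ))
  · exact Eventually.of_forall fun q => le_dom (Sp_sin hφ _) (Sp_sin hψ _)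
      (fun _ => Real.abs_sin_le_one _) (fun _ => Real.abs_sin_le_one _) q
  · refine Eventually.of_forall fun q => ?_
    exact ((Real.continuous_sin.comp (continuous_fst.mul continuous_const)).mul
      (Real.continuous_sin.comp (continuous_snd.mul continuous_const))).div_const _

theorem DD_neg (φ ψ : E3 → ℝ) (t s : ℝ) : DD φ ψ (-t, s) = -DD φ ψ (t, s) := by
  unfold DD De
  rw [← integral_neg]
  congr 1
  funext q
  simp only [neg_mul, Real.sin_neg]
  ring

/-! ### The function `be` -/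

theorem be_dom {η : E3 → ℝ} (hη : Prof η) (t : ℝ) (x : E3) :
    ‖1 - Real.cos (t * η x)‖ ≤ (Metric.ball (0 : E3) 1).indicator (fun _ => (2 : ℝ)) x := by
  by_cases h : 1 ≤ ‖x‖
  · rw [hη.supp x h, mul_zero, Real.cos_zero, sub_self, norm_zero]
    exact Set.indicator_nonneg (fun _ _ => zero_le_two) _
  · push Not at h
    have : x ∈ Metric.ball (0 : E3) 1 := by simpa using h
    rw [Set.indicator_of_mem this, Real.norm_eq_abs, abs_le]
    have h1 := Real.cos_le_one (t * η x)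
    have h2 := Real.neg_one_le_cos (t * η x)
    constructor <;> linarith

theorem be_int : Integrable ((Metric.ball (0 : E3) 1).indicator (fun _ => (2 : ℝ))) :=
  (integrable_indicator_iff Metric.isOpen_ball.measurableSet).2
      (integrableOn_const measure_ball_lt_top.ne)

theorem be_bdd {η : E3 → ℝ} (hη : Prof η) (t : ℝ) :
    |be η t| ≤ ∫ x, (Metric.ball (0 : E3) 1).indicator (fun _ => (2 : ℝ)) x := by
  unfold be
  rw [← Real.norm_eq_abs]
  exact norm_integral_le_of_norm_le be_int (Eventually.of_forall fun x => be_dom hη t x)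

theorem be_nonneg (η : E3 → ℝ) (t : ℝ) : 0 ≤ be η t := by
  unfold be
  exact integral_nonneg fun x => by
    have h1 := Real.cos_le_one (t * η x)
    show 0 ≤ 1 - Real.cos (t * η x)
    linarith

theorem be_cont {η : E3 → ℝ} (hη : Prof η) : Continuous (be η) := by
  unfold be
  refine continuous_of_dominated
    (bound := (Metric.ball (0 : E3) 1).indicator (fun _ => (2 : ℝ))) (fun t => ?_) (fun t => ?_)
    be_int ?_
  · have : Continuous fun x => 1 - Real.cos (t * η x) :=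
      continuous_const.sub (Real.continuous_cos.comp (continuous_const.mul hη.smooth.continuous))
    exact this.aestronglyMeasurable
  · exact Eventually.of_forall fun x => be_dom hη t x
  · refine Eventually.of_forall fun x => ?_
    exact continuous_const.sub (Real.continuous_cos.comp (continuous_id.mul continuous_const))

theorem be_neg (η : E3 → ℝ) (t : ℝ) : be η (-t) = be η t := by
  unfold be
  congr 1
  funext x
  rw [neg_mul, Real.cos_neg]

/-! ### Scaling -/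

theorem De_scale {h : ℝ} (hh : 0 < h) (u v : E3 → ℝ) (c : E3) :
    De (fun x => u (h⁻¹ • (x - c))) (fun x => v (h⁻¹ • (x - c))) = h ^ 5 * De u v := by
  unfold De
  have e1 : ∀ q : E3 × E3, u (h⁻¹ • (q.1 - c)) * v (h⁻¹ • (q.2 - c)) / ‖q.1 - q.2‖ =
      h⁻¹ * (fun p : E3 × E3 => u p.1 * v p.2 / ‖p.1 - p.2‖) (h⁻¹ • (q - (c, c))) := by
    intro q
    have a1 : (h⁻¹ • (q - (c, c))).1 = h⁻¹ • (q.1 - c) := rfl
    have a2 : (h⁻¹ • (q - (c, c))).2 = h⁻¹ • (q.2 - c) := rfl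
    simp only [a1, a2]
    rw [← smul_sub, norm_smul, sub_sub_sub_cancel_right, Real.norm_eq_abs,
      abs_of_pos (inv_pos.mpr hh)]
    rcases eq_or_ne ‖q.1 - q.2‖ 0 with h0 | h0
    · rw [h0]; simp
    · field_simp
  have hH : (volume : Measure (E3 × E3)).IsAddHaarMeasure := by
    rw [Measure.volume_eq_prod]; infer_instance
  simp only [e1]
  rw [integral_const_mul]
  rw [integral_sub_right_eq_self (μ := (volume : Measure (E3 × E3)))
    (fun q => (fun p : E3 × E3 => u p.1 * v p.2 / ‖p.1 - p.2‖) (h⁻¹ • q)) (c, c)]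
  rw [Measure.integral_comp_smul (volume : Measure (E3 × E3))
    (fun p : E3 × E3 => u p.1 * v p.2 / ‖p.1 - p.2‖) h⁻¹]
  have hd : Module.finrank ℝ (E3 × E3) = 6 := by
    rw [Module.finrank_prod]; simp
  rw [hd, smul_eq_mul, abs_of_pos (by positivity), inv_pow, inv_inv, ← mul_assoc]
  congr 1
  field_simp

/-! ### Gaussian integrals -/

theorem parity {M : ℕ} (k : Fin M) (F : (Fin M → ℝ) → ℝ)
    (hF : ∀ ξ, F (fun j => if j = k then -ξ j else ξ j) = -F ξ) : ∫ ξ, F ξ = 0 := by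
  let e : (Fin M → ℝ) ≃ᵐ (Fin M → ℝ) := MeasurableEquiv.piCongrRight
    (fun j => if j = k then MeasurableEquiv.neg ℝ else MeasurableEquiv.refl ℝ)
  have he : ∀ ξ, e ξ = fun j => if j = k then -ξ j else ξ j := by
    intro ξ
    funext j
    show (if j = k then MeasurableEquiv.neg ℝ else MeasurableEquiv.refl ℝ) (ξ j) = _
    by_cases hj : j = k
    · simp [hj]
    · simp [hj]
  have hmp : MeasurePreserving e volume volume := by
    have h := volume_preserving_pi (f := fun j : Fin M => fun t : ℝ =>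
      (if j = k then MeasurableEquiv.neg ℝ else MeasurableEquiv.refl ℝ) t) (fun j => by
        by_cases hj : j = k
        · simp only [hj, if_true]
          exact Measure.measurePreserving_neg (volume : Measure ℝ)
        · simp only [hj, if_false]
          exact MeasurePreserving.id _)
    exact h
  have h1 := hmp.integral_comp' F
  have h2 : ∀ ξ, F (e ξ) = -F ξ := fun ξ => by rw [he]; exact hF ξ
  simp only [h2] at h1
  rw [integral_neg] at h1
  linarith

theorem gauss_int (M : ℕ) : Integrable (fun ξ : Fin M → ℝ => Real.exp (-∑ k, ξ k ^ 2)) := by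
  have h1 : Integrable (fun t : ℝ => Real.exp (-t ^ 2)) := by
    have h := integrable_exp_neg_mul_sq (b := 1) one_pos
    simpa using h
  have h2 : Integrable (fun ξ : Fin M → ℝ => ∏ k, Real.exp (-ξ k ^ 2)) :=
    Integrable.fintype_prod (fun _ => h1)
  refine h2.congr (Eventually.of_forall fun ξ => ?_)
  show ∏ k, Real.exp (-ξ k ^ 2) = Real.exp (-∑ k, ξ k ^ 2)
  rw [← Real.exp_sum, Finset.sum_neg_distrib]

theorem sumI {M : ℕ} (a b : (Fin M → ℝ) → ℝ) (ca : Continuous a) (cb : Continuous b) (Ca Cb : ℝ)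
    (ha : ∀ ξ, |a ξ| ≤ Ca) (hb : ∀ ξ, |b ξ| ≤ Cb) (z : ℝ) :
    HasSum (fun m : ℕ => z ^ m / (m.factorial : ℝ) *
      ∫ ξ : Fin M → ℝ, Real.exp (-∑ k, ξ k ^ 2) * (a ξ ^ m * b ξ))
      (∫ ξ : Fin M → ℝ, Real.exp (-∑ k, ξ k ^ 2) * (Real.exp (z * a ξ) * b ξ)) := by
  have hCa : 0 ≤ Ca := (abs_nonneg _).trans (ha 0)
  have hCb : 0 ≤ Cb := (abs_nonneg _).trans (hb 0)
  let F : ℕ → (Fin M → ℝ) → ℝ := fun m ξ =>
    Real.exp (-∑ k, ξ k ^ 2) * ((z * a ξ) ^ m / (m.factorial : ℝ) * b ξ)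
  have hbd : ∀ m ξ, ‖(z * a ξ) ^ m / (m.factorial : ℝ) * b ξ‖ ≤
      (|z| * Ca) ^ m / (m.factorial : ℝ) * Cb := by
    intro m ξ
    rw [Real.norm_eq_abs, abs_mul, abs_div, abs_pow, abs_mul, Nat.abs_cast]
    have := ha ξ
    have := hb ξ
    gcongr
  have hint : ∀ m, Integrable (F m) := by
    intro m
    refine (gauss_int M).mul_bdd (c := (|z| * Ca) ^ m / (m.factorial : ℝ) * Cb) ?_
      (Eventually.of_forall fun ξ => hbd m ξ)
    exact ((((continuous_const.mul ca).pow m).div_const _).mul cb).aestronglyMeasurable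
  have hsum : Summable fun m => ∫ ξ, ‖F m ξ‖ := by
    have hs : Summable fun m : ℕ => (∫ ξ : Fin M → ℝ, Real.exp (-∑ k, ξ k ^ 2)) *
        ((|z| * Ca) ^ m / (m.factorial : ℝ) * Cb) :=
      ((Real.summable_pow_div_factorial (|z| * Ca)).mul_right Cb).mul_left _
    refine Summable.of_nonneg_of_le (fun m => integral_nonneg fun ξ => norm_nonneg _)
      (fun m => ?_) hs
    rw [← integral_mul_const]
    refine integral_mono (hint m).norm ((gauss_int M).mul_const _) fun ξ => ?_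
    show ‖Real.exp (-∑ k, ξ k ^ 2) * ((z * a ξ) ^ m / (m.factorial : ℝ) * b ξ)‖ ≤ _
    rw [norm_mul, Real.norm_eq_abs (Real.exp _), abs_of_pos (Real.exp_pos _)]
    exact mul_le_mul_of_nonneg_left (hbd m ξ) (Real.exp_pos _).le
  have h := hasSum_integral_of_summable_integral_norm hint hsum
  have e1 : (fun m => ∫ ξ, F m ξ) = fun m : ℕ => z ^ m / (m.factorial : ℝ) *
      ∫ ξ : Fin M → ℝ, Real.exp (-∑ k, ξ k ^ 2) * (a ξ ^ m * b ξ) := by
    funext m
    rw [← integral_const_mul]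
    congr 1
    funext ξ
    show Real.exp (-∑ k, ξ k ^ 2) * ((z * a ξ) ^ m / (m.factorial : ℝ) * b ξ) = _
    rw [mul_pow]; ring
  have e2 : (∫ ξ, ∑' m, F m ξ) =
      ∫ ξ : Fin M → ℝ, Real.exp (-∑ k, ξ k ^ 2) * (Real.exp (z * a ξ) * b ξ) := by
    congr 1
    funext ξ
    have h1 : HasSum (fun m : ℕ => (z * a ξ) ^ m / (m.factorial : ℝ)) (Real.exp (z * a ξ)) := by
      have h2 := NormedSpace.expSeries_div_hasSum_exp (z * a ξ)
      rwa [← Real.exp_eq_exp_ℝ] at h2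
    exact ((h1.mul_right (b ξ)).mul_left (Real.exp (-∑ k, ξ k ^ 2))).tsum_eq
  rw [e1, e2] at h
  exact h

/-- the one-cell weight -/
noncomputable def gw (η : E3 → ℝ) (ν : ℝ) (t : ℝ) : ℝ := Real.exp (-t ^ 2 - ν * be η (t / √ν))

theorem gw_neg (η : E3 → ℝ) (ν t : ℝ) : gw η ν (-t) = gw η ν t := by
  unfold gw
  rw [neg_sq, neg_div, be_neg]

theorem gw_cont {η : E3 → ℝ} (hη : Prof η) (ν : ℝ) : Continuous (gw η ν) := by
  unfold gw
  exact Real.continuous_exp.comp (((continuous_id.pow 2).neg).sub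
    (continuous_const.mul ((be_cont hη).comp (continuous_id.div_const _))))

theorem gw_int {η : E3 → ℝ} (hη : Prof η) {ν : ℝ} (hν : 0 < ν) : Integrable (gw η ν) := by
  have h1 : Integrable (fun t : ℝ => Real.exp (-t ^ 2)) := by
    have h := integrable_exp_neg_mul_sq (b := 1) one_pos
    simpa using h
  refine h1.mono' (gw_cont hη ν).aestronglyMeasurable (Eventually.of_forall fun t => ?_)
  rw [Real.norm_eq_abs]
  unfold gw
  rw [abs_of_pos (Real.exp_pos _)]
  apply Real.exp_le_exp.mpr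
  have := mul_nonneg hν.le (be_nonneg η (t / √ν))
  linarith

theorem prod_int {M : ℕ} {η : E3 → ℝ} (hη : Prof η) {ν : ℝ} (hν : 0 < ν) :
    Integrable (fun ξ : Fin M → ℝ => ∏ j, gw η ν (ξ j)) :=
  Integrable.fintype_prod (fun _ => gw_int hη hν)

theorem diag {M : ℕ} {η : E3 → ℝ} (ν : ℝ) (k : Fin M) (d : ℝ → ℝ) :
    ∫ ξ : Fin M → ℝ, (∏ j, gw η ν (ξ j)) * d (ξ k) =
      (∫ t, gw η ν t) ^ (M - 1) * ∫ t, gw η ν t * d t := by
  have e1 : ∀ ξ : Fin M → ℝ, (∏ j, gw η ν (ξ j)) * d (ξ k) =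
      ∏ j, (if j = k then fun t => gw η ν t * d t else gw η ν) (ξ j) := by
    intro ξ
    rw [← Finset.mul_prod_erase _ _ (Finset.mem_univ k),
      ← Finset.mul_prod_erase _ (fun j => (if j = k then fun t => gw η ν t * d t else gw η ν) (ξ j))
        (Finset.mem_univ k)]
    rw [if_pos rfl]
    have : ∏ x ∈ Finset.univ.erase k, (if x = k then fun t => gw η ν t * d t else gw η ν) (ξ x) =
        ∏ x ∈ Finset.univ.erase k, gw η ν (ξ x) := by
      refine Finset.prod_congr rfl fun x hx => ?_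
      rw [if_neg (Finset.ne_of_mem_erase hx)]
    rw [this]; ring
  simp only [e1]
  rw [integral_fintype_prod_volume_eq_prod
    (fun j : Fin M => if j = k then fun t => gw η ν t * d t else gw η ν)]
  rw [← Finset.mul_prod_erase _ _ (Finset.mem_univ k), if_pos rfl]
  have : ∏ x ∈ Finset.univ.erase k,
      ∫ t, (if x = k then fun t => gw η ν t * d t else gw η ν) t =
        ∏ x ∈ Finset.univ.erase k, ∫ t, gw η ν t := by
    refine Finset.prod_congr rfl fun x hx => ?_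
    rw [if_neg (Finset.ne_of_mem_erase hx)]
  rw [this, Finset.prod_const, Finset.card_erase_of_mem (Finset.mem_univ k), Finset.card_univ,
    Fintype.card_fin]
  ring

/-! ### The modes -/

theorem md_cont {M : ℕ} {h : ℝ} {η : E3 → ℝ} (hη : Prof η) (y : Fin M → E3) (k : Fin M) :
    Continuous (md h η y k) := by
  have h1 : Continuous fun x : E3 => h⁻¹ • (x - y k) := by fun_prop
  exact hη.smooth.continuous.comp h1

theorem md_Sp {M : ℕ} {h : ℝ} (hh : 0 < h) {η : E3 → ℝ} (hη : Prof η) (y : Fin M → E3)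
    (k : Fin M) : Sp (h + ∑ l, ‖y l‖) (md h η y k) := by
  intro x hx
  unfold md
  apply hη.supp
  have h1 : ‖y k‖ ≤ ∑ l, ‖y l‖ :=
    Finset.single_le_sum (f := fun l => ‖y l‖) (fun _ _ => norm_nonneg _) (Finset.mem_univ k)
  have h2 : h ≤ ‖x - y k‖ := by
    have := norm_sub_norm_le x (y k)
    linarith
  rw [norm_smul, Real.norm_eq_abs, abs_of_pos (inv_pos.mpr hh)]
  calc (1 : ℝ) = h⁻¹ * h := by field_simp
    _ ≤ h⁻¹ * ‖x - y k‖ := mul_le_mul_of_nonneg_left h2 (inv_pos.mpr hh).le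

theorem DD_diag {M : ℕ} {h : ℝ} (hh : 0 < h) (η : E3 → ℝ) (y : Fin M → E3) (k : Fin M) (t : ℝ) :
    DD (md h η y k) (md h η y k) (t, t) =
      h ^ 5 * De (fun x => Real.sin (t * η x)) (fun x => Real.sin (t * η x)) :=
  De_scale hh (fun x => Real.sin (t * η x)) (fun x => Real.sin (t * η x)) (y k)

/-- the function `a` -/
noncomputable def fa (M : ℕ) (h c0 ν : ℝ) (η : E3 → ℝ) (ξ : Fin M → ℝ) : ℝ :=
  1 - c0 ^ 2 * h ^ 3 * ∑ k, be η (ξ k / √ν)

/-- the function `b` -/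
noncomputable def fb {M : ℕ} (h c0 ν : ℝ) (η : E3 → ℝ) (y : Fin M → E3) (ξ : Fin M → ℝ) : ℝ :=
  -(c0 ^ 4 * ∑ k, ∑ l, DD (md h η y k) (md h η y l) (ξ k / √ν, ξ l / √ν))

theorem fa_cont (M : ℕ) (h c0 ν : ℝ) {η : E3 → ℝ} (hη : Prof η) : Continuous (fa M h c0 ν η) := by
  unfold fa
  refine continuous_const.sub (continuous_const.mul (continuous_finsetSum _ fun k _ => ?_))
  exact (be_cont hη).comp ((continuous_apply k).div_const _)

theorem fa_bdd (M : ℕ) (h c0 ν : ℝ) {η : E3 → ℝ} (hη : Prof η) :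
    ∃ C, ∀ ξ, |fa M h c0 ν η ξ| ≤ C := by
  refine ⟨1 + |c0 ^ 2 * h ^ 3| * ∑ _k : Fin M,
    ∫ x, (Metric.ball (0 : E3) 1).indicator (fun _ => (2 : ℝ)) x, fun ξ => ?_⟩
  unfold fa
  calc |1 - c0 ^ 2 * h ^ 3 * ∑ k, be η (ξ k / √ν)|
      ≤ |1| + |c0 ^ 2 * h ^ 3 * ∑ k, be η (ξ k / √ν)| := abs_sub _ _
    _ = 1 + |c0 ^ 2 * h ^ 3| * |∑ k, be η (ξ k / √ν)| := by rw [abs_one, abs_mul]
    _ ≤ _ := by
      have h1 : |∑ k, be η (ξ k / √ν)| ≤ ∑ _k : Fin M,
          ∫ x, (Metric.ball (0 : E3) 1).indicator (fun _ => (2 : ℝ)) x :=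
        (Finset.abs_sum_le_sum_abs _ _).trans (Finset.sum_le_sum fun k _ => be_bdd hη _)
      gcongr

theorem fb_cont {M : ℕ} {h : ℝ} (hh : 0 < h) (c0 ν : ℝ) {η : E3 → ℝ} (hη : Prof η)
    (y : Fin M → E3) : Continuous (fb h c0 ν η y) := by
  unfold fb
  refine (continuous_const.mul (continuous_finsetSum _ fun k _ =>
    continuous_finsetSum _ fun l _ => ?_)).neg
  exact (DD_cont (md_cont hη y k) (md_cont hη y l) (md_Sp hh hη y k) (md_Sp hh hη y l)).comp
    (((continuous_apply k).div_const _).prodMk ((continuous_apply l).div_const _))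

theorem fb_bdd {M : ℕ} {h : ℝ} (hh : 0 < h) (c0 ν : ℝ) {η : E3 → ℝ} (hη : Prof η)
    (y : Fin M → E3) : ∃ C, ∀ ξ, |fb h c0 ν η y ξ| ≤ C := by
  refine ⟨|c0 ^ 4| * ∑ _k : Fin M, ∑ _l : Fin M, ∫ q, dom (h + ∑ l, ‖y l‖) q, fun ξ => ?_⟩
  unfold fb
  rw [abs_neg, abs_mul]
  refine mul_le_mul_of_nonneg_left ?_ (abs_nonneg _)
  refine (Finset.abs_sum_le_sum_abs _ _).trans (Finset.sum_le_sum fun k _ => ?_)
  refine (Finset.abs_sum_le_sum_abs _ _).trans (Finset.sum_le_sum fun l _ => ?_)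
  exact DD_bdd (md_Sp hh hη y k) (md_Sp hh hη y l) _

theorem core {M : ℕ} {h c0 z ν : ℝ} (hh : 0 < h) (hν0 : 0 < ν) (hν : ν = z * c0 ^ 2 * h ^ 3)
    {η : E3 → ℝ} (hη : Prof η) (y : Fin M → E3) :
    ∫ ξ : Fin M → ℝ, Real.exp (-∑ k, ξ k ^ 2) *
      (Real.exp (z * fa M h c0 ν η ξ) * fb h c0 ν η y ξ) =
      -(c0 ^ 4 * h ^ 5 * M * Real.exp z * ((∫ t, gw η ν t) ^ (M - 1) *
        ∫ t, gw η ν t * De (fun x => Real.sin (t / √ν * η x))
          (fun x => Real.sin (t / √ν * η x)))) := by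
  let T : Fin M → Fin M → (Fin M → ℝ) → ℝ := fun k l ξ =>
    (∏ j, gw η ν (ξ j)) * DD (md h η y k) (md h η y l) (ξ k / √ν, ξ l / √ν)
  have e1 : ∀ ξ : Fin M → ℝ, Real.exp (-∑ k, ξ k ^ 2) *
      (Real.exp (z * fa M h c0 ν η ξ) * fb h c0 ν η y ξ) =
      -(c0 ^ 4 * Real.exp z) * ∑ k, ∑ l, T k l ξ := by
    intro ξ
    have h1 : Real.exp (-∑ k, ξ k ^ 2) * Real.exp (z * fa M h c0 ν η ξ) =
        Real.exp z * ∏ j, gw η ν (ξ j) := by
      unfold gw fa
      rw [← Real.exp_sum, ← Real.exp_add, ← Real.exp_add]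
      congr 1
      rw [Finset.sum_sub_distrib, Finset.sum_neg_distrib, ← Finset.mul_sum, hν]
      ring
    rw [← mul_assoc, h1]
    show _ * -(c0 ^ 4 * ∑ k, ∑ l, DD (md h η y k) (md h η y l) (ξ k / √ν, ξ l / √ν)) = _
    have h2 : ∑ k, ∑ l, T k l ξ = (∏ j, gw η ν (ξ j)) *
        ∑ k, ∑ l, DD (md h η y k) (md h η y l) (ξ k / √ν, ξ l / √ν) := by
      rw [Finset.mul_sum]
      refine Finset.sum_congr rfl fun k _ => ?_
      rw [Finset.mul_sum]
    rw [h2]
    ring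
  have hT : ∀ k l, Integrable (T k l) := by
    intro k l
    refine (prod_int hη hν0).mul_bdd (c := ∫ q, dom (h + ∑ l, ‖y l‖) q) ?_
      (Eventually.of_forall fun ξ => ?_)
    · exact ((DD_cont (md_cont hη y k) (md_cont hη y l) (md_Sp hh hη y k) (md_Sp hh hη y l)).comp
        (((continuous_apply k).div_const _).prodMk
          ((continuous_apply l).div_const _))).aestronglyMeasurable
    · rw [Real.norm_eq_abs]
      exact DD_bdd (md_Sp hh hη y k) (md_Sp hh hη y l) _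
  have e2 : ∫ ξ : Fin M → ℝ, ∑ k, ∑ l, T k l ξ = ∑ k, ∑ l, ∫ ξ, T k l ξ := by
    rw [integral_finsetSum _ fun k _ => integrable_finsetSum _ fun l _ => hT k l]
    refine Finset.sum_congr rfl fun k _ => ?_
    rw [integral_finsetSum _ fun l _ => hT k l]
  have e3 : ∀ k l, k ≠ l → ∫ ξ, T k l ξ = 0 := by
    intro k l hkl
    refine parity k (T k l) fun ξ => ?_
    show (∏ j, gw η ν (if j = k then -ξ j else ξ j)) * DD (md h η y k) (md h η y l)
      ((if k = k then -ξ k else ξ k) / √ν, (if l = k then -ξ l else ξ l) / √ν) =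
      -((∏ j, gw η ν (ξ j)) * DD (md h η y k) (md h η y l) (ξ k / √ν, ξ l / √ν))
    rw [if_pos rfl, if_neg hkl.symm, neg_div, DD_neg]
    have : ∏ j, gw η ν (if j = k then -ξ j else ξ j) = ∏ j, gw η ν (ξ j) := by
      refine Finset.prod_congr rfl fun j _ => ?_
      by_cases hj : j = k
      · rw [if_pos hj, gw_neg]
      · rw [if_neg hj]
    rw [this]
    ring
  have e4 : ∀ k, ∫ ξ, T k k ξ = h ^ 5 * ((∫ t, gw η ν t) ^ (M - 1) *
        ∫ t, gw η ν t * De (fun x => Real.sin (t / √ν * η x))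
          (fun x => Real.sin (t / √ν * η x))) := by
    intro k
    rw [← diag ν k (fun t => De (fun x => Real.sin (t / √ν * η x))
      (fun x => Real.sin (t / √ν * η x))), ← integral_const_mul]
    congr 1
    funext ξ
    show (∏ j, gw η ν (ξ j)) * DD (md h η y k) (md h η y k) (ξ k / √ν, ξ k / √ν) = _
    rw [DD_diag hh]
    ring
  simp only [e1]
  rw [integral_const_mul, e2]
  have e5 : ∑ k, ∑ l, ∫ ξ, T k l ξ = M * (h ^ 5 * ((∫ t, gw η ν t) ^ (M - 1) *
        ∫ t, gw η ν t * De (fun x => Real.sin (t / √ν * η x))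
          (fun x => Real.sin (t / √ν * η x)))) := by
    have : ∀ k : Fin M, ∑ l, ∫ ξ, T k l ξ = h ^ 5 * ((∫ t, gw η ν t) ^ (M - 1) *
        ∫ t, gw η ν t * De (fun x => Real.sin (t / √ν * η x))
          (fun x => Real.sin (t / √ν * η x))) := by
      intro k
      rw [Finset.sum_eq_single k (fun l _ hl => e3 k l hl.symm)
        (fun hk => absurd (Finset.mem_univ k) hk)]
      exact e4 k
    rw [Finset.sum_congr rfl fun k _ => this k, Finset.sum_const, Finset.card_univ,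
      Fintype.card_fin, nsmul_eq_mul]
  rw [e5]
  ring

theorem GG_real {M : ℕ} {h c0 : ℝ} {f η : E3 → ℝ} {y : Fin M → E3} (hη : Prof η)
    (hc : Cells h c0 f y) (ν : ℝ) (hν : 0 < ν) (m : ℕ) :
    GG m ν hw sg f (md h η y) (KV sg f) =
      ((Real.pi ^ (-((M : ℝ) / 2)) * ∫ ξ : Fin M → ℝ, Real.exp (-∑ k, ξ k ^ 2) *
        (fa M h c0 ν η ξ ^ m * fb h c0 ν η y ξ) : ℝ) : ℂ) := by
  unfold GG
  rw [Complex.ofReal_mul, ← integral_complex_ofReal]
  congr 2
  funext ξ
  obtain ⟨h1, -, h3⟩ := aa_cell hη hc ν hν ξ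
  rw [h1, h3]
  have h4 : (1 - c0 ^ 2 * h ^ 3 * ∑ k, be η (ξ k / √ν) : ℝ) = fa M h c0 ν η ξ := rfl
  have h5 : (-(c0 ^ 4 * ∑ k, ∑ l,
      De (fun x => Real.sin (ξ k / √ν * md h η y k x))
        (fun x => Real.sin (ξ l / √ν * md h η y l x))) : ℝ) = fb h c0 ν η y ξ := rfl
  rw [h4, h5]
  push_cast
  ring

/-- TARGET -/
theorem sumP {M : ℕ} {h c0 : ℝ} {f η : E3 → ℝ} {y : Fin M → E3} (hη : Prof η)
    (hc : Cells h c0 f y) (z ν : ℝ) (hz : 0 < z) (hν : ν = z * c0 ^ 2 * h ^ 3) :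
    HasSum (fun n : ℕ => z ^ n / (n.factorial : ℝ) * pn ν f (md h η y) n)
      (-(z ^ 2 / 2 * c0 ^ 4 * h ^ 5 * M * (Real.exp z * Z1 η ν ^ (M - 1)) * W1 η ν)) := by
  have hh := hc.hpos
  have hν0 : 0 < ν := by
    rw [hν]
    have := hc.cpos
    positivity
  obtain ⟨Ca, hCa⟩ := fa_bdd M h c0 ν hη
  obtain ⟨Cb, hCb⟩ := fb_bdd hh c0 ν hη y
  have hS := sumI (fa M h c0 ν η) (fb h c0 ν η y) (fa_cont M h c0 ν hη) (fb_cont hh c0 ν hη y)
    Ca Cb hCa hCb z
  rw [core hh hν0 hν hη y] at hS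
  have hpn : ∀ n, pn ν f (md h η y) n = ((n : ℝ) * ((n : ℝ) - 1) / 2) *
      (Real.pi ^ (-((M : ℝ) / 2)) * ∫ ξ : Fin M → ℝ, Real.exp (-∑ k, ξ k ^ 2) *
        (fa M h c0 ν η ξ ^ (n - 2) * fb h c0 ν η y ξ)) := by
    intro n
    have h1 := (pot_repU ν hν0 f hc.smooth.continuous hc.compact (md h η y)
      (fun k => md_cont hη y k) n).2
    rw [GG_real hη hc ν hν0] at h1
    exact_mod_cast h1
  have hS2 := hS.mul_left (z ^ 2 / 2 * Real.pi ^ (-((M : ℝ) / 2)))
  rw [← hasSum_nat_add_iff' 2]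
  have hz0 : ∑ i ∈ Finset.range 2, z ^ i / (i.factorial : ℝ) * pn ν f (md h η y) i = 0 := by
    rw [Finset.sum_range_succ, Finset.sum_range_one, hpn 0, hpn 1]
    simp
  rw [hz0, sub_zero]
  have hfun : (fun n : ℕ => z ^ (n + 2) / ((n + 2).factorial : ℝ) * pn ν f (md h η y) (n + 2)) =
      fun i : ℕ => z ^ 2 / 2 * Real.pi ^ (-((M : ℝ) / 2)) *
        (z ^ i / (i.factorial : ℝ) * ∫ ξ : Fin M → ℝ, Real.exp (-∑ k, ξ k ^ 2) *
          (fa M h c0 ν η ξ ^ i * fb h c0 ν η y ξ)) := by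
    funext n
    rw [hpn (n + 2), Nat.add_sub_cancel, Nat.factorial_succ, Nat.factorial_succ]
    have hn : (n.factorial : ℝ) ≠ 0 := Nat.cast_ne_zero.mpr (Nat.factorial_ne_zero n)
    have hn1 : ((n : ℝ) + 1) ≠ 0 := by positivity
    have hn2 : ((n : ℝ) + 1 + 1) ≠ 0 := by positivity
    push_cast
    have hn3 : (n : ℝ) + 2 - 1 = n + 1 := by ring
    have hn4 : (n : ℝ) + 2 = n + 1 + 1 := by ring
    rw [hn3, hn4]
    field_simp
    ring
  have hval : -(z ^ 2 / 2 * c0 ^ 4 * h ^ 5 * M * (Real.exp z * Z1 η ν ^ (M - 1)) * W1 η ν) =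
      z ^ 2 / 2 * Real.pi ^ (-((M : ℝ) / 2)) *
        -(c0 ^ 4 * h ^ 5 * M * Real.exp z * ((∫ t, gw η ν t) ^ (M - 1) *
        ∫ t, gw η ν t * De (fun x => Real.sin (t / √ν * η x))
          (fun x => Real.sin (t / √ν * η x)))) := by
    have hZ : Z1 η ν = (√Real.pi)⁻¹ * ∫ t, gw η ν t := rfl
    have hW : W1 η ν = (√Real.pi)⁻¹ * ∫ t, gw η ν t *
        De (fun x => Real.sin (t / √ν * η x)) (fun x => Real.sin (t / √ν * η x)) := rfl
    rw [hZ, hW]
    rcases Nat.eq_zero_or_pos M with hM | hM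
    · subst hM
      simp
    · have hp : Real.pi ^ (-((M : ℝ) / 2)) = (√Real.pi)⁻¹ ^ (M - 1) * (√Real.pi)⁻¹ := by
        rw [← pow_succ, Nat.sub_add_cancel hM, Real.rpow_neg Real.pi_pos.le, inv_pow,
          Real.sqrt_eq_rpow, ← Real.rpow_natCast, ← Real.rpow_mul Real.pi_pos.le]
        congr 2
        ring
      rw [hp, mul_pow]
      ring
  rw [hfun, hval]
  exact hS2

end Pool.Agent.Helper780_BE.V4
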