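import Pool.Agent.Helper780_BE.DefsU
import Pool.Agent.Helper985.CP.M_pot_props
import Pool.Agent.Helper780_CP.Fdl

set_option autoImplicit false

open MeasureTheory
open scoped Topology

namespace Pool.Agent.Helper780_BE.V5


open Pool.Agent.Helper780_BE Pool.Agent.Helper780_CQ Filter

/-- almost all pairs are off the diagonal -/
lemma ae_ne : ∀ᵐ q : E3 × E3, q.1 ≠ q.2 := by
  have hm : MeasurableSet {q : E3 × E3 | q.1 = q.2} :=
    measurableSet_eq_fun measurable_fst measurable_snd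
  have h : (volume : Measure (E3 × E3)) {q : E3 × E3 | q.1 = q.2} = 0 := by
    rw [Measure.volume_eq_prod, Measure.measure_prod_null hm]
    filter_upwards with x
    have : Prod.mk x ⁻¹' {q : E3 × E3 | q.1 = q.2} = {x} := by
      ext y
      simp [eq_comm]
    rw [this]
    simp
  rw [ae_iff]
  simpa using h

/-- indicator of the unit ball -/
noncomputable def ib (x : E3) : ℝ := (Metric.ball (0 : E3) 1).indicator (fun _ => (1 : ℝ)) x

lemma ib_nn (x : E3) : 0 ≤ ib x := Set.indicator_nonneg (fun _ _ => zero_le_one) x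

lemma ib_meas : Measurable ib := measurable_const.indicator measurableSet_ball

lemma ib_one {x : E3} (h : ‖x‖ < 1) : ib x = 1 :=
  Set.indicator_of_mem (show x ∈ Metric.ball (0 : E3) 1 by simpa using h) _

lemma ib_zero {x : E3} (h : 1 ≤ ‖x‖) : ib x = 0 :=
  Set.indicator_of_notMem (show x ∉ Metric.ball (0 : E3) 1 by simpa using h) _

lemma ib_int : Integrable ib :=
  (integrable_indicator_iff measurableSet_ball).2 (integrableOn_const measure_ball_lt_top.ne)

/-- bounded functions supported in the unit ball -/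
structure Bd (u : E3 → ℝ) : Prop where
  meas : Measurable u
  bd : ∀ x, |u x| ≤ 1
  supp : ∀ x, 1 ≤ ‖x‖ → u x = 0

lemma Bd.le_ib {u : E3 → ℝ} (h : Bd u) (x : E3) : |u x| ≤ ib x := by
  by_cases hx : ‖x‖ < 1
  · rw [ib_one hx]
    exact h.bd x
  · rw [h.supp x (not_lt.1 hx), abs_zero]
    exact ib_nn x

lemma Bd.int {u : E3 → ℝ} (h : Bd u) : Integrable u :=
  ib_int.mono' h.meas.aestronglyMeasurable (Eventually.of_forall fun x => h.le_ib x)

lemma ker_int : Integrable (fun q : E3 × E3 => ib q.1 * ib q.2 / ‖q.1 - q.2‖) := by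
  have h1 : Integrable ((Metric.ball (0 : E3) 2).indicator (fun w : E3 => ‖w‖⁻¹)) := by
    rw [integrable_indicator_iff measurableSet_ball]
    exact (Pool.Agent.Helper985.CP.pot_props_locInt.integrableOn_isCompact
      (isCompact_closedBall (0 : E3) 2)).mono_set Metric.ball_subset_closedBall
  have h2 := Integrable.mul_prod h1 ib_int
  have h3 := (measurePreserving_sub_prod (volume : Measure E3) (volume : Measure E3))
  have h4 := (h3.integrable_comp h2.aestronglyMeasurable).2 h2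
  rw [← Measure.volume_eq_prod] at h4
  refine h4.mono' ?_ (Eventually.of_forall fun q => ?_)
  · exact (((ib_meas.comp measurable_fst).mul (ib_meas.comp measurable_snd)).div
      (measurable_fst.sub measurable_snd).norm).aestronglyMeasurable
  · simp only [Function.comp]
    have hn : 0 ≤ ib q.1 * ib q.2 / ‖q.1 - q.2‖ :=
      div_nonneg (mul_nonneg (ib_nn _) (ib_nn _)) (norm_nonneg _)
    rw [Real.norm_of_nonneg hn]
    by_cases hx : ‖q.1‖ < 1
    · by_cases hy : ‖q.2‖ < 1
      · have : q.1 - q.2 ∈ Metric.ball (0 : E3) 2 := by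
          rw [Metric.mem_ball, dist_zero_right]
          calc ‖q.1 - q.2‖ ≤ ‖q.1‖ + ‖q.2‖ := norm_sub_le _ _
            _ < 2 := by linarith
        rw [Set.indicator_of_mem this, ib_one hx, ib_one hy]
        simp
      · rw [ib_zero (not_lt.1 hy)]
        simp
    · rw [ib_zero (not_lt.1 hx)]
      simp only [zero_mul, zero_div]
      exact mul_nonneg (Set.indicator_nonneg (fun _ _ => by positivity) _) (ib_nn _)

lemma De_int {u v : E3 → ℝ} (hu : Bd u) (hv : Bd v) :
    Integrable (fun q : E3 × E3 => u q.1 * v q.2 / ‖q.1 - q.2‖) := by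
  refine ker_int.mono' ?_ (Eventually.of_forall fun q => ?_)
  · exact (((hu.meas.comp measurable_fst).mul (hv.meas.comp measurable_snd)).div
      (measurable_fst.sub measurable_snd).norm).aestronglyMeasurable
  · rw [norm_div, norm_mul, norm_norm, Real.norm_eq_abs, Real.norm_eq_abs]
    exact div_le_div_of_nonneg_right (mul_le_mul (hu.le_ib _) (hv.le_ib _) (abs_nonneg _)
      (ib_nn _)) (norm_nonneg _)

lemma De_abs {u v : E3 → ℝ} (hu : Bd u) (hv : Bd v) : |De u v| ≤ De ib ib := by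
  unfold De
  rw [← Real.norm_eq_abs]
  refine (norm_integral_le_integral_norm _).trans ?_
  refine integral_mono (De_int hu hv).norm ker_int fun q => ?_
  simp only
  rw [norm_div, norm_mul, norm_norm, Real.norm_eq_abs, Real.norm_eq_abs]
  exact div_le_div_of_nonneg_right (mul_le_mul (hu.le_ib _) (hv.le_ib _) (abs_nonneg _)
    (ib_nn _)) (norm_nonneg _)

open Pool.Agent.Helper780_CP in
lemma lens_meas : Measurable (fun p : (E3 × E3) × ℝ => lens p.1.1 p.1.2 p.2) := by
  have hS : MeasurableSet {p : ((E3 × E3) × ℝ) × E3 |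
      dist p.2 p.1.1.1 < p.1.2 ∧ dist p.2 p.1.1.2 < p.1.2} := by
    have e1 : MeasurableSet {p : ((E3 × E3) × ℝ) × E3 | dist p.2 p.1.1.1 < p.1.2} :=
      measurableSet_lt (by fun_prop) (by fun_prop)
    have e2 : MeasurableSet {p : ((E3 × E3) × ℝ) × E3 | dist p.2 p.1.1.2 < p.1.2} :=
      measurableSet_lt (by fun_prop) (by fun_prop)
    exact e1.inter e2
  have h := measurable_measure_prodMk_left (ν := (volume : Measure E3)) hS
  exact h.ennreal_toReal

/-- the ball indicator -/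
noncomputable def bi (r : ℝ) (x z : E3) : ℝ := (Metric.ball x r).indicator (fun _ => (1 : ℝ)) z

lemma bi_nn (r : ℝ) (x z : E3) : 0 ≤ bi r x z := Set.indicator_nonneg (fun _ _ => zero_le_one) z

lemma bi_le (r : ℝ) (x z : E3) : bi r x z ≤ 1 :=
  Set.indicator_le_self' (fun _ _ => zero_le_one) z

lemma bi_meas (r : ℝ) : Measurable (fun p : E3 × E3 => bi r p.1 p.2) := by
  have hS : MeasurableSet {p : E3 × E3 | dist p.2 p.1 < r} :=
    measurableSet_lt (measurable_snd.dist measurable_fst) measurable_const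
  have : (fun p : E3 × E3 => bi r p.1 p.2) =
      {p : E3 × E3 | dist p.2 p.1 < r}.indicator (fun _ => (1 : ℝ)) := by
    funext p
    rfl
  rw [this]
  exact measurable_const.indicator hS

open Pool.Agent.Helper780_CP in
lemma lens_eq (x y : E3) (r : ℝ) : lens x y r = ∫ z, bi r x z * bi r y z := by
  have h : (fun z => bi r x z * bi r y z) =
      (Metric.ball x r ∩ Metric.ball y r).indicator (fun _ => (1 : ℝ)) := by
    funext z
    unfold bi
    by_cases h1 : z ∈ Metric.ball x r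
    · by_cases h2 : z ∈ Metric.ball y r
      · rw [Set.indicator_of_mem h1, Set.indicator_of_mem h2,
          Set.indicator_of_mem (show z ∈ Metric.ball x r ∩ Metric.ball y r from ⟨h1, h2⟩), one_mul]
      · rw [Set.indicator_of_notMem h2, mul_zero,
          Set.indicator_of_notMem (fun h => h2 h.2)]
    · rw [Set.indicator_of_notMem h1, zero_mul, Set.indicator_of_notMem (fun h => h1 h.1)]
  rw [h, integral_indicator_const _ (measurableSet_ball.inter measurableSet_ball)]
  simp [lens]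

noncomputable def FF (u : E3 → ℝ) (r : ℝ) (q : E3 × E3) (z : E3) : ℝ :=
  (u q.1 * bi r q.1 z) * (u q.2 * bi r q.2 z)

lemma FF_abs {u : E3 → ℝ} (hu : Bd u) (r : ℝ) (q : E3 × E3) (z : E3) :
    |FF u r q z| ≤ (ib q.1 * ib q.2) *
      (Metric.ball (0 : E3) (r + 1)).indicator (fun _ => (1 : ℝ)) z := by
  obtain ⟨x, y⟩ := q
  unfold FF
  simp only
  rw [abs_mul, abs_mul, abs_mul, abs_of_nonneg (bi_nn r x z), abs_of_nonneg (bi_nn r y z)]
  by_cases hz : z ∈ Metric.ball (0 : E3) (r + 1)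
  · rw [Set.indicator_of_mem hz, mul_one]
    refine mul_le_mul ?_ ?_ (mul_nonneg (abs_nonneg _) (bi_nn _ _ _)) (ib_nn _)
    · calc |u x| * bi r x z ≤ ib x * 1 :=
          mul_le_mul (hu.le_ib _) (bi_le _ _ _) (bi_nn _ _ _) (ib_nn _)
        _ = ib x := mul_one _
    · calc |u y| * bi r y z ≤ ib y * 1 :=
          mul_le_mul (hu.le_ib _) (bi_le _ _ _) (bi_nn _ _ _) (ib_nn _)
        _ = ib y := mul_one _
  · rw [Set.indicator_of_notMem hz, mul_zero]
    have : |u x| * bi r x z = 0 := by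
      by_cases hx : ‖x‖ < 1
      · have : z ∉ Metric.ball x r := by
          intro h
          apply hz
          rw [Metric.mem_ball, dist_zero_right]
          rw [Metric.mem_ball, dist_eq_norm] at h
          calc ‖z‖ = ‖(z - x) + x‖ := by rw [sub_add_cancel]
            _ ≤ ‖z - x‖ + ‖x‖ := norm_add_le _ _
            _ < r + 1 := by linarith
        unfold bi
        rw [Set.indicator_of_notMem this, mul_zero]
      · rw [hu.supp x (not_lt.1 hx), abs_zero, zero_mul]
    rw [this, zero_mul]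

lemma FF_meas {u : E3 → ℝ} (hu : Bd u) (r : ℝ) :
    Measurable (fun p : (E3 × E3) × E3 => FF u r p.1 p.2) := by
  have hbm : Measurable (fun p : (E3 × E3) × E3 => bi r p.1.1 p.2) := by
    have hS : MeasurableSet {p : (E3 × E3) × E3 | dist p.2 p.1.1 < r} :=
      measurableSet_lt (by fun_prop) measurable_const
    exact measurable_const.indicator hS
  have hbm2 : Measurable (fun p : (E3 × E3) × E3 => bi r p.1.2 p.2) := by
    have hS : MeasurableSet {p : (E3 × E3) × E3 | dist p.2 p.1.2 < r} :=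
      measurableSet_lt (by fun_prop) measurable_const
    exact measurable_const.indicator hS
  have h1 : Measurable (fun p : (E3 × E3) × E3 => u p.1.1) :=
    hu.meas.comp (measurable_fst.comp measurable_fst)
  have h2 : Measurable (fun p : (E3 × E3) × E3 => u p.1.2) :=
    hu.meas.comp (measurable_snd.comp measurable_fst)
  have h3 : Measurable (fun p : (E3 × E3) × E3 => u p.1.1 * bi r p.1.1 p.2) := h1.mul hbm
  have h4 : Measurable (fun p : (E3 × E3) × E3 => u p.1.2 * bi r p.1.2 p.2) := h2.mul hbm2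
  unfold FF
  exact h3.mul h4

lemma FF_int {u : E3 → ℝ} (hu : Bd u) (r : ℝ) :
    Integrable (fun p : (E3 × E3) × E3 => FF u r p.1 p.2)
      ((volume : Measure (E3 × E3)).prod (volume : Measure E3)) := by
  have h1 : Integrable (fun q : E3 × E3 => ib q.1 * ib q.2) := by
    rw [Measure.volume_eq_prod]
    exact Integrable.mul_prod ib_int ib_int
  have h2 : Integrable (fun z : E3 => (Metric.ball (0 : E3) (r + 1)).indicator
      (fun _ => (1 : ℝ)) z) :=
    (integrable_indicator_iff measurableSet_ball).2 (integrableOn_const measure_ball_lt_top.ne)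
  have hdom := Integrable.mul_prod h1 h2
  exact hdom.mono' (FF_meas hu r).aestronglyMeasurable
    (Eventually.of_forall fun p => FF_abs hu r p.1 p.2)

lemma inner_nn {u : E3 → ℝ} (hu : Bd u) (r : ℝ) :
    0 ≤ ∫ q : E3 × E3, u q.1 * u q.2 * Pool.Agent.Helper780_CP.lens q.1 q.2 r := by
  have hF : ∀ q : E3 × E3, u q.1 * u q.2 * Pool.Agent.Helper780_CP.lens q.1 q.2 r =
      ∫ z, FF u r q z := by
    intro q
    rw [lens_eq, ← integral_const_mul]
    congr 1
    funext z
    unfold FF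
    ring
  have h1 : ∫ q : E3 × E3, u q.1 * u q.2 * Pool.Agent.Helper780_CP.lens q.1 q.2 r =
      ∫ q : E3 × E3, ∫ z, FF u r q z := by
    congr 1
    funext q
    exact hF q
  have h2 : ∫ q : E3 × E3, ∫ z, FF u r q z = ∫ z, ∫ q : E3 × E3, FF u r q z :=
    integral_integral_swap (FF_int hu r)
  have h3 : ∀ z, ∫ q : E3 × E3, FF u r q z = (∫ x, u x * bi r x z) * ∫ x, u x * bi r x z := by
    intro z
    unfold FF
    rw [Measure.volume_eq_prod]
    exact integral_prod_mul (fun x => u x * bi r x z) (fun x => u x * bi r x z)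
  rw [h1, h2]
  refine integral_nonneg fun z => ?_
  rw [Pi.zero_apply, h3 z]
  exact mul_self_nonneg _

lemma De_nonneg {u : E3 → ℝ} (hu : Bd u) : 0 ≤ De u u := by
  obtain ⟨c, hc, hfdl⟩ := Pool.Agent.Helper780_CP.fdl
  let G : E3 × E3 → ℝ → ℝ := fun q r =>
    u q.1 * u q.2 * ((r ^ 5)⁻¹ * Pool.Agent.Helper780_CP.lens q.1 q.2 r)
  have h1 : c * De u u = ∫ q : E3 × E3, ∫ r in Set.Ioi (0 : ℝ), G q r := by
    unfold De
    rw [← integral_const_mul]
    refine integral_congr_ae ?_
    filter_upwards [ae_ne] with q hq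
    simp only [G]
    rw [integral_const_mul, hfdl _ _ hq]
    ring
  have hGm : Measurable (Function.uncurry G) := by
    have a1 : Measurable (fun p : (E3 × E3) × ℝ => u p.1.1) :=
      hu.meas.comp (measurable_fst.comp measurable_fst)
    have a2 : Measurable (fun p : (E3 × E3) × ℝ => u p.1.2) :=
      hu.meas.comp (measurable_snd.comp measurable_fst)
    have a3 : Measurable (fun p : (E3 × E3) × ℝ => (p.2 ^ 5)⁻¹) :=
      (measurable_snd.pow_const 5).inv
    exact (a1.mul a2).mul (a3.mul lens_meas)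
  have hGi : Integrable (Function.uncurry G)
      ((volume : Measure (E3 × E3)).prod (volume.restrict (Set.Ioi (0 : ℝ)))) := by
    rw [integrable_prod_iff hGm.aestronglyMeasurable]
    constructor
    · filter_upwards [ae_ne] with q hq
      show Integrable (fun r => (u q.1 * u q.2) *
        ((r ^ 5)⁻¹ * Pool.Agent.Helper780_CP.lens q.1 q.2 r)) (volume.restrict (Set.Ioi (0 : ℝ)))
      exact (Pool.Agent.Helper780_CP.lens_int q.1 q.2 hq).const_mul _
    · have h2 : Integrable (fun q : E3 × E3 => c * (ib q.1 * ib q.2 / ‖q.1 - q.2‖)) :=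
        ker_int.const_mul c
      refine h2.mono' ?_ ?_
      · exact hGm.norm.aestronglyMeasurable.integral_prod_right'
      · filter_upwards [ae_ne] with q hq
        have h3 : ∫ r in Set.Ioi (0 : ℝ), ‖Function.uncurry G (q, r)‖ =
            |u q.1 * u q.2| * (c / ‖q.1 - q.2‖) := by
          rw [← hfdl _ _ hq, ← integral_const_mul]
          refine setIntegral_congr_fun measurableSet_Ioi fun r hr => ?_
          have hr0 : (0 : ℝ) < r := hr
          simp only [Function.uncurry, G]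
          rw [norm_mul, Real.norm_eq_abs, Real.norm_of_nonneg (mul_nonneg (by positivity)
            (Pool.Agent.Helper780_CP.lens_nonneg _ _ _))]
        rw [h3, norm_mul, Real.norm_of_nonneg (abs_nonneg _),
          Real.norm_of_nonneg (div_nonneg hc.le (norm_nonneg _))]
        have h4 : |u q.1 * u q.2| ≤ ib q.1 * ib q.2 := by
          rw [abs_mul]
          exact mul_le_mul (hu.le_ib _) (hu.le_ib _) (abs_nonneg _) (ib_nn _)
        calc |u q.1 * u q.2| * (c / ‖q.1 - q.2‖) ≤ (ib q.1 * ib q.2) * (c / ‖q.1 - q.2‖) :=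
              mul_le_mul_of_nonneg_right h4 (div_nonneg hc.le (norm_nonneg _))
          _ = c * (ib q.1 * ib q.2 / ‖q.1 - q.2‖) := by ring
  rw [integral_integral_swap hGi] at h1
  have h5 : 0 ≤ ∫ r in Set.Ioi (0 : ℝ), ∫ q : E3 × E3, G q r := by
    refine setIntegral_nonneg measurableSet_Ioi fun r hr => ?_
    have hr0 : (0 : ℝ) < r := hr
    have h6 : ∫ q : E3 × E3, G q r = (r ^ 5)⁻¹ *
        ∫ q : E3 × E3, u q.1 * u q.2 * Pool.Agent.Helper780_CP.lens q.1 q.2 r := by
      rw [← integral_const_mul]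
      congr 1
      funext q
      simp only [G]
      ring
    rw [h6]
    exact mul_nonneg (by positivity) (inner_nn hu r)
  rw [← h1] at h5
  exact nonneg_of_mul_nonneg_right h5 hc

lemma prof_bd {η : E3 → ℝ} (hη : Prof η) : Bd η where
  meas := hη.smooth.continuous.measurable
  bd x := by
    rw [abs_of_nonneg (hη.nonneg x)]
    exact hη.le_one x
  supp := hη.supp

lemma sin_bd {η : E3 → ℝ} (hη : Prof η) (t : ℝ) : Bd (fun x => Real.sin (t * η x)) where
  meas := (Real.continuous_sin.comp (continuous_const.mul hη.smooth.continuous)).measurable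
  bd x := Real.abs_sin_le_one _
  supp x hx := by
    simp only [hη.supp x hx, mul_zero, Real.sin_zero]

lemma cos_abs {η : E3 → ℝ} (hη : Prof η) (t : ℝ) (x : E3) :
    |1 - Real.cos (t * η x)| ≤ 2 * ib x := by
  by_cases hx : ‖x‖ < 1
  · rw [ib_one hx, abs_le]
    constructor
    · linarith [Real.cos_le_one (t * η x)]
    · linarith [Real.neg_one_le_cos (t * η x)]
  · rw [hη.supp x (not_lt.1 hx), mul_zero, Real.cos_zero, sub_self, abs_zero]
    exact mul_nonneg zero_le_two (ib_nn x)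

lemma cos_cont {η : E3 → ℝ} (hη : Prof η) (t : ℝ) :
    Continuous (fun x => 1 - Real.cos (t * η x)) :=
  continuous_const.sub (Real.continuous_cos.comp (continuous_const.mul hη.smooth.continuous))

lemma cos_int {η : E3 → ℝ} (hη : Prof η) (t : ℝ) :
    Integrable (fun x => 1 - Real.cos (t * η x)) :=
  (ib_int.const_mul 2).mono' (cos_cont hη t).aestronglyMeasurable
    (Eventually.of_forall fun x => cos_abs hη t x)

lemma be_cont {η : E3 → ℝ} (hη : Prof η) : Continuous (be η) := by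
  unfold be
  refine continuous_of_dominated (bound := fun x => 2 * ib x) ?_ ?_ (ib_int.const_mul 2) ?_
  · exact fun t => (cos_cont hη t).aestronglyMeasurable
  · exact fun t => Eventually.of_forall fun _ => cos_abs hη t _
  · exact Eventually.of_forall fun _ => by fun_prop

lemma be_nn {η : E3 → ℝ} (t : ℝ) : 0 ≤ be η t :=
  integral_nonneg fun x => sub_nonneg.2 (Real.cos_le_one _)

lemma sq_int' {η : E3 → ℝ} (hη : Prof η) : Integrable (fun x => η x ^ 2) := by
  refine ib_int.mono' ((hη.smooth.continuous).pow 2).aestronglyMeasurable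
    (Eventually.of_forall fun x => ?_)
  rw [Real.norm_of_nonneg (sq_nonneg _)]
  have h := (prof_bd hη).le_ib x
  rw [abs_of_nonneg (hη.nonneg x)] at h
  nlinarith [hη.nonneg x, hη.le_one x]

lemma be_le {η : E3 → ℝ} (hη : Prof η) (t : ℝ) : be η t ≤ t ^ 2 * ((∫ x, η x ^ 2) / 2) := by
  unfold be
  have h : ∫ x, (1 - Real.cos (t * η x)) ≤ ∫ x, (t ^ 2 / 2) * η x ^ 2 := by
    refine integral_mono (cos_int hη t) ((sq_int' hη).const_mul _) fun x => ?_
    simp only
    have := Real.one_sub_sq_div_two_le_cos (x := t * η x)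
    nlinarith
  rw [integral_const_mul] at h
  linarith

/-- the weight -/
noncomputable def Ew (η : E3 → ℝ) (ν ξ : ℝ) : ℝ := Real.exp (-ξ ^ 2 - ν * be η (ξ / √ν))

/-- the energy -/
noncomputable def Dw (η : E3 → ℝ) (ν ξ : ℝ) : ℝ :=
  De (fun x => Real.sin (ξ / √ν * η x)) (fun x => Real.sin (ξ / √ν * η x))

lemma Ew_cont {η : E3 → ℝ} (hη : Prof η) (ν : ℝ) : Continuous (Ew η ν) := by
  have := be_cont hη
  unfold Ew
  fun_prop

lemma Ew_le {η : E3 → ℝ} {ν : ℝ} (hν : 1 ≤ ν) (ξ : ℝ) :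
    Ew η ν ξ ≤ Real.exp (-1 * ξ ^ 2) := by
  unfold Ew
  apply Real.exp_le_exp.2
  have : 0 ≤ ν * be η (ξ / √ν) := mul_nonneg (by linarith) (be_nn _)
  linarith

lemma Ew_ge {η : E3 → ℝ} (hη : Prof η) {ν : ℝ} (hν : 1 ≤ ν) (ξ : ℝ) :
    Real.exp (-(1 + (∫ x, η x ^ 2) / 2) * ξ ^ 2) ≤ Ew η ν ξ := by
  unfold Ew
  apply Real.exp_le_exp.2
  have h := be_le hη (ξ / √ν)
  have hν0 : 0 < ν := by linarith
  rw [div_pow, Real.sq_sqrt hν0.le] at h
  have h2 := mul_le_mul_of_nonneg_left h hν0.le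
  have h3 : ν * (ξ ^ 2 / ν * ((∫ x, η x ^ 2) / 2)) = ξ ^ 2 * ((∫ x, η x ^ 2) / 2) := by
    field_simp
  rw [h3] at h2
  linarith

lemma Ew_int {η : E3 → ℝ} (hη : Prof η) {ν : ℝ} (hν : 1 ≤ ν) : Integrable (Ew η ν) := by
  refine (integrable_exp_neg_mul_sq one_pos).mono' (Ew_cont hη ν).aestronglyMeasurable
    (Eventually.of_forall fun ξ => ?_)
  rw [Real.norm_of_nonneg (show 0 ≤ Ew η ν ξ from (Real.exp_pos _).le)]
  exact Ew_le hν ξ

lemma Dw_cont {η : E3 → ℝ} (hη : Prof η) (ν : ℝ) : Continuous (Dw η ν) := by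
  unfold Dw De
  refine continuous_of_dominated (bound := fun q : E3 × E3 => ib q.1 * ib q.2 / ‖q.1 - q.2‖)
    ?_ ?_ ker_int ?_
  · exact fun ξ => (De_int (sin_bd hη (ξ / √ν)) (sin_bd hη (ξ / √ν))).aestronglyMeasurable
  · refine fun ξ => Eventually.of_forall fun q => ?_
    rw [norm_div, norm_mul, norm_norm, Real.norm_eq_abs, Real.norm_eq_abs]
    exact div_le_div_of_nonneg_right (mul_le_mul ((sin_bd hη (ξ / √ν)).le_ib _)
      ((sin_bd hη (ξ / √ν)).le_ib _) (abs_nonneg _) (ib_nn _)) (norm_nonneg _)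
  · exact Eventually.of_forall fun q => by fun_prop

lemma Dw_nn {η : E3 → ℝ} (hη : Prof η) (ν ξ : ℝ) : 0 ≤ Dw η ν ξ := De_nonneg (sin_bd hη _)

lemma Dw_le {η : E3 → ℝ} (hη : Prof η) (ν ξ : ℝ) : Dw η ν ξ ≤ De ib ib :=
  (le_abs_self _).trans (De_abs (sin_bd hη _) (sin_bd hη _))

lemma ED_int {η : E3 → ℝ} (hη : Prof η) {ν : ℝ} (hν : 1 ≤ ν) :
    Integrable (fun ξ => Ew η ν ξ * Dw η ν ξ) := by
  refine ((Ew_int hη hν).mul_const (De ib ib)).mono'
    ((Ew_cont hη ν).mul (Dw_cont hη ν)).aestronglyMeasurable (Eventually.of_forall fun ξ => ?_)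
  have h1 : 0 ≤ Ew η ν ξ := (Real.exp_pos _).le
  rw [Real.norm_of_nonneg (mul_nonneg h1 (Dw_nn hη ν ξ))]
  exact mul_le_mul_of_nonneg_left (Dw_le hη ν ξ) h1

lemma sin_prod {t a b : ℝ} (ht : |t| ≤ 1) (ha : 0 ≤ a) (ha1 : a ≤ 1) (hb : 0 ≤ b) (hb1 : b ≤ 1) :
    4 / Real.pi ^ 2 * t ^ 2 * (a * b) ≤ Real.sin (t * a) * Real.sin (t * b) := by
  have key : ∀ s : ℝ, 0 ≤ s → s ≤ 1 →
      4 / Real.pi ^ 2 * s ^ 2 * (a * b) ≤ Real.sin (s * a) * Real.sin (s * b) := by
    intro s hs hs1
    have hp : (1 : ℝ) ≤ Real.pi / 2 := by linarith [Real.pi_gt_three]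
    have h1 : 2 / Real.pi * (s * a) ≤ Real.sin (s * a) :=
      Real.mul_le_sin (mul_nonneg hs ha) ((mul_le_one₀ hs1 ha ha1).trans hp)
    have h2 : 2 / Real.pi * (s * b) ≤ Real.sin (s * b) :=
      Real.mul_le_sin (mul_nonneg hs hb) ((mul_le_one₀ hs1 hb hb1).trans hp)
    have hpi := Real.pi_pos
    have h3 : 0 ≤ 2 / Real.pi * (s * a) := by positivity
    have h4 : 0 ≤ 2 / Real.pi * (s * b) := by positivity
    calc 4 / Real.pi ^ 2 * s ^ 2 * (a * b) = (2 / Real.pi * (s * a)) * (2 / Real.pi * (s * b)) := by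
          field_simp
          ring
      _ ≤ _ := mul_le_mul h1 h2 h4 (h3.trans h1)
  rcases le_total 0 t with h | h
  · rw [abs_of_nonneg h] at ht
    exact key t h ht
  · rw [abs_of_nonpos h] at ht
    have := key (-t) (by linarith) ht
    rw [neg_mul, neg_mul, Real.sin_neg, Real.sin_neg, neg_mul_neg] at this
    rw [neg_sq] at this
    exact this

lemma Dw_ge {η : E3 → ℝ} (hη : Prof η) {ν : ℝ} (hν : 1 ≤ ν) (ξ : ℝ) (hξ : |ξ| ≤ 1) :
    4 / Real.pi ^ 2 * (ξ ^ 2 / ν) * De η η ≤ Dw η ν ξ := by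
  have hν0 : 0 < ν := by linarith
  have ht : |ξ / √ν| ≤ 1 := by
    rw [abs_div, abs_of_nonneg (Real.sqrt_nonneg ν), div_le_one (Real.sqrt_pos.2 hν0)]
    exact hξ.trans (Real.one_le_sqrt.2 hν)
  have hsq : (ξ / √ν) ^ 2 = ξ ^ 2 / ν := by
    rw [div_pow, Real.sq_sqrt hν0.le]
  unfold Dw
  rw [← hsq]
  unfold De
  rw [← integral_const_mul]
  refine integral_mono ((De_int (prof_bd hη) (prof_bd hη)).const_mul _)
    (De_int (sin_bd hη _) (sin_bd hη _)) fun q => ?_
  simp only
  rw [← mul_div_assoc]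
  exact div_le_div_of_nonneg_right (sin_prod ht (hη.nonneg _) (hη.le_one _) (hη.nonneg _)
    (hη.le_one _)) (norm_nonneg _)

lemma De_pos {η : E3 → ℝ} (hη : Prof η) : 0 < De η η := by
  have hI := (prof_bd hη).int
  have h1 : ∫ q : E3 × E3, (1 / 2 : ℝ) * (η q.1 * η q.2) ≤ De η η := by
    unfold De
    refine integral_mono_ae ?_ (De_int (prof_bd hη) (prof_bd hη)) ?_
    · rw [Measure.volume_eq_prod]
      exact (Integrable.mul_prod hI hI).const_mul _
    · filter_upwards [ae_ne] with q hq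
      have hn : 0 < ‖q.1 - q.2‖ := norm_pos_iff.2 (sub_ne_zero.2 hq)
      by_cases hx : ‖q.1‖ < 1
      · by_cases hy : ‖q.2‖ < 1
        · have hle : ‖q.1 - q.2‖ ≤ 2 := (norm_sub_le _ _).trans (by linarith)
          rw [le_div_iff₀ hn]
          have := mul_nonneg (hη.nonneg q.1) (hη.nonneg q.2)
          nlinarith
        · rw [hη.supp _ (not_lt.1 hy)]
          simp
      · rw [hη.supp _ (not_lt.1 hx)]
        simp
  have h2 : ∫ q : E3 × E3, (1 / 2 : ℝ) * (η q.1 * η q.2) = 1 / 2 * ((∫ x, η x) * ∫ x, η x) := by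
    rw [integral_const_mul, Measure.volume_eq_prod, integral_prod_mul]
  rw [h2] at h1
  have := hη.pos
  have h3 : 0 < 1 / 2 * ((∫ x, η x) * ∫ x, η x) := by positivity
  linarith

/-- TARGET -/
theorem cell_est {η : E3 → ℝ} (hη : Prof η) : ∃ z1 w1 : ℝ, 0 < z1 ∧ 0 < w1 ∧
    ∀ ν : ℝ, 1 ≤ ν → z1 ≤ Z1 η ν ∧ Z1 η ν ≤ 1 ∧ w1 / ν ≤ W1 η ν := by
  set V : ℝ := ∫ x, η x ^ 2 with hV
  have hV0 : 0 ≤ V := integral_nonneg fun x => sq_nonneg _
  have hb : 0 < 1 + V / 2 := by linarith
  have hpi := Real.pi_pos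
  have hs : 0 < √Real.pi := Real.sqrt_pos.2 hpi
  have hD := De_pos hη
  refine ⟨(√Real.pi)⁻¹ * √(Real.pi / (1 + V / 2)),
    (√Real.pi)⁻¹ * (Real.exp (-(1 + V / 2)) * (4 / Real.pi ^ 2 * De η η) * (2 / 3)),
    by positivity, by positivity, ?_⟩
  intro ν hν
  have hν0 : 0 < ν := by linarith
  refine ⟨?_, ?_, ?_⟩
  · show _ ≤ (√Real.pi)⁻¹ * ∫ ξ : ℝ, Ew η ν ξ
    refine mul_le_mul_of_nonneg_left ?_ (by positivity)
    rw [← integral_gaussian]
    exact integral_mono (integrable_exp_neg_mul_sq hb) (Ew_int hη hν) fun ξ => Ew_ge hη hν ξ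
  · show (√Real.pi)⁻¹ * ∫ ξ : ℝ, Ew η ν ξ ≤ 1
    have h1 : ∫ ξ : ℝ, Ew η ν ξ ≤ ∫ ξ : ℝ, Real.exp (-1 * ξ ^ 2) :=
      integral_mono (Ew_int hη hν) (integrable_exp_neg_mul_sq one_pos) fun ξ => Ew_le hν ξ
    rw [integral_gaussian, div_one] at h1
    rw [inv_mul_le_iff₀ hs, mul_one]
    exact h1
  · show _ ≤ (√Real.pi)⁻¹ * ∫ ξ : ℝ, Ew η ν ξ * Dw η ν ξ
    rw [mul_div_assoc]
    refine mul_le_mul_of_nonneg_left ?_ (by positivity)
    set A : ℝ := Real.exp (-(1 + V / 2)) * (4 / Real.pi ^ 2 * De η η) with hA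
    have hA0 : 0 < A := by positivity
    have h1 : ∫ ξ : ℝ, (Set.Icc (-1 : ℝ) 1).indicator (fun ξ => A / ν * ξ ^ 2) ξ ≤
        ∫ ξ : ℝ, Ew η ν ξ * Dw η ν ξ := by
      refine integral_mono ?_ (ED_int hη hν) fun ξ => ?_
      · rw [integrable_indicator_iff measurableSet_Icc]
        exact (by fun_prop : Continuous fun ξ : ℝ => A / ν * ξ ^ 2).integrableOn_Icc
      · by_cases hξ : ξ ∈ Set.Icc (-1 : ℝ) 1
        · simp only [Set.indicator_of_mem hξ]
          have hξ1 : |ξ| ≤ 1 := abs_le.2 hξ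
          have e1 : Real.exp (-(1 + V / 2)) ≤ Ew η ν ξ := by
            refine le_trans ?_ (Ew_ge hη hν ξ)
            apply Real.exp_le_exp.2
            have : ξ ^ 2 ≤ 1 := by
              rw [← sq_abs]
              exact pow_le_one₀ (abs_nonneg _) hξ1
            nlinarith
          have e2 := Dw_ge hη hν ξ hξ1
          calc A / ν * ξ ^ 2 = Real.exp (-(1 + V / 2)) *
                (4 / Real.pi ^ 2 * (ξ ^ 2 / ν) * De η η) := by
                rw [hA]
                ring
            _ ≤ Ew η ν ξ * Dw η ν ξ := mul_le_mul e1 e2 (by positivity)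
                ((Real.exp_pos _).le.trans e1)
        · simp only [Set.indicator_of_notMem hξ]
          exact mul_nonneg (Real.exp_pos _).le (Dw_nn hη ν ξ)
    have h2 : ∫ ξ : ℝ, (Set.Icc (-1 : ℝ) 1).indicator (fun ξ => A / ν * ξ ^ 2) ξ =
        A * (2 / 3) / ν := by
      rw [integral_indicator measurableSet_Icc, integral_const_mul, integral_Icc_eq_integral_Ioc,
        ← intervalIntegral.integral_of_le (by norm_num), integral_pow]
      norm_num
      ring
    rw [← h2]
    exact h1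

end Pool.Agent.Helper780_BE.V5
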