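import Pool.Agent.Helper780_BE.DefsU


set_option autoImplicit false

open MeasureTheory
open scoped Topology

namespace Pool.Agent.Helper780_BE.V6


open Pool.Agent.Helper780_BE Pool.Agent.Helper780_CQ Filter
open scoped SchwartzMap FourierTransform LineDeriv ContDiff

/-- smooth with compact support -/
def SC (g : E3 → ℝ) : Prop := ContDiff ℝ ∞ g ∧ HasCompactSupport g

/-- directional derivative -/
noncomputable def Dv (v : E3) (g : E3 → ℝ) : E3 → ℝ := fun x => fderiv ℝ g x v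

theorem SC.dv {g : E3 → ℝ} (hg : SC g) (v : E3) : SC (Dv v g) := by
  refine ⟨?_, ?_⟩
  · have h1 : ContDiff ℝ ∞ (fderiv ℝ g) := hg.1.fderiv_right (m := ∞) (by simp)
    exact h1.clm_apply contDiff_const
  · exact (hg.2.fderiv ℝ).comp_left (g := fun L : E3 →L[ℝ] ℝ => L v) (by simp)

theorem SC.dvn {g : E3 → ℝ} (hg : SC g) (v : E3) (m : ℕ) : SC ((Dv v)^[m] g) := by
  induction m with
  | zero => exact hg
  | succ m ih => rw [Function.iterate_succ_apply']; exact ih.dv v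

theorem SC.cplx {g : E3 → ℝ} (hg : SC g) :
    HasCompactSupport (fun x => (g x : ℂ)) ∧ ContDiff ℝ ∞ (fun x => (g x : ℂ)) :=
  ⟨hg.2.comp_left (g := fun r : ℝ => (r : ℂ)) (by simp),
    Complex.ofRealCLM.contDiff.comp hg.1⟩

/-- as a Schwartz function -/
noncomputable def SS {g : E3 → ℝ} (hg : SC g) : 𝓢(E3, ℂ) :=
  HasCompactSupport.toSchwartzMap hg.cplx.1 hg.cplx.2

theorem SS_apply {g : E3 → ℝ} (hg : SC g) (x : E3) : SS hg x = (g x : ℂ) := rfl

theorem ft1_eq {g : E3 → ℝ} (hg : SC g) (ξ : E3) :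
    ft1 (fun x => (g x : ℂ)) ξ = 𝓕 (SS hg) ξ := by
  rw [SchwartzMap.fourier_coe, Real.fourier_eq']
  unfold ft1
  congr 1
  funext v
  rw [smul_eq_mul, SS_apply]
  congr 3
  push_cast
  ring

theorem SS_dv {g : E3 → ℝ} (hg : SC g) (v : E3) : SS (hg.dv v) = ∂_{v} (SS hg) := by
  ext x
  rw [SchwartzMap.lineDerivOp_apply_eq_fderiv, SS_apply]
  have h1 : HasFDerivAt g (fderiv ℝ g x) x := (hg.1.differentiable (by simp) x).hasFDerivAt
  have h2 : HasFDerivAt (fun y => (g y : ℂ)) (Complex.ofRealCLM.comp (fderiv ℝ g x)) x :=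
    Complex.ofRealCLM.hasFDerivAt.comp x h1
  have h3 : fderiv ℝ (SS hg) x = Complex.ofRealCLM.comp (fderiv ℝ g x) := h2.fderiv
  rw [h3]
  rfl

theorem ft1_dv {g : E3 → ℝ} (hg : SC g) (v ξ : E3) :
    ft1 (fun x => (Dv v g x : ℂ)) ξ =
      (2 * Real.pi * Complex.I) * (inner ℝ ξ v : ℝ) * ft1 (fun x => (g x : ℂ)) ξ := by
  rw [ft1_eq (hg.dv v), ft1_eq hg, SS_dv hg v, SchwartzMap.fourier_lineDerivOp_eq]
  have : (inner ℝ · v : E3 → ℝ).HasTemperateGrowth := ((innerSL ℝ).flip v).hasTemperateGrowth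
  rw [_root_.smul_apply, SchwartzMap.smulLeftCLM_apply_apply this]
  simp [smul_eq_mul, mul_assoc]

theorem ft1_dvn {g : E3 → ℝ} (hg : SC g) (v ξ : E3) (m : ℕ) :
    ft1 (fun x => ((Dv v)^[m] g x : ℂ)) ξ =
      ((2 * Real.pi * Complex.I) * (inner ℝ ξ v : ℝ)) ^ m * ft1 (fun x => (g x : ℂ)) ξ := by
  induction m with
  | zero => simp
  | succ m ih =>
    have := ft1_dv (hg.dvn v m) v ξ
    rw [show (fun x => (((Dv v)^[m+1] g x : ℝ) : ℂ)) = (fun x => ((Dv v ((Dv v)^[m] g) x : ℝ) : ℂ)) by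
      rw [Function.iterate_succ_apply'], this, ih, pow_succ]
    ring

theorem planch {g : E3 → ℝ} (hg : SC g) :
    ∫ ξ, ‖ft1 (fun x => (g x : ℂ)) ξ‖ ^ 2 = ∫ x, g x ^ 2 := by
  have h := SchwartzMap.integral_norm_sq_fourier (SS hg)
  simp_rw [← ft1_eq hg] at h
  rw [h]
  congr 1
  funext x
  rw [SS_apply, Complex.norm_real, Real.norm_eq_abs, sq_abs]

theorem planch_dvn {g : E3 → ℝ} (hg : SC g) (v : E3) (m : ℕ) :
    ∫ ξ, (2 * Real.pi * inner ℝ ξ v) ^ (2 * m) * ‖ft1 (fun x => (g x : ℂ)) ξ‖ ^ 2 =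
      ∫ x, ((Dv v)^[m] g x) ^ 2 := by
  rw [← planch (hg.dvn v m)]
  congr 1
  funext ξ
  have e1 : ‖(2 * Real.pi * Complex.I) * ((inner ℝ ξ v : ℝ) : ℂ)‖ = |2 * Real.pi * inner ℝ ξ v| := by
    simp only [norm_mul, Complex.norm_I, mul_one, Complex.norm_real, Complex.norm_ofNat,
      Real.norm_eq_abs, abs_mul]
    simp
  rw [ft1_dvn hg, norm_mul, norm_pow, e1, mul_pow _ ‖_‖ 2, ← pow_mul, mul_comm m 2, pow_mul |_| 2 m,
    sq_abs, ← pow_mul]

/-- continuity and integrability -/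
theorem ft1_cont {g : E3 → ℝ} (hg : SC g) : Continuous (ft1 (fun x => (g x : ℂ))) := by
  have : ft1 (fun x => (g x : ℂ)) = 𝓕 (SS hg) := funext (ft1_eq hg)
  rw [this]
  exact (𝓕 (SS hg)).continuous

theorem ft1_bd {g : E3 → ℝ} (hg : SC g) : ∃ C, ∀ ξ, ‖ft1 (fun x => (g x : ℂ)) ξ‖ ≤ C := by
  obtain ⟨C, hC, h⟩ := (𝓕 (SS hg)).decay 0 0
  refine ⟨C, fun ξ => ?_⟩
  have := h ξ
  simpa [ft1_eq hg] using this

theorem ft1_int {g : E3 → ℝ} (hg : SC g) (k : ℕ) :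
    Integrable (fun ξ => ‖ξ‖ ^ k * ‖ft1 (fun x => (g x : ℂ)) ξ‖ ^ 2) := by
  obtain ⟨C, hC⟩ := ft1_bd hg
  have h1 := (𝓕 (SS hg)).integrable_pow_mul volume k
  have h2 : Integrable (fun ξ => C * (‖ξ‖ ^ k * ‖𝓕 (SS hg) ξ‖)) := h1.const_mul C
  refine h2.mono' ?_ (Eventually.of_forall fun ξ => ?_)
  · exact ((continuous_norm.pow k).mul ((ft1_cont hg).norm.pow 2)).aestronglyMeasurable
  · rw [ft1_eq hg, Real.norm_eq_abs, abs_of_nonneg (by positivity)]
    have := hC ξ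
    rw [ft1_eq hg] at this
    calc ‖ξ‖ ^ k * ‖𝓕 (SS hg) ξ‖ ^ 2 = (‖ξ‖ ^ k * ‖𝓕 (SS hg) ξ‖) * ‖𝓕 (SS hg) ξ‖ := by ring
      _ ≤ (‖ξ‖ ^ k * ‖𝓕 (SS hg) ξ‖) * C := by gcongr
      _ = _ := by ring


/-- the basis vectors -/
noncomputable def be3 (i : Fin 3) : E3 := EuclideanSpace.single i 1

theorem inner_be3 (ξ : E3) (i : Fin 3) : inner ℝ ξ (be3 i) = ξ i := by
  simp [be3, EuclideanSpace.inner_single_right]

theorem norm_be3 (i : Fin 3) : ‖be3 i‖ = 1 := by simp [be3]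

theorem norm_pow_le (ξ : E3) (n : ℕ) :
    ‖ξ‖ ^ (2 * (n + 1)) ≤ 3 ^ n * ∑ i, (inner ℝ ξ (be3 i)) ^ (2 * (n + 1)) := by
  have h1 : ‖ξ‖ ^ 2 = ∑ i, (ξ i) ^ 2 := EuclideanSpace.real_norm_sq_eq ξ
  have h3 := pow_sum_div_card_le_sum_pow (s := (Finset.univ : Finset (Fin 3)))
    (f := fun i => (ξ i) ^ 2) (fun i _ => sq_nonneg _) n
  simp only [Finset.card_univ, Fintype.card_fin, Nat.cast_ofNat] at h3
  rw [div_le_iff₀ (by positivity)] at h3
  simp only [inner_be3]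
  simp only [pow_mul]
  rw [h1]
  linarith

theorem rpow_le_aux (α h r : ℝ) (hα : 0 < α) (hh : 0 < h) (hr : 0 ≤ r) (m : ℕ)
    (hm : α ≤ 2 * m) : r ^ α ≤ h ^ (-α) * (1 + (r * h) ^ (2 * m)) := by
  have e1 : r ^ α = h ^ (-α) * (r * h) ^ α := by
    rw [Real.mul_rpow hr hh.le, Real.rpow_neg hh.le]
    have : h ^ α ≠ 0 := (Real.rpow_pos_of_pos hh α).ne'
    field_simp
  rw [e1]
  have h2 : 0 ≤ r * h := by positivity
  have h3 : (r * h) ^ α ≤ 1 + (r * h) ^ (2 * m) := by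
    rcases le_total (r * h) 1 with h4 | h4
    · have : (r * h) ^ α ≤ 1 := Real.rpow_le_one h2 h4 hα.le
      have : 0 ≤ (r * h) ^ (2 * m) := by positivity
      linarith
    · have : (r * h) ^ α ≤ (r * h) ^ ((2 * m : ℕ) : ℝ) := by
        apply Real.rpow_le_rpow_of_exponent_le h4
        push_cast
        exact hm
      rw [Real.rpow_natCast] at this
      linarith
  exact mul_le_mul_of_nonneg_left h3 (Real.rpow_nonneg hh.le _)

theorem int_inner {g : E3 → ℝ} (hg : SC g) (i : Fin 3) (k : ℕ) :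
    Integrable (fun ξ => (2 * Real.pi * inner ℝ ξ (be3 i)) ^ (2 * k) *
      ‖ft1 (fun x => (g x : ℂ)) ξ‖ ^ 2) := by
  refine ((ft1_int hg (2 * k)).const_mul ((2 * Real.pi) ^ (2 * k))).mono' ?_
    (Eventually.of_forall fun ξ => ?_)
  · refine Continuous.aestronglyMeasurable ?_
    have := (ft1_cont hg)
    fun_prop
  · rw [Real.norm_eq_abs, abs_mul, abs_of_nonneg (sq_nonneg ‖ft1 _ ξ‖), abs_pow, abs_mul,
      abs_of_pos (by positivity : 0 < 2 * Real.pi), mul_pow, mul_assoc]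
    have h1 : |inner ℝ ξ (be3 i)| ≤ ‖ξ‖ := by
      have := abs_real_inner_le_norm ξ (be3 i)
      rwa [norm_be3, mul_one] at this
    gcongr

theorem int_k1 {g : E3 → ℝ} (hg : SC g) (α : ℝ) (hα : 0 < α) :
    Integrable (fun ξ => (2 * Real.pi * ‖ξ‖) ^ α * ‖ft1 (fun x => (g x : ℂ)) ξ‖ ^ 2) := by
  obtain ⟨m, hm⟩ := exists_nat_ge α
  have hm' : α ≤ 2 * m := by
    have : (0:ℝ) ≤ m := by positivity
    linarith
  have h0 := ft1_int hg 0
  have h1 := (ft1_int hg (2 * m)).const_mul ((2 * Real.pi) ^ (2 * m))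
  refine (h0.add h1).mono' ?_ (Eventually.of_forall fun ξ => ?_)
  · refine Continuous.aestronglyMeasurable ?_
    have h2 := (ft1_cont hg)
    have h3 : Continuous fun ξ : E3 => (2 * Real.pi * ‖ξ‖) ^ α :=
      (continuous_const.mul continuous_norm).rpow_const fun _ => Or.inr hα.le
    exact h3.mul (h2.norm.pow 2)
  · rw [Real.norm_eq_abs, abs_of_nonneg (by positivity)]
    have := rpow_le_aux α 1 (2 * Real.pi * ‖ξ‖) hα one_pos (by positivity) m hm'
    simp only [Real.one_rpow, one_mul, mul_one] at this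
    calc (2 * Real.pi * ‖ξ‖) ^ α * ‖ft1 (fun x => (g x : ℂ)) ξ‖ ^ 2
        ≤ (1 + (2 * Real.pi * ‖ξ‖) ^ (2 * m)) * ‖ft1 (fun x => (g x : ℂ)) ξ‖ ^ 2 := by gcongr
      _ = _ := by simp only [Pi.add_apply]; rw [mul_pow (2 * Real.pi) ‖ξ‖]; ring

theorem k1_bound {g : E3 → ℝ} (hg : SC g) (α h : ℝ) (hα : 0 < α) (hh : 0 < h) (n : ℕ)
    (hn : α ≤ 2 * ((n + 1 : ℕ) : ℝ)) :
    k1 α g ≤ h ^ (-α) * ((∫ x, g x ^ 2) + h ^ (2 * (n + 1)) * 3 ^ n *
      ∑ i, ∫ x, ((Dv (be3 i))^[n + 1] g x) ^ 2) := by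
  have e0 : ∀ i, ∫ x, ((Dv (be3 i))^[n + 1] g x) ^ 2 =
      ∫ ξ, (2 * Real.pi * inner ℝ ξ (be3 i)) ^ (2 * (n + 1)) *
        ‖ft1 (fun x => (g x : ℂ)) ξ‖ ^ 2 := fun i => (planch_dvn hg (be3 i) (n + 1)).symm
  simp only [e0]
  rw [← planch hg, ← integral_finsetSum _ (fun i _ => int_inner hg i (n + 1)), ← integral_const_mul,
    ← integral_add, ← integral_const_mul]
  · unfold k1
    apply integral_mono_of_nonneg
    · exact Eventually.of_forall fun ξ => by positivity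
    · refine Integrable.const_mul (Integrable.add ?_ (Integrable.const_mul ?_ _)) _
      · simpa using ft1_int hg 0
      · exact integrable_finsetSum _ (fun i _ => int_inner hg i (n + 1))
    · refine Eventually.of_forall fun ξ => ?_
      have h1 := rpow_le_aux α h (2 * Real.pi * ‖ξ‖) hα hh (by positivity) (n + 1) hn
      have h2 := norm_pow_le ξ n
      have h3 : (2 * Real.pi * ‖ξ‖ * h) ^ (2 * (n + 1)) ≤ h ^ (2 * (n + 1)) * 3 ^ n *
          ∑ i, (2 * Real.pi * inner ℝ ξ (be3 i)) ^ (2 * (n + 1)) := by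
        simp only [mul_pow]
        rw [← Finset.mul_sum]
        calc 2 ^ (2 * (n + 1)) * Real.pi ^ (2 * (n + 1)) * ‖ξ‖ ^ (2 * (n + 1)) *
              h ^ (2 * (n + 1))
            ≤ 2 ^ (2 * (n + 1)) * Real.pi ^ (2 * (n + 1)) *
              (3 ^ n * ∑ i, (inner ℝ ξ (be3 i)) ^ (2 * (n + 1))) *
              h ^ (2 * (n + 1)) := by gcongr
          _ = _ := by ring
      calc (2 * Real.pi * ‖ξ‖) ^ α * ‖ft1 (fun x => (g x : ℂ)) ξ‖ ^ 2
          ≤ (h ^ (-α) * (1 + (2 * Real.pi * ‖ξ‖ * h) ^ (2 * (n + 1)))) *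
            ‖ft1 (fun x => (g x : ℂ)) ξ‖ ^ 2 := by gcongr
        _ ≤ (h ^ (-α) * (1 + h ^ (2 * (n + 1)) * 3 ^ n *
            ∑ i, (2 * Real.pi * inner ℝ ξ (be3 i)) ^ (2 * (n + 1)))) *
            ‖ft1 (fun x => (g x : ℂ)) ξ‖ ^ 2 := by gcongr
        _ = _ := by
          beta_reduce
          rw [← Finset.sum_mul]
          ring
  · simpa using ft1_int hg 0
  · refine Integrable.const_mul ?_ _
    exact integrable_finsetSum _ (fun i _ => int_inner hg i (n + 1))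

theorem SC.add_mul {f v : E3 → ℝ} (hf : SC f) (hv : SC v) (c : ℝ) : SC (fun x => f x + c * v x) :=
  ⟨hf.1.add (contDiff_const.mul hv.1), hf.2.add (hv.2.mul_left)⟩

theorem k1_add {f v : E3 → ℝ} (hf : SC f) (hv : SC v) (c α : ℝ) (hα : 0 < α) :
    k1 α (fun x => f x + c * v x) ≤ 2 * k1 α f + 2 * c ^ 2 * k1 α v := by
  have e1 : ∀ ξ, ft1 (fun x => ((f x + c * v x : ℝ) : ℂ)) ξ =
      ft1 (fun x => (f x : ℂ)) ξ + c * ft1 (fun x => (v x : ℂ)) ξ := by
    intro ξ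
    rw [ft1_eq (hf.add_mul hv c), ft1_eq hf, ft1_eq hv]
    have : SS (hf.add_mul hv c) = SS hf + (c : ℂ) • SS hv := by
      ext x
      simp [SS_apply]
    rw [this, FourierTransform.fourier_add, FourierTransform.fourier_smul]
    simp
  unfold k1
  rw [← integral_const_mul, ← integral_const_mul, ← integral_add]
  · apply integral_mono_of_nonneg
    · exact Eventually.of_forall fun ξ => by positivity
    · exact ((int_k1 hf α hα).const_mul 2).add ((int_k1 hv α hα).const_mul _)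
    · refine Eventually.of_forall fun ξ => ?_
      simp only [e1]
      have h1 : ‖ft1 (fun x => (f x : ℂ)) ξ + c * ft1 (fun x => (v x : ℂ)) ξ‖ ^ 2 ≤
          2 * ‖ft1 (fun x => (f x : ℂ)) ξ‖ ^ 2 + 2 * c ^ 2 * ‖ft1 (fun x => (v x : ℂ)) ξ‖ ^ 2 := by
        have h2 := norm_add_le (ft1 (fun x => (f x : ℂ)) ξ) (c * ft1 (fun x => (v x : ℂ)) ξ)
        have h3 : ‖(c : ℂ) * ft1 (fun x => (v x : ℂ)) ξ‖ ^ 2 = c ^ 2 * ‖ft1 (fun x => (v x : ℂ)) ξ‖ ^ 2 := by
          rw [norm_mul, mul_pow, Complex.norm_real, Real.norm_eq_abs, sq_abs]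
        have h4 := norm_nonneg (ft1 (fun x => (f x : ℂ)) ξ + c * ft1 (fun x => (v x : ℂ)) ξ)
        nlinarith [sq_nonneg (‖ft1 (fun x => (f x : ℂ)) ξ‖ - ‖(c : ℂ) * ft1 (fun x => (v x : ℂ)) ξ‖),
          norm_nonneg (ft1 (fun x => (f x : ℂ)) ξ), norm_nonneg ((c : ℂ) * ft1 (fun x => (v x : ℂ)) ξ)]
      have h5 : 0 ≤ (2 * Real.pi * ‖ξ‖) ^ α := by positivity
      nlinarith [mul_le_mul_of_nonneg_left h1 h5]
  · exact (int_k1 hf α hα).const_mul 2
  · exact (int_k1 hv α hα).const_mul _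


/-- translates and dilates -/
noncomputable def Sm {M : ℕ} (h : ℝ) (y : Fin M → E3) (F : Fin M → E3 → ℝ) : E3 → ℝ :=
  fun x => ∑ k, F k (h⁻¹ • (x - y k))

theorem SC.aff {F : E3 → ℝ} (hF : SC F) {h : ℝ} (hh : 0 < h) (y : E3) :
    SC (fun x => F (h⁻¹ • (x - y))) := by
  have h0 : ContDiff ℝ ∞ (fun x : E3 => h⁻¹ • (x - y)) := by fun_prop
  refine ⟨hF.1.comp h0, ?_⟩
  have h1 : Topology.IsClosedEmbedding (fun x : E3 => h⁻¹ • (x - y)) :=
    ((Homeomorph.subRight y).trans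
      (Homeomorph.smulOfNeZero h⁻¹ (inv_ne_zero hh.ne'))).isClosedEmbedding
  exact hF.2.comp_isClosedEmbedding h1

theorem SC.finsum {M : ℕ} {F : Fin M → E3 → ℝ} (hF : ∀ k, SC (F k)) :
    SC (fun x => ∑ k, F k x) := by
  refine ⟨ContDiff.sum fun k _ => (hF k).1, ?_⟩
  have : ∀ s : Finset (Fin M), HasCompactSupport (fun x => ∑ k ∈ s, F k x) := by
    intro s
    induction s using Finset.induction_on with
    | empty =>
      simp only [Finset.sum_empty]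
      exact HasCompactSupport.zero
    | insert a s ha ih =>
      simp only [Finset.sum_insert ha]
      exact (hF a).2.add ih
  exact this _

theorem SC.sm {M : ℕ} {h : ℝ} (hh : 0 < h) (y : Fin M → E3) {F : Fin M → E3 → ℝ}
    (hF : ∀ k, SC (F k)) : SC (Sm h y F) := SC.finsum fun k => (hF k).aff hh (y k)

theorem SC.cmul {F : E3 → ℝ} (hF : SC F) (c : ℝ) : SC (fun x => c * F x) :=
  ⟨contDiff_const.mul hF.1, hF.2.mul_left⟩

theorem dv_sm {M : ℕ} {h : ℝ} (y : Fin M → E3) {F : Fin M → E3 → ℝ}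
    (hF : ∀ k, SC (F k)) (c : ℝ) (v : E3) :
    Dv v (fun x => c * Sm h y F x) = fun x => (c * h⁻¹) * Sm h y (fun k => Dv v (F k)) x := by
  funext x
  have h1 : ∀ k, HasFDerivAt (fun x => F k (h⁻¹ • (x - y k)))
      ((fderiv ℝ (F k) (h⁻¹ • (x - y k))).comp (h⁻¹ • ContinuousLinearMap.id ℝ E3)) x := by
    intro k
    have h2 : HasFDerivAt (F k) (fderiv ℝ (F k) (h⁻¹ • (x - y k))) (h⁻¹ • (x - y k)) :=
      ((hF k).1.differentiable (by simp) _).hasFDerivAt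
    exact h2.comp x (((hasFDerivAt_id x).sub_const (y k)).const_smul h⁻¹)
  have h3 : HasFDerivAt (fun x => c * Sm h y F x) (c • ∑ k,
      ((fderiv ℝ (F k) (h⁻¹ • (x - y k))).comp (h⁻¹ • ContinuousLinearMap.id ℝ E3))) x := by
    have := (HasFDerivAt.fun_sum (u := Finset.univ) fun k _ => h1 k).const_mul c
    exact this
  unfold Dv
  rw [h3.fderiv]
  simp only [Sm, _root_.smul_apply, _root_.sum_apply, ContinuousLinearMap.comp_apply,
    ContinuousLinearMap.id_apply, map_smul, smul_eq_mul, Finset.mul_sum]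
  refine Finset.sum_congr rfl fun k _ => ?_
  ring

theorem dvn_sm {M : ℕ} {h : ℝ} (y : Fin M → E3) {F : Fin M → E3 → ℝ}
    (hF : ∀ k, SC (F k)) (v : E3) (m : ℕ) :
    (Dv v)^[m] (Sm h y F) = fun x => (h⁻¹) ^ m * Sm h y (fun k => (Dv v)^[m] (F k)) x := by
  induction m with
  | zero => funext x; simp
  | succ m ih =>
    rw [Function.iterate_succ_apply', ih, dv_sm y (fun k => (hF k).dvn v m)]
    funext x
    rw [pow_succ]
    congr 2
    funext k
    rw [Function.iterate_succ_apply']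

/-- vanishes outside of the unit ball -/
def ZB (F : E3 → ℝ) : Prop := ∀ x, 1 < ‖x‖ → F x = 0

theorem ZB.dv {F : E3 → ℝ} (hF : ZB F) (v : E3) : ZB (Dv v F) := by
  intro x hx
  have h1 : F =ᶠ[𝓝 x] fun _ => (0 : ℝ) := by
    have : ∀ᶠ y in 𝓝 x, 1 < ‖y‖ := continuous_norm.continuousAt.eventually (lt_mem_nhds hx)
    filter_upwards [this] with y hy using hF y hy
  unfold Dv
  rw [h1.fderiv_eq]
  simp

theorem ZB.dvn {F : E3 → ℝ} (hF : ZB F) (v : E3) (m : ℕ) : ZB ((Dv v)^[m] F) := by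
  induction m with
  | zero => exact hF
  | succ m ih => rw [Function.iterate_succ_apply']; exact ih.dv v

theorem int_aff (F : E3 → ℝ) {h : ℝ} (hh : 0 < h) (y : E3) :
    ∫ x, F (h⁻¹ • (x - y)) = h ^ 3 * ∫ x, F x := by
  rw [integral_sub_right_eq_self (fun x => F (h⁻¹ • x)) y, Measure.integral_comp_smul]
  simp only [finrank_euclideanSpace, Fintype.card_fin, inv_pow, inv_inv, smul_eq_mul]
  rw [abs_of_pos (by positivity)]

theorem far_aux {h : ℝ} (hh : 0 < h) {y x : E3} {F : E3 → ℝ} (hF : ZB F)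
    (hx : F (h⁻¹ • (x - y)) ≠ 0) : ‖x - y‖ ≤ h := by
  by_contra hc
  push Not at hc
  apply hx
  apply hF
  rw [norm_smul, norm_inv, Real.norm_eq_abs, abs_of_pos hh, inv_mul_eq_div, lt_div_iff₀ hh]
  linarith

theorem int_sm {M : ℕ} {h : ℝ} (hh : 0 < h) {y : Fin M → E3} {F : Fin M → E3 → ℝ}
    (hF : ∀ k, SC (F k)) (hZ : ∀ k, ZB (F k)) (hy : ∀ k l, k ≠ l → 4 * h ≤ ‖y k - y l‖) :
    ∫ x, Sm h y F x ^ 2 = h ^ 3 * ∑ k, ∫ x, F k x ^ 2 := by
  have e1 : ∀ x, Sm h y F x ^ 2 = ∑ k, F k (h⁻¹ • (x - y k)) ^ 2 := by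
    intro x
    unfold Sm
    by_cases hx : ∃ k, F k (h⁻¹ • (x - y k)) ≠ 0
    · obtain ⟨k, hk⟩ := hx
      have h1 : ∀ l, l ≠ k → F l (h⁻¹ • (x - y l)) = 0 := by
        intro l hl
        by_contra hc
        have h2 := far_aux hh (hZ k) hk
        have h3 := far_aux hh (hZ l) hc
        have h4 := hy k l hl.symm
        have h5 : ‖y k - y l‖ ≤ ‖x - y l‖ + ‖x - y k‖ := by
          have : y k - y l = (x - y l) - (x - y k) := by abel
          rw [this]; exact norm_sub_le _ _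
        linarith
      rw [Finset.sum_eq_single k (fun l _ hl => h1 l hl) (by simp),
        Finset.sum_eq_single k (fun l _ hl => by rw [h1 l hl]; simp) (by simp)]
    · push Not at hx
      simp [hx]
  simp only [e1]
  rw [integral_finsetSum, Finset.mul_sum]
  · exact Finset.sum_congr rfl fun k _ => int_aff (fun x => F k x ^ 2) hh (y k)
  · intro k _
    have h1 := (hF k).aff hh (y k)
    have h2 : Continuous fun x => F k (h⁻¹ • (x - y k)) ^ 2 := h1.1.continuous.pow 2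
    have h3 : HasCompactSupport fun x => F k (h⁻¹ • (x - y k)) ^ 2 :=
      h1.2.comp_left (g := fun r : ℝ => r ^ 2) (by simp)
    exact h2.integrable_of_hasCompactSupport h3

/-- the kinetic energy of a sum of cells -/
theorem k1_sm {M : ℕ} {h : ℝ} (hh : 0 < h) {y : Fin M → E3} {F : Fin M → E3 → ℝ}
    (hF : ∀ k, SC (F k)) (hZ : ∀ k, ZB (F k)) (hy : ∀ k l, k ≠ l → 4 * h ≤ ‖y k - y l‖)
    (α : ℝ) (hα : 0 < α) (n : ℕ) (hn : α ≤ 2 * ((n + 1 : ℕ) : ℝ)) :
    k1 α (Sm h y F) ≤ h ^ (3 - α) * ∑ k, ((∫ x, F k x ^ 2) +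
      3 ^ n * ∑ i, ∫ x, ((Dv (be3 i))^[n + 1] (F k) x) ^ 2) := by
  refine (k1_bound (SC.sm hh y hF) α h hα hh n hn).trans (le_of_eq ?_)
  have e1 : ∀ i, ∫ x, ((Dv (be3 i))^[n + 1] (Sm h y F) x) ^ 2 =
      (h⁻¹) ^ (2 * (n + 1)) * (h ^ 3 * ∑ k, ∫ x, ((Dv (be3 i))^[n + 1] (F k) x) ^ 2) := by
    intro i
    rw [← int_sm hh (fun k => (hF k).dvn (be3 i) (n + 1)) (fun k => (hZ k).dvn (be3 i) (n + 1)) hy,
      ← integral_const_mul, dvn_sm y hF]
    congr 1
    funext x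
    ring
  rw [int_sm hh hF hZ hy]
  simp only [e1]
  rw [← Finset.mul_sum, ← Finset.mul_sum, Real.rpow_sub hh, Real.rpow_neg hh.le]
  have e2 : h ^ (3 : ℝ) = h ^ 3 := by
    rw [← Real.rpow_natCast]; norm_num
  have e3 : (h⁻¹) ^ (2 * (n + 1)) * h ^ (2 * (n + 1)) = 1 := by
    rw [← mul_pow, inv_mul_cancel₀ hh.ne', one_pow]
  rw [e2, Finset.sum_add_distrib, ← Finset.mul_sum, Finset.sum_comm]
  have e4 : h ^ α ≠ 0 := (Real.rpow_pos_of_pos hh α).ne'
  set A := ∑ k, ∫ x, F k x ^ 2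
  set B := ∑ k, ∑ i, ∫ x, ((Dv (be3 i))^[n + 1] (F k) x) ^ 2
  calc (h ^ α)⁻¹ * (h ^ 3 * A + h ^ (2 * (n + 1)) * 3 ^ n * ((h⁻¹) ^ (2 * (n + 1)) * (h ^ 3 * B)))
      = (h ^ α)⁻¹ * (h ^ 3 * A + ((h⁻¹) ^ (2 * (n + 1)) * h ^ (2 * (n + 1))) * 3 ^ n * (h ^ 3 * B)) := by
        ring
    _ = h ^ 3 / h ^ α * (A + 3 ^ n * B) := by
        rw [e3]; field_simp
        

theorem SC.of_zb {F : E3 → ℝ} (h1 : ContDiff ℝ ∞ F) (h2 : ZB F) : SC F :=
  ⟨h1, HasCompactSupport.intro (isCompact_closedBall (0 : E3) 1) fun x hx => h2 x (by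
    simpa [Metric.mem_closedBall, dist_zero_right] using hx)⟩

theorem SC.mul {F G : E3 → ℝ} (hF : SC F) (hG : ContDiff ℝ ∞ G) : SC (fun x => F x * G x) :=
  ⟨hF.1.mul hG, hF.2.mul_right⟩

theorem ZB.mul {F : E3 → ℝ} (hF : ZB F) (G : E3 → ℝ) : ZB (fun x => F x * G x) := fun x hx => by
  simp [hF x hx]

/-- the exponential factor -/
noncomputable def exf (η : E3 → ℝ) (p s : ℝ) (x : E3) : ℝ := Real.exp (-(p * η x + s * η x ^ 2))

theorem exf_smooth {η : E3 → ℝ} (hη : Prof η) (p s : ℝ) : ContDiff ℝ ∞ (exf η p s) := by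
  have := hη.smooth
  unfold exf
  exact ((contDiff_const.mul this).add (contDiff_const.mul (this.pow 2))).neg.exp

theorem exf_fderiv {η : E3 → ℝ} (hη : Prof η) (p s : ℝ) (x : E3) :
    HasFDerivAt (exf η p s) ((exf η p s x * (-(p + 2 * s * η x))) • fderiv ℝ η x) x := by
  have h1 : HasFDerivAt η (fderiv ℝ η x) x := (hη.smooth.differentiable (by simp) x).hasFDerivAt
  have h2 := (((h1.const_mul p).add ((h1.pow 2).const_mul s)).neg).exp
  convert! h2 using 1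
  ext z
  simp [exf]
  ring

inductive TT (η : E3 → ℝ) : (ℝ → ℝ → E3 → ℝ) → Prop
  | term (i j : ℕ) (hij : 1 ≤ i + j) (χ : E3 → ℝ) (hχ : SC χ) (hz : ZB χ) :
      TT η (fun p s x => p ^ i * s ^ j * (χ x * exf η p s x))
  | add (F G : ℝ → ℝ → E3 → ℝ) : TT η F → TT η G → TT η (fun p s x => F p s x + G p s x)

theorem SC.add {F G : E3 → ℝ} (hF : SC F) (hG : SC G) : SC (fun x => F x + G x) :=
  ⟨hF.1.add hG.1, hF.2.add hG.2⟩

theorem TT.sc {η : E3 → ℝ} (hη : Prof η) {F : ℝ → ℝ → E3 → ℝ} (hF : TT η F) (p s : ℝ) :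
    SC (F p s) ∧ ZB (F p s) := by
  induction hF with
  | term i j hij χ hχ hz =>
    refine ⟨(hχ.mul (exf_smooth hη p s)).cmul (p ^ i * s ^ j), fun x hx => ?_⟩
    simp [hz x hx]
  | add F G hF hG ihF ihG =>
    exact ⟨ihF.1.add ihG.1, fun x hx => by simp [ihF.2 x hx, ihG.2 x hx]⟩

theorem dv_add {F G : E3 → ℝ} (hF : SC F) (hG : SC G) (v : E3) :
    Dv v (fun x => F x + G x) = fun x => Dv v F x + Dv v G x := by
  funext x
  have h1 := (hF.1.differentiable (by simp) x).hasFDerivAt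
  have h2 := (hG.1.differentiable (by simp) x).hasFDerivAt
  unfold Dv
  rw [(h1.fun_add h2).fderiv]
  rfl

theorem TT.dv {η : E3 → ℝ} (hη : Prof η) {F : ℝ → ℝ → E3 → ℝ} (hF : TT η F) (v : E3) :
    TT η (fun p s => Dv v (F p s)) := by
  induction hF with
  | term i j hij χ hχ hz =>
    have hηs : SC η := SC.of_zb hη.smooth (fun x hx => hη.supp x hx.le)
    have t1 := TT.term (η := η) i j hij (Dv v χ) (hχ.dv v) (hz.dv v)
    have s2 : SC (fun x => χ x * (-(Dv v η x))) := hχ.mul ((hηs.dv v).1.neg)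
    have z2 : ZB (fun x => χ x * (-(Dv v η x))) := hz.mul _
    have t2 := TT.term (η := η) (i + 1) j (by omega) _ s2 z2
    have s3 : SC (fun x => χ x * (-(2 * η x * Dv v η x))) :=
      hχ.mul (((contDiff_const.mul hηs.1).mul (hηs.dv v).1).neg)
    have z3 : ZB (fun x => χ x * (-(2 * η x * Dv v η x))) := hz.mul _
    have t3 := TT.term (η := η) i (j + 1) (by omega) _ s3 z3
    have t := TT.add _ _ t1 (TT.add _ _ t2 t3)
    convert t using 1
    funext p s x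
    have h1 := (hχ.1.differentiable (by simp) x).hasFDerivAt
    have h2 := exf_fderiv hη p s x
    have h3 := (h1.mul h2).const_mul (p ^ i * s ^ j)
    have h4 : Dv v (fun x => p ^ i * s ^ j * (χ x * exf η p s x)) x = _ :=
      congrArg (fun L : E3 →L[ℝ] ℝ => L v) h3.fderiv
    rw [h4]
    simp only [_root_.smul_apply, _root_.add_apply, smul_eq_mul, Dv]
    ring
  | add F G hF hG ihF ihG =>
    have t := TT.add _ _ ihF ihG
    convert t using 1
    funext p s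
    exact dv_add (hF.sc hη p s).1 (hG.sc hη p s).1 v

theorem exf_le {η : E3 → ℝ} (hη : Prof η) {p s : ℝ} (hs : 0 ≤ s) (x : E3) :
    exf η p s x ≤ Real.exp |p| := by
  unfold exf
  apply Real.exp_le_exp.2
  have h1 := hη.nonneg x
  have h2 := hη.le_one x
  have h3 : -(p * η x) ≤ |p| := by
    have : |p * η x| ≤ |p| := by
      rw [abs_mul, abs_of_nonneg h1]
      exact mul_le_of_le_one_right (abs_nonneg p) h2
    have := neg_abs_le (p * η x)
    linarith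
  have h4 : 0 ≤ s * η x ^ 2 := by positivity
  linarith

theorem TT.bound {η : E3 → ℝ} (hη : Prof η) {F : ℝ → ℝ → E3 → ℝ} (hF : TT η F) :
    ∃ C : ℝ, 0 ≤ C ∧ ∀ p s x, 0 ≤ s → s ≤ 1 → |F p s x| ≤ C * (|p| + s) * Real.exp (C * |p|) := by
  induction hF with
  | term i j hij χ hχ hz =>
    obtain ⟨B, hB⟩ := hχ.2.exists_bound_of_continuous hχ.1.continuous
    have hB0 : 0 ≤ B := (norm_nonneg _).trans (hB 0)
    refine ⟨B + i + 1, by positivity, fun p s x hs hs1 => ?_⟩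
    have hp := abs_nonneg p
    have h1 : |p| ^ i * s ^ j ≤ (|p| + s) * Real.exp (i * |p|) := by
      have he : ∀ k : ℕ, |p| ^ k ≤ Real.exp (k * |p|) := by
        intro k
        rw [Real.exp_nat_mul]
        gcongr
        linarith [Real.add_one_le_exp |p|]
      rcases Nat.eq_zero_or_pos i with hi | hi
      · subst hi
        have hj : s ^ j ≤ s := by
          have := pow_le_pow_of_le_one hs hs1 (show 1 ≤ j by omega)
          simpa using this
        simp only [pow_zero, one_mul, Nat.cast_zero, zero_mul, Real.exp_zero, mul_one]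
        linarith
      · obtain ⟨k, rfl⟩ : ∃ k, i = k + 1 := ⟨i - 1, by omega⟩
        have h2 : s ^ j ≤ 1 := pow_le_one₀ hs hs1
        have h3 : Real.exp (k * |p|) ≤ Real.exp (((k + 1 : ℕ) : ℝ) * |p|) := by
          apply Real.exp_le_exp.2
          push_cast
          nlinarith
        calc |p| ^ (k + 1) * s ^ j ≤ |p| ^ (k + 1) * 1 := by gcongr
          _ = |p| * |p| ^ k := by ring
          _ ≤ |p| * Real.exp (k * |p|) := by gcongr; exact he k
          _ ≤ (|p| + s) * Real.exp (((k + 1 : ℕ) : ℝ) * |p|) := by gcongr; linarith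
    have h2 : |exf η p s x| ≤ Real.exp |p| := by
      have h0 : 0 ≤ exf η p s x := Real.exp_nonneg _
      rw [abs_of_nonneg h0]
      exact exf_le hη hs x
    have h3 : |χ x| ≤ B := hB x
    rw [abs_mul, abs_mul, abs_mul, abs_pow, abs_pow, abs_of_nonneg hs]
    calc |p| ^ i * s ^ j * (|χ x| * |exf η p s x|)
        ≤ ((|p| + s) * Real.exp (i * |p|)) * (B * Real.exp |p|) := by gcongr
      _ = B * (|p| + s) * Real.exp ((i + 1) * |p|) := by
        have e1 : Real.exp ((i + 1) * |p|) = Real.exp (i * |p|) * Real.exp |p| := by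
          rw [← Real.exp_add]; congr 1; ring
        rw [e1]; ring
      _ ≤ (B + i + 1) * (|p| + s) * Real.exp ((B + i + 1) * |p|) := by
        gcongr
        · have : (0:ℝ) ≤ i := by positivity
          linarith
        · linarith
  | add F G hF hG ihF ihG =>
    obtain ⟨C, hC, h1⟩ := ihF
    obtain ⟨D, hD, h2⟩ := ihG
    refine ⟨C + D, by positivity, fun p s x hs hs1 => ?_⟩
    have hp := abs_nonneg p
    calc |F p s x + G p s x| ≤ |F p s x| + |G p s x| := abs_add_le _ _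
      _ ≤ C * (|p| + s) * Real.exp (C * |p|) + D * (|p| + s) * Real.exp (D * |p|) :=
        add_le_add (h1 p s x hs hs1) (h2 p s x hs hs1)
      _ ≤ C * (|p| + s) * Real.exp ((C + D) * |p|) + D * (|p| + s) * Real.exp ((C + D) * |p|) := by
        gcongr <;> linarith
      _ = _ := by ring

/-- the cell function -/
noncomputable def Gf (η : E3 → ℝ) (p s : ℝ) (x : E3) : ℝ := exf η p s x - 1

theorem Gf_sc {η : E3 → ℝ} (hη : Prof η) (p s : ℝ) : SC (Gf η p s) ∧ ZB (Gf η p s) := by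
  have h1 : ZB (Gf η p s) := fun x hx => by
    simp [Gf, exf, hη.supp x hx.le]
  exact ⟨SC.of_zb ((exf_smooth hη p s).sub contDiff_const) h1, h1⟩

theorem Gf_dv {η : E3 → ℝ} (hη : Prof η) (v : E3) (n : ℕ) :
    TT η (fun p s => (Dv v)^[n + 1] (Gf η p s)) := by
  induction n with
  | zero =>
    have hηs : SC η := SC.of_zb hη.smooth (fun x hx => hη.supp x hx.le)
    have hηz : ZB η := fun x hx => hη.supp x hx.le
    have s2 : SC (fun x => -(Dv v η x)) := ⟨(hηs.dv v).1.neg, (hηs.dv v).2.neg⟩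
    have z2 : ZB (fun x => (-(Dv v η x))) := fun x hx => by simp [hηz.dv v x hx]
    have t2 := TT.term (η := η) 1 0 (by omega) _ s2 z2
    have s3 : SC (fun x => η x * (-(2 * Dv v η x))) :=
      hηs.mul ((contDiff_const.mul (hηs.dv v).1).neg)
    have z3 : ZB (fun x => η x * (-(2 * Dv v η x))) := hηz.mul _
    have t3 := TT.term (η := η) 0 1 (by omega) _ s3 z3
    convert TT.add _ _ t2 t3 using 1
    funext p s x
    have h2 := (exf_fderiv hη p s x).sub_const 1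
    have h4 : Dv v (Gf η p s) x = _ := congrArg (fun L : E3 →L[ℝ] ℝ => L v) h2.fderiv
    simp only [zero_add, Function.iterate_one]
    rw [h4]
    simp only [_root_.smul_apply, smul_eq_mul, Dv]
    ring
  | succ n ih =>
    have := ih.dv hη v
    convert this using 1
    funext p s
    rw [Function.iterate_succ_apply']

theorem Gf_bound {η : E3 → ℝ} (hη : Prof η) (p s : ℝ) (x : E3) (hs : 0 ≤ s) (hs1 : s ≤ 1) :
    |Gf η p s x| ≤ 3 * (|p| + s) * Real.exp (3 * |p|) := by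
  have hp := abs_nonneg p
  have h1 := hη.nonneg x
  have h2 := hη.le_one x
  set t := -(p * η x + s * η x ^ 2) with ht
  have h3 : |t| ≤ |p| + s := by
    rw [ht, abs_neg]
    refine (abs_add_le _ _).trans ?_
    rw [abs_mul, abs_mul, abs_of_nonneg h1, abs_of_nonneg hs, abs_of_nonneg (sq_nonneg (η x))]
    have h4 : η x ^ 2 ≤ 1 := pow_le_one₀ h1 h2
    have := mul_le_of_le_one_right hp h2
    have := mul_le_of_le_one_right hs h4
    linarith
  have h5 : |Real.exp t - 1| ≤ |t| * Real.exp |t| := by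
    have h6 := Real.add_one_le_exp (-t)
    have h7 := Real.add_one_le_exp t
    have h8 : Real.exp t * Real.exp (-t) = 1 := by rw [← Real.exp_add]; simp
    have h9 := Real.exp_pos t
    rcases le_total 0 t with h0 | h0
    · rw [abs_of_nonneg (by linarith), abs_of_nonneg h0]
      nlinarith [mul_le_mul_of_nonneg_left h6 h9.le]
    · rw [abs_of_nonpos (by linarith [Real.exp_le_one_iff.2 h0]), abs_of_nonpos h0]
      have : 1 ≤ Real.exp (-t) := Real.one_le_exp (by linarith)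
      nlinarith
  have h6 : Real.exp |t| ≤ 3 * Real.exp |p| := by
    calc Real.exp |t| ≤ Real.exp (|p| + 1) := Real.exp_le_exp.2 (by linarith)
      _ = Real.exp 1 * Real.exp |p| := by rw [add_comm, Real.exp_add]
      _ ≤ 3 * Real.exp |p| := by
        gcongr
        linarith [Real.exp_one_lt_d9]
  calc |Gf η p s x| = |Real.exp t - 1| := rfl
    _ ≤ |t| * Real.exp |t| := h5
    _ ≤ (|p| + s) * (3 * Real.exp |p|) := by gcongr
    _ = 3 * (|p| + s) * Real.exp |p| := by ring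
    _ ≤ _ := by
      gcongr
      linarith


theorem int_sq_le {F : E3 → ℝ} (hz : ZB F) (B : ℝ) (hB : ∀ x, |F x| ≤ B) :
    ∫ x, F x ^ 2 ≤ (volume.real (Metric.closedBall (0 : E3) 1)) * B ^ 2 := by
  have h1 : ∫ x, F x ^ 2 = ∫ x in Metric.closedBall (0 : E3) 1, F x ^ 2 := by
    symm
    apply setIntegral_eq_integral_of_forall_compl_eq_zero
    intro x hx
    rw [hz x (by simpa [Metric.mem_closedBall, dist_zero_right] using hx)]
    simp
  rw [h1]
  have h2 : ‖∫ x in Metric.closedBall (0 : E3) 1, F x ^ 2‖ ≤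
      B ^ 2 * volume.real (Metric.closedBall (0 : E3) 1) := by
    apply norm_setIntegral_le_of_norm_le_const
    · exact (isCompact_closedBall (0 : E3) 1).measure_lt_top
    · intro x _
      rw [Real.norm_eq_abs, abs_pow]
      exact pow_le_pow_left₀ (abs_nonneg _) (hB x) 2
  linarith [le_abs_self (∫ x in Metric.closedBall (0 : E3) 1, F x ^ 2), Real.norm_eq_abs
    (∫ x in Metric.closedBall (0 : E3) 1, F x ^ 2)]

theorem num_aux (C a ν : ℝ) (hν : 1 ≤ ν) :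
    (C * (|2 * a / (8 * ν)| + 1 / (8 * ν)) * Real.exp (C * |2 * a / (8 * ν)|)) ^ 2 ≤
      (C ^ 2 * Real.exp (C ^ 2)) * (ν⁻¹ * Real.exp (a ^ 2 / (4 * ν))) := by
  have hν0 : 0 < ν := by linarith
  have e1 : |2 * a / (8 * ν)| = |a| / (4 * ν) := by
    rw [abs_div, abs_mul, abs_of_pos (by positivity : 0 < 8 * ν), abs_of_pos (by norm_num : (0:ℝ) < 2)]
    field_simp
    ring
  rw [e1]
  have ha := abs_nonneg a
  have hsq : |a| ^ 2 = a ^ 2 := sq_abs a
  have h1 : (|a| / (4 * ν) + 1 / (8 * ν)) ^ 2 ≤ ν⁻¹ * Real.exp (a ^ 2 / (8 * ν)) := by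
    have h2 : (|a| / (4 * ν) + 1 / (8 * ν)) ^ 2 ≤ ν⁻¹ * (a ^ 2 / (8 * ν) + 1) := by
      have h3 : ν⁻¹ * (a ^ 2 / (8 * ν) + 1) - (|a| / (4 * ν) + 1 / (8 * ν)) ^ 2 =
          (8 * a ^ 2 + 64 * ν - (2 * |a| + 1) ^ 2) / (64 * ν ^ 2) := by
        field_simp
        ring
      have h4 : 0 ≤ (8 * a ^ 2 + 64 * ν - (2 * |a| + 1) ^ 2) / (64 * ν ^ 2) := by
        apply div_nonneg _ (by positivity)
        nlinarith [sq_nonneg (|a| - 1)]
      linarith
    refine h2.trans ?_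
    gcongr
    exact Real.add_one_le_exp _
  have h2 : (Real.exp (C * (|a| / (4 * ν)))) ^ 2 ≤ Real.exp (C ^ 2) * Real.exp (a ^ 2 / (8 * ν)) := by
    rw [← Real.exp_nat_mul, ← Real.exp_add]
    apply Real.exp_le_exp.2
    push_cast
    have h3 : C ^ 2 + a ^ 2 / (8 * ν) - 2 * (C * (|a| / (4 * ν))) =
        (8 * ν * C ^ 2 + a ^ 2 - 4 * C * |a|) / (8 * ν) := by
      field_simp
      ring
    have h4 : 0 ≤ (8 * ν * C ^ 2 + a ^ 2 - 4 * C * |a|) / (8 * ν) := by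
      apply div_nonneg _ (by positivity)
      nlinarith [sq_nonneg (|a| - 2 * C), sq_nonneg C, mul_le_mul_of_nonneg_right hν (sq_nonneg C)]
    linarith
  have h3 : Real.exp (a ^ 2 / (4 * ν)) = Real.exp (a ^ 2 / (8 * ν)) * Real.exp (a ^ 2 / (8 * ν)) := by
    rw [← Real.exp_add]
    congr 1
    field_simp
    ring
  rw [h3, mul_pow, mul_pow]
  calc C ^ 2 * (|a| / (4 * ν) + 1 / (8 * ν)) ^ 2 * Real.exp (C * (|a| / (4 * ν))) ^ 2
      ≤ C ^ 2 * (ν⁻¹ * Real.exp (a ^ 2 / (8 * ν))) * (Real.exp (C ^ 2) * Real.exp (a ^ 2 / (8 * ν))) := by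
        gcongr
    _ = _ := by ring

theorem cell_bound {η : E3 → ℝ} (hη : Prof η) (n : ℕ) : ∃ C : ℝ, 0 < C ∧ ∀ ν : ℝ, 1 ≤ ν →
    ∀ a : ℝ, (∫ x, Gf η (2 * a / (8 * ν)) (1 / (8 * ν)) x ^ 2) +
      3 ^ n * ∑ i, ∫ x, ((Dv (be3 i))^[n + 1] (Gf η (2 * a / (8 * ν)) (1 / (8 * ν))) x) ^ 2 ≤
      C * (ν⁻¹ * Real.exp (a ^ 2 / (4 * ν))) := by
  have h1 : ∀ i : Fin 3, ∃ C : ℝ, 0 ≤ C ∧ ∀ p s x, 0 ≤ s → s ≤ 1 →
      |(Dv (be3 i))^[n + 1] (Gf η p s) x| ≤ C * (|p| + s) * Real.exp (C * |p|) := fun i =>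
    (Gf_dv hη (be3 i) n).bound hη
  choose D _ hb using h1
  set V := volume.real (Metric.closedBall (0 : E3) 1) with hV
  have hV0 : 0 ≤ V := measureReal_nonneg
  refine ⟨V * (3 ^ 2 * Real.exp (3 ^ 2)) + 3 ^ n * (∑ i, V * (D i ^ 2 * Real.exp (D i ^ 2))) + 1,
    by positivity, fun ν hν a => ?_⟩
  have hν0 : 0 < ν := by linarith
  have hs : 0 ≤ 1 / (8 * ν) := by positivity
  have hs1 : 1 / (8 * ν) ≤ 1 := by
    rw [div_le_one (by positivity)]; linarith
  have e1 : ∫ x, Gf η (2 * a / (8 * ν)) (1 / (8 * ν)) x ^ 2 ≤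
      V * ((3 ^ 2 * Real.exp (3 ^ 2)) * (ν⁻¹ * Real.exp (a ^ 2 / (4 * ν)))) :=
    (int_sq_le (Gf_sc hη _ _).2 _ (fun x => Gf_bound hη _ _ x hs hs1)).trans
      (mul_le_mul_of_nonneg_left (num_aux 3 a ν hν) hV0)
  have e2 : ∀ i, ∫ x, ((Dv (be3 i))^[n + 1] (Gf η (2 * a / (8 * ν)) (1 / (8 * ν))) x) ^ 2 ≤
      V * ((D i ^ 2 * Real.exp (D i ^ 2)) * (ν⁻¹ * Real.exp (a ^ 2 / (4 * ν)))) := fun i =>
    (int_sq_le ((Gf_sc hη _ _).2.dvn _ _) _
      (fun x => hb i _ _ x hs hs1)).trans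
      (mul_le_mul_of_nonneg_left (num_aux (D i) a ν hν) hV0)
  have e3 := Finset.sum_le_sum (s := Finset.univ) fun i _ => e2 i
  have e4 : 0 ≤ ν⁻¹ * Real.exp (a ^ 2 / (4 * ν)) := by positivity
  calc (∫ x, Gf η (2 * a / (8 * ν)) (1 / (8 * ν)) x ^ 2) +
      3 ^ n * ∑ i, ∫ x, ((Dv (be3 i))^[n + 1] (Gf η (2 * a / (8 * ν)) (1 / (8 * ν))) x) ^ 2
      ≤ V * ((3 ^ 2 * Real.exp (3 ^ 2)) * (ν⁻¹ * Real.exp (a ^ 2 / (4 * ν)))) +
        3 ^ n * (∑ i, V * ((D i ^ 2 * Real.exp (D i ^ 2)) * (ν⁻¹ * Real.exp (a ^ 2 / (4 * ν))))) :=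
        add_le_add e1 (mul_le_mul_of_nonneg_left e3 (by positivity))
    _ = (V * (3 ^ 2 * Real.exp (3 ^ 2)) + 3 ^ n * (∑ i, V * (D i ^ 2 * Real.exp (D i ^ 2)))) *
        (ν⁻¹ * Real.exp (a ^ 2 / (4 * ν))) := by
        have e5 : ∑ i, V * ((D i ^ 2 * Real.exp (D i ^ 2)) * (ν⁻¹ * Real.exp (a ^ 2 / (4 * ν)))) =
            (∑ i, V * (D i ^ 2 * Real.exp (D i ^ 2))) * (ν⁻¹ * Real.exp (a ^ 2 / (4 * ν))) := by
          rw [Finset.sum_mul]
          exact Finset.sum_congr rfl fun i _ => by ring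
        rw [e5]
        ring
    _ ≤ _ := mul_le_mul_of_nonneg_right (by linarith) e4

theorem exp_split {M : ℕ} (a : Fin M → ℝ) (k : Fin M) (h : ∀ l, l ≠ k → a l = 0) :
    Real.exp (-(∑ l, a l)) = 1 + ∑ l, (Real.exp (-(a l)) - 1) := by
  rw [Finset.sum_eq_single k (fun l _ hl => h l hl) (by simp),
    Finset.sum_eq_single k (fun l _ hl => by rw [h l hl]; simp) (by simp)]
  ring

/-- TARGET -/
theorem one_kin {η : E3 → ℝ} (hη : Prof η) (α : ℝ) (hα : 0 < α) : ∃ C : ℝ, 0 < C ∧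
    ∀ {M : ℕ} (h c0 : ℝ) (f : E3 → ℝ) (y : Fin M → E3), Cells h c0 f y → ∀ ν : ℝ, 1 ≤ ν →
      ∀ q : Fin M → ℝ,
      k1 α (fun x => f x * Real.exp (-(∑ k, (2 * q k * md h η y k x + md h η y k x ^ 2)) /
        (8 * ν))) ≤ 2 * k1 α f +
        C * c0 ^ 2 * h ^ (3 - α) * ∑ k, ν⁻¹ * Real.exp (q k ^ 2 / (4 * ν)) := by
  obtain ⟨n, hn⟩ := exists_nat_ge α
  have hn' : α ≤ 2 * ((n + 1 : ℕ) : ℝ) := by
    have : (0:ℝ) ≤ n := by positivity
    push_cast
    linarith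
  obtain ⟨C, hC, hb⟩ := cell_bound hη n
  refine ⟨2 * C, by positivity, ?_⟩
  intro M h c0 f y hc ν hν q
  have hh := hc.hpos
  have hν0 : 0 < ν := by linarith
  set G : Fin M → E3 → ℝ := fun k => Gf η (2 * q k / (8 * ν)) (1 / (8 * ν)) with hG
  have hGs : ∀ k, SC (G k) := fun k => (Gf_sc hη _ _).1
  have hGz : ∀ k, ZB (G k) := fun k => (Gf_sc hη _ _).2
  have hfs : SC f := ⟨hc.smooth, hc.compact⟩
  have e1 : (fun x => f x * Real.exp (-(∑ k, (2 * q k * md h η y k x + md h η y k x ^ 2)) /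
      (8 * ν))) = fun x => f x + c0 * Sm h y G x := by
    funext x
    have hGx : ∀ k, G k (h⁻¹ • (x - y k)) =
        Real.exp (-((2 * q k * md h η y k x + md h η y k x ^ 2) / (8 * ν))) - 1 := by
      intro k
      simp only [hG, Gf, exf, md]
      congr 3
      field_simp
    have hsum : -(∑ k, (2 * q k * md h η y k x + md h η y k x ^ 2)) / (8 * ν) =
        -(∑ k, (2 * q k * md h η y k x + md h η y k x ^ 2) / (8 * ν)) := by
      rw [← Finset.sum_div, neg_div]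
    have hclose : ∀ k, md h η y k x ≠ 0 → ‖x - y k‖ < h := by
      intro k hk
      by_contra hcon
      push Not at hcon
      apply hk
      apply hη.supp
      rw [norm_smul, norm_inv, Real.norm_eq_abs, abs_of_pos hh, inv_mul_eq_div, le_div_iff₀ hh]
      linarith
    rw [hsum]
    unfold Sm
    simp only [hGx]
    by_cases hx : ∃ k, md h η y k x ≠ 0
    · obtain ⟨k, hk⟩ := hx
      have h1 := hclose k hk
      have h2 : f x = c0 := hc.const k x (by linarith)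
      have h3 : ∀ l, l ≠ k → md h η y l x = 0 := by
        intro l hl
        by_contra hcon
        have h4 := hclose l hcon
        have h5 := hc.sep k l hl.symm
        have h6 : ‖y k - y l‖ ≤ ‖x - y l‖ + ‖x - y k‖ := by
          have : y k - y l = (x - y l) - (x - y k) := by abel
          rw [this]; exact norm_sub_le _ _
        linarith
      rw [exp_split _ k (fun l hl => by rw [h3 l hl]; simp), h2]
      ring
    · push Not at hx
      simp [hx]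
  rw [e1]
  refine (k1_add hfs (SC.sm hh y hGs) c0 α hα).trans ?_
  have e2 := k1_sm hh hGs hGz hc.sep α hα n hn'
  have e3 : ∑ k, ((∫ x, G k x ^ 2) + 3 ^ n * ∑ i, ∫ x, ((Dv (be3 i))^[n + 1] (G k) x) ^ 2) ≤
      C * ∑ k, ν⁻¹ * Real.exp (q k ^ 2 / (4 * ν)) := by
    rw [Finset.mul_sum]
    exact Finset.sum_le_sum fun k _ => hb ν hν (q k)
  have e4 : 0 ≤ h ^ (3 - α) := Real.rpow_nonneg hh.le _
  have e5 := e2.trans (mul_le_mul_of_nonneg_left e3 e4)
  have e6 := mul_le_mul_of_nonneg_left e5 (by positivity : 0 ≤ 2 * c0 ^ 2)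
  linarith

end Pool.Agent.Helper780_BE.V6
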