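import Pool.Agent.Helper780_BE.DefsU


set_option autoImplicit false

open MeasureTheory
open scoped Topology

namespace Pool.Agent.Helper780_BE.V8


open Pool.Agent.Helper780_BE Pool.Agent.Helper780_CQ Filter

/-- TARGET 1 -/
theorem tr_test {M n : ℕ} {h c0 : ℝ} {f η : E3 → ℝ} {y : Fin M → E3} (hη : Prof η)
    (hc : Cells h c0 f y) (ν : ℝ) (b : Fin n → Bool) : Test (Tr ν f (md h η y) b) := by
  constructor
  · unfold Tr Jm Qm
    refine Complex.ofRealCLM.contDiff.comp ?_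
    refine ContDiff.mul ?_ (contDiff_prod fun i _ => hc.smooth.comp (contDiff_apply ℝ E3 i))
    refine Real.contDiff_exp.comp ?_
    refine ContDiff.div_const (ContDiff.neg (ContDiff.sum fun k _ => ?_)) _
    refine ContDiff.pow (ContDiff.sum fun i _ => contDiff_const.mul ?_) 2
    unfold md
    exact hη.smooth.comp (((contDiff_apply ℝ E3 i).sub contDiff_const).const_smul h⁻¹)
  · refine HasCompactSupport.intro (K := Set.pi Set.univ fun _ : Fin n => tsupport f)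
      (isCompact_univ_pi fun _ => hc.compact) ?_
    intro x hx
    have : ∃ i, x i ∉ tsupport f := by
      by_contra hno
      push Not at hno
      exact hx fun i _ => hno i
    obtain ⟨i, hi⟩ := this
    have h0 : f (x i) = 0 := image_eq_zero_of_notMem_tsupport hi
    unfold Tr
    rw [Finset.prod_eq_zero (Finset.mem_univ i) h0, mul_zero, Complex.ofReal_zero]

/-- TARGET 2 -/
theorem prof : ∃ η : E3 → ℝ, Prof η := by
  let b : ContDiffBump (0 : E3) := ⟨1 / 4, 1 / 2, by norm_num, by norm_num⟩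
  refine ⟨b, b.contDiff, fun x => b.nonneg, fun x => b.le_one, fun x hx => ?_, b.integral_pos⟩
  apply b.zero_of_le_dist
  rw [dist_zero_right]
  show (1 / 2 : ℝ) ≤ ‖x‖
  linarith

theorem ft_scale (g : E3 → ℝ) (R : ℝ) (hR : 0 < R) (ξ : E3) :
    ft1 (fun x => ((R ^ (-(3 / 2) : ℝ) * g (R⁻¹ • x) : ℝ) : ℂ)) ξ =
      ((R ^ ((3 : ℝ) / 2) : ℝ) : ℂ) * ft1 (fun x => (g x : ℂ)) (R • ξ) := by
  unfold ft1
  obtain ⟨F, hF⟩ : ∃ F : E3 → ℂ, F = fun z =>
    Complex.exp (((-(2 * Real.pi * inner ℝ z (R • ξ)) : ℝ) : ℂ) * Complex.I) * (g z : ℂ) := ⟨_, rfl⟩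
  have h1 : (fun y : E3 => Complex.exp (((-(2 * Real.pi * inner ℝ y ξ) : ℝ) : ℂ) * Complex.I) *
      ((R ^ (-(3 / 2) : ℝ) * g (R⁻¹ • y) : ℝ) : ℂ)) =
      fun y => ((R ^ (-(3 / 2) : ℝ) : ℝ) : ℂ) * F (R⁻¹ • y) := by
    funext y
    rw [hF]
    have : inner ℝ (R⁻¹ • y) (R • ξ) = inner ℝ y ξ := by
      rw [real_inner_smul_left, real_inner_smul_right, ← mul_assoc, inv_mul_cancel₀ hR.ne', one_mul]
    simp only [this]
    push_cast
    ring
  rw [h1, ← hF, integral_const_mul, Measure.integral_comp_smul]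
  have h2 : Module.finrank ℝ E3 = 3 := by simp
  rw [h2]
  have h3 : |((R⁻¹) ^ 3)⁻¹| = R ^ 3 := by
    rw [inv_pow, inv_inv, abs_of_pos (by positivity)]
  rw [h3, Complex.real_smul, ← mul_assoc]
  congr 1
  rw [← Complex.ofReal_mul]
  congr 1
  rw [← Real.rpow_natCast, ← Real.rpow_add hR]
  norm_num

theorem k1_scale (α : ℝ) (g : E3 → ℝ) (R : ℝ) (hR : 0 < R) :
    k1 α (fun x => R ^ (-(3 / 2) : ℝ) * g (R⁻¹ • x)) = R ^ (-α) * k1 α g := by
  unfold k1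
  obtain ⟨G, hG⟩ : ∃ G : E3 → ℝ, G = fun ζ =>
    (2 * Real.pi * ‖ζ‖) ^ α * ‖ft1 (fun x => (g x : ℂ)) ζ‖ ^ 2 := ⟨_, rfl⟩
  have h1 : (fun ξ : E3 => (2 * Real.pi * ‖ξ‖) ^ α *
      ‖ft1 (fun x => ((R ^ (-(3 / 2) : ℝ) * g (R⁻¹ • x) : ℝ) : ℂ)) ξ‖ ^ 2) =
      fun ξ => (R ^ (-α) * R ^ 3) * G (R • ξ) := by
    funext ξ
    rw [ft_scale g R hR ξ, hG]
    simp only
    rw [norm_mul, mul_pow, Complex.norm_real, Real.norm_eq_abs, sq_abs, norm_smul,
      Real.norm_eq_abs, abs_of_pos hR]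
    have h2 : (R ^ ((3 : ℝ) / 2)) ^ 2 = R ^ 3 := by
      rw [← Real.rpow_natCast, ← Real.rpow_mul hR.le]
      norm_num
    have h3 : (2 * Real.pi * (R * ‖ξ‖)) ^ α = R ^ α * (2 * Real.pi * ‖ξ‖) ^ α := by
      rw [← Real.mul_rpow hR.le (by positivity)]
      congr 1
      ring
    have h4 : R ^ (-α) * R ^ α = 1 := by
      rw [← Real.rpow_add hR]
      simp
    rw [h2, h3]
    calc (2 * Real.pi * ‖ξ‖) ^ α * (R ^ 3 * ‖ft1 (fun x => (g x : ℂ)) (R • ξ)‖ ^ 2)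
        = (R ^ (-α) * R ^ α) * ((2 * Real.pi * ‖ξ‖) ^ α *
          (R ^ 3 * ‖ft1 (fun x => (g x : ℂ)) (R • ξ)‖ ^ 2)) := by rw [h4, one_mul]
      _ = _ := by ring
  rw [h1, ← hG, integral_const_mul, Measure.integral_comp_smul]
  have h2 : Module.finrank ℝ E3 = 3 := by simp
  rw [h2, abs_of_pos (by positivity), smul_eq_mul]
  field_simp

theorem norm_scale (g : E3 → ℝ) (R : ℝ) (hR : 0 < R) :
    ∫ x, (R ^ (-(3 / 2) : ℝ) * g (R⁻¹ • x)) ^ 2 = ∫ x, g x ^ 2 := by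
  have h1 : (fun x : E3 => (R ^ (-(3 / 2) : ℝ) * g (R⁻¹ • x)) ^ 2) =
      fun x => (R ^ 3)⁻¹ * (fun z => g z ^ 2) (R⁻¹ • x) := by
    funext x
    have h2 : (R ^ (-(3 / 2) : ℝ)) ^ 2 = (R ^ 3)⁻¹ := by
      rw [← Real.rpow_natCast, ← Real.rpow_mul hR.le, ← Real.rpow_natCast, ← Real.rpow_neg hR.le]
      norm_num
    rw [mul_pow, h2]
  rw [h1, integral_const_mul, Measure.integral_comp_smul volume (fun z : E3 => g z ^ 2) R⁻¹]
  have h2 : Module.finrank ℝ E3 = 3 := by simp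
  rw [h2]
  have h3 : |((R⁻¹) ^ 3)⁻¹| = R ^ 3 := by
    rw [inv_pow, inv_inv, abs_of_pos (by positivity)]
  rw [h3, smul_eq_mul, ← mul_assoc, inv_mul_cancel₀ (by positivity), one_mul]

/-- the centers -/
noncomputable def ctr (h : ℝ) (m : ℕ) (k : Fin (m ^ 3)) : E3 :=
  WithLp.toLp 2 (fun i => 4 * h * (((finFunctionFinEquiv (m := m) (n := 3)).symm k i : ℕ) : ℝ))

theorem ctr_norm (h : ℝ) (hh : 0 < h) (m : ℕ) (R : ℝ) (hR : 4 * h * m ≤ R / 4) (k : Fin (m ^ 3)) :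
    ‖ctr h m k‖ ≤ R / 2 := by
  have hR0 : 0 ≤ R / 4 := le_trans (by positivity) hR
  have h1 : ‖ctr h m k‖ ^ 2 = ∑ i : Fin 3,
      (4 * h * (((finFunctionFinEquiv (m := m) (n := 3)).symm k i : ℕ) : ℝ)) ^ 2 := by
    rw [EuclideanSpace.norm_sq_eq]
    refine Finset.sum_congr rfl fun i _ => ?_
    rw [Real.norm_eq_abs, sq_abs]
    rfl
  have h2 : ∀ i : Fin 3, (4 * h * (((finFunctionFinEquiv (m := m) (n := 3)).symm k i : ℕ) : ℝ)) ^ 2 ≤
      (R / 4) ^ 2 := by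
    intro i
    have h3 : (((finFunctionFinEquiv (m := m) (n := 3)).symm k i : ℕ) : ℝ) ≤ m := by
      exact_mod_cast ((finFunctionFinEquiv (m := m) (n := 3)).symm k i).2.le
    have h4 : 4 * h * (((finFunctionFinEquiv (m := m) (n := 3)).symm k i : ℕ) : ℝ) ≤ 4 * h * m :=
      mul_le_mul_of_nonneg_left h3 (by positivity)
    exact pow_le_pow_left₀ (by positivity) (h4.trans hR) 2
  have h5 : ‖ctr h m k‖ ^ 2 ≤ (R / 2) ^ 2 := by
    rw [h1, Fin.sum_univ_three]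
    nlinarith [h2 0, h2 1, h2 2]
  exact (pow_le_pow_iff_left₀ (norm_nonneg _) (by linarith) (by norm_num)).1 h5

theorem ctr_sep (h : ℝ) (hh : 0 < h) (m : ℕ) (k l : Fin (m ^ 3)) (hkl : k ≠ l) :
    4 * h ≤ ‖ctr h m k - ctr h m l‖ := by
  have h1 : (finFunctionFinEquiv (m := m) (n := 3)).symm k ≠
      (finFunctionFinEquiv (m := m) (n := 3)).symm l :=
    fun h => hkl (Equiv.injective _ h)
  obtain ⟨i, hi⟩ := Function.ne_iff.1 h1
  have h2 : ‖(ctr h m k - ctr h m l) i‖ ≤ ‖ctr h m k - ctr h m l‖ := PiLp.norm_apply_le _ i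
  refine le_trans ?_ h2
  have h3 : (ctr h m k - ctr h m l) i = 4 * h *
      ((((finFunctionFinEquiv (m := m) (n := 3)).symm k i : ℕ) : ℝ) -
        (((finFunctionFinEquiv (m := m) (n := 3)).symm l i : ℕ) : ℝ)) := by
    rw [mul_sub]
    rfl
  rw [h3, Real.norm_eq_abs, abs_mul, abs_of_pos (by positivity)]
  have h4 : (1 : ℝ) ≤ |(((finFunctionFinEquiv (m := m) (n := 3)).symm k i : ℕ) : ℝ) -
        (((finFunctionFinEquiv (m := m) (n := 3)).symm l i : ℕ) : ℝ)| := by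
    have h5 : (((finFunctionFinEquiv (m := m) (n := 3)).symm k i : ℕ) : ℤ) -
        (((finFunctionFinEquiv (m := m) (n := 3)).symm l i : ℕ) : ℤ) ≠ 0 := by
      intro h6
      apply hi
      apply Fin.ext
      omega
    have h6 := Int.one_le_abs h5
    exact_mod_cast h6
  nlinarith

/-- TARGET 3 -/
theorem geom (α : ℝ) (hα : 0 < α) : ∃ c1 c3 K : ℝ, 0 < c1 ∧ 0 < c3 ∧ 0 < K ∧
    ∀ R h : ℝ, 0 < R → 0 < h → h ≤ c3 * R → ∃ (M : ℕ) (y : Fin M → E3) (f : E3 → ℝ),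
      Cells h (c1 * R ^ (-(3 / 2) : ℝ)) f y ∧ c3 * (R / h) ^ 3 ≤ M ∧ (M : ℝ) ≤ K * (R / h) ^ 3 ∧
      k1 α f ≤ K * R ^ (-α) := by
  let b : ContDiffBump (0 : E3) := ⟨1, 2, by norm_num, by norm_num⟩
  obtain ⟨s, hs⟩ : ∃ s : ℝ, s = ∫ x, (b x) ^ 2 := ⟨_, rfl⟩
  have hbc : HasCompactSupport (fun x : E3 => (b x) ^ 2) :=
    b.hasCompactSupport.comp_left (g := fun z : ℝ => z ^ 2) (by norm_num)
  have hs0 : 0 < s := by
    rw [hs]
    refine Continuous.integral_pos_of_hasCompactSupport_nonneg_nonzero (b.continuous.pow 2) hbc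
      (fun x => sq_nonneg _) (x := 0) ?_
    have : b 0 = 1 := b.one_of_mem_closedBall (by
      rw [Metric.mem_closedBall, dist_self]
      exact b.rIn_pos.le)
    rw [this]
    norm_num
  obtain ⟨c1, hc1⟩ : ∃ c1 : ℝ, c1 = (√s)⁻¹ := ⟨_, rfl⟩
  have hc10 : 0 < c1 := by rw [hc1]; positivity
  have hc1s : c1 ^ 2 * s = 1 := by
    rw [hc1, inv_pow, Real.sq_sqrt hs0.le, inv_mul_cancel₀ hs0.ne']
  obtain ⟨f1, hf1⟩ : ∃ f1 : E3 → ℝ, f1 = fun x => c1 * b x := ⟨_, rfl⟩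
  have hn1 : ∫ x, f1 x ^ 2 = 1 := by
    rw [hf1]
    simp only [mul_pow]
    rw [integral_const_mul, ← hs, hc1s]
  refine ⟨c1, 1 / 32768, |k1 α f1| + 1, hc10, by norm_num, by positivity, ?_⟩
  intro R h hR hh hhR
  obtain ⟨m, hm⟩ : ∃ m : ℕ, m = ⌊R / (16 * h)⌋₊ := ⟨_, rfl⟩
  have hm1 : (m : ℝ) ≤ R / (16 * h) := by rw [hm]; exact Nat.floor_le (by positivity)
  have hm2 : R / (16 * h) < m + 1 := by rw [hm]; exact Nat.lt_floor_add_one _
  have hq : 2 ≤ R / (16 * h) := by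
    rw [le_div_iff₀ (by positivity)]
    linarith
  have hm3 : R / (32 * h) ≤ m := by
    have : R / (16 * h) = 2 * (R / (32 * h)) := by
      field_simp
      norm_num
    linarith
  have hmR : 4 * h * m ≤ R / 4 := by
    calc 4 * h * m ≤ 4 * h * (R / (16 * h)) := mul_le_mul_of_nonneg_left hm1 (by positivity)
      _ = R / 4 := by
        field_simp
        norm_num
  have hM : (((m ^ 3 : ℕ)) : ℝ) = (m : ℝ) ^ 3 := by push_cast; rfl
  refine ⟨m ^ 3, ctr h m, fun x => R ^ (-(3 / 2) : ℝ) * f1 (R⁻¹ • x), ?_, ?_, ?_, ?_⟩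
  · refine ⟨hh, by positivity, ?_, ?_, ?_, ?_, ?_⟩
    · rw [hf1]
      exact contDiff_const.mul (contDiff_const.mul (b.contDiff.comp (contDiff_id.const_smul R⁻¹)))
    · have h1 : HasCompactSupport (fun x : E3 => b (R⁻¹ • x)) :=
        b.hasCompactSupport.comp_homeomorph (Homeomorph.smulOfNeZero R⁻¹ (inv_ne_zero hR.ne'))
      rw [hf1]
      have h2 : (fun x : E3 => R ^ (-(3 / 2) : ℝ) * (fun x => c1 * b x) (R⁻¹ • x)) =
          fun x => (R ^ (-(3 / 2) : ℝ) * c1) * b (R⁻¹ • x) := by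
        funext x
        ring
      rw [h2]
      exact HasCompactSupport.mul_left h1
    · rw [norm_scale f1 R hR, hn1]
    · intro k x hx
      have h1 := ctr_norm h hh m R hmR k
      have h2 : ‖x‖ ≤ ‖x - ctr h m k‖ + ‖ctr h m k‖ := by
        calc ‖x‖ = ‖(x - ctr h m k) + ctr h m k‖ := by rw [sub_add_cancel]
          _ ≤ _ := norm_add_le _ _
      have h3 : b (R⁻¹ • x) = 1 := b.one_of_mem_closedBall (by
        rw [Metric.mem_closedBall, dist_zero_right, norm_smul, norm_inv, Real.norm_eq_abs,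
          abs_of_pos hR]
        show R⁻¹ * ‖x‖ ≤ 1
        rw [inv_mul_le_iff₀ hR]
        linarith)
      rw [hf1]
      simp only
      rw [h3]
      ring
    · intro k l hkl
      exact ctr_sep h hh m k l hkl
  · rw [hM]
    calc 1 / 32768 * (R / h) ^ 3 = (R / (32 * h)) ^ 3 := by
          field_simp
          norm_num
      _ ≤ (m : ℝ) ^ 3 := pow_le_pow_left₀ (by positivity) hm3 3
  · rw [hM]
    have h1 : R / (16 * h) ≤ R / h :=
      div_le_div_of_nonneg_left hR.le hh (by linarith)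
    calc (m : ℝ) ^ 3 ≤ (R / h) ^ 3 := pow_le_pow_left₀ (Nat.cast_nonneg _) (hm1.trans h1) 3
      _ = 1 * (R / h) ^ 3 := (one_mul _).symm
      _ ≤ (|k1 α f1| + 1) * (R / h) ^ 3 :=
          mul_le_mul_of_nonneg_right (by linarith [abs_nonneg (k1 α f1)]) (by positivity)
  · rw [k1_scale α f1 R hR, mul_comm]
    refine mul_le_mul_of_nonneg_right ?_ (by positivity)
    linarith [le_abs_self (k1 α f1)]

end Pool.Agent.Helper780_BE.V8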