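import Pool.Agent.Helper780_BE.A9
import Pool.Agent.Helper780_BE.V6
import Pool.Agent.Helper780_BE.V8
import Pool.Agent.Helper780_BE.DefsU


set_option autoImplicit false

open MeasureTheory
open scoped Topology

namespace Pool.Agent.Helper780_BE.V7

open Pool.Agent.Helper780_BE.A9 (slice)
open Pool.Agent.Helper780_BE.V6 (one_kin)
open Pool.Agent.Helper780_BE.V8 (tr_test)

open Pool.Agent.Helper780_BE Pool.Agent.Helper780_CQ Filter




theorem v7_sg (b : Bool) : sg b ^ 2 = 1 := by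
  unfold sg
  cases b <;> norm_num

theorem v7_slice {M n : ℕ} (ν : ℝ) (f : E3 → ℝ) (φ : Fin M → E3 → ℝ) (b : Fin (n + 1) → Bool)
    (i : Fin (n + 1)) (t : E3) (x' : Fin n → E3) :
    Tr ν f φ b (i.insertNth (α := fun _ => E3) t x') =
      ((Jm ν (fun j => sg (b (i.succAbove j))) φ x' * ∏ j, f (x' j) : ℝ) : ℂ) *
      ((f t * Real.exp (-(∑ k, (2 * (sg (b i) * Qm (fun j => sg (b (i.succAbove j))) φ x' k) * φ k t +
        φ k t ^ 2)) / (8 * ν)) : ℝ) : ℂ) := by
  have hQ : ∀ k, Qm (fun i => sg (b i)) φ (i.insertNth (α := fun _ => E3) t x') k =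
      sg (b i) * φ k t + Qm (fun j => sg (b (i.succAbove j))) φ x' k := by
    intro k
    unfold Qm
    rw [Fin.sum_univ_succAbove _ i]
    simp only [Fin.insertNth_apply_same, Fin.insertNth_apply_succAbove]
  have hP : ∏ j, f (i.insertNth (α := fun _ => E3) t x' j) = f t * ∏ j, f (x' j) := by
    rw [Fin.prod_univ_succAbove _ i]
    simp only [Fin.insertNth_apply_same, Fin.insertNth_apply_succAbove]
  unfold Tr
  rw [← Complex.ofReal_mul, hP]
  congr 1
  unfold Jm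
  simp only [hQ]
  have hS : ∑ k, (sg (b i) * φ k t + Qm (fun j => sg (b (i.succAbove j))) φ x' k) ^ 2 =
      ∑ k, Qm (fun j => sg (b (i.succAbove j))) φ x' k ^ 2 +
      ∑ k, (2 * (sg (b i) * Qm (fun j => sg (b (i.succAbove j))) φ x' k) * φ k t + φ k t ^ 2) := by
    rw [← Finset.sum_add_distrib]
    refine Finset.sum_congr rfl fun k _ => ?_
    have := v7_sg (b i)
    linear_combination (φ k t ^ 2) * this
  rw [hS, neg_add, add_div, Real.exp_add]
  ring

theorem v7_ft1 (A : ℝ) (u : E3 → ℂ) (ζ : E3) : ft1 (fun t => (A : ℂ) * u t) ζ = (A : ℂ) * ft1 u ζ := by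
  unfold ft1
  rw [← integral_const_mul]
  refine integral_congr_ae (Eventually.of_forall fun y => ?_)
  show _ * ((A : ℂ) * u y) = (A : ℂ) * (_ * u y)
  ring

theorem v7_int {M n : ℕ} (α ν : ℝ) (f : E3 → ℝ) (φ : Fin M → E3 → ℝ) (b : Fin (n + 1) → Bool)
    (i : Fin (n + 1)) (x' : Fin n → E3) :
    ∫ ζ : E3, (2 * Real.pi * ‖ζ‖) ^ α *
        ‖ft1 (fun t => Tr ν f φ b (i.insertNth (α := fun _ => E3) t x')) ζ‖ ^ 2 =
      (Jm ν (fun j => sg (b (i.succAbove j))) φ x' * ∏ j, f (x' j)) ^ 2 *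
      k1 α (fun t => f t * Real.exp (-(∑ k, (2 * (sg (b i) *
        Qm (fun j => sg (b (i.succAbove j))) φ x' k) * φ k t + φ k t ^ 2)) / (8 * ν))) := by
  simp only [v7_slice, v7_ft1]
  unfold k1
  rw [← integral_const_mul]
  refine integral_congr_ae (Eventually.of_forall fun ζ => ?_)
  simp only [norm_mul, Complex.norm_real, mul_pow, Real.norm_eq_abs, sq_abs]
  ring

theorem v7_norm {M n : ℕ} (ν : ℝ) (f : E3 → ℝ) (φ : Fin M → E3 → ℝ) (b : Fin n → Bool)
    (x : Fin n → E3) : ‖Tr ν f φ b x‖ ^ 2 = (Jm ν (fun j => sg (b j)) φ x * ∏ j, f (x j)) ^ 2 := by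
  unfold Tr
  rw [Complex.norm_real, Real.norm_eq_abs, sq_abs]

theorem v7_upd {M n : ℕ} (ν : ℝ) (hν : ν ≠ 0) (φ : Fin M → E3 → ℝ) (c : Fin n → ℝ) (ε : ℝ) (hε : ε ^ 2 = 1)
    (x : Fin n → E3) (k : Fin M) :
    Jm ν c φ x ^ 2 * Real.exp ((ε * Qm c φ x k) ^ 2 / (4 * ν)) = Jm ν c (Function.update φ k 0) x ^ 2 := by
  have hk : Qm c (Function.update φ k 0) x k = 0 := by
    unfold Qm
    rw [Function.update_self]
    simp
  have hl : ∀ l, l ≠ k → Qm c (Function.update φ k 0) x l = Qm c φ x l := by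
    intro l hlk
    unfold Qm
    rw [Function.update_of_ne hlk]
  have hS : ∑ l, Qm c φ x l ^ 2 = Qm c φ x k ^ 2 + ∑ l, Qm c (Function.update φ k 0) x l ^ 2 := by
    rw [← Finset.add_sum_erase _ _ (Finset.mem_univ k),
      ← Finset.add_sum_erase _ (fun l => Qm c (Function.update φ k 0) x l ^ 2) (Finset.mem_univ k)]
    simp only [hk]
    have : ∑ l ∈ Finset.univ.erase k, Qm c φ x l ^ 2 =
        ∑ l ∈ Finset.univ.erase k, Qm c (Function.update φ k 0) x l ^ 2 :=
      Finset.sum_congr rfl fun l hlm => by rw [hl l (Finset.ne_of_mem_erase hlm)]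
    rw [this]
    ring
  unfold Jm
  rw [hS, ← Real.exp_nat_mul, ← Real.exp_nat_mul, ← Real.exp_add, mul_pow, hε]
  congr 1
  push_cast
  field_simp
  ring

theorem v7_cc {M n : ℕ} (ν : ℝ) (f : E3 → ℝ) (hf : Continuous f) (hfc : HasCompactSupport f)
    (φ : Fin M → E3 → ℝ) (hφ : ∀ k, Continuous (φ k)) (b : Fin n → Bool) :
    Integrable (fun x : Fin n → E3 => ‖Tr ν f φ b x‖ ^ 2) := by
  apply Continuous.integrable_of_hasCompactSupport
  · simp only [v7_norm]
    unfold Jm Qm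
    have : ∀ (k : Fin M) (j : Fin n), Continuous (fun x : Fin n → E3 => φ k (x j)) :=
      fun k j => (hφ k).comp (continuous_apply j)
    fun_prop
  · refine HasCompactSupport.intro (K := Set.pi Set.univ (fun _ : Fin n => tsupport f))
      (isCompact_univ_pi (fun _ => hfc)) fun x hx => ?_
    have : ∃ j, x j ∉ tsupport f := by
      by_contra hcon
      push Not at hcon
      exact hx (fun j _ => hcon j)
    obtain ⟨j, hj⟩ := this
    rw [v7_norm, Finset.prod_eq_zero (Finset.mem_univ j) (image_eq_zero_of_notMem_tsupport (f := f) hj)]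
    norm_num

theorem v7_kinE {n : ℕ} (α : ℝ) (hα : 0 ≤ α) (ψ : (Fin (n + 1) → E3) → ℂ) (hψ : Test ψ) :
    kinE α ψ = ∑ i : Fin (n + 1), ∫ x' : Fin n → E3, ∫ ζ : E3, (2 * Real.pi * ‖ζ‖) ^ α *
        ‖ft1 (fun y => ψ (i.insertNth (α := fun _ => E3) y x')) ζ‖ ^ 2 := by
  unfold kinE
  simp only [Finset.sum_mul]
  rw [integral_finsetSum _ (fun i _ => (slice ψ hψ i α hα).1)]
  exact Finset.sum_congr rfl fun i _ => (slice ψ hψ i α hα).2.2

theorem v7_double {n : ℕ} (i : Fin (n + 1)) (G : (Fin n → Bool) → ℝ) :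
    ∑ b : Fin (n + 1) → Bool, G (fun j => b (i.succAbove j)) = 2 * ∑ b : Fin n → Bool, G b := by
  rw [← (Fin.insertNthEquiv (fun _ => Bool) i).sum_comp, Fintype.sum_prod_type]
  simp only [Fin.insertNthEquiv_apply, Fin.insertNth_apply_succAbove, Fintype.sum_bool]
  ring

/-- TARGET -/
theorem kin_bound {η : E3 → ℝ} (hη : Prof η) (α : ℝ) (hα : 0 < α) : ∃ C : ℝ, 0 < C ∧
    ∀ {M : ℕ} (h c0 : ℝ) (f : E3 → ℝ) (y : Fin M → E3), Cells h c0 f y → ∀ ν : ℝ, 1 ≤ ν →
      ∀ n : ℕ, kn α ν f (md h η y) 0 = 0 ∧ kn α ν f (md h η y) (n + 1) ≤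
        ((n : ℝ) + 1) * (2 * k1 α f * zn ν f (md h η y) n + C * c0 ^ 2 * h ^ (3 - α) / ν *
          ∑ k, zn ν f (Function.update (md h η y) k 0) n) := by
  obtain ⟨C, hC, hk⟩ := one_kin hη α hα
  refine ⟨C, hC, fun {M} h c0 f y hc ν hν n => ⟨?_, ?_⟩⟩
  · unfold kn kinE
    simp
  have hν0 : ν ≠ 0 := by positivity
  set φ := md h η y with hφd
  have hfC : Continuous f := hc.smooth.continuous
  have hηC : Continuous η := hη.smooth.continuous
  have hφC : ∀ k, Continuous (φ k) := by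
    intro k
    rw [hφd]
    unfold md
    fun_prop
  have hφU : ∀ k l, Continuous ((Function.update φ k 0) l) := by
    intro k l
    by_cases hlk : l = k
    · rw [hlk, Function.update_self]
      exact continuous_const
    · rw [Function.update_of_ne hlk]
      exact hφC l
  set N : (Fin n → Bool) → ℝ := fun b' => ∫ x' : Fin n → E3, ‖Tr ν f φ b' x'‖ ^ 2 with hN
  set NU : Fin M → (Fin n → Bool) → ℝ := fun k b' =>
    ∫ x' : Fin n → E3, ‖Tr ν f (Function.update φ k 0) b' x'‖ ^ 2 with hNU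
  set K0 : ℝ := C * c0 ^ 2 * h ^ (3 - α) with hK0
  have hstep : ∀ (b : Fin (n + 1) → Bool) (i : Fin (n + 1)),
      ∫ x' : Fin n → E3, ∫ ζ : E3, (2 * Real.pi * ‖ζ‖) ^ α *
        ‖ft1 (fun t => Tr ν f φ b (i.insertNth (α := fun _ => E3) t x')) ζ‖ ^ 2 ≤
      2 * k1 α f * N (fun j => b (i.succAbove j)) +
        K0 / ν * ∑ k, NU k (fun j => b (i.succAbove j)) := by
    intro b i
    set b' : Fin n → Bool := fun j => b (i.succAbove j) with hb'
    have hint1 := v7_cc ν f hfC hc.compact φ hφC b'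
    have hint2 : ∀ k, Integrable (fun x : Fin n → E3 => ‖Tr ν f (Function.update φ k 0) b' x‖ ^ 2) :=
      fun k => v7_cc ν f hfC hc.compact _ (hφU k) b'
    have hR : Integrable (fun x' : Fin n → E3 => 2 * k1 α f * ‖Tr ν f φ b' x'‖ ^ 2 +
        K0 / ν * ∑ k, ‖Tr ν f (Function.update φ k 0) b' x'‖ ^ 2) :=
      (hint1.const_mul _).add ((integrable_finsetSum _ (fun k _ => hint2 k)).const_mul _)
    have hRi : ∫ x' : Fin n → E3, (2 * k1 α f * ‖Tr ν f φ b' x'‖ ^ 2 +
        K0 / ν * ∑ k, ‖Tr ν f (Function.update φ k 0) b' x'‖ ^ 2) =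
        2 * k1 α f * N b' + K0 / ν * ∑ k, NU k b' := by
      rw [integral_add (hint1.const_mul _) ((integrable_finsetSum _ (fun k _ => hint2 k)).const_mul _),
        integral_const_mul, integral_const_mul, integral_finsetSum _ (fun k _ => hint2 k)]
    rw [← hRi]
    refine integral_mono (slice _ (tr_test hη hc ν b) i α hα.le).2.1 hR fun x' => ?_
    show ∫ ζ : E3, (2 * Real.pi * ‖ζ‖) ^ α *
        ‖ft1 (fun t => Tr ν f φ b (i.insertNth (α := fun _ => E3) t x')) ζ‖ ^ 2 ≤ _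
    rw [v7_int]
    have h1 := hk h c0 f y hc ν hν (fun k => sg (b i) * Qm (fun j => sg (b (i.succAbove j))) φ x' k)
    refine (mul_le_mul_of_nonneg_left h1 (sq_nonneg _)).trans (le_of_eq ?_)
    show _ = 2 * k1 α f * ‖Tr ν f φ b' x'‖ ^ 2 + K0 / ν * ∑ k, ‖Tr ν f (Function.update φ k 0) b' x'‖ ^ 2
    simp only [v7_norm, mul_pow, ← v7_upd ν hν0 φ (fun j => sg (b' j)) (sg (b i)) (v7_sg _) x']
    rw [mul_add, Finset.mul_sum, Finset.mul_sum, Finset.mul_sum, hK0]
    congr 1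
    · ring
    · refine Finset.sum_congr rfl fun k _ => ?_
      ring
  have hkin : kn α ν f φ (n + 1) ≤ ∑ b : Fin (n + 1) → Bool, (1 / 2 : ℝ) ^ (n + 1) *
      ∑ i : Fin (n + 1), (2 * k1 α f * N (fun j => b (i.succAbove j)) +
        K0 / ν * ∑ k, NU k (fun j => b (i.succAbove j))) := by
    unfold kn
    refine Finset.sum_le_sum fun b _ => mul_le_mul_of_nonneg_left ?_ (by positivity)
    rw [v7_kinE α hα.le _ (tr_test hη hc ν b)]
    exact Finset.sum_le_sum fun i _ => hstep b i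
  refine hkin.trans (le_of_eq ?_)
  rw [← Finset.mul_sum, Finset.sum_comm]
  have hi : ∀ i : Fin (n + 1), ∑ b : Fin (n + 1) → Bool, (2 * k1 α f * N (fun j => b (i.succAbove j)) +
      K0 / ν * ∑ k, NU k (fun j => b (i.succAbove j))) =
      2 * ∑ b' : Fin n → Bool, (2 * k1 α f * N b' + K0 / ν * ∑ k, NU k b') :=
    fun i => v7_double i (fun b' => 2 * k1 α f * N b' + K0 / ν * ∑ k, NU k b')
  simp only [hi]
  rw [Finset.sum_const, Finset.card_univ, Fintype.card_fin, nsmul_eq_mul, Finset.sum_add_distrib,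
    ← Finset.mul_sum, ← Finset.mul_sum, Finset.sum_comm]
  have hz : zn ν f φ n = (1 / 2) ^ n * ∑ b', N b' := by
    unfold zn
    rw [Finset.mul_sum]
  have hzU : ∀ k, zn ν f (Function.update φ k 0) n = (1 / 2) ^ n * ∑ b', NU k b' := by
    intro k
    unfold zn
    rw [Finset.mul_sum]
  simp only [hz, hzU]
  rw [← Finset.mul_sum]
  push_cast
  rw [pow_succ]
  ring


end Pool.Agent.Helper780_BE.V7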