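import Pool.Agent.Helper780_BE.A12
import Pool.Agent.Helper780_BE.A9
import Pool.Agent.Helper780_BE.DefsU

set_option autoImplicit false

open MeasureTheory
open scoped Topology

namespace Pool.Agent.Helper780_BE.V9

open Pool.Agent.Helper780_BE.A12 (lower)
open Pool.Agent.Helper780_BE.A9 (slice planch)

open Pool.Agent.Helper780_BE Pool.Agent.Helper780_CQ Filter




theorem ft_smul {N : ℕ} (c : ℂ) (ψ : (Fin N → E3) → ℂ) (ξ : Fin N → E3) :
    ft (fun x => c * ψ x) ξ = c * ft ψ ξ := by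
  unfold ft
  rw [← integral_const_mul]
  congr 1; ext x; ring

theorem kinE_smul {N : ℕ} (α : ℝ) (c : ℂ) (ψ : (Fin N → E3) → ℂ) :
    kinE α (fun x => c * ψ x) = ‖c‖ ^ 2 * kinE α ψ := by
  unfold kinE
  rw [← integral_const_mul]
  congr 1; ext ξ
  rw [ft_smul, norm_mul]; ring

theorem potE_smul {N : ℕ} (e : Fin N → ℝ) (c : ℂ) (ψ : (Fin N → E3) → ℂ) :
    potE e (fun x => c * ψ x) = ‖c‖ ^ 2 * potE e ψ := by
  unfold potE
  rw [← integral_const_mul]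
  congr 1; ext ξ
  rw [norm_mul]; ring

theorem nrm_smul {N : ℕ} (c : ℂ) (ψ : (Fin N → E3) → ℂ) :
    ∫ x, ‖c * ψ x‖ ^ 2 = ‖c‖ ^ 2 * ∫ x, ‖ψ x‖ ^ 2 := by
  rw [← integral_const_mul]
  congr 1; ext ξ
  rw [norm_mul]; ring

theorem Test.smul {N : ℕ} {ψ : (Fin N → E3) → ℂ} (h : Test ψ) (c : ℂ) :
    Test (fun x => c * ψ x) :=
  ⟨contDiff_const.mul h.smooth, h.compact.mul_left⟩

theorem Test.sq_integrable {N : ℕ} {ψ : (Fin N → E3) → ℂ} (h : Test ψ) :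
    Integrable (fun x => ‖ψ x‖ ^ 2) := by
  apply Continuous.integrable_of_hasCompactSupport
  · exact h.smooth.continuous.norm.pow 2
  · have := h.compact.norm
    exact this.comp_left (g := fun t : ℝ => t ^ 2) (by norm_num)

theorem Test.sq_cs {N : ℕ} {ψ : (Fin N → E3) → ℂ} (h : Test ψ) :
    HasCompactSupport (fun x => ‖ψ x‖ ^ 2) :=
  h.compact.norm.comp_left (g := fun t : ℝ => t ^ 2) (by norm_num)

theorem Test.sq_cont {N : ℕ} {ψ : (Fin N → E3) → ℂ} (h : Test ψ) :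
    Continuous (fun x => ‖ψ x‖ ^ 2) := h.smooth.continuous.norm.pow 2

theorem nrm_pos {N : ℕ} {ψ : (Fin N → E3) → ℂ} (h : Test ψ) (hne : ψ ≠ 0) :
    0 < ∫ x, ‖ψ x‖ ^ 2 := by
  obtain ⟨x₀, hx₀⟩ := Function.ne_iff.1 hne
  have h1 : ψ x₀ ≠ 0 := hx₀
  exact Continuous.integral_pos_of_hasCompactSupport_nonneg_nonzero (Test.sq_cont h) (Test.sq_cs h)
    (fun x => by positivity) (pow_ne_zero 2 (norm_ne_zero_iff.2 h1))

theorem exists_test (N : ℕ) : ∃ ψ : (Fin N → E3) → ℂ, Test ψ ∧ ∫ x, ‖ψ x‖ ^ 2 = 1 ∧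
    ∀ x, ψ x ≠ 0 → ‖x‖ < 1 := by
  let b : ContDiffBump (0 : Fin N → E3) := ⟨1 / 2, 1, by norm_num, by norm_num⟩
  have hT : Test (fun x : Fin N → E3 => ((b x : ℝ) : ℂ)) := by
    refine ⟨?_, ?_⟩
    · exact Complex.ofRealCLM.contDiff.comp b.contDiff
    · exact b.hasCompactSupport.comp_left (g := fun t : ℝ => (t : ℂ)) (by simp)
  have hne : (fun x : Fin N → E3 => ((b x : ℝ) : ℂ)) ≠ 0 := by
    intro h
    have := congrFun h 0
    have h1 : b (0 : Fin N → E3) = 1 := b.one_of_mem_closedBall (by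
      simp [b])
    simp [h1] at this
  have hp := nrm_pos hT hne
  set s := ∫ x : Fin N → E3, ‖((b x : ℝ) : ℂ)‖ ^ 2 with hs
  refine ⟨fun x => (((√s)⁻¹ : ℝ) : ℂ) * ((b x : ℝ) : ℂ), Test.smul hT _, ?_, ?_⟩
  · rw [nrm_smul]
    rw [Complex.norm_real, Real.norm_eq_abs, sq_abs, inv_pow, Real.sq_sqrt hp.le]
    exact inv_mul_cancel₀ hp.ne'
  · intro x hx
    have h2 : b x ≠ 0 := by
      intro h; apply hx; simp [h]
    have h3 : x ∈ Function.support b := h2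
    rw [b.support_eq] at h3
    simpa [b] using h3

/-- TARGET 1 -/
theorem e0_le (α : ℝ) (hα : 1 < α) (n : ℕ) : (energySet α n).Nonempty ∧ BddBelow (energySet α n) ∧
    ∀ (e : Fin n → ℝ), (∀ i, e i = 1 ∨ e i = -1) → ∀ (ψ : (Fin n → E3) → ℂ), Test ψ →
      E0 α n * ∫ x, ‖ψ x‖ ^ 2 ≤ kinE α ψ + potE e ψ := by
  have hB : BddBelow (energySet α n) := by
    rcases Nat.eq_zero_or_pos n with hn | hn
    · subst hn
      refine ⟨0, ?_⟩
      rintro E ⟨e, ψ, -, -, -, rfl⟩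
      simp [kinE, potE]
    · obtain ⟨C, hC, H⟩ := lower α hα
      refine ⟨-(C * (n : ℝ) ^ ((α ^ 2 + 3 * α - 3) / ((α - 1) * (α + 3)))), ?_⟩
      rintro E ⟨e, ψ, he, hψ, h1, rfl⟩
      have := H n hn e he ψ hψ
      rw [h1, mul_one] at this
      exact this
  refine ⟨?_, hB, ?_⟩
  · obtain ⟨ψ, hψ, h1, -⟩ := exists_test n
    exact ⟨_, fun _ => 1, ψ, fun _ => Or.inl rfl, hψ, h1, rfl⟩
  · intro e he ψ hψ
    by_cases hne : ψ = 0
    · subst hne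
      have h1 : kinE α (0 : (Fin n → E3) → ℂ) = 0 := by simp [kinE, ft]
      have h2 : potE e (0 : (Fin n → E3) → ℂ) = 0 := by simp [potE]
      simp [h1, h2]
    · have hp := nrm_pos hψ hne
      set s := ∫ x : Fin n → E3, ‖ψ x‖ ^ 2 with hs
      have hc : ‖(((√s)⁻¹ : ℝ) : ℂ)‖ ^ 2 = s⁻¹ := by
        rw [Complex.norm_real, Real.norm_eq_abs, sq_abs, inv_pow, Real.sq_sqrt hp.le]
      have hmem : s⁻¹ * kinE α ψ + s⁻¹ * potE e ψ ∈ energySet α n := by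
        refine ⟨e, fun x => (((√s)⁻¹ : ℝ) : ℂ) * ψ x, he, Test.smul hψ _, ?_, ?_⟩
        · rw [nrm_smul, hc, ← hs]
          exact inv_mul_cancel₀ hp.ne'
        · rw [kinE_smul, potE_smul, hc]
      have h3 : E0 α n ≤ s⁻¹ * kinE α ψ + s⁻¹ * potE e ψ := csInf_le hB hmem
      have h4 : E0 α n * s ≤ (s⁻¹ * kinE α ψ + s⁻¹ * potE e ψ) * s :=
        mul_le_mul_of_nonneg_right h3 hp.le
      have h5 : (s⁻¹ * kinE α ψ + s⁻¹ * potE e ψ) * s = kinE α ψ + potE e ψ := by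
        field_simp
      linarith


/-- the tuple with last entry `z.1` -/
noncomputable def sn {n : ℕ} (z : E3 × (Fin n → E3)) : Fin (n + 1) → E3 :=
  @Fin.snoc n (fun _ => E3) z.2 z.1

@[simp] theorem sn_cast {n : ℕ} (z : E3 × (Fin n → E3)) (i : Fin n) : sn z i.castSucc = z.2 i := by
  simp [sn]

@[simp] theorem sn_last {n : ℕ} (z : E3 × (Fin n → E3)) : sn z (Fin.last n) = z.1 := by
  simp [sn]

theorem mp_sn (n : ℕ) : MeasurePreserving
    (MeasurableEquiv.piFinSuccAbove (fun _ : Fin (n + 1) => E3) (Fin.last n)).symm :=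
  (volume_preserving_piFinSuccAbove (fun _ : Fin (n + 1) => E3) (Fin.last n)).symm

theorem sn_eq {n : ℕ} (z : E3 × (Fin n → E3)) :
    (MeasurableEquiv.piFinSuccAbove (fun _ : Fin (n + 1) => E3) (Fin.last n)).symm z = sn z := by
  unfold sn
  rw [← Fin.insertNth_last']
  rfl

theorem int_sn {n : ℕ} {E : Type} [NormedAddCommGroup E] [NormedSpace ℝ E]
    (F : (Fin (n + 1) → E3) → E) : ∫ x, F x = ∫ z : E3 × (Fin n → E3), F (sn z) := by
  rw [← (mp_sn n).integral_comp']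
  congr 1
  funext z
  rw [sn_eq]

theorem mp_one : MeasurePreserving (MeasurableEquiv.funUnique (Fin 1) E3).symm :=
  (volume_preserving_funUnique (Fin 1) E3).symm

theorem int_one {E : Type} [NormedAddCommGroup E] [NormedSpace ℝ E]
    (F : (Fin 1 → E3) → E) : ∫ x, F x = ∫ y : E3, F (fun _ => y) := by
  rw [← mp_one.integral_comp']
  congr 1

theorem intble_one {E : Type} [NormedAddCommGroup E]
    {F : (Fin 1 → E3) → E} (h : Integrable F) : Integrable (fun y : E3 => F (fun _ => y)) := by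
  have := (mp_one.integrable_comp_emb (MeasurableEquiv.measurableEmbedding _)).2 h
  exact this

/-- product state -/
noncomputable def pr {n : ℕ} (ψ : (Fin n → E3) → ℂ) (φ : (Fin 1 → E3) → ℂ)
    (x : Fin (n + 1) → E3) : ℂ :=
  φ (fun _ => x (Fin.last n)) * ψ (fun i => x i.castSucc)

theorem pr_sn {n : ℕ} (ψ : (Fin n → E3) → ℂ) (φ : (Fin 1 → E3) → ℂ)
    (z : E3 × (Fin n → E3)) : pr ψ φ (sn z) = φ (fun _ => z.1) * ψ z.2 := by
  simp [pr]

theorem pr_test {n : ℕ} {ψ : (Fin n → E3) → ℂ} {φ : (Fin 1 → E3) → ℂ} (hψ : Test ψ)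
    (hφ : Test φ) : Test (pr ψ φ) := by
  refine ⟨?_, ?_⟩
  · unfold pr
    apply ContDiff.mul
    · exact hφ.smooth.comp (by fun_prop)
    · exact hψ.smooth.comp (by fun_prop)
  · have h1 : IsCompact (tsupport φ ×ˢ tsupport ψ) := hφ.compact.prod hψ.compact
    have hc : Continuous (fun z : (Fin 1 → E3) × (Fin n → E3) => sn (z.1 0, z.2)) := by
      apply continuous_pi
      intro i
      refine Fin.lastCases ?_ (fun j => ?_) i
      · simp only [sn_last]; fun_prop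
      · simp only [sn_cast]; fun_prop
    have h2 := h1.image hc
    refine HasCompactSupport.intro h2 ?_
    intro x hx
    by_contra hne
    apply hx
    have hne' : φ (fun _ => x (Fin.last n)) * ψ (fun i => x i.castSucc) ≠ 0 := hne
    refine ⟨(fun _ => x (Fin.last n), fun i => x i.castSucc), ⟨?_, ?_⟩, ?_⟩
    · exact subset_tsupport _ (left_ne_zero_of_mul hne')
    · exact subset_tsupport _ (right_ne_zero_of_mul hne')
    · ext1 i
      refine Fin.lastCases ?_ (fun j => ?_) i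
      · simp
      · simp

theorem pr_nrm {n : ℕ} (ψ : (Fin n → E3) → ℂ) (φ : (Fin 1 → E3) → ℂ) :
    ∫ x, ‖pr ψ φ x‖ ^ 2 = (∫ x, ‖φ x‖ ^ 2) * ∫ x, ‖ψ x‖ ^ 2 := by
  rw [int_sn, int_one]
  simp only [pr_sn, norm_mul, mul_pow]
  exact integral_prod_mul (fun y : E3 => ‖φ (fun _ => y)‖ ^ 2) (fun x => ‖ψ x‖ ^ 2)

theorem pr_ft {n : ℕ} (ψ : (Fin n → E3) → ℂ) (φ : (Fin 1 → E3) → ℂ) (w : E3 × (Fin n → E3)) :
    ft (pr ψ φ) (sn w) = ft φ (fun _ => w.1) * ft ψ w.2 := by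
  unfold ft
  rw [int_sn, int_one]
  have : ∀ z : E3 × (Fin n → E3),
      Complex.exp (((-(2 * Real.pi * ∑ i, inner ℝ (sn z i) (sn w i)) : ℝ) : ℂ) * Complex.I) *
        pr ψ φ (sn z) =
      (Complex.exp (((-(2 * Real.pi * ∑ i : Fin 1, inner ℝ ((fun _ => z.1 : Fin 1 → E3) i)
          ((fun _ => w.1 : Fin 1 → E3) i)) : ℝ) : ℂ) * Complex.I) * φ (fun _ => z.1)) *
      (Complex.exp (((-(2 * Real.pi * ∑ i, inner ℝ (z.2 i) (w.2 i)) : ℝ) : ℂ) * Complex.I) *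
        ψ z.2) := by
    intro z
    rw [Fin.sum_univ_castSucc, pr_sn]
    simp only [sn_cast, sn_last, Finset.univ_unique, Finset.sum_singleton]
    have : Complex.exp (((-(2 * Real.pi * (∑ i, inner ℝ (z.2 i) (w.2 i) + inner ℝ z.1 w.1)) : ℝ) : ℂ)
        * Complex.I) = Complex.exp (((-(2 * Real.pi * inner ℝ z.1 w.1) : ℝ) : ℂ) * Complex.I) *
        Complex.exp (((-(2 * Real.pi * ∑ i, inner ℝ (z.2 i) (w.2 i)) : ℝ) : ℂ) * Complex.I) := by
      rw [← Complex.exp_add]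
      congr 1
      push_cast
      ring
    rw [this]; ring
  simp only [this]
  exact integral_prod_mul (fun y : E3 =>
    Complex.exp (((-(2 * Real.pi * ∑ i : Fin 1, inner ℝ ((fun _ => y : Fin 1 → E3) i)
          ((fun _ => w.1 : Fin 1 → E3) i)) : ℝ) : ℂ) * Complex.I) * φ (fun _ => y))
    (fun x => Complex.exp (((-(2 * Real.pi * ∑ i, inner ℝ (x i) (w.2 i)) : ℝ) : ℂ) * Complex.I) *
        ψ x)

theorem kin_intble {N : ℕ} {α : ℝ} (hα : 0 ≤ α) {ψ : (Fin N → E3) → ℂ} (hψ : Test ψ) :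
    Integrable (fun ξ : Fin N → E3 => (∑ i, (2 * Real.pi * ‖ξ i‖) ^ α) * ‖ft ψ ξ‖ ^ 2) := by
  rcases N with _ | n
  · simp
  · simp only [Finset.sum_mul]
    exact integrable_finsetSum _ fun i _ => (slice ψ hψ i α hα).1

theorem pr_kin {n : ℕ} {α : ℝ} (hα : 0 ≤ α) {ψ : (Fin n → E3) → ℂ} {φ : (Fin 1 → E3) → ℂ}
    (hψ : Test ψ) (hφ : Test φ) :
    kinE α (pr ψ φ) = (∫ x, ‖φ x‖ ^ 2) * kinE α ψ + kinE α φ * ∫ x, ‖ψ x‖ ^ 2 := by
  have i1 := intble_one (kin_intble hα hφ)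
  have i2 := intble_one (planch φ hφ).1
  have i3 := kin_intble hα hψ
  have i4 := (planch ψ hψ).1
  rw [← (planch φ hφ).2, ← (planch ψ hψ).2]
  unfold kinE
  rw [int_sn, int_one, int_one]
  have e1 : (fun z : E3 × (Fin n → E3) => (∑ i, (2 * Real.pi * ‖sn z i‖) ^ α) *
      ‖ft (pr ψ φ) (sn z)‖ ^ 2) =
      fun z : E3 × (Fin n → E3) => ‖ft φ (fun _ => z.1)‖ ^ 2 *
        ((∑ i, (2 * Real.pi * ‖z.2 i‖) ^ α) * ‖ft ψ z.2‖ ^ 2) +
        ((∑ i : Fin 1, (2 * Real.pi * ‖(fun _ => z.1 : Fin 1 → E3) i‖) ^ α) *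
          ‖ft φ (fun _ => z.1)‖ ^ 2) * ‖ft ψ z.2‖ ^ 2 := by
    ext z
    rw [Fin.sum_univ_castSucc, pr_ft, norm_mul, mul_pow]
    simp only [sn_cast, sn_last, Finset.univ_unique, Finset.sum_singleton]
    ring
  have e2 : (∫ z : E3 × (Fin n → E3), ‖ft φ (fun _ => z.1)‖ ^ 2 *
        ((∑ i, (2 * Real.pi * ‖z.2 i‖) ^ α) * ‖ft ψ z.2‖ ^ 2)) =
      (∫ y : E3, ‖ft φ (fun _ => y)‖ ^ 2) * ∫ x : Fin n → E3,
      (∑ i, (2 * Real.pi * ‖x i‖) ^ α) * ‖ft ψ x‖ ^ 2 :=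
    integral_prod_mul (fun y : E3 => ‖ft φ (fun _ => y)‖ ^ 2) (fun x : Fin n → E3 =>
      (∑ i, (2 * Real.pi * ‖x i‖) ^ α) * ‖ft ψ x‖ ^ 2)
  have e3 : (∫ z : E3 × (Fin n → E3), ((∑ i : Fin 1, (2 * Real.pi *
          ‖(fun _ => z.1 : Fin 1 → E3) i‖) ^ α) *
          ‖ft φ (fun _ => z.1)‖ ^ 2) * ‖ft ψ z.2‖ ^ 2) =
      (∫ y : E3, ((∑ i : Fin 1, (2 * Real.pi * ‖(fun _ => y : Fin 1 → E3) i‖) ^ α) *
          ‖ft φ (fun _ => y)‖ ^ 2)) * ∫ x : Fin n → E3, ‖ft ψ x‖ ^ 2 :=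
    integral_prod_mul (fun y : E3 =>
      ((∑ i : Fin 1, (2 * Real.pi * ‖(fun _ => y : Fin 1 → E3) i‖) ^ α) *
          ‖ft φ (fun _ => y)‖ ^ 2)) (fun x : Fin n → E3 => ‖ft ψ x‖ ^ 2)
  rw [← e2, ← e3]
  have j1 : Integrable (fun z : E3 × (Fin n → E3) => ‖ft φ (fun _ => z.1)‖ ^ 2 *
        ((∑ i, (2 * Real.pi * ‖z.2 i‖) ^ α) * ‖ft ψ z.2‖ ^ 2)) := Integrable.mul_prod i2 i3
  have j2 : Integrable (fun z : E3 × (Fin n → E3) => ((∑ i : Fin 1, (2 * Real.pi *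
          ‖(fun _ => z.1 : Fin 1 → E3) i‖) ^ α) *
          ‖ft φ (fun _ => z.1)‖ ^ 2) * ‖ft ψ z.2‖ ^ 2) := Integrable.mul_prod i1 i4
  rw [← integral_add j1 j2]
  exact congrArg (fun f => ∫ z, f z) e1

/-! potential energy -/

/-- charges with a last one -/
noncomputable def ec {n : ℕ} (e : Fin n → ℝ) : Fin (n + 1) → ℝ := @Fin.snoc n (fun _ => ℝ) e 1

theorem pr_pot {n : ℕ} (e : Fin n → ℝ) (he : ∀ i, e i = 1 ∨ e i = -1) {ψ : (Fin n → E3) → ℂ}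
    {φ : (Fin 1 → E3) → ℂ} (hψ : Test ψ) (hφ : Test φ) (h1 : ∫ x, ‖φ x‖ ^ 2 = 1)
    (h2 : ∫ x, ‖ψ x‖ ^ 2 = 1) (L : ℝ) (hL : 0 < L)
    (hd : ∀ (x : Fin n → E3) (y : E3), ψ x ≠ 0 → φ (fun _ => y) ≠ 0 → ∀ i, L ≤ ‖x i - y‖) :
    potE (ec e) (pr ψ φ) ≤ potE e ψ + n / L := by
  set P : (Fin n → E3) → ℝ := fun x => ∑ i, ∑ j, if i < j then e i * e j / ‖x i - x j‖ else 0
    with hP
  set T : E3 × (Fin n → E3) → ℝ := fun z => (∑ i, e i / ‖z.2 i - z.1‖) *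
    (‖φ (fun _ => z.1)‖ ^ 2 * ‖ψ z.2‖ ^ 2) with hT
  have hA : Integrable (fun z : E3 × (Fin n → E3) => ‖φ (fun _ => z.1)‖ ^ 2 * ‖ψ z.2‖ ^ 2) :=
    Integrable.mul_prod (intble_one (Test.sq_integrable hφ)) (Test.sq_integrable hψ)
  have hAv : ∫ z : E3 × (Fin n → E3), ‖φ (fun _ => z.1)‖ ^ 2 * ‖ψ z.2‖ ^ 2 = 1 := by
    have : ∫ z : E3 × (Fin n → E3), ‖φ (fun _ => z.1)‖ ^ 2 * ‖ψ z.2‖ ^ 2 =
      (∫ y : E3, ‖φ (fun _ => y)‖ ^ 2) * ∫ x, ‖ψ x‖ ^ 2 :=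
      integral_prod_mul (fun y : E3 => ‖φ (fun _ => y)‖ ^ 2) (fun x : Fin n → E3 => ‖ψ x‖ ^ 2)
    rw [this, ← int_one (fun x => ‖φ x‖ ^ 2), h1, h2, one_mul]
  have hTb : ∀ z, ‖T z‖ ≤ (n / L) * (‖φ (fun _ => z.1)‖ ^ 2 * ‖ψ z.2‖ ^ 2) := by
    intro z
    by_cases hz : ψ z.2 = 0
    · simp [hT, hz]
    by_cases hz' : φ (fun _ => z.1) = 0
    · simp [hT, hz']
    rw [hT]
    simp only [norm_mul, norm_pow, norm_norm]
    apply mul_le_mul_of_nonneg_right _ (by positivity)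
    refine (norm_sum_le _ _).trans ?_
    have : ∀ i ∈ (Finset.univ : Finset (Fin n)), ‖e i / ‖z.2 i - z.1‖‖ ≤ 1 / L := by
      intro i _
      rw [norm_div, norm_norm]
      have h3 : ‖e i‖ = 1 := by rcases he i with h | h <;> simp [h]
      rw [h3]
      exact one_div_le_one_div_of_le hL (hd z.2 z.1 hz hz' i)
    refine (Finset.sum_le_sum this).trans ?_
    simp [div_eq_mul_inv]
  have hTm : AEStronglyMeasurable T := by
    have m1 : Measurable (fun z : E3 × (Fin n → E3) => ∑ i, e i / ‖z.2 i - z.1‖) := by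
      fun_prop
    have m2 := hA.aestronglyMeasurable
    exact m1.aestronglyMeasurable.mul m2
  have hTi : Integrable T := (hA.const_mul (n / L)).mono' hTm (Eventually.of_forall hTb)
  have hTle : ∫ z, T z ≤ n / L := by
    have : ‖∫ z, T z‖ ≤ ∫ z : E3 × (Fin n → E3),
        (n / L) * (‖φ (fun _ => z.1)‖ ^ 2 * ‖ψ z.2‖ ^ 2) :=
      norm_integral_le_of_norm_le (hA.const_mul (n / L)) (Eventually.of_forall hTb)
    rw [integral_const_mul, hAv, mul_one] at this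
    exact (le_abs_self _).trans this
  have hPv : ∫ z : E3 × (Fin n → E3), ‖φ (fun _ => z.1)‖ ^ 2 * (P z.2 * ‖ψ z.2‖ ^ 2) =
      potE e ψ := by
    have : ∫ z : E3 × (Fin n → E3), ‖φ (fun _ => z.1)‖ ^ 2 * (P z.2 * ‖ψ z.2‖ ^ 2) =
      (∫ y : E3, ‖φ (fun _ => y)‖ ^ 2) * ∫ x, P x * ‖ψ x‖ ^ 2 :=
      integral_prod_mul (fun y : E3 => ‖φ (fun _ => y)‖ ^ 2)
        (fun x : Fin n → E3 => P x * ‖ψ x‖ ^ 2)
    rw [this, ← int_one (fun x => ‖φ x‖ ^ 2), h1, one_mul]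
    rfl
  have hE : potE (ec e) (pr ψ φ) = ∫ z : E3 × (Fin n → E3),
      (‖φ (fun _ => z.1)‖ ^ 2 * (P z.2 * ‖ψ z.2‖ ^ 2) + T z) := by
    unfold potE
    rw [int_sn]
    congr 1
    funext z
    have hs : (∑ i : Fin (n + 1), ∑ j : Fin (n + 1),
        if i < j then ec e i * ec e j / ‖sn z i - sn z j‖ else 0) =
        P z.2 + ∑ i, e i / ‖z.2 i - z.1‖ := by
      rw [Fin.sum_univ_castSucc]
      have h5 : (∑ j : Fin (n + 1), if Fin.last n < j then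
          ec e (Fin.last n) * ec e j / ‖sn z (Fin.last n) - sn z j‖ else 0) = 0 := by
        apply Finset.sum_eq_zero
        intro j _
        rw [if_neg (not_lt.2 (Fin.le_last j))]
      rw [h5, add_zero, hP, ← Finset.sum_add_distrib]
      apply Finset.sum_congr rfl
      intro i _
      rw [Fin.sum_univ_castSucc, if_pos (Fin.castSucc_lt_last i)]
      simp [ec]
    rw [hs, pr_sn, norm_mul, mul_pow, hT]
    ring
  rw [hE]
  by_cases hI : Integrable (fun z : E3 × (Fin n → E3) =>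
      ‖φ (fun _ => z.1)‖ ^ 2 * (P z.2 * ‖ψ z.2‖ ^ 2))
  · rw [integral_add hI hTi, hPv]
    linarith
  · have h6 : ¬ Integrable (fun z : E3 × (Fin n → E3) =>
      (‖φ (fun _ => z.1)‖ ^ 2 * (P z.2 * ‖ψ z.2‖ ^ 2) + T z)) := by
      intro h7
      apply hI
      have := h7.sub hTi
      refine this.congr (Eventually.of_forall fun z => ?_)
      simp
    rw [integral_undef h6]
    rw [integral_undef hI] at hPv
    rw [← hPv]
    positivity

/-! scaling -/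

noncomputable def scl (L : ℝ) (v : Fin 1 → E3) (φ : (Fin 1 → E3) → ℂ) (x : Fin 1 → E3) : ℂ :=
  φ (L⁻¹ • (x - v))

theorem scl_test {L : ℝ} (hL : 0 < L) (v : Fin 1 → E3) {φ : (Fin 1 → E3) → ℂ} (hφ : Test φ) :
    Test (scl L v φ) := by
  refine ⟨?_, ?_⟩
  · unfold scl
    exact hφ.smooth.comp (by fun_prop)
  · have h1 := hφ.compact.image (f := fun x : Fin 1 → E3 => v + L • x) (by fun_prop)
    refine HasCompactSupport.intro h1 ?_
    intro x hx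
    by_contra hne
    apply hx
    refine ⟨L⁻¹ • (x - v), subset_tsupport _ hne, ?_⟩
    simp [smul_smul, hL.ne']

theorem int_scl {L : ℝ} (hL : 0 < L) (v : Fin 1 → E3) {E : Type} [NormedAddCommGroup E]
    [NormedSpace ℝ E] (F : (Fin 1 → E3) → E) :
    ∫ x, F (L⁻¹ • (x - v)) = (L ^ 3) • ∫ x, F x := by
  rw [integral_sub_right_eq_self (fun x => F (L⁻¹ • x)) v]
  rw [Measure.integral_comp_inv_smul]
  have : Module.finrank ℝ (Fin 1 → E3) = 3 := by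
    rw [Module.finrank_pi_fintype]; simp
  rw [this, abs_of_pos (by positivity)]

theorem scl_ft {L : ℝ} (hL : 0 < L) (v : Fin 1 → E3) (φ : (Fin 1 → E3) → ℂ) (ξ : Fin 1 → E3) :
    ‖ft (scl L v φ) ξ‖ = L ^ 3 * ‖ft φ (L • ξ)‖ := by
  unfold ft
  have h1 := int_scl hL v (fun u : Fin 1 → E3 =>
    Complex.exp (((-(2 * Real.pi * ∑ i, inner ℝ ((v + L • u) i) (ξ i)) : ℝ) : ℂ) * Complex.I) *
      φ u)
  have h2 : ∀ x : Fin 1 → E3, v + L • (L⁻¹ • (x - v)) = x := by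
    intro x; simp [smul_smul, hL.ne']
  simp only [h2] at h1
  have h3 : (∫ x, Complex.exp (((-(2 * Real.pi * ∑ i, inner ℝ (x i) (ξ i)) : ℝ) : ℂ) * Complex.I) *
      scl L v φ x) = ∫ x, Complex.exp (((-(2 * Real.pi * ∑ i, inner ℝ (x i) (ξ i)) : ℝ) : ℂ) *
      Complex.I) * φ (L⁻¹ • (x - v)) := rfl
  rw [h3, h1, norm_smul, Real.norm_of_nonneg (by positivity)]
  congr 1
  have h4 : (∫ u : Fin 1 → E3,
      Complex.exp (((-(2 * Real.pi * ∑ i, inner ℝ ((v + L • u) i) (ξ i)) : ℝ) : ℂ) * Complex.I) *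
      φ u) = Complex.exp (((-(2 * Real.pi * ∑ i, inner ℝ (v i) (ξ i)) : ℝ) : ℂ) * Complex.I) *
      ∫ u : Fin 1 → E3, Complex.exp (((-(2 * Real.pi * ∑ i, inner ℝ (u i) ((L • ξ) i)) : ℝ) : ℂ) *
        Complex.I) * φ u := by
    rw [← integral_const_mul]
    congr 1
    funext u
    rw [← mul_assoc, ← Complex.exp_add]
    congr 2
    simp only [Pi.add_apply, Pi.smul_apply, inner_add_left, inner_smul_left, inner_smul_right,
      Finset.sum_add_distrib]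
    push_cast
    simp
    ring
  rw [h4, norm_mul]
  have h5 : ‖Complex.exp (((-(2 * Real.pi * ∑ i, inner ℝ (v i) (ξ i)) : ℝ) : ℂ) * Complex.I)‖ = 1 :=
    Complex.norm_exp_ofReal_mul_I _
  rw [h5, one_mul]

theorem scl_kin {L : ℝ} (hL : 0 < L) (α : ℝ) (v : Fin 1 → E3) (φ : (Fin 1 → E3) → ℂ) :
    kinE α (scl L v φ) = L ^ 3 * L ^ (-α) * kinE α φ := by
  unfold kinE
  have h1 : ∀ ξ : Fin 1 → E3, (∑ i, (2 * Real.pi * ‖ξ i‖) ^ α) * ‖ft (scl L v φ) ξ‖ ^ 2 =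
      L ^ 6 * L ^ (-α) * ((∑ i, (2 * Real.pi * ‖(L • ξ) i‖) ^ α) * ‖ft φ (L • ξ)‖ ^ 2) := by
    intro ξ
    rw [scl_ft hL]
    have h2 : (∑ i, (2 * Real.pi * ‖(L • ξ) i‖) ^ α) =
        L ^ α * ∑ i, (2 * Real.pi * ‖ξ i‖) ^ α := by
      rw [Finset.mul_sum]
      apply Finset.sum_congr rfl
      intro i _
      rw [Pi.smul_apply, norm_smul, Real.norm_of_nonneg hL.le,
        ← Real.mul_rpow hL.le (by positivity)]
      congr 1; ring
    have h3 : L ^ (-α) * L ^ α = 1 := by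
      rw [← Real.rpow_add hL]; simp
    rw [h2]
    calc _ = (L ^ (-α) * L ^ α) * (L ^ 6 * ((∑ i, (2 * Real.pi * ‖ξ i‖) ^ α) *
        ‖ft φ (L • ξ)‖ ^ 2)) := by rw [h3]; ring
      _ = _ := by ring
  simp only [h1]
  rw [integral_const_mul]
  rw [Measure.integral_comp_smul (volume : Measure (Fin 1 → E3))
    (fun ξ : Fin 1 → E3 => (∑ i, (2 * Real.pi * ‖ξ i‖) ^ α) * ‖ft φ ξ‖ ^ 2) L]
  have : Module.finrank ℝ (Fin 1 → E3) = 3 := by
    rw [Module.finrank_pi_fintype]; simp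
  rw [this, abs_of_pos (by positivity), smul_eq_mul]
  field_simp

/-- TARGET 2 -/
theorem mono (α : ℝ) (hα : 1 < α) (n : ℕ) : E0 α (n + 1) ≤ E0 α n := by
  have hB := (e0_le α hα (n + 1)).2.1
  obtain ⟨φ, hφ, hφ1, hφs⟩ := exists_test 1
  refine le_csInf (e0_le α hα n).1 ?_
  rintro E ⟨e, ψ, he, hψ, h1, rfl⟩
  obtain ⟨R, hR⟩ : ∃ R : ℝ, ∀ x, ψ x ≠ 0 → ‖x‖ ≤ R := by
    obtain ⟨R, hR⟩ := hψ.compact.isBounded.exists_norm_le
    exact ⟨R, fun x hx => hR x (subset_tsupport _ hx)⟩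
  have key : ∀ᶠ L : ℝ in atTop, E0 α (n + 1) ≤
      (kinE α ψ + L ^ (-α) * kinE α φ) + (potE e ψ + n / L) := by
    filter_upwards [eventually_ge_atTop (max R 1)] with L hL
    have hL1 : 1 ≤ L := le_trans (le_max_right _ _) hL
    have hLR : R ≤ L := le_trans (le_max_left _ _) hL
    have hL0 : 0 < L := by linarith
    set v : Fin 1 → E3 := fun _ => EuclideanSpace.single 0 (3 * L) with hv
    have hvn : ‖v 0‖ = 3 * L := by
      rw [hv]; simp [abs_of_pos hL0]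
    have hS := scl_test hL0 v hφ
    have hc : ‖(((√(L ^ 3))⁻¹ : ℝ) : ℂ)‖ ^ 2 = (L ^ 3)⁻¹ := by
      rw [Complex.norm_real, Real.norm_eq_abs, sq_abs, inv_pow, Real.sq_sqrt (by positivity)]
    set φL : (Fin 1 → E3) → ℂ := fun x => (((√(L ^ 3))⁻¹ : ℝ) : ℂ) * scl L v φ x with hφL
    have hT : Test φL := Test.smul hS _
    have hn1 : ∫ x, ‖φL x‖ ^ 2 = 1 := by
      rw [hφL, nrm_smul, hc]
      have := int_scl hL0 v (fun x => ‖φ x‖ ^ 2)
      unfold scl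
      rw [this, hφ1]
      simp [hL0.ne']
    have hk : kinE α φL = L ^ (-α) * kinE α φ := by
      rw [hφL, kinE_smul, hc, scl_kin hL0]
      field_simp
    have hd : ∀ (x : Fin n → E3) (y : E3), ψ x ≠ 0 → φL (fun _ => y) ≠ 0 →
        ∀ i, L ≤ ‖x i - y‖ := by
      intro x y hx hy i
      have h2 : ‖x i‖ ≤ L := (norm_le_pi_norm x i).trans ((hR x hx).trans hLR)
      have h3 : φ (L⁻¹ • ((fun _ => y) - v)) ≠ 0 := right_ne_zero_of_mul hy
      have h4 := hφs _ h3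
      have h5 : ‖(L⁻¹ • ((fun _ => y : Fin 1 → E3) - v)) 0‖ < 1 :=
        lt_of_le_of_lt (norm_le_pi_norm _ 0) h4
      rw [Pi.smul_apply, Pi.sub_apply, norm_smul, norm_inv, Real.norm_of_nonneg hL0.le,
        inv_mul_lt_iff₀ hL0, mul_one] at h5
      have h6 : ‖v 0‖ ≤ ‖y - v 0‖ + (‖x i - y‖ + ‖x i‖) := by
        calc ‖v 0‖ = ‖-(y - v 0) + (-(x i - y) + x i)‖ := by congr 1; abel
          _ ≤ _ := (norm_add_le _ _).trans (by
            rw [norm_neg]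
            gcongr
            refine (norm_add_le _ _).trans ?_
            rw [norm_neg])
      rw [hvn] at h6
      linarith
    have hp := pr_pot e he hψ hT hn1 h1 L hL0 hd
    have hkk := pr_kin (by linarith : (0 : ℝ) ≤ α) hψ hT
    rw [hn1, h1, hk, one_mul, mul_one] at hkk
    have hmem : kinE α (pr ψ φL) + potE (ec e) (pr ψ φL) ∈ energySet α (n + 1) := by
      refine ⟨ec e, pr ψ φL, ?_, pr_test hψ hT, ?_, rfl⟩
      · intro i
        refine Fin.lastCases ?_ (fun j => ?_) i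
        · left; simp [ec]
        · simpa [ec] using he j
      · rw [pr_nrm, hn1, h1, one_mul]
    have := csInf_le hB hmem
    have h7 : E0 α (n + 1) ≤ kinE α (pr ψ φL) + potE (ec e) (pr ψ φL) := this
    rw [hkk] at h7
    linarith
  have lim : Tendsto (fun L : ℝ => (kinE α ψ + L ^ (-α) * kinE α φ) + (potE e ψ + n / L)) atTop
      (𝓝 ((kinE α ψ + 0 * kinE α φ) + (potE e ψ + 0))) := by
    refine (tendsto_const_nhds.add ((tendsto_rpow_neg_atTop (by linarith)).mul_const _)).add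
      (tendsto_const_nhds.add (tendsto_const_nhds.div_atTop tendsto_id))
  have := ge_of_tendsto lim key
  simpa using this

end Pool.Agent.Helper780_BE.V9
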