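import Pool.Agent.Helper780_BE.A12
import Pool.Agent.Helper780_BE.V3
import Pool.Agent.Helper780_BE.V4
import Pool.Agent.Helper780_BE.V5
import Pool.Agent.Helper780_BE.V7
import Pool.Agent.Helper780_BE.V8
import Pool.Agent.Helper780_BE.V9
import Pool.Agent.Helper780_BE.DefsU


set_option autoImplicit false

open MeasureTheory
open scoped Topology

namespace Pool.Agent.Helper780_BE.V10

open Pool.Agent.Helper780_BE.A12 (lower)
open Pool.Agent.Helper780_BE.V3 (sumZ)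
open Pool.Agent.Helper780_BE.V4 (sumP)
open Pool.Agent.Helper780_BE.V5 (cell_est)
open Pool.Agent.Helper780_BE.V7 (kin_bound)
open Pool.Agent.Helper780_BE.V8 (tr_test geom prof)
open Pool.Agent.Helper780_BE.V9 (e0_le mono)

open Pool.Agent.Helper780_BE Pool.Agent.Helper780_CQ Filter













theorem params (α : ℝ) (hα : 1 < α) (c1 c3 K κ w L : ℝ) (h1 : 0 < c1) (h3 : 0 < c3)
    (hK : 0 < K) (hκ : 0 < κ) (hw : 0 < w) :
    ∃ c z0 : ℝ, 0 < c ∧ 0 < z0 ∧ ∀ z : ℝ, z0 ≤ z → ∃ R h : ℝ,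
      0 < R ∧ 0 < h ∧ h ≤ c3 * R ∧ 1 ≤ z * (c1 * R ^ (-(3 / 2) : ℝ)) ^ 2 * h ^ 3 ∧
      z * (c1 * R ^ (-(3 / 2) : ℝ)) ^ 2 * h ^ 3 = κ * h ^ (1 - α) ∧
      L * (K * (R / h) ^ 3) ≤ z ∧
      2 * K * R ^ (-α) - w / h ≤ -(c * z ^ (α / ((α - 1) * (α + 3)))) := by
  set p : ℝ := 1 / ((α - 1) * (α + 3)) with hp
  have ha1 : 0 < α - 1 := by linarith
  have ha3 : 0 < α + 3 := by linarith
  have ha2 : 0 < 2 + α := by linarith
  have hpp : 0 < p := by rw [hp]; positivity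
  have hrel : α * p * (2 + α) = 1 + 3 * p := by
    rw [hp]; field_simp; ring
  set δ : ℝ := α - 3 / (2 + α) with hδ
  have hδp : 0 < δ := by
    rw [hδ, sub_pos, div_lt_iff₀ ha2]; nlinarith
  set A0 : ℝ := (κ / c1 ^ 2) ^ (1 / (2 + α)) with hA0
  have hA0p : 0 < A0 := by rw [hA0]; positivity
  -- choice of b
  obtain ⟨b, hb1, hb⟩ : ∃ b : ℝ, 1 ≤ b ∧ b ^ (-δ) ≤ w / (4 * K * A0) := by
    have ht := tendsto_rpow_neg_atTop hδp
    have hpos : 0 < w / (4 * K * A0) := by positivity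
    have := (ht.eventually (gt_mem_nhds hpos)).and (eventually_ge_atTop (1 : ℝ))
    obtain ⟨b, hb, hb1⟩ := this.exists
    exact ⟨b, hb1, hb.le⟩
  have hbp : 0 < b := by linarith
  set A : ℝ := A0 * b ^ (3 / (2 + α)) with hA
  have hAp : 0 < A := by rw [hA]; positivity
  set c : ℝ := w / (2 * A0) * b ^ (-(3 / (2 + α))) with hc
  have hcp : 0 < c := by rw [hc]; positivity
  -- eventual statements
  have e1 : ∀ᶠ z : ℝ in atTop, A / b * z ^ (-((α - 1) * p)) ≤ c3 := by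
    have ht := (tendsto_rpow_neg_atTop (y := (α - 1) * p) (by positivity)).const_mul (A / b)
    rw [mul_zero] at ht
    filter_upwards [ht.eventually (gt_mem_nhds h3)] with z hz using hz.le
  have e2 : ∀ᶠ z : ℝ in atTop, max 1 (L * K * c1 ^ 2) ≤
      κ * A ^ (1 - α) * z ^ (α * p * (α - 1)) := by
    have ht := (tendsto_rpow_atTop (y := α * p * (α - 1)) (by positivity)).const_mul_atTop
      (show 0 < κ * A ^ (1 - α) by positivity)
    exact ht.eventually (eventually_ge_atTop _)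
  obtain ⟨z0, hz0⟩ := eventually_atTop.1 (e1.and e2)
  refine ⟨c, max z0 1, hcp, by positivity, fun z hz => ?_⟩
  have hz' : z0 ≤ z := le_trans (le_max_left _ _) hz
  have hz1 : 1 ≤ z := le_trans (le_max_right _ _) hz
  have hzp : 0 < z := by linarith
  obtain ⟨f1, f2⟩ := hz0 z hz'
  set R : ℝ := b * z ^ (-p) with hR
  set h : ℝ := A * z ^ (-(α * p)) with hh
  have hRp : 0 < R := by rw [hR]; positivity
  have hhp : 0 < h := by rw [hh]; positivity
  have hR3 : (R ^ (-(3 / 2) : ℝ)) ^ 2 = (R ^ 3)⁻¹ := by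
    rw [← Real.rpow_natCast, ← Real.rpow_mul hRp.le, ← Real.rpow_natCast, ← Real.rpow_neg hRp.le]
    norm_num
  -- the relation
  have hF : h ^ (2 + α) * (z * c1 ^ 2) = κ * R ^ 3 := by
    have l1 : h ^ (2 + α) = κ / c1 ^ 2 * b ^ 3 * z ^ (-(1 + 3 * p)) := by
      rw [hh, Real.mul_rpow hAp.le (by positivity), hA,
        Real.mul_rpow hA0p.le (by positivity), hA0, ← Real.rpow_mul (by positivity),
        ← Real.rpow_mul hbp.le, ← Real.rpow_mul hzp.le]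
      rw [show (1 / (2 + α) * (2 + α)) = 1 by field_simp,
        show (3 / (2 + α) * (2 + α)) = ((3 : ℕ) : ℝ) by push_cast; field_simp,
        show -(α * p) * (2 + α) = -(1 + 3 * p) by rw [← hrel]; ring, Real.rpow_one,
        Real.rpow_natCast]
    have l2 : R ^ 3 = b ^ 3 * z ^ (-(3 * p)) := by
      rw [hR, mul_pow, ← Real.rpow_natCast (z ^ (-p)), ← Real.rpow_mul hzp.le]
      congr 2; push_cast; ring
    have l3 : z ^ (-(1 + 3 * p)) * z = z ^ (-(3 * p)) := by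
      nth_rewrite 2 [← Real.rpow_one z]
      rw [← Real.rpow_add hzp]; congr 1; ring
    rw [l1, l2, ← l3]
    field_simp
  have hν : z * (c1 * R ^ (-(3 / 2) : ℝ)) ^ 2 * h ^ 3 = κ * h ^ (1 - α) := by
    rw [mul_pow, hR3]
    have : h ^ (1 - α) * h ^ (2 + α) = h ^ 3 := by
      rw [← Real.rpow_add hhp, ← Real.rpow_natCast]; congr 1; push_cast; ring
    rw [← this]
    have hR3p : 0 < R ^ 3 := by positivity
    have hF' : z * c1 ^ 2 * (R ^ 3)⁻¹ * h ^ (2 + α) = κ := by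
      have : R ^ 3 * (R ^ 3)⁻¹ = 1 := mul_inv_cancel₀ hR3p.ne'
      linear_combination (R ^ 3)⁻¹ * hF + κ * this
    linear_combination h ^ (1 - α) * hF'
  have hν2 : κ * h ^ (1 - α) = κ * A ^ (1 - α) * z ^ (α * p * (α - 1)) := by
    rw [hh, Real.mul_rpow hAp.le (by positivity), ← Real.rpow_mul hzp.le, mul_assoc]
    congr 3; ring
  refine ⟨R, h, hRp, hhp, ?_, ?_, hν, ?_, ?_⟩
  · -- h ≤ c3 R
    have : h = A / b * z ^ (-((α - 1) * p)) * R := by
      rw [hh, hR]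
      have : z ^ (-(α * p)) = z ^ (-((α - 1) * p)) * z ^ (-p) := by
        rw [← Real.rpow_add hzp]; congr 1; ring
      rw [this]; field_simp
    rw [this]
    exact mul_le_mul_of_nonneg_right f1 hRp.le
  · rw [hν, hν2]; exact le_trans (le_max_left _ _) f2
  · have g2 : L * K * c1 ^ 2 ≤ κ * h ^ (1 - α) := by
      rw [hν2]; exact le_trans (le_max_right _ _) f2
    rw [← hν, mul_pow, hR3] at g2
    have e : z * (c1 ^ 2 * (R ^ 3)⁻¹) * h ^ 3 * (R / h) ^ 3 = z * c1 ^ 2 := by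
      field_simp
    have hpos : 0 < (R / h) ^ 3 := by positivity
    have := mul_le_mul_of_nonneg_right g2 hpos.le
    rw [e] at this
    have hc12 : 0 < c1 ^ 2 := by positivity
    nlinarith
  · have r1 : R ^ (-α) = b ^ (-α) * z ^ (α * p) := by
      rw [hR, Real.mul_rpow hbp.le (by positivity), ← Real.rpow_mul hzp.le]
      congr 2; ring
    have r2 : w / h = w / A0 * b ^ (-(3 / (2 + α))) * z ^ (α * p) := by
      rw [hh, hA, Real.rpow_neg hbp.le, Real.rpow_neg hzp.le]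
      field_simp
    have r3 : b ^ (-α) = b ^ (-δ) * b ^ (-(3 / (2 + α))) := by
      rw [← Real.rpow_add hbp]; congr 1; rw [hδ]; ring
    have r4 : α / ((α - 1) * (α + 3)) = α * p := by rw [hp]; ring
    rw [r1, r2, r3, r4, hc]
    have q1 : 2 * K * b ^ (-δ) ≤ w / (2 * A0) := by
      calc 2 * K * b ^ (-δ) ≤ 2 * K * (w / (4 * K * A0)) := by gcongr
        _ = w / (2 * A0) := by field_simp; ring
    have q2 : 0 < b ^ (-(3 / (2 + α))) * z ^ (α * p) := by positivity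
    have q3 := mul_le_mul_of_nonneg_right q1 q2.le
    have q4 : w / A0 = w / (2 * A0) + w / (2 * A0) := by field_simp; ring
    rw [q4]
    have q5 : 2 * K * (b ^ (-δ) * b ^ (-(3 / (2 + α))) * z ^ (α * p)) =
      2 * K * b ^ (-δ) * (b ^ (-(3 / (2 + α))) * z ^ (α * p)) := by ring
    have q6 : (w / (2 * A0) + w / (2 * A0)) * b ^ (-(3 / (2 + α))) * z ^ (α * p) =
      w / (2 * A0) * (b ^ (-(3 / (2 + α))) * z ^ (α * p)) +
      w / (2 * A0) * (b ^ (-(3 / (2 + α))) * z ^ (α * p)) := by ring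
    have q7 : w / (2 * A0) * b ^ (-(3 / (2 + α))) * z ^ (α * p) =
      w / (2 * A0) * (b ^ (-(3 / (2 + α))) * z ^ (α * p)) := by ring
    rw [q5, q6, q7]
    linarith


theorem kinE_nonneg {N : ℕ} (α : ℝ) (ψ : (Fin N → E3) → ℂ) : 0 ≤ kinE α ψ := by
  unfold kinE
  refine integral_nonneg fun ξ => ?_
  exact mul_nonneg (Finset.sum_nonneg fun i _ => by positivity) (by positivity)

theorem kn_nonneg {M : ℕ} (α ν : ℝ) (f : E3 → ℝ) (φ : Fin M → E3 → ℝ) (n : ℕ) :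
    0 ≤ kn α ν f φ n := by
  unfold kn
  exact Finset.sum_nonneg fun b _ => mul_nonneg (by positivity) (kinE_nonneg _ _)

theorem zn_nonneg {M : ℕ} (ν : ℝ) (f : E3 → ℝ) (φ : Fin M → E3 → ℝ) (n : ℕ) :
    0 ≤ zn ν f φ n := by
  unfold zn
  exact Finset.sum_nonneg fun b _ => mul_nonneg (by positivity)
    (integral_nonneg fun x => by positivity)

theorem tr_int_le {M n : ℕ} {h c0 : ℝ} {f : E3 → ℝ} {y : Fin M → E3}
    (hc : Cells h c0 f y) (ν : ℝ) (hν : 0 < ν) (φ : Fin M → E3 → ℝ) (b : Fin n → Bool) :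
    ∫ x : Fin n → E3, ‖Tr ν f φ b x‖ ^ 2 ≤ 1 := by
  have hfi : Integrable (fun x : E3 => f x ^ 2) := by
    refine Continuous.integrable_of_hasCompactSupport (hc.smooth.continuous.pow 2) ?_
    have : (fun x : E3 => f x ^ 2) = (fun t : ℝ => t ^ 2) ∘ f := rfl
    rw [this]
    exact hc.compact.comp_left (by norm_num)
  have h1 : ∫ x : Fin n → E3, ∏ i, f (x i) ^ 2 = 1 := by
    rw [integral_fintype_prod_volume_eq_pow (fun x : E3 => f x ^ 2), hc.norm, one_pow]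
  rw [← h1]
  refine integral_mono_of_nonneg (Eventually.of_forall fun x => by positivity) ?_
    (Eventually.of_forall fun x => ?_)
  · exact Integrable.fintype_prod (f := fun _ : Fin n => fun x : E3 => f x ^ 2) fun _ => hfi
  · simp only [Tr]
    rw [Complex.norm_real, Real.norm_eq_abs, sq_abs, mul_pow, Finset.prod_pow]
    have hJ0 : 0 ≤ Jm ν (fun i => sg (b i)) φ x := (Real.exp_pos _).le
    have hJ1 : Jm ν (fun i => sg (b i)) φ x ≤ 1 := by
      unfold Jm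
      rw [Real.exp_le_one_iff]
      apply div_nonpos_of_nonpos_of_nonneg
      · exact neg_nonpos.2 (Finset.sum_nonneg fun k _ => by positivity)
      · positivity
    have : Jm ν (fun i => sg (b i)) φ x ^ 2 ≤ 1 := pow_le_one₀ hJ0 hJ1
    have h0 : 0 ≤ (∏ i, f (x i)) ^ 2 := by positivity
    nlinarith

theorem zn_le_one {M n : ℕ} {h c0 : ℝ} {f : E3 → ℝ} {y : Fin M → E3}
    (hc : Cells h c0 f y) (ν : ℝ) (hν : 0 < ν) (φ : Fin M → E3 → ℝ) :
    zn ν f φ n ≤ 1 := by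
  unfold zn
  calc ∑ b : Fin n → Bool, (1 / 2 : ℝ) ^ n * ∫ x : Fin n → E3, ‖Tr ν f φ b x‖ ^ 2
      ≤ ∑ b : Fin n → Bool, (1 / 2 : ℝ) ^ n * 1 := by
        refine Finset.sum_le_sum fun b _ => ?_
        exact mul_le_mul_of_nonneg_left (tr_int_le hc ν hν φ b) (by positivity)
    _ = 1 := by
        simp only [mul_one, Finset.sum_const, Finset.card_univ, Fintype.card_fun, Fintype.card_bool,
          Fintype.card_fin, nsmul_eq_mul]
        push_cast
        rw [← mul_pow]; norm_num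

theorem energy_ge {M n : ℕ} {h c0 : ℝ} {f η : E3 → ℝ} {y : Fin M → E3} (hη : Prof η)
    (hc : Cells h c0 f y) (α : ℝ) (hα : 1 < α) (ν : ℝ) :
    E0 α n * zn ν f (md h η y) n ≤ kn α ν f (md h η y) n + pn ν f (md h η y) n := by
  unfold zn kn pn
  rw [Finset.mul_sum, ← Finset.sum_add_distrib]
  refine Finset.sum_le_sum fun b _ => ?_
  have := (e0_le α hα n).2.2 (fun i => sg (b i)) (fun i => by
    simp only [sg]; cases b i <;> simp) (Tr ν f (md h η y) b) (tr_test hη hc ν b)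
  have hp : (0 : ℝ) ≤ (1 / 2) ^ n := by positivity
  have h2 := mul_le_mul_of_nonneg_left this hp
  linarith

theorem e0_ge (α : ℝ) (hα : 1 < α) : ∃ C : ℝ, 0 < C ∧ ∀ n : ℕ, 1 ≤ n →
    -(C * (n : ℝ) ^ ((α ^ 2 + 3 * α - 3) / ((α - 1) * (α + 3)))) ≤ E0 α n := by
  obtain ⟨C, hC, h⟩ := lower α hα
  refine ⟨C, hC, fun n hn => ?_⟩
  refine le_csInf (e0_le α hα n).1 ?_
  rintro E ⟨e, ψ, he, hψ, hn1, rfl⟩
  have := h n hn e he ψ hψ
  rwa [hn1, mul_one] at this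

theorem e0_anti (α : ℝ) (hα : 1 < α) : Antitone (E0 α) :=
  antitone_nat_of_succ_le (mono α hα)

theorem energy_sum {M : ℕ} {h c0 : ℝ} {f η : E3 → ℝ} {y : Fin M → E3} (hη : Prof η)
    (hc : Cells h c0 f y) (α z ν C z1 w1 : ℝ) (hz : 0 < z)
    (hν : ν = z * c0 ^ 2 * h ^ 3) (hν1 : 1 ≤ ν) (hC : 0 < C)
    (hkin : ∀ n : ℕ, kn α ν f (md h η y) 0 = 0 ∧ kn α ν f (md h η y) (n + 1) ≤
        ((n : ℝ) + 1) * (2 * k1 α f * zn ν f (md h η y) n + C * c0 ^ 2 * h ^ (3 - α) / ν *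
          ∑ k, zn ν f (Function.update (md h η y) k 0) n))
    (hz1 : 0 < z1) (hw1 : 0 < w1) (h1 : z1 ≤ Z1 η ν) (h2 : Z1 η ν ≤ 1) (h3 : w1 / ν ≤ W1 η ν) :
    ∃ S : ℝ, HasSum (fun n : ℕ => z ^ n / (n.factorial : ℝ) *
      (kn α ν f (md h η y) n + pn ν f (md h η y) n)) S ∧
      S ≤ Real.exp z * Z1 η ν ^ M *
        (2 * z * k1 α f + C / z1 * M * h ^ (-α) - w1 / 2 * (ν / h) * M) := by
  have hh : 0 < h := hc.hpos
  have hνp : 0 < ν := by linarith
  have hZp : 0 < Z1 η ν := by linarith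
  obtain ⟨hZ, hZk⟩ := sumZ hη hc z ν hz hν
  have hP := sumP hη hc z ν hz hν
  set φ := md h η y with hφ
  set E1 : ℝ := Real.exp z * Z1 η ν ^ (M - 1) with hE1
  set ZZ : ℝ := Real.exp z * Z1 η ν ^ M with hZZ
  have hE1p : 0 < E1 := by rw [hE1]; positivity
  have hZZp : 0 < ZZ := by rw [hZZ]; positivity
  -- the upper series for the kinetic energy
  have hU : HasSum (fun n : ℕ => z ^ (n + 1) / ((n + 1).factorial : ℝ) *
      (((n : ℝ) + 1) * (2 * k1 α f * zn ν f φ n + C * c0 ^ 2 * h ^ (3 - α) / ν *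
          ∑ k, zn ν f (Function.update φ k 0) n)))
      (z * (2 * k1 α f * ZZ + C * c0 ^ 2 * h ^ (3 - α) / ν * (M * E1))) := by
    have hs : HasSum (fun n : ℕ => ∑ k, z ^ n / (n.factorial : ℝ) *
        zn ν f (Function.update φ k 0) n) (∑ _k : Fin M, E1) :=
      hasSum_sum fun k _ => hZk k
    rw [Finset.sum_const, Finset.card_univ, Fintype.card_fin, nsmul_eq_mul] at hs
    have := ((hZ.mul_left (2 * k1 α f)).add
      (hs.mul_left (C * c0 ^ 2 * h ^ (3 - α) / ν))).mul_left z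
    refine this.congr_fun ?_ |> fun h => h
    intro n
    rw [Nat.factorial_succ]
    have hf : (n.factorial : ℝ) ≠ 0 := by positivity
    have hn : ((n : ℝ) + 1) ≠ 0 := by positivity
    rw [← Finset.mul_sum]
    push_cast
    field_simp
    ring
  have hKs : Summable (fun n : ℕ => z ^ (n + 1) / ((n + 1).factorial : ℝ) *
      kn α ν f φ (n + 1)) := by
    refine Summable.of_nonneg_of_le (fun n => ?_) (fun n => ?_) hU.summable
    · exact mul_nonneg (by positivity) (kn_nonneg _ _ _ _ _)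
    · exact mul_le_mul_of_nonneg_left (hkin n).2 (by positivity)
  have hKle : ∑' n : ℕ, z ^ (n + 1) / ((n + 1).factorial : ℝ) * kn α ν f φ (n + 1) ≤
      z * (2 * k1 α f * ZZ + C * c0 ^ 2 * h ^ (3 - α) / ν * (M * E1)) := by
    rw [← hU.tsum_eq]
    exact hKs.tsum_le_tsum (fun n => mul_le_mul_of_nonneg_left (hkin n).2 (by positivity))
      hU.summable
  have hK : HasSum (fun n : ℕ => z ^ n / (n.factorial : ℝ) * kn α ν f φ n)
      (∑' n : ℕ, z ^ (n + 1) / ((n + 1).factorial : ℝ) * kn α ν f φ (n + 1)) := by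
    have := (hasSum_nat_add_iff (f := fun n : ℕ => z ^ n / (n.factorial : ℝ) * kn α ν f φ n) 1).1
      hKs.hasSum
    simpa [(hkin 0).1] using this
  refine ⟨_, (hK.add hP).congr_fun (fun n => by ring) |> fun h => h, ?_⟩
  have a1 : z * (C * c0 ^ 2 * h ^ (3 - α) / ν * (M * E1)) = C * h ^ (-α) * (M * E1) := by
    have : h ^ (3 - α) = h ^ 3 * h ^ (-α) := by
      rw [← Real.rpow_natCast, ← Real.rpow_add hh]; congr 1
    rw [this]
    have e : z * (C * c0 ^ 2 * (h ^ 3 * h ^ (-α)) / ν * (M * E1)) =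
      C * h ^ (-α) * (M * E1) * ((z * c0 ^ 2 * h ^ 3) / ν) := by ring
    rw [e, ← hν, div_self hνp.ne', mul_one]
  have a2 : z ^ 2 / 2 * c0 ^ 4 * h ^ 5 * M * E1 * W1 η ν =
      ν / (2 * h) * (M * E1) * (ν * W1 η ν) := by
    have : ν / (2 * h) * (M * E1) * (ν * W1 η ν) = ν * ν / (2 * h) * (M * E1) * W1 η ν := by ring
    rw [this, hν]
    field_simp
  have a3 : (M : ℝ) * ZZ ≤ M * E1 ∧ (M : ℝ) * E1 ≤ M * ZZ / z1 := by
    rcases Nat.eq_zero_or_pos M with h0 | hM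
    · simp [h0]
    · have : ZZ = E1 * Z1 η ν := by
        rw [hZZ, hE1, mul_assoc, ← pow_succ, Nat.sub_add_cancel hM]
      have hMp : (0 : ℝ) < M := by exact_mod_cast hM
      constructor
      · rw [this]
        have : E1 * Z1 η ν ≤ E1 * 1 := mul_le_mul_of_nonneg_left h2 hE1p.le
        nlinarith
      · rw [le_div_iff₀ hz1, this]
        have : E1 * z1 ≤ E1 * Z1 η ν := mul_le_mul_of_nonneg_left h1 hE1p.le
        nlinarith
  have a4 : w1 ≤ ν * W1 η ν := by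
    rw [div_le_iff₀ hνp] at h3; linarith
  have hM0 : (0 : ℝ) ≤ M := by positivity
  have hhα : 0 < h ^ (-α) := by positivity
  have b1 : C * h ^ (-α) * (M * E1) ≤ C * h ^ (-α) * (M * ZZ / z1) :=
    mul_le_mul_of_nonneg_left a3.2 (by positivity)
  have b2 : ν / (2 * h) * (M * ZZ) * w1 ≤ ν / (2 * h) * (M * E1) * (ν * W1 η ν) := by
    apply mul_le_mul _ a4 hw1.le (by positivity)
    exact mul_le_mul_of_nonneg_left a3.1 (by positivity)
  have b3 : ZZ * (2 * z * k1 α f + C / z1 * M * h ^ (-α) - w1 / 2 * (ν / h) * M) =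
      z * (2 * k1 α f * ZZ) + C * h ^ (-α) * (M * ZZ / z1) - ν / (2 * h) * (M * ZZ) * w1 := by
    field_simp
  rw [b3, a2]
  have b4 : z * (2 * k1 α f * ZZ + C * c0 ^ 2 * h ^ (3 - α) / ν * (M * E1)) =
      z * (2 * k1 α f * ZZ) + C * h ^ (-α) * (M * E1) := by
    rw [mul_add, a1]
  linarith

/-- elementary tail bound -/
theorem tail_bound (γ : ℝ) : ∃ T : ℝ, 0 < T ∧ ∀ N : ℕ, ∀ z : ℝ, 0 < z → z = (N : ℝ) / 8 →
    ∀ g : ℕ → ℝ, (∀ n, 0 ≤ g n) → (∀ n, n ≤ N → g n = 0) → (∀ n, g n ≤ (n : ℝ) ^ γ) →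
    ∃ S : ℝ, HasSum (fun n : ℕ => z ^ n / (n.factorial : ℝ) * g n) S ∧ S ≤ T := by
  -- n ^ γ ≤ Cγ 2 ^ n
  obtain ⟨D, hD0, hD⟩ : ∃ D : ℝ, 0 < D ∧ ∀ n : ℕ, 1 ≤ n → (n : ℝ) ^ γ ≤ D * 2 ^ n := by
    have ht : Tendsto (fun x : ℝ => x ^ γ * Real.exp (-(Real.log 2) * x)) atTop (𝓝 0) :=
      tendsto_rpow_mul_exp_neg_mul_atTop_nhds_zero γ (Real.log 2) (Real.log_pos (by norm_num))
    have ht2 := ht.comp tendsto_natCast_atTop_atTop (α := ℕ)
    obtain ⟨D, hD⟩ := ht2.bddAbove_range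
    refine ⟨max D 1, by positivity, fun n _ => ?_⟩
    have := hD ⟨n, rfl⟩
    simp only [Function.comp] at this
    have e : Real.exp (-(Real.log 2) * (n : ℝ)) = (2 ^ n)⁻¹ := by
      rw [neg_mul, Real.exp_neg, mul_comm, Real.exp_nat_mul, Real.exp_log (by norm_num)]
    rw [e] at this
    have h2 : (0 : ℝ) < 2 ^ n := by positivity
    rw [← div_eq_mul_inv, div_le_iff₀ h2] at this
    exact this.trans (mul_le_mul_of_nonneg_right (le_max_left _ _) h2.le)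
  refine ⟨D * 4, by positivity, fun N z hz hzN g hg0 hgN hg => ?_⟩
  have key : ∀ n : ℕ, z ^ n / (n.factorial : ℝ) * g n ≤ D * (3 / 4) ^ n := by
    intro n
    rcases le_or_gt n N with hn | hn
    · rw [hgN n hn, mul_zero]; positivity
    · have hn1 : 1 ≤ n := by omega
      have h1 : (8 * z) ^ n / (n.factorial : ℝ) ≤ Real.exp (8 * z) :=
        Real.pow_div_factorial_le_exp (8 * z) (by positivity) n
      have h3 : Real.exp (8 * z) ≤ 3 ^ n := by
        have hN : 8 * z ≤ (n : ℝ) * 1 := by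
          have : (N : ℝ) ≤ n := by exact_mod_cast hn.le
          rw [hzN]; linarith
        refine (Real.exp_le_exp.2 hN).trans ?_
        rw [Real.exp_nat_mul]
        exact pow_le_pow_left₀ (Real.exp_pos 1).le Real.exp_one_lt_three.le n
      have h4 : z ^ n / (n.factorial : ℝ) ≤ (3 / 8) ^ n := by
        have e : z ^ n / (n.factorial : ℝ) = (8 * z) ^ n / (n.factorial : ℝ) / 8 ^ n := by
          rw [mul_pow]; field_simp
        rw [e, div_pow]
        exact div_le_div_of_nonneg_right (h1.trans h3) (by positivity)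
      calc z ^ n / (n.factorial : ℝ) * g n ≤ (3 / 8) ^ n * (D * 2 ^ n) :=
            mul_le_mul h4 ((hg n).trans (hD n hn1)) (hg0 n) (by positivity)
        _ = D * (3 / 4) ^ n := by
            rw [show (3 / 4 : ℝ) = 3 / 8 * 2 by norm_num, mul_pow]; ring
  have hgs : HasSum (fun n : ℕ => D * (3 / 4 : ℝ) ^ n) (D * 4) := by
    have := (hasSum_geometric_of_lt_one (r := (3 / 4 : ℝ)) (by norm_num) (by norm_num)).mul_left D
    norm_num at this
    exact this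
  have hs : Summable (fun n : ℕ => z ^ n / (n.factorial : ℝ) * g n) :=
    Summable.of_nonneg_of_le (fun n => mul_nonneg (by positivity) (hg0 n)) key hgs.summable
  refine ⟨_, hs.hasSum, ?_⟩
  rw [← hgs.tsum_eq]
  exact hs.tsum_le_tsum key hgs.summable

theorem key_ineq (α z R h c1 c3 K Ck z1 w1 c k M ν : ℝ) (hα : 1 < α) (hz : 0 < z) (hR : 0 < R)
    (hh : 0 < h) (hc1 : 0 < c1) (hCk : 0 < Ck) (hz1 : 0 < z1)
    (hw1 : 0 < w1) (hν : ν = z * (c1 * R ^ (-(3 / 2) : ℝ)) ^ 2 * h ^ 3) (hν1 : 1 ≤ ν)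
    (hν2 : ν = (4 * Ck / (z1 * w1)) * h ^ (1 - α))
    (hM1 : c3 * (R / h) ^ 3 ≤ M) (hk : k ≤ K * R ^ (-α))
    (hineq : 2 * K * R ^ (-α) - w1 * c1 ^ 2 * c3 / 4 / h ≤
      -(c * z ^ (α / ((α - 1) * (α + 3))))) :
    2 * z * k + Ck / z1 * M * h ^ (-α) - w1 / 2 * (ν / h) * M ≤
      -(c * z ^ ((α ^ 2 + 3 * α - 3) / ((α - 1) * (α + 3)))) := by
  have ha1 : 0 < α - 1 := by linarith
  have ha3 : 0 < α + 3 := by linarith
  have hγ1 : (α ^ 2 + 3 * α - 3) / ((α - 1) * (α + 3)) = 1 + α / ((α - 1) * (α + 3)) := by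
    field_simp; ring
  have hR3 : (R ^ (-(3 / 2) : ℝ)) ^ 2 = (R ^ 3)⁻¹ := by
    rw [← Real.rpow_natCast, ← Real.rpow_mul hR.le, ← Real.rpow_natCast, ← Real.rpow_neg hR.le]
    norm_num
  have hνh : w1 / 2 * (ν / h) * M = 2 * (Ck / z1 * (M * h ^ (-α))) := by
    have : h ^ (1 - α) = h * h ^ (-α) := by
      nth_rewrite 2 [← Real.rpow_one h]
      rw [← Real.rpow_add hh]; congr 1
    rw [hν2, this]; field_simp; norm_num
  have hM3 : (w1 * c1 ^ 2 * c3 / 4) / h * z ≤ Ck / z1 * (M * h ^ (-α)) := by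
    have hνp : 0 < ν := by linarith
    have hhα : 0 < h ^ (-α) := by positivity
    have e1 : (R / h) ^ 3 * ν = z * c1 ^ 2 := by
      rw [hν, mul_pow, hR3]; field_simp
    have e2 : Ck / z1 * h ^ (-α) * h = w1 / 4 * ν := by
      have : h ^ (1 - α) = h * h ^ (-α) := by
        nth_rewrite 2 [← Real.rpow_one h]
        rw [← Real.rpow_add hh]; congr 1
      rw [hν2, this]; field_simp
    have e3 : Ck / z1 * (c3 * (R / h) ^ 3 * h ^ (-α)) = (w1 * c1 ^ 2 * c3 / 4) / h * z := by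
      have e4 : Ck / z1 * h ^ (-α) = w1 / 4 * ν / h := by
        rw [eq_div_iff hh.ne']; exact e2
      calc Ck / z1 * (c3 * (R / h) ^ 3 * h ^ (-α)) = (Ck / z1 * h ^ (-α)) * (c3 * (R / h) ^ 3) := by
            ring
        _ = w1 / 4 * c3 / h * ((R / h) ^ 3 * ν) := by rw [e4]; ring
        _ = _ := by rw [e1]; ring
    rw [← e3]
    have : c3 * (R / h) ^ 3 * h ^ (-α) ≤ M * h ^ (-α) := mul_le_mul_of_nonneg_right hM1 hhα.le
    exact mul_le_mul_of_nonneg_left this (by positivity)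
  have hzγ : z ^ ((α ^ 2 + 3 * α - 3) / ((α - 1) * (α + 3))) =
      z * z ^ (α / ((α - 1) * (α + 3))) := by
    rw [hγ1, Real.rpow_add hz, Real.rpow_one]
  have hk' : 2 * z * k ≤ z * (2 * K * R ^ (-α)) := by
    have := mul_le_mul_of_nonneg_left hk (by positivity : 0 ≤ 2 * z)
    linarith
  have h5 := mul_le_mul_of_nonneg_left hineq hz.le
  rw [hνh, hzγ]
  have t1 : z * (2 * K * R ^ (-α) - w1 * c1 ^ 2 * c3 / 4 / h) =
    z * (2 * K * R ^ (-α)) - (w1 * c1 ^ 2 * c3 / 4) / h * z := by ring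
  rw [t1] at h5
  have t2 : Ck / z1 * M * h ^ (-α) = Ck / z1 * (M * h ^ (-α)) := by ring
  rw [t2]
  linarith

theorem ZZ_ge {z z1 K Z : ℝ} {M : ℕ} (hz1 : 0 < z1) (g1 : z1 ≤ Z) (g2 : Z ≤ 1)
    (hM : (M : ℝ) ≤ K) (hMz : -Real.log z1 * K ≤ z) : 1 ≤ Real.exp z * Z ^ M := by
  have e1 : z1 ^ M = Real.exp (M * Real.log z1) := by
    rw [Real.exp_nat_mul, Real.exp_log hz1]
  have e2 : Real.exp z * z1 ^ M ≤ Real.exp z * Z ^ M :=
    mul_le_mul_of_nonneg_left (pow_le_pow_left₀ hz1.le g1 M) (Real.exp_pos _).le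
  refine le_trans ?_ e2
  rw [e1, ← Real.exp_add]
  apply Real.one_le_exp
  have hL : 0 ≤ -Real.log z1 := by
    have : Real.log z1 ≤ 0 := Real.log_nonpos hz1.le (g1.trans g2)
    linarith
  have := mul_le_mul_of_nonneg_left hM hL
  linarith

theorem final_step {c z γ CL T S ZZ : ℝ} {N : ℕ} (kp zz : ℕ → ℝ) (e0 : ℕ → ℝ)
    (hz : 0 < z) (hzN : z = (N : ℝ) / 8) (hc : 0 < c) (hCL : 0 < CL)
    (htail : ∀ N : ℕ, ∀ z : ℝ, 0 < z → z = (N : ℝ) / 8 →
      ∀ g : ℕ → ℝ, (∀ n, 0 ≤ g n) → (∀ n, n ≤ N → g n = 0) → (∀ n, g n ≤ (n : ℝ) ^ γ) →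
      ∃ S : ℝ, HasSum (fun n : ℕ => z ^ n / (n.factorial : ℝ) * g n) S ∧ S ≤ T)
    (hS : HasSum (fun n : ℕ => z ^ n / (n.factorial : ℝ) * kp n) S)
    (hZ : HasSum (fun n : ℕ => z ^ n / (n.factorial : ℝ) * zz n) ZZ)
    (hSX : S ≤ -(ZZ * (c * z ^ γ))) (hZZ : 1 ≤ ZZ)
    (hzz0 : ∀ n, 0 ≤ zz n) (hzz1 : ∀ n, zz n ≤ 1) (hge : ∀ n, e0 n * zz n ≤ kp n)
    (hmono : Antitone e0) (hlow : ∀ n : ℕ, 1 ≤ n → -(CL * (n : ℝ) ^ γ) ≤ e0 n)
    (hbig : 2 * CL * T + 1 ≤ c * z ^ γ) : e0 N ≤ -(c * z ^ γ / 2) := by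
  by_contra hcon
  rw [not_le] at hcon
  obtain ⟨g, hgdef⟩ : ∃ g : ℕ → ℝ, g = fun n => if n ≤ N then 0 else (n : ℝ) ^ γ := ⟨_, rfl⟩
  obtain ⟨S2, hS2, hS2le⟩ := htail N z hz hzN g (fun n => by
      rw [hgdef]; dsimp only; split_ifs <;> positivity) (fun n hn => by
      rw [hgdef]; simp [hn]) (fun n => by
      rw [hgdef]; dsimp only; split_ifs <;> [positivity; exact le_refl _])
  have hterm : ∀ n : ℕ, -(c * z ^ γ / 2) * (z ^ n / (n.factorial : ℝ) * zz n) -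
      CL * (z ^ n / (n.factorial : ℝ) * g n) ≤ z ^ n / (n.factorial : ℝ) * kp n := by
    intro n
    have hw : 0 ≤ z ^ n / (n.factorial : ℝ) := by positivity
    have hX : 0 ≤ c * z ^ γ / 2 := by positivity
    have hmain : -(c * z ^ γ / 2) * zz n - CL * g n ≤ kp n := by
      refine le_trans ?_ (hge n)
      rcases le_or_gt n N with hn | hn
      · have h1 : e0 N ≤ e0 n := hmono hn
        have h2 : -(c * z ^ γ / 2) ≤ e0 n := by linarith
        have h3 := mul_le_mul_of_nonneg_right h2 (hzz0 n)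
        have : g n = 0 := by rw [hgdef]; simp [hn]
        rw [this]; linarith
      · have h1 := hlow n (by omega)
        have : g n = (n : ℝ) ^ γ := by
          rw [hgdef]; dsimp only; rw [if_neg (by omega)]
        rw [this]
        have h2 := mul_le_mul_of_nonneg_right h1 (hzz0 n)
        have h3 : 0 ≤ CL * (n : ℝ) ^ γ := by positivity
        have h4 : CL * (n : ℝ) ^ γ * zz n ≤ CL * (n : ℝ) ^ γ * 1 :=
          mul_le_mul_of_nonneg_left (hzz1 n) h3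
        have h5 : 0 ≤ (c * z ^ γ / 2) * zz n := mul_nonneg hX (hzz0 n)
        linarith
    have := mul_le_mul_of_nonneg_left hmain hw
    linarith
  have hlowS := (hZ.mul_left (-(c * z ^ γ / 2))).sub (hS2.mul_left CL)
  have hfin := hasSum_le hterm hlowS hS
  have h8 : CL * S2 ≤ CL * T := mul_le_mul_of_nonneg_left hS2le hCL.le
  have h9 : 0 < c * z ^ γ := by positivity
  have h10 : c * z ^ γ ≤ ZZ * (c * z ^ γ) := by
    have := mul_le_mul_of_nonneg_right hZZ h9.le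
    linarith
  linarith

/-- TARGET -/
theorem upper (α : ℝ) (hα : 1 < α) : ∃ (c : ℝ) (N0 : ℕ), 0 < c ∧ ∀ N : ℕ, N0 ≤ N →
      E0 α N ≤ -(c * (N : ℝ) ^ ((α ^ 2 + 3 * α - 3) / ((α - 1) * (α + 3)))) := by
  obtain ⟨CL, hCL, hlow⟩ := e0_ge α hα
  set γ : ℝ := (α ^ 2 + 3 * α - 3) / ((α - 1) * (α + 3)) with hγ
  have ha1 : 0 < α - 1 := by linarith
  have ha3 : 0 < α + 3 := by linarith
  have hγp : 0 < γ := by
    rw [hγ]; apply div_pos <;> nlinarith
  obtain ⟨η, hη⟩ := prof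
  obtain ⟨z1, w1, hz1, hw1, hcell⟩ := cell_est hη
  obtain ⟨Ck, hCk, hkin⟩ := kin_bound hη α (by linarith)
  obtain ⟨c1, c3, K, hc1, hc3, hK, hgeom⟩ := geom α (by linarith)
  obtain ⟨T, hT, htail⟩ := tail_bound γ
  obtain ⟨c, z0, hc, hz0, hpar⟩ := params α hα c1 c3 K (4 * Ck / (z1 * w1)) (w1 * c1 ^ 2 * c3 / 4)
    (-Real.log z1) hc1 hc3 hK (by positivity) (by positivity)
  -- choice of N0
  have hev : ∀ᶠ N : ℕ in atTop, z0 ≤ (N : ℝ) / 8 ∧
      2 * CL * T + 1 ≤ c * ((N : ℝ) / 8) ^ γ := by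
    have t1 : Tendsto (fun N : ℕ => (N : ℝ) / 8) atTop atTop :=
      tendsto_natCast_atTop_atTop.atTop_div_const (by norm_num)
    have t2 : Tendsto (fun N : ℕ => c * ((N : ℝ) / 8) ^ γ) atTop atTop :=
      ((tendsto_rpow_atTop hγp).comp t1).const_mul_atTop hc
    exact (t1.eventually (eventually_ge_atTop z0)).and (t2.eventually (eventually_ge_atTop _))
  obtain ⟨N0, hN0⟩ := eventually_atTop.1 hev
  refine ⟨c / 2 * (1 / 8) ^ γ, N0, by positivity, fun N hN => ?_⟩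
  obtain ⟨hzz, hbig⟩ := hN0 N hN
  obtain ⟨z, hz⟩ : ∃ z : ℝ, z = (N : ℝ) / 8 := ⟨_, rfl⟩
  rw [← hz] at hzz hbig
  have hzp : 0 < z := by linarith
  have hgoal : c / 2 * (1 / 8) ^ γ * (N : ℝ) ^ γ = c * z ^ γ / 2 := by
    rw [hz, show (N : ℝ) / 8 = 1 / 8 * N by ring, Real.mul_rpow (by norm_num) (by positivity)]
    ring
  rw [hgoal]
  obtain ⟨R, h, hR, hh, hhR, hν1, hν2, hMz, hineq⟩ := hpar z hzz
  obtain ⟨M, y, f, hcells, hM1, hM2, hk1⟩ := hgeom R h hR hh hhR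
  obtain ⟨ν, hν⟩ : ∃ ν : ℝ, ν = z * (c1 * R ^ (-(3 / 2) : ℝ)) ^ 2 * h ^ 3 := ⟨_, rfl⟩
  rw [← hν] at hν1 hν2
  have hνp : 0 < ν := by linarith
  obtain ⟨g1, g2, g3⟩ := hcell ν hν1
  obtain ⟨S, hS, hSle⟩ := energy_sum hη hcells α z ν Ck z1 w1 hzp hν hν1 hCk
    (hkin h _ f y hcells ν hν1) hz1 hw1 g1 g2 g3
  have hZs := (sumZ hη hcells z ν hzp hν).1
  have hZZ1 : 1 ≤ Real.exp z * Z1 η ν ^ M := ZZ_ge hz1 g1 g2 hM2 hMz
  have h6 := key_ineq α z R h c1 c3 K Ck z1 w1 c (k1 α f) M ν hα hzp hR hh hc1 hCk hz1 hw1 hν hν1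
    hν2 hM1 hk1 hineq
  have h7 := mul_le_mul_of_nonneg_left h6 (by linarith : 0 ≤ Real.exp z * Z1 η ν ^ M)
  refine final_step (N := N) (fun n => kn α ν f (md h η y) n + pn ν f (md h η y) n)
    (fun n => zn ν f (md h η y) n) (E0 α) hzp hz hc hCL htail hS hZs ?_ hZZ1
    (fun n => zn_nonneg _ _ _ _) (fun n => zn_le_one hcells ν hνp _)
    (fun n => energy_ge hη hcells α hα ν) (e0_anti α hα) hlow hbig
  refine hSle.trans (h7.trans (le_of_eq ?_))
  ring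

end Pool.Agent.Helper780_BE.V10
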